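import Pool.Agent.V11318.RCc

/-!
# Densities for `Bq`, assembled
-/

set_option autoImplicit false

namespace Pool.Agent.V11318.RC

open Finset Filter Pool.Agent.H38R2.CG Pool.Agent.H38R2.CG2 Pool.Agent.H38R2.CG3
open Pool.Agent.H38R2.CG.FINh Pool.Agent.Y892.UF
open scoped Classical

theorem MLOW_true : P2_MLOW :=
  T2_MLOW T2_SZ (T2_NB T_NB) T2_COMB T2_PAIR T2_WT (T2_V0 T2_WT) (T2_V1 T_PV T2_WT)

theorem AS4_true : P4_AS0 := T4_AS0 AS0_true MLOW_true T2_WT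

/-- all squarefree integers -/
theorem all_lim (a : ℝ) (ha : 2 < a) (t0 : ℝ) (ht0 : 0 < t0) (Exc : ℕ → Prop)
    (hE : ExcBd a t0 Exc) : Tendsto (fun X : ℕ =>
      (((Finset.Icc 2 X).filter (fun d => Squarefree d ∧ Exc d)).card : ℝ) / X) atTop (nhds 0) := by
  refine fin_all Exc ?_
  intro δ hδ
  obtain ⟨η, hη, hη1, X0, hX0⟩ := short_all T2_TRIV AS4_true a ha t0 ht0 δ hδ
  obtain ⟨X1, hX1⟩ := hE
  refine ⟨η, hη, hη1, max X0 X1, fun X hX => ?_⟩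
  refine le_trans ?_ (hX0 X (le_trans (le_max_left _ _) hX))
  have hsub : ((Finset.Ioc X ⌊(1 + η) * (X : ℝ)⌋₊).filter
        (fun D => ∃ d : ℕ, 1 < d ∧ Squarefree d ∧ Exc d ∧ D = Dof d)) ⊆
      (Finset.Ioc X ⌊(1 + η) * (X : ℝ)⌋₊).filter
        (fun D => IsFund D ∧ Bq a t0 X D) := by
    intro D hD
    rw [Finset.mem_filter] at hD ⊢
    obtain ⟨hD1, d, hd1, hds, hg, rfl⟩ := hD
    refine ⟨hD1, ?_⟩
    refine hX1 X (le_trans (le_max_right _ _) hX) d hd1 hds hg (Finset.mem_Ioc.1 hD1).1 ?_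
    have h1 := (Finset.mem_Ioc.1 hD1).2
    have h2 : ((⌊(1 + η) * (X : ℝ)⌋₊ : ℕ) : ℝ) ≤ (1 + η) * (X : ℝ) :=
      Nat.floor_le (by positivity)
    have h3 : (Dof d : ℝ) ≤ (⌊(1 + η) * (X : ℝ)⌋₊ : ℝ) := by exact_mod_cast h1
    have h5 : (Dof d : ℝ) ≤ 2 * (X : ℝ) := by
      have : (0 : ℝ) ≤ X := by positivity
      nlinarith
    exact_mod_cast h5
  exact_mod_cast Finset.card_le_card hsub

/-- all primes -/
theorem prime_lim4 (a : ℝ) (ha : 2 < a) (t0 : ℝ) (ht0 : 0 < t0) (Exc : ℕ → Prop)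
    (hE : ExcBd a t0 Exc) : Tendsto (fun X : ℕ =>
      (((Finset.Icc 2 X).filter (fun p => p.Prime ∧ Exc p)).card : ℝ) /
        (((Finset.Icc 2 X).filter Nat.Prime).card : ℝ)) atTop (nhds 0) := by
  refine fin_primes T_NB Exc ?_
  intro δ hδ
  obtain ⟨η, hη, hη1, X0, hX0⟩ := short_primes AS4_true BH_true T2_RC a ha t0 ht0 δ hδ
  obtain ⟨X1, hX1⟩ := hE
  refine ⟨η, hη, hη1, max X0 X1, fun X hX => ?_⟩
  refine le_trans ?_ (hX0 X (le_trans (le_max_left _ _) hX))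
  have hsub : ((Finset.Ioc X ⌊(1 + η) * (X : ℝ)⌋₊).filter
        (fun D => ∃ p : ℕ, p.Prime ∧ Exc p ∧ D = Dof p)) ⊆
      (Finset.Ioc X ⌊(1 + η) * (X : ℝ)⌋₊).filter
        (fun D => (∃ p : ℕ, p.Prime ∧ (D = p ∨ D = 4 * p)) ∧
          IsFund D ∧ Bq a t0 X D) := by
    intro D hD
    rw [Finset.mem_filter] at hD ⊢
    obtain ⟨hD1, p, hp, hg, rfl⟩ := hD
    refine ⟨hD1, ⟨p, hp, ?_⟩, ?_⟩
    · unfold Dof
      split_ifs <;> simp
    refine hX1 X (le_trans (le_max_right _ _) hX) p hp.one_lt hp.squarefree hg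
      (Finset.mem_Ioc.1 hD1).1 ?_
    have h1 := (Finset.mem_Ioc.1 hD1).2
    have h2 : ((⌊(1 + η) * (X : ℝ)⌋₊ : ℕ) : ℝ) ≤ (1 + η) * (X : ℝ) :=
      Nat.floor_le (by positivity)
    have h3 : (Dof p : ℝ) ≤ (⌊(1 + η) * (X : ℝ)⌋₊ : ℝ) := by exact_mod_cast h1
    have h5 : (Dof p : ℝ) ≤ 2 * (X : ℝ) := by
      have : (0 : ℝ) ≤ X := by positivity
      nlinarith
    exact_mod_cast h5
  exact_mod_cast Finset.card_le_card hsub

/-- products of two primes congruent to 3 mod 4 -/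
theorem semi_lim4 (a : ℝ) (ha : 2 < a) (t0 : ℝ) (ht0 : 0 < t0) (Exc : ℕ → Prop)
    (hE : ExcBd a t0 Exc) : Tendsto (fun X : ℕ =>
      (((Finset.Ioc 0 X).filter (fun D => Semi D ∧ Exc D)).card : ℝ) /
      (((Finset.Ioc 0 X).filter Semi).card : ℝ)) atTop (nhds 0) :=
  semi_tendsto BH_true T2_RC AS4_true a ha t0 ht0 Exc hE

/-- doubles of primes congruent to 3 mod 4 -/
theorem two_lim4 (a : ℝ) (ha : 2 < a) (t0 : ℝ) (ht0 : 0 < t0) (Exc : ℕ → Prop)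
    (hE : ExcBd a t0 Exc) : Tendsto (fun X : ℕ =>
      (((Finset.Ioc 0 X).filter (fun D => Two D ∧ Exc D)).card : ℝ) /
      (((Finset.Ioc 0 X).filter Two).card : ℝ)) atTop (nhds 0) :=
  two_tendsto BH_true T2_RC AS4_true a ha t0 ht0 Exc hE

/-- all primes, from 1 on -/
theorem prime_lim5 (a : ℝ) (ha : 2 < a) (t0 : ℝ) (ht0 : 0 < t0) (Exc : ℕ → Prop)
    (hE : ExcBd a t0 Exc) : Tendsto (fun X : ℕ =>
      (((Finset.Ioc 0 X).filter (fun D => D.Prime ∧ Exc D)).card : ℝ) /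
      (((Finset.Ioc 0 X).filter Nat.Prime).card : ℝ)) atTop (nhds 0) := by
  refine (prime_lim4 a ha t0 ht0 Exc hE).congr (fun X => ?_)
  have e1 : (Finset.Icc 2 X).filter (fun p => p.Prime ∧ Exc p) =
      (Finset.Ioc 0 X).filter (fun p => p.Prime ∧ Exc p) := by
    ext p
    rw [mem_filter, mem_filter, mem_Icc, mem_Ioc]
    constructor
    · rintro ⟨⟨-, h2⟩, h3, h4⟩
      exact ⟨⟨h3.pos, h2⟩, h3, h4⟩
    · rintro ⟨⟨-, h2⟩, h3, h4⟩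
      exact ⟨⟨h3.two_le, h2⟩, h3, h4⟩
  have e2 : (Finset.Icc 2 X).filter Nat.Prime = (Finset.Ioc 0 X).filter Nat.Prime := by
    ext p
    rw [mem_filter, mem_filter, mem_Icc, mem_Ioc]
    constructor
    · rintro ⟨⟨-, h2⟩, h3⟩
      exact ⟨⟨h3.pos, h2⟩, h3⟩
    · rintro ⟨⟨-, h2⟩, h3⟩
      exact ⟨⟨h3.two_le, h2⟩, h3⟩
  rw [e1, e2]

/-- the union -/
theorem cand_lim4 (a : ℝ) (ha : 2 < a) (t0 : ℝ) (ht0 : 0 < t0) (Exc : ℕ → Prop)
    (hE : ExcBd a t0 Exc) : Tendsto (fun X : ℕ => (((Finset.Ioc 0 X).filter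
      (fun D => (D.Prime ∨ Two D ∨ Semi D) ∧ Exc D)).card : ℝ) /
      (((Finset.Ioc 0 X).filter (fun D => D.Prime ∨ Two D ∨ Semi D)).card : ℝ)) atTop (nhds 0) := by
  have key := union_lim Nat.Prime Two Semi Exc
    (by convert prime_lim5 a ha t0 ht0 Exc hE) (by convert two_lim4 a ha t0 ht0 Exc hE)
    (by convert semi_lim4 a ha t0 ht0 Exc hE)
  convert key

end Pool.Agent.V11318.RC
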