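import Pool.Agent.V11318.RCd

/-!
# Few tiny primes in a subgroup of large index
-/

set_option autoImplicit false

namespace Pool.Agent.V11318.RB

open Finset NumberField
open scoped Classical
open Pool.Agent.Results.MP_321647_nt.ProductsInEveryClass

variable {K : Type} [Field K] [NumberField K]

lemma pow_self_le (k : ℕ) : (k : ℝ) ^ k ≤ 3 ^ k * k.factorial := by
  have h1 := Real.pow_div_factorial_le_exp (k : ℝ) (Nat.cast_nonneg k) k
  have h2 : Real.exp (k : ℝ) = Real.exp 1 ^ k := by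
    rw [← Real.exp_nat_mul, mul_one]
  have h3 : Real.exp 1 ^ k ≤ 3 ^ k := by
    apply pow_le_pow_left₀ (Real.exp_pos 1).le
    have := Real.exp_one_lt_d9
    linarith
  have hf : (0 : ℝ) < k.factorial := by exact_mod_cast Nat.factorial_pos k
  rw [div_le_iff₀ hf] at h1
  calc (k : ℝ) ^ k ≤ Real.exp k * k.factorial := h1
    _ ≤ 3 ^ k * k.factorial := by
      rw [h2]
      exact mul_le_mul_of_nonneg_right h3 hf.le

theorem inside_few (hK : Module.finrank ℚ K = 2) (y k : ℕ) (H : Subgroup (ClassGroup (𝓞 K)))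
    {δ : ℝ} (hδ : 0 < δ) (hδ1 : δ ≤ 1 / 100) (hT : 0 < total K y k)
    (h : |(inSubgroup K y k H : ℝ) / total K y k - 1 / H.index| ≤ δ / √(H.index : ℝ))
    (hc : Nat.card (ClassGroup (𝓞 K)) ≤ total K y k ^ 2) (hk : 1 ≤ k) (M : ℝ) (hM : 0 < M)
    (hj : M ^ k ≤ √(H.index : ℝ)) :
    ((tiny K y \ outside K y H).card : ℝ) ≤ 12 / M * (tiny K y).card := by
  obtain ⟨g, hg⟩ : ∃ g : ℕ, g = (tiny K y \ outside K y H).card := ⟨_, rfl⟩
  obtain ⟨n, hn⟩ : ∃ n : ℕ, n = (tiny K y).card := ⟨_, rfl⟩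
  obtain ⟨T, hTd⟩ : ∃ T : ℕ, T = total K y k := ⟨_, rfl⟩
  obtain ⟨S, hSd⟩ : ∃ S : ℕ, S = inSubgroup K y k H := ⟨_, rfl⟩
  have h1 : T ≤ 2 ^ k * n.choose k := by rw [hTd, hn]; exact total_le_choose hK y k
  have h2 : g.choose k ≤ S := by rw [hg, hSd]; exact choose_le_in y k H
  rw [← hg, ← hn]
  rw [← hTd] at hT h hc
  rw [← hSd] at h
  have hTR : (0 : ℝ) < T := by exact_mod_cast hT
  have hj0 : 0 < H.index := Nat.pos_of_ne_zero Subgroup.index_ne_zero_of_finite
  have hj1 : (1 : ℝ) ≤ H.index := by exact_mod_cast hj0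
  have hsj : (1 : ℝ) ≤ √(H.index : ℝ) := Real.one_le_sqrt.2 hj1
  have hsj0 : (0 : ℝ) < √(H.index : ℝ) := by linarith
  have hjh : H.index ≤ Nat.card (ClassGroup (𝓞 K)) :=
    Nat.le_of_dvd Nat.card_pos (Subgroup.index_dvd_card H)
  have hsT : √(H.index : ℝ) ≤ T := by
    rw [Real.sqrt_le_left hTR.le]
    exact_mod_cast hjh.trans hc
  have hMk : 0 < M ^ k := pow_pos hM k
  have hS : (S : ℝ) ≤ 2 / √(H.index : ℝ) * T := by
    have h3 := (abs_le.1 h).2
    have h4 : 1 / (H.index : ℝ) ≤ 1 / √(H.index : ℝ) := by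
      apply one_div_le_one_div_of_le hsj0
      rw [Real.sqrt_le_left (by linarith)]
      nlinarith
    have h5 : δ / √(H.index : ℝ) ≤ 1 / √(H.index : ℝ) :=
      div_le_div_of_nonneg_right (by linarith) hsj0.le
    have h6 : (S : ℝ) / T ≤ 2 / √(H.index : ℝ) := by
      have : 2 / √(H.index : ℝ) = 1 / √(H.index : ℝ) + 1 / √(H.index : ℝ) := by ring
      linarith
    rwa [div_le_iff₀ hTR] at h6
  have hkf : (0 : ℝ) < k.factorial := by exact_mod_cast Nat.factorial_pos k
  have hnk : (k.factorial : ℝ) * (n.choose k : ℝ) ≤ (n : ℝ) ^ k := by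
    have := Nat.descFactorial_le_pow n k
    rw [Nat.descFactorial_eq_factorial_mul_choose] at this
    exact_mod_cast this
  have h1R : (T : ℝ) ≤ 2 ^ k * (n.choose k : ℝ) := by exact_mod_cast h1
  have hkT : (k.factorial : ℝ) * T ≤ 2 ^ k * (n : ℝ) ^ k := by
    calc (k.factorial : ℝ) * T ≤ k.factorial * (2 ^ k * (n.choose k : ℝ)) :=
          mul_le_mul_of_nonneg_left h1R hkf.le
      _ = 2 ^ k * (k.factorial * (n.choose k : ℝ)) := by ring
      _ ≤ 2 ^ k * (n : ℝ) ^ k := mul_le_mul_of_nonneg_left hnk (by positivity)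
  have hn0 : (0 : ℝ) ≤ n := Nat.cast_nonneg n
  have hk0 : k ≠ 0 := by omega
  have e12 : 12 / M * (n : ℝ) = 12 * n / M := by ring
  rw [e12, le_div_iff₀ hM]
  rcases le_or_gt (2 * k) g with hcase | hcase
  · have h3 : ((g : ℝ) / 2) ^ k ≤ (4 * n / M) ^ k := by
      have h4 : (g : ℝ) / 2 ≤ ((g + 1 - k : ℕ) : ℝ) := by
        rw [Nat.cast_sub (by omega)]
        push_cast
        have : (2 : ℝ) * k ≤ g := by exact_mod_cast hcase
        linarith
      have h5 : ((g : ℝ) / 2) ^ k ≤ (g.descFactorial k : ℝ) := by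
        calc ((g : ℝ) / 2) ^ k ≤ ((g + 1 - k : ℕ) : ℝ) ^ k :=
              pow_le_pow_left₀ (by positivity) h4 k
          _ ≤ _ := by exact_mod_cast Nat.pow_sub_le_descFactorial g k
      rw [Nat.descFactorial_eq_factorial_mul_choose] at h5
      push_cast at h5
      calc ((g : ℝ) / 2) ^ k ≤ k.factorial * (g.choose k : ℝ) := h5
        _ ≤ k.factorial * (S : ℝ) := mul_le_mul_of_nonneg_left (by exact_mod_cast h2) hkf.le
        _ ≤ k.factorial * (2 / √(H.index : ℝ) * T) := mul_le_mul_of_nonneg_left hS hkf.le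
        _ = 2 / √(H.index : ℝ) * (k.factorial * T) := by ring
        _ ≤ 2 / √(H.index : ℝ) * (2 ^ k * (n : ℝ) ^ k) :=
            mul_le_mul_of_nonneg_left hkT (by positivity)
        _ ≤ 2 / M ^ k * (2 ^ k * (n : ℝ) ^ k) := by
            apply mul_le_mul_of_nonneg_right _ (by positivity)
            exact div_le_div_of_nonneg_left (by norm_num) hMk hj
        _ ≤ 2 ^ k / M ^ k * (2 ^ k * (n : ℝ) ^ k) := by
            apply mul_le_mul_of_nonneg_right _ (by positivity)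
            apply div_le_div_of_nonneg_right _ hMk.le
            calc (2 : ℝ) = 2 ^ 1 := by norm_num
              _ ≤ 2 ^ k := pow_le_pow_right₀ (by norm_num) hk
        _ = (4 * n / M) ^ k := by
            rw [div_pow, mul_pow]
            have : (4 : ℝ) ^ k = 2 ^ k * 2 ^ k := by rw [← mul_pow]; norm_num
            rw [this]
            ring
    have h6 : (g : ℝ) / 2 ≤ 4 * n / M :=
      le_of_pow_le_pow_left₀ hk0 (by positivity) h3
    rw [le_div_iff₀ hM] at h6
    nlinarith [mul_nonneg (Nat.cast_nonneg (α := ℝ) n) hM.le]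
  · have h3 : ((k : ℝ) * M) ^ k ≤ (6 * n) ^ k := by
      calc ((k : ℝ) * M) ^ k = (k : ℝ) ^ k * M ^ k := mul_pow _ _ _
        _ ≤ (3 ^ k * k.factorial) * T := by
            apply mul_le_mul (pow_self_le k) (hj.trans hsT) hMk.le (by positivity)
        _ = 3 ^ k * (k.factorial * T) := by ring
        _ ≤ 3 ^ k * (2 ^ k * (n : ℝ) ^ k) := mul_le_mul_of_nonneg_left hkT (by positivity)
        _ = (6 * n) ^ k := by
            rw [mul_pow]
            have : (6 : ℝ) ^ k = 3 ^ k * 2 ^ k := by rw [← mul_pow]; norm_num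
            rw [this]
            ring
    have h6 : (k : ℝ) * M ≤ 6 * n := le_of_pow_le_pow_left₀ hk0 (by positivity) h3
    have h7 : (g : ℝ) ≤ 2 * k := by exact_mod_cast hcase.le
    nlinarith

/-- the size of a power of `log d` -/
lemma log_pow_le {d k : ℕ} (hd : 1 < d) (hk : 1 ≤ k)
    (h : 2 * (k : ℝ) ≤ Real.log d / Real.log (Real.log d)) (c : ℝ) (hc : 0 < c) (j : ℝ)
    (hj : (d : ℝ) ^ c ≤ j) : 0 < Real.log d ∧ ((Real.log d) ^ c) ^ k ≤ √j := by
  have hd1 : (1 : ℝ) < d := by exact_mod_cast hd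
  have hl : 0 < Real.log d := Real.log_pos hd1
  have hk1 : (1 : ℝ) ≤ k := by exact_mod_cast hk
  have hll : 0 < Real.log (Real.log d) := by
    by_contra hneg
    rw [not_lt] at hneg
    have := div_nonpos_of_nonneg_of_nonpos hl.le hneg
    linarith
  refine ⟨hl, ?_⟩
  rw [le_div_iff₀ hll] at h
  apply Real.le_sqrt_of_sq_le
  refine le_trans ?_ hj
  rw [← pow_mul, ← Real.rpow_natCast, ← Real.rpow_mul hl.le, Real.rpow_def_of_pos hl,
    Real.rpow_def_of_pos (by linarith)]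
  apply Real.exp_le_exp.2
  push_cast
  nlinarith

end Pool.Agent.V11318.RB
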