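import Pool.Agent.V11318.RDa
import Pool.Agent.V11318.RCe
import Pool.Agent.Y892.UF.W8

/-!
# Regulator and class number of typical discriminants
-/

set_option autoImplicit false

namespace Pool.Agent.V11318.RD

open Finset Filter NumberField Pool.Agent.H38R2.CG Pool.Agent.H38R2.CG2 Pool.Agent.H38R2.CG3
open Pool.Agent.Y892.UF
open scoped Classical

theorem NF_true : P_NF :=
  T_NF T_N0 (T_N0e T_N0d) (T_N1 (T_SPL T_N0)) N3_true
    (T_N5 N3_true N4_true (T_N5a T_KF) (T_N5b T_KF N4_true)) (T_N6 T_KF)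

/-- class number formula, as an inequality -/
theorem cnf (K : Type) [Field K] [NumberField K] (D : ℕ) (hD : IsFund D)
    (h2 : Module.finrank ℚ K = 2) (hK : NumberField.discr K = (D : ℤ)) :
    Lone D * √(D : ℝ) ≤ 7 * (NumberField.Units.regulator K * NumberField.classNumber K) := by
  obtain ⟨hL0, hlim, -⟩ := N3_true K D hD h2 hK
  have h1 := (NumberField.Ideal.tendsto_norm_le_div_atTop₀ K).comp
    (tendsto_natCast_atTop_atTop (R := ℝ))
  have h3 : (fun N : ℕ => (Nat.card {I : nonZeroDivisors (Ideal (𝓞 K)) //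
      Ideal.absNorm (I : Ideal (𝓞 K)) ≤ N} : ℝ) / N) =
      (fun s : ℝ => (Nat.card {I : nonZeroDivisors (Ideal (𝓞 K)) //
        (Ideal.absNorm (I : Ideal (𝓞 K)) : ℝ) ≤ s} : ℝ) / s) ∘ (fun N : ℕ => (N : ℝ)) := by
    funext N
    simp only [Function.comp, Nat.cast_le]
  rw [h3] at hlim
  have h4 := tendsto_nhds_unique hlim h1
  have hD0 : (0 : ℝ) < D := by
    have := hD.1
    exact_mod_cast (by omega : 0 < D)
  have hsD : 0 < √(D : ℝ) := Real.sqrt_pos.2 hD0
  have habs : √((|NumberField.discr K| : ℤ) : ℝ) = √(D : ℝ) := by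
    rw [hK]
    simp
  have hw : (1 : ℝ) ≤ NumberField.Units.torsionOrder K := by
    have := NumberField.Units.torsionOrder_ne_zero K
    exact_mod_cast Nat.one_le_iff_ne_zero.2 this
  have hr := NumberField.InfinitePlace.card_add_two_mul_card_eq_rank K
  rw [h2] at hr
  have hRh : 0 ≤ NumberField.Units.regulator K * (NumberField.classNumber K : ℝ) :=
    mul_nonneg (NumberField.Units.regulator_pos K).le (Nat.cast_nonneg _)
  have h5 : (2 : ℝ) ^ NumberField.InfinitePlace.nrRealPlaces K *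
      (2 * Real.pi) ^ NumberField.InfinitePlace.nrComplexPlaces K ≤ 7 := by
    have hpi := Real.pi_lt_d2
    have hcase : (NumberField.InfinitePlace.nrRealPlaces K = 2 ∧
        NumberField.InfinitePlace.nrComplexPlaces K = 0) ∨
        (NumberField.InfinitePlace.nrRealPlaces K = 0 ∧
        NumberField.InfinitePlace.nrComplexPlaces K = 1) := by omega
    rcases hcase with ⟨h6, h7⟩ | ⟨h6, h7⟩
    · rw [h6, h7]
      norm_num
    · rw [h6, h7, pow_zero, pow_one, one_mul]
      linarith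
  have h6 : Lone D * (NumberField.Units.torsionOrder K * √(D : ℝ)) =
      (2 : ℝ) ^ NumberField.InfinitePlace.nrRealPlaces K *
      (2 * Real.pi) ^ NumberField.InfinitePlace.nrComplexPlaces K *
        (NumberField.Units.regulator K * NumberField.classNumber K) := by
    have h7 : Lone D = 2 ^ NumberField.InfinitePlace.nrRealPlaces K *
        (2 * Real.pi) ^ NumberField.InfinitePlace.nrComplexPlaces K *
        NumberField.Units.regulator K * NumberField.classNumber K /
        (NumberField.Units.torsionOrder K * √(D : ℝ)) := by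
      rw [← habs]
      convert h4 using 3
      all_goals simp
    rw [h7]
    field_simp
  calc Lone D * √(D : ℝ) = Lone D * (1 * √(D : ℝ)) := by ring
    _ ≤ Lone D * (NumberField.Units.torsionOrder K * √(D : ℝ)) := by
        apply mul_le_mul_of_nonneg_left _ hL0
        exact mul_le_mul_of_nonneg_right hw hsD.le
    _ = _ := h6
    _ ≤ 7 * (NumberField.Units.regulator K * NumberField.classNumber K) :=
        mul_le_mul_of_nonneg_right h5 hRh

/-- a lower bound for the residue -/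
theorem lone_ge (a t0 : ℝ) (X D : ℕ) (hX : 3 ≤ X) (hy : 2 ≤ yA a X) (hN : 0 < NA a X) (hD : IsFund D)
    (hb : ¬ Br a t0 X D) : √(X : ℝ) ≤ 8 * Real.log X * (Lone D * √(D : ℝ)) := by
  have h1 : 1 / 2 * NA a X ≤ MD D (SA a X) (fun _ => 1) := by
    by_contra hlt
    rw [not_le] at hlt
    exact hb (Or.inl (Or.inr hlt))
  have h2 : SD D (SA a X) (fun _ => 1) ≤ Real.log X * (NA a X) ^ 2 / √(X : ℝ) := by
    by_contra hlt
    rw [not_le] at hlt
    exact hb (Or.inr hlt)
  obtain ⟨hL0, hin, -⟩ := NF_true D hD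
  have h3 := hin (SA a X) (fun _ => 1) (by
    intro s hs
    refine ⟨zero_le_one, fun p hp => ?_⟩
    have hs' := (mem_powersetCard.1 hs).1 hp
    simp only [PA, PP, mem_filter, mem_Ioc] at hs'
    exact ⟨hs'.2, by omega⟩)
  have hXr : (3 : ℝ) ≤ X := by exact_mod_cast hX
  have hsX : 0 < √(X : ℝ) := Real.sqrt_pos.2 (by linarith)
  obtain ⟨N, hNd⟩ : ∃ N : ℝ, N = NA a X := ⟨_, rfl⟩
  rw [← hNd] at h1 h2 hN
  obtain ⟨L, hLd⟩ : ∃ L : ℝ, L = Lone D * √(D : ℝ) := ⟨_, rfl⟩
  have hLL : 0 ≤ L := by rw [hLd]; exact mul_nonneg hL0 (Real.sqrt_nonneg _)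
  have h4 : (1 / 2 * N) ^ 2 ≤ 2 * L * (Real.log X * N ^ 2 / √(X : ℝ)) := by
    calc (1 / 2 * N) ^ 2 ≤ (MD D (SA a X) (fun _ => 1)) ^ 2 :=
          pow_le_pow_left₀ (by positivity) h1 2
      _ ≤ 2 * √(D : ℝ) * Lone D * SD D (SA a X) (fun _ => 1) := h3
      _ = 2 * L * SD D (SA a X) (fun _ => 1) := by rw [hLd]; ring
      _ ≤ 2 * L * (Real.log X * N ^ 2 / √(X : ℝ)) := mul_le_mul_of_nonneg_left h2 (by positivity)
  rw [← mul_div_assoc, le_div_iff₀ hsX] at h4
  rw [← hLd]
  have hN2 : 0 < N ^ 2 := by positivity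
  have h5 : N ^ 2 * √(X : ℝ) ≤ N ^ 2 * (8 * Real.log X * L) := by nlinarith
  exact le_of_mul_le_mul_left h5 hN2

end Pool.Agent.V11318.RD
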