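import Mathlib

/-!
# Density one for subsets of sparse sets
-/

set_option autoImplicit false

namespace Pool.Agent.V11318.SP

open Filter Finset
open scoped Classical

theorem count_atTop (F : ℕ → Prop) (hF : ∀ n, ∃ d > n, F d) :
    Tendsto (fun X : ℕ => (((Finset.Icc 1 X).filter F).card : ℝ)) atTop atTop := by
  refine tendsto_natCast_atTop_atTop.comp ?_
  refine tendsto_atTop_atTop_of_monotone ?_ ?_
  · intro X Y h
    exact card_le_card (filter_subset_filter _ (Finset.Icc_subset_Icc_right h))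
  · intro k
    induction k with
    | zero => exact ⟨0, Nat.zero_le _⟩
    | succ k ih =>
      obtain ⟨X, hX⟩ := ih
      obtain ⟨d, hd, hFd⟩ := hF X
      refine ⟨d, ?_⟩
      have h1 : (Finset.Icc 1 X).filter F ⊂ (Finset.Icc 1 d).filter F := by
        refine Finset.ssubset_iff_of_subset
          (filter_subset_filter _ (Finset.Icc_subset_Icc_right hd.le)) |>.2 ⟨d, ?_, ?_⟩
        · rw [mem_filter, Finset.mem_Icc]
          exact ⟨⟨by omega, le_refl _⟩, hFd⟩
        · rw [mem_filter, Finset.mem_Icc]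
          rintro ⟨⟨-, h⟩, -⟩
          omega
      have h3 := card_lt_card h1
      omega

/-- passing to a property which holds for the large members -/
theorem almost_of_large (F G G' : ℕ → Prop) (hF : ∀ n, ∃ d > n, F d)
    (h : Tendsto (fun X : ℕ => (((Finset.Icc 1 X).filter (fun d => F d ∧ ¬ G d)).card : ℝ) /
      (((Finset.Icc 1 X).filter F).card : ℝ)) atTop (nhds 0))
    (d0 : ℕ) (hG : ∀ d, d0 ≤ d → F d → G d → G' d) :
    Tendsto (fun X : ℕ => (((Finset.Icc 1 X).filter (fun d => F d ∧ ¬ G' d)).card : ℝ) /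
      (((Finset.Icc 1 X).filter F).card : ℝ)) atTop (nhds 0) := by
  have h1 : Tendsto (fun X : ℕ => (d0 : ℝ) / (((Finset.Icc 1 X).filter F).card : ℝ)) atTop (nhds 0) :=
    tendsto_const_nhds.div_atTop (count_atTop F hF)
  have h2 := h.add h1
  rw [add_zero] at h2
  refine squeeze_zero (fun X => by positivity) (fun X => ?_) h2
  rw [← add_div]
  refine div_le_div_of_nonneg_right ?_ (Nat.cast_nonneg _)
  have h3 : (Finset.Icc 1 X).filter (fun d => F d ∧ ¬ G' d) ⊆
      (Finset.Icc 1 X).filter (fun d => F d ∧ ¬ G d) ∪ Finset.range d0 := by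
    intro d hd
    rw [mem_filter] at hd
    rw [mem_union, mem_filter, mem_range]
    by_cases hdd : d0 ≤ d
    · left
      exact ⟨hd.1, hd.2.1, fun hg => hd.2.2 (hG d hdd hd.2.1 hg)⟩
    · right
      omega
  have h4 := (card_le_card h3).trans (card_union_le _ _)
  rw [card_range] at h4
  exact_mod_cast h4

/-- the same for the squarefree integers and the denominator `X` -/
theorem almost_sqfree (G G' : ℕ → Prop)
    (h : Tendsto (fun X : ℕ => (((Finset.Icc 2 X).filter (fun d => Squarefree d ∧ ¬ G d)).card : ℝ) / X)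
      atTop (nhds 0))
    (d0 : ℕ) (hG : ∀ d, d0 ≤ d → 2 ≤ d → Squarefree d → G d → G' d) :
    Tendsto (fun X : ℕ => (((Finset.Icc 2 X).filter (fun d => Squarefree d ∧ ¬ G' d)).card : ℝ) / X)
      atTop (nhds 0) := by
  have h1 : Tendsto (fun X : ℕ => (d0 : ℝ) / (X : ℝ)) atTop (nhds 0) :=
    tendsto_const_nhds.div_atTop tendsto_natCast_atTop_atTop
  have h2 := h.add h1
  rw [add_zero] at h2
  refine squeeze_zero (fun X => by positivity) (fun X => ?_) h2
  rw [← add_div]
  refine div_le_div_of_nonneg_right ?_ (Nat.cast_nonneg _)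
  have h3 : (Finset.Icc 2 X).filter (fun d => Squarefree d ∧ ¬ G' d) ⊆
      (Finset.Icc 2 X).filter (fun d => Squarefree d ∧ ¬ G d) ∪ Finset.range d0 := by
    intro d hd
    rw [mem_filter, Finset.mem_Icc] at hd
    rw [mem_union, mem_filter, mem_range, Finset.mem_Icc]
    by_cases hdd : d0 ≤ d
    · left
      exact ⟨hd.1, hd.2.1, fun hg => hd.2.2 (hG d hdd hd.1.1 hd.2.1 hg)⟩
    · right
      omega
  have h4 := (card_le_card h3).trans (card_union_le _ _)
  rw [card_range] at h4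
  exact_mod_cast h4

/-- the same for the primes up to `X` -/
theorem almost_primes (G G' : ℕ → Prop)
    (h : Tendsto (fun X : ℕ => (Nat.card {p : ℕ // p ≤ X ∧ p.Prime ∧ ¬ G p} : ℝ) /
      (Nat.card {p : ℕ // p ≤ X ∧ p.Prime} : ℝ)) atTop (nhds 0))
    (d0 : ℕ) (hG : ∀ d, d0 ≤ d → d.Prime → G d → G' d) :
    Tendsto (fun X : ℕ => (Nat.card {p : ℕ // p ≤ X ∧ p.Prime ∧ ¬ G' p} : ℝ) /
      (Nat.card {p : ℕ // p ≤ X ∧ p.Prime} : ℝ)) atTop (nhds 0) := by
  have e1 : ∀ (G : ℕ → Prop) (X : ℕ), Nat.card {p : ℕ // p ≤ X ∧ p.Prime ∧ ¬ G p} =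
      ((Finset.Icc 1 X).filter (fun p => p.Prime ∧ ¬ G p)).card := by
    intro G X
    refine Nat.subtype_card _ fun p => ?_
    rw [mem_filter, Finset.mem_Icc]
    exact ⟨fun h => ⟨h.1.2, h.2⟩, fun h => ⟨⟨h.2.1.one_le, h.1⟩, h.2⟩⟩
  have e2 : ∀ X : ℕ, Nat.card {p : ℕ // p ≤ X ∧ p.Prime} =
      ((Finset.Icc 1 X).filter Nat.Prime).card := by
    intro X
    refine Nat.subtype_card _ fun p => ?_
    rw [mem_filter, Finset.mem_Icc]
    exact ⟨fun h => ⟨h.1.2, h.2⟩, fun h => ⟨⟨h.2.one_le, h.1⟩, h.2⟩⟩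
  have h1 : Tendsto (fun X : ℕ => (((Finset.Icc 1 X).filter (fun d => d.Prime ∧ ¬ G d)).card : ℝ) /
      (((Finset.Icc 1 X).filter Nat.Prime).card : ℝ)) atTop (nhds 0) := by
    refine h.congr fun X => ?_
    rw [e1, e2]
  have h2 := almost_of_large Nat.Prime G G' (fun n => by
    obtain ⟨p, hp, hpp⟩ := Nat.exists_infinite_primes (n + 1)
    exact ⟨p, hp, hpp⟩) (by convert h1) d0 hG
  refine h2.congr fun X => ?_
  rw [e1, e2]
  congr!

/-- there are arbitrarily large primes `3 mod 4` -/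
theorem prime_three (n : ℕ) : ∃ p > n, p.Prime ∧ p % 4 = 3 := by
  have hu : IsUnit (3 : ZMod 4) := by decide
  obtain ⟨p, hp, hpp, hp3⟩ := Nat.forall_exists_prime_gt_and_eq_mod hu n
  refine ⟨p, hp, hpp, ?_⟩
  have h1 : ((p : ℕ) : ZMod 4) = ((3 : ℕ) : ZMod 4) := by
    rw [hp3]
    rfl
  have h2 := (ZMod.natCast_eq_natCast_iff' p 3 4).1 h1
  omega

end Pool.Agent.V11318.SP
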