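import Pool.Agent.V11318.SPun

/-!
# Short presentations: the numerical part and the assembly
-/

set_option autoImplicit false

namespace Pool.Agent.V11318.SP

open NumberField IsDedekindDomain Pool.Agent.H951R5.AR Filter
open scoped nonZeroDivisors

/-- With `B = (log d)^b` and `n = log d / log log d`: at most `(log d)^a` small elements, quotients of
explicitly bounded integers, generate the group of the `B`-units, and unique factorisation holds if and
only if the products of powers of these few elements generate all prime ideals of norm at most `B`. -/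
def FewRelations (a b : ℝ) (d : ℕ) : Prop :=
  ∀ (K : Type) [Field K] [NumberField K], Module.finrank ℚ K = 2 →
    ∀ s : K, s ^ 2 = (d : K) → ∀ σ τ : K →+* ℝ, σ ≠ τ →
    ∃ X : Finset Kˣ, (X.card : ℝ) ≤ (Real.log d) ^ a ∧
      (∀ x ∈ X, x ∈ Gen K σ τ ((Real.log d) ^ b) (1 + Real.log d / Real.log (Real.log d))) ∧
      (∀ x ∈ X, ∃ u v w : ℤ, w ≠ 0 ∧ (w : K) * (x : K) = (u : K) + (v : K) * s ∧
        |(u : ℝ)| ≤ (d : ℝ) ^ (b + 2) ∧ |(v : ℝ)| ≤ (d : ℝ) ^ (b + 2) ∧
        |(w : ℝ)| ≤ (d : ℝ) ^ (b + 2)) ∧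
      (∀ u : Kˣ, u ∈ Subgroup.closure (X : Set Kˣ) ↔ u ∈ SUnit K ((Real.log d) ^ b)) ∧
      (UniqueFactorizationMonoid (𝓞 K) ↔
        ∀ P : Ideal (𝓞 K), P.IsPrime → P ≠ ⊥ → ((Ideal.absNorm P : ℕ) : ℝ) ≤ (Real.log d) ^ b →
          ∃ x ∈ Subgroup.closure (X : Set Kˣ),
            FractionalIdeal.spanSingleton (nonZeroDivisors (𝓞 K)) ((x : Kˣ) : K) =
              (P : FractionalIdeal (nonZeroDivisors (𝓞 K)) K))

section sunit

variable {K : Type} [Field K] [NumberField K]

theorem smallProd_mul {B m n : ℝ} {A A' : Ideal (𝓞 K)} (h : SmallProd K B m A)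
    (h' : SmallProd K B n A') : SmallProd K B (m + n) (A * A') := by
  obtain ⟨L, h1, h2, rfl⟩ := h
  obtain ⟨L', h1', h2', rfl⟩ := h'
  refine ⟨L + L', ?_, ?_, by rw [Multiset.prod_add]⟩
  · intro P hP
    rcases Multiset.mem_add.1 hP with hP | hP
    · exact h1 P hP
    · exact h1' P hP
  · rw [Multiset.card_add]
    push_cast
    linarith

theorem sunit_of_closure {σ τ : K →+* ℝ} {B n : ℝ} {u : Kˣ}
    (hu : u ∈ Subgroup.closure (Gen K σ τ B n)) : u ∈ SUnit K B := by
  induction hu using Subgroup.closure_induction with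
  | mem x hx =>
    obtain ⟨⟨A, A', hA, hA', h⟩, -⟩ := hx
    exact ⟨n, A, A', hA, hA', h⟩
  | one =>
    refine ⟨0, ⊤, ⊤, ⟨0, ?_, ?_, ?_⟩, ⟨0, ?_, ?_, ?_⟩, ?_⟩
    · intro P hP
      simp at hP
    · simp
    · rw [Multiset.prod_zero, Ideal.one_eq_top]
    · intro P hP
      simp at hP
    · simp
    · rw [Multiset.prod_zero, Ideal.one_eq_top]
    · rw [Units.val_one, FractionalIdeal.spanSingleton_one, one_mul]
  | mul x y _ _ hx hy =>
    obtain ⟨m, A, A', hA, hA', h⟩ := hx
    obtain ⟨m', C, C', hC, hC', h'⟩ := hy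
    refine ⟨m + m', A * C, A' * C', smallProd_mul hA hC, smallProd_mul hA' hC', ?_⟩
    rw [Units.val_mul, ← FractionalIdeal.spanSingleton_mul_spanSingleton,
      FractionalIdeal.coeIdeal_mul, FractionalIdeal.coeIdeal_mul, ← h, ← h']
    ring
  | inv x _ hx =>
    obtain ⟨m, A, A', hA, hA', h⟩ := hx
    refine ⟨m, A', A, hA', hA, ?_⟩
    rw [← h, ← mul_assoc, FractionalIdeal.spanSingleton_mul_spanSingleton, ← Units.val_mul,
      inv_mul_cancel, Units.val_one, FractionalIdeal.spanSingleton_one, one_mul]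

end sunit

/-- the bound for the number of generators -/
theorem log_bound (N M : ℕ) (hM : 1 ≤ M) :
    (Nat.log 2 (10 * (N + 1) * (N.factorial * M ^ N) + 1) : ℝ) ≤
      (N + 1) * (2 * Real.log (11 * (N + 1) * M)) := by
  set F : ℕ := N.factorial * M ^ N with hF
  have hF1 : 1 ≤ F := Nat.one_le_iff_ne_zero.2 (by positivity)
  have h1 : 10 * (N + 1) * F + 1 ≤ (11 * (N + 1) * M) ^ (N + 1) := by
    have h3 : N.factorial ≤ (N + 1) ^ N :=
      (Nat.factorial_le_pow N).trans (Nat.pow_le_pow_left (Nat.le_succ N) N)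
    calc 10 * (N + 1) * F + 1 ≤ 11 * (N + 1) * F := by nlinarith
      _ ≤ 11 * (N + 1) * ((N + 1) ^ N * M ^ N) := by
          rw [hF]
          exact Nat.mul_le_mul_left _ (Nat.mul_le_mul_right _ h3)
      _ ≤ (11 * (N + 1) * M) * ((11 * (N + 1) * M) ^ N) := by
          have h4 : (N + 1) ^ N * M ^ N ≤ (11 * (N + 1) * M) ^ N := by
            rw [← Nat.mul_pow]
            apply Nat.pow_le_pow_left
            nlinarith [Nat.zero_le ((N + 1) * M)]
          have h5 : 11 * (N + 1) ≤ 11 * (N + 1) * M := Nat.le_mul_of_pos_right _ hM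
          exact Nat.mul_le_mul h5 h4
      _ = (11 * (N + 1) * M) ^ (N + 1) := by rw [pow_succ, mul_comm]
  have h2 : (Nat.log 2 (10 * (N + 1) * F + 1) : ℝ) ≤
      Real.logb 2 ((10 * (N + 1) * F + 1 : ℕ) : ℝ) := by
    have := Real.natLog_le_logb (10 * (N + 1) * F + 1) 2
    exact_mod_cast this
  refine h2.trans ?_
  have hlog2 : (1 / 2 : ℝ) ≤ Real.log 2 := by
    have := Real.log_two_gt_d9
    linarith
  have h3 : Real.log ((10 * (N + 1) * F + 1 : ℕ) : ℝ) ≤ (N + 1) * Real.log (11 * (N + 1) * M) := by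
    have h4 : ((10 * (N + 1) * F + 1 : ℕ) : ℝ) ≤ (11 * (N + 1) * M : ℝ) ^ (N + 1) := by
      exact_mod_cast h1
    have h5 := Real.log_le_log (by positivity) h4
    rw [Real.log_pow] at h5
    push_cast at h5 ⊢
    exact h5
  have h6 : 0 ≤ Real.log ((10 * (N + 1) * F + 1 : ℕ) : ℝ) := Real.log_natCast_nonneg _
  rw [Real.logb, div_le_iff₀ (by linarith)]
  nlinarith

theorem natlog_mono' {m n : ℕ} (h : m ≤ n) : (Nat.log 2 m : ℝ) ≤ Nat.log 2 n := by
  exact_mod_cast Nat.log_mono_right h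

/-- the numerical conditions hold for all large `d` -/
theorem numerics (a b : ℝ) (hb : 2 < b) (hab : b < a) :
    ∃ d0 : ℕ, ∀ d : ℕ, d0 ≤ d → 3 ≤ Real.log d ∧
      96 + 24 * (b + 1) * Real.log (Real.log d) ≤ (Real.log d) ^ (a - b) ∧
      50 * (Real.log d) ^ b ≤ d := by
  have hlog : Tendsto (fun d : ℕ => Real.log (d : ℝ)) atTop atTop :=
    Real.tendsto_log_atTop.comp tendsto_natCast_atTop_atTop
  have e1 : ∀ᶠ d : ℕ in atTop, 3 ≤ Real.log (d : ℝ) := hlog.eventually_ge_atTop 3
  have e2 : ∀ᶠ L : ℝ in atTop, 96 + 24 * (b + 1) * Real.log L ≤ L ^ (a - b) := by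
    have ho := isLittleO_log_rpow_atTop (show 0 < a - b by linarith)
    have h1 := ho.bound (show (0 : ℝ) < 1 / (48 * (b + 1)) by positivity)
    have h3 : ∀ᶠ L : ℝ in atTop, 192 ≤ L ^ (a - b) :=
      (tendsto_rpow_atTop (show 0 < a - b by linarith)).eventually_ge_atTop 192
    filter_upwards [h1, h3, eventually_ge_atTop (1 : ℝ)] with L hL1 hL3 hL
    rw [Real.norm_eq_abs, Real.norm_eq_abs, abs_of_nonneg (Real.log_nonneg hL),
      abs_of_nonneg (by linarith)] at hL1
    have h4 : 24 * (b + 1) * Real.log L ≤ 24 * (b + 1) * (1 / (48 * (b + 1)) * L ^ (a - b)) :=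
      mul_le_mul_of_nonneg_left hL1 (by nlinarith)
    have h5 : 24 * (b + 1) * (1 / (48 * (b + 1)) * L ^ (a - b)) = L ^ (a - b) / 2 := by
      have : b + 1 ≠ 0 := by linarith
      field_simp
      ring
    linarith
  have e3 : ∀ᶠ d : ℕ in atTop, 50 * (Real.log (d : ℝ)) ^ b ≤ d := by
    have ho := isLittleO_log_rpow_rpow_atTop b (show (0 : ℝ) < 1 by norm_num)
    have h1 := ho.bound (show (0 : ℝ) < 1 / 50 by norm_num)
    have h3 := tendsto_natCast_atTop_atTop (R := ℝ) |>.eventually h1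
    filter_upwards [h3, eventually_ge_atTop 1] with d hd hd1
    have hd1' : (1 : ℝ) ≤ d := by exact_mod_cast hd1
    rw [Real.norm_eq_abs, Real.norm_eq_abs, Real.rpow_one, abs_of_nonneg (by linarith : (0 : ℝ) ≤ d),
      abs_of_nonneg (Real.rpow_nonneg (Real.log_nonneg hd1') _)] at hd
    linarith
  have h := (e1.and ((hlog.eventually e2).and e3))
  obtain ⟨d0, hd0⟩ := eventually_atTop.1 h
  exact ⟨d0, fun d hd => hd0 d hd⟩

/-- the main deduction -/
theorem few_of_good (a b : ℝ) (hb : 2 < b) (hab : b < a) :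
    ∃ d0 : ℕ, ∀ d : ℕ, d0 ≤ d → 2 ≤ d → Squarefree d → GoodAR b d → FewRelations a b d := by
  obtain ⟨d0, hd0⟩ := numerics a b hb hab
  refine ⟨d0, fun d hd hd2 hsq hgood K _ _ h2 s hs σ τ hne => ?_⟩
  obtain ⟨hL, hnum, hht⟩ := hd0 d hd
  obtain ⟨-, hgenall, hufd⟩ := hgood K h2 ⟨s, hs⟩ σ τ hne
  set L : ℝ := Real.log d with hLdef
  set B : ℝ := L ^ b with hB
  set n : ℝ := 1 + L / Real.log L with hn
  have hlogL : 1 ≤ Real.log L := by
    rw [Real.le_log_iff_exp_le (by linarith)]
    have := Real.exp_one_lt_d9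
    linarith
  have hn0 : 0 ≤ n := by
    have : 0 ≤ L / Real.log L := div_nonneg (by linarith) (by linarith)
    linarith
  have hnL : n ≤ 1 + L := by
    have : L / Real.log L ≤ L := div_le_self (by linarith) hlogL
    linarith
  have hB1 : 1 ≤ B := Real.one_le_rpow (by linarith) (by linarith)
  have hgen : ∀ u ∈ SUnit K B, u ∈ Subgroup.closure (Gen K σ τ B n) :=
    fun u hu => (hgenall u hu).1
  set M : ℕ := ⌈n⌉₊ with hM
  have hMn : n ≤ M := Nat.le_ceil n
  have hM1 : 1 ≤ M := by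
    have h1 : (0 : ℝ) < n := by
      have : 0 ≤ L / Real.log L := div_nonneg (by linarith) (by linarith)
      linarith
    exact Nat.one_le_iff_ne_zero.2 (Nat.ceil_pos.2 h1).ne'
  have hML : (M : ℝ) ≤ 2 * L := by
    have h1 := Nat.ceil_lt_add_one hn0
    rw [← hM] at h1
    linarith
  obtain ⟨X, hXG, hXc, hX⟩ := few_units h2 hne M hn0 hMn hgen
  set N : ℕ := Nat.card (Tiny K B) with hN
  have hNB : (N : ℝ) ≤ 2 * B := card_tiny h2 B (by linarith)
  refine ⟨X, ?_, fun x hx => hXG hx, ?_, ?_, ?_⟩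
  · -- the number of the generators
    have h1 : (X.card : ℝ) ≤ 2 * N + 2 + 2 * ((N + 1) * (2 * Real.log (11 * (N + 1) * M))) := by
      have h3 : (X.card : ℝ) ≤ 2 * N + 2 + Nat.log 2 (N.factorial * M ^ N) +
          Nat.log 2 (10 * (N + 1) * (N.factorial * M ^ N) + 1) := by exact_mod_cast hXc
      have h4 : (Nat.log 2 (N.factorial * M ^ N) : ℝ) ≤
          Nat.log 2 (10 * (N + 1) * (N.factorial * M ^ N) + 1) := by
        apply natlog_mono'
        nlinarith [Nat.zero_le (N * (N.factorial * M ^ N)), Nat.zero_le (N.factorial * M ^ N)]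
      have h5 := log_bound N M hM1
      linarith
    have hN1 : (N : ℝ) + 1 ≤ 3 * B := by linarith
    have h6 : Real.log (11 * (N + 1) * M) ≤ 6 + (b + 1) * Real.log L := by
      have h7 : (11 * ((N : ℝ) + 1) * M) ≤ 66 * (B * L) := by
        have h8 : (0 : ℝ) ≤ N := Nat.cast_nonneg _
        have h9 : ((N : ℝ) + 1) * M ≤ 3 * B * (2 * L) :=
          mul_le_mul hN1 hML (Nat.cast_nonneg _) (by linarith)
        linarith
      have hMpos : (0 : ℝ) < M := by exact_mod_cast hM1
      have h8 : Real.log (11 * ((N : ℝ) + 1) * M) ≤ Real.log (66 * (B * L)) :=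
        Real.log_le_log (by positivity) h7
      refine h8.trans ?_
      rw [Real.log_mul (by norm_num) (by positivity), Real.log_mul (by positivity) (by linarith), hB,
        Real.log_rpow (by linarith)]
      have h9 : Real.log 66 ≤ 6 := by
        rw [Real.log_le_iff_le_exp (by norm_num)]
        have h10 := Real.add_one_le_exp (1 : ℝ)
        have h11 : Real.exp 6 = Real.exp 1 ^ 6 := by
          rw [← Real.exp_nat_mul]
          norm_num
        rw [h11]
        have h12 := Real.exp_one_gt_d9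
        have h13 : (2.7 : ℝ) ^ 6 ≤ Real.exp 1 ^ 6 := pow_le_pow_left₀ (by norm_num) (by linarith) 6
        refine le_trans ?_ h13
        norm_num
      nlinarith
    have h10 : (X.card : ℝ) ≤ B * (96 + 24 * (b + 1) * Real.log L) := by
      have h11 : 0 ≤ 6 + (b + 1) * Real.log L := by nlinarith
      have h12 : ((N : ℝ) + 1) * (2 * Real.log (11 * (N + 1) * M)) ≤
          3 * B * (2 * (6 + (b + 1) * Real.log L)) := by
        have h13 : ((N : ℝ) + 1) * (2 * Real.log (11 * (N + 1) * M)) ≤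
            ((N : ℝ) + 1) * (2 * (6 + (b + 1) * Real.log L)) :=
          mul_le_mul_of_nonneg_left (by linarith) (by positivity)
        refine h13.trans ?_
        exact mul_le_mul_of_nonneg_right hN1 (by linarith)
      have h14 : 0 ≤ (b + 1) * Real.log L := by nlinarith
      nlinarith [mul_nonneg (by linarith : (0 : ℝ) ≤ B) h14]
    refine h10.trans ?_
    calc B * (96 + 24 * (b + 1) * Real.log L) ≤ B * L ^ (a - b) :=
          mul_le_mul_of_nonneg_left hnum (by linarith)
      _ = L ^ a := by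
          rw [hB, ← Real.rpow_add (by linarith)]
          congr 1
          ring
  · -- heights
    intro x hx
    obtain ⟨u, v, w, hw, hwx, hu, hv, hwb⟩ := small_height h2 σ τ hne hd2 hsq hs hB1 (hXG hx)
    have hd0' : (0 : ℝ) < d := by exact_mod_cast (by omega : 0 < d)
    have hBn : B ^ n = L ^ b * (d : ℝ) ^ b := by
      rw [hn, Real.rpow_add (by linarith), Real.rpow_one, hB, ← Real.rpow_mul (by linarith)]
      congr 1
      rw [Real.rpow_def_of_pos (by linarith), Real.rpow_def_of_pos hd0']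
      congr 1
      have : Real.log L ≠ 0 := by linarith
      rw [← hLdef]
      field_simp
    have hbound : 50 * (d : ℝ) * B ^ n ≤ (d : ℝ) ^ (b + 2) := by
      rw [hBn]
      have h1 : (d : ℝ) ^ (b + 2) = d * (d * (d : ℝ) ^ b) := by
        rw [Real.rpow_add hd0']
        have : (d : ℝ) ^ (2 : ℝ) = d * d := by
          rw [Real.rpow_two, sq]
        rw [this]
        ring
      rw [h1]
      have h3 : 50 * (d : ℝ) * (L ^ b * (d : ℝ) ^ b) = (50 * L ^ b) * (d * (d : ℝ) ^ b) := by ring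
      rw [h3]
      exact mul_le_mul_of_nonneg_right hht (by positivity)
    exact ⟨u, v, w, hw, hwx, hu.trans hbound, hv.trans hbound, hwb.trans hbound⟩
  · -- the group
    intro u
    rw [hX]
    exact ⟨fun h => sunit_of_closure h, fun h => hgen u h⟩
  · rw [hX]
    exact hufd

end Pool.Agent.V11318.SP
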