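import Pool.Agent.V11318.OrdCert

/-!
The bound for large `n`: the prime powers prime to 30 lie in 8 residue classes modulo 30.
-/

set_option autoImplicit false
open Finset

namespace Pool.Agent.V11318.Ord

/-- the residues -/
def R30 : Finset ℕ := {7, 11, 13, 17, 19, 23, 29, 31}

lemma one_add_sum_le_prod {ι : Type*} (s : Finset ι) (f : ι → ℝ) (hf : ∀ i ∈ s, 0 ≤ f i) :
    1 + ∑ i ∈ s, f i ≤ ∏ i ∈ s, (1 + f i) := by
  classical
  induction s using Finset.induction_on with
  | empty => simp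
  | insert a s ha ih =>
    rw [sum_insert ha, prod_insert ha]
    have h1 := ih (fun i hi => hf i (mem_insert_of_mem hi))
    have h2 := hf a (mem_insert_self a s)
    have h3 : 0 ≤ ∑ i ∈ s, f i := sum_nonneg (fun i hi => hf i (mem_insert_of_mem hi))
    nlinarith

/-- `log (1 + y) ≤ y - y²/2 + y³/3` -/
lemma one_add_le_exp3 (y : ℝ) (h0 : 0 ≤ y) (h1 : y ≤ 1) :
    1 + y ≤ Real.exp (y - y ^ 2 / 2 + y ^ 3 / 3) := by
  set z := y - y ^ 2 / 2 + y ^ 3 / 3 with hz
  have hz0 : 0 ≤ z := by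
    rw [hz]
    nlinarith [pow_nonneg h0 3, pow_nonneg h0 2]
  have h2 := Real.sum_le_exp_of_nonneg hz0 4
  refine le_trans ?_ h2
  simp only [sum_range_succ, range_zero, sum_empty, Nat.factorial]
  have e : 1 + z + z ^ 2 / 2 + z ^ 3 / 6 - (1 + y) =
      y ^ 4 * ((5 / 24 - 19 / 144 * y ^ 2) + y / 8 + y ^ 3 * (7 / 72 - y / 36) + y ^ 5 / 162) := by
    rw [hz]; ring
  have h3 : 0 ≤ 5 / 24 - 19 / 144 * y ^ 2 := by nlinarith
  have h4 : 0 ≤ y ^ 3 * (7 / 72 - y / 36) := mul_nonneg (by positivity) (by linarith)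
  have h5 : 0 ≤ y ^ 4 * ((5 / 24 - 19 / 144 * y ^ 2) + y / 8 + y ^ 3 * (7 / 72 - y / 36) +
      y ^ 5 / 162) := by positivity
  rw [← e] at h5
  norm_num
  linarith

/-- the first three primes -/
lemma loc_le (x : ℝ) (hx0 : 0 < x) (hx1 : x < 1) (K N p : ℕ) (hp : 2 ≤ p) :
    loc x K N p ≤ 1 / (1 - x ^ 2) := by
  have hx2 : x ^ 2 < 1 := by nlinarith
  rw [loc]
  have h1 : ∀ a ∈ range K, (if p ^ (a + 1) ≤ N then x ^ (p ^ (a + 1)) else 0) ≤
      (x ^ 2) ^ (a + 1) := by
    intro a _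
    split_ifs
    · rw [← pow_mul]
      apply pow_le_pow_of_le_one hx0.le hx1.le
      have h2 : ∀ a : ℕ, 2 * (a + 1) ≤ 2 ^ (a + 1) := by
        intro a
        induction a with
        | zero => norm_num
        | succ a ih => rw [pow_succ]; omega
      exact (h2 a).trans (Nat.pow_le_pow_left hp _)
    · positivity
  have h2 : 1 + ∑ a ∈ range K, (x ^ 2) ^ (a + 1) = ∑ a ∈ range (K + 1), (x ^ 2) ^ a := by
    rw [sum_range_succ', pow_zero, add_comm]
  have h3 := mul_neg_geom_sum (x ^ 2) (K + 1)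
  rw [le_div_iff₀ (by linarith)]
  have h4 : 1 + (∑ a ∈ range K, if p ^ (a + 1) ≤ N then x ^ (p ^ (a + 1)) else 0) ≤
      ∑ a ∈ range (K + 1), (x ^ 2) ^ a := by
    rw [← h2]
    linarith [sum_le_sum h1]
  have h5 : 0 < (x ^ 2) ^ (K + 1) := by positivity
  nlinarith

/-- the series for one residue class -/
lemma class_sum (x : ℝ) (hx0 : 0 < x) (hx1 : x < 1) (r n : ℕ) :
    ∑ j ∈ range n, (x ^ (r + 30 * j) - (x ^ (r + 30 * j)) ^ 2 / 2 + (x ^ (r + 30 * j)) ^ 3 / 3) ≤
      x ^ r / (1 - x ^ 30) - (x ^ 2) ^ r / (1 - (x ^ 2) ^ 30) / 2 +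
      (x ^ 3) ^ r / (1 - (x ^ 3) ^ 30) / 3 := by
  have hg : ∀ y : ℝ, 0 < y → y < 1 → HasSum (fun j : ℕ => y ^ (r + 30 * j)) (y ^ r / (1 - y ^ 30)) := by
    intro y hy0 hy1
    have h1 : y ^ 30 < 1 := pow_lt_one₀ hy0.le hy1 (by norm_num)
    have h2 := (hasSum_geometric_of_lt_one (by positivity) h1).mul_left (y ^ r)
    rw [← div_eq_mul_inv] at h2
    have h3 : (fun j : ℕ => y ^ (r + 30 * j)) = fun j : ℕ => y ^ r * (y ^ 30) ^ j := by
      funext j
      rw [pow_add, pow_mul]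
    rw [h3]
    exact h2
  have hx2 : x ^ 2 < 1 := pow_lt_one₀ hx0.le hx1 (by norm_num)
  have hx3 : x ^ 3 < 1 := pow_lt_one₀ hx0.le hx1 (by norm_num)
  have h1 := hg x hx0 hx1
  have h2 := (hg (x ^ 2) (by positivity) hx2).div_const 2
  have h3 := (hg (x ^ 3) (by positivity) hx3).div_const 3
  have h4 := (h1.sub h2).add h3
  have h5 : (fun j : ℕ => x ^ (r + 30 * j) - (x ^ 2) ^ (r + 30 * j) / 2 +
      (x ^ 3) ^ (r + 30 * j) / 3) = (fun j : ℕ => x ^ (r + 30 * j) -
      (x ^ (r + 30 * j)) ^ 2 / 2 + (x ^ (r + 30 * j)) ^ 3 / 3) := by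
    funext j
    have e2 : (x ^ 2) ^ (r + 30 * j) = (x ^ (r + 30 * j)) ^ 2 := by
      rw [← pow_mul, ← pow_mul, mul_comm]
    have e3 : (x ^ 3) ^ (r + 30 * j) = (x ^ (r + 30 * j)) ^ 3 := by
      rw [← pow_mul, ← pow_mul, mul_comm]
    rw [e2, e3]
  rw [h5] at h4
  apply sum_le_hasSum _ _ h4
  intro j _
  have h6 : 0 ≤ x ^ (r + 30 * j) := by positivity
  have h7 : x ^ (r + 30 * j) ≤ 1 := pow_le_one₀ hx0.le hx1.le
  nlinarith [pow_nonneg h6 3, pow_nonneg h6 2]

lemma mem_R30 (m : ℕ) (hm : m < 30) (h2 : m % 2 ≠ 0) (h3 : m % 3 ≠ 0) (h5 : m % 5 ≠ 0)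
    (h1 : m ≠ 1) : m ∈ R30 := by
  have h : ∀ m ∈ range 30, m % 2 ≠ 0 → m % 3 ≠ 0 → m % 5 ≠ 0 → m ≠ 1 → m ∈ R30 := by
    decide
  exact h m (mem_range.2 hm) h2 h3 h5 h1

lemma inj_R30 (r r' j j' : ℕ) (hr : r ∈ R30) (hr' : r' ∈ R30) (h : r + 30 * j = r' + 30 * j') :
    r = r' ∧ j = j' := by
  have h1 : r % 30 = r' % 30 := by omega
  have h2 : ∀ r ∈ R30, ∀ r' ∈ R30, r % 30 = r' % 30 → r = r' := by decide
  have h3 := h2 r hr r' hr' h1
  omega

/-- `A y = ∑_{k ≥ 7, (k, 30) = 1} y ^ k` -/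
noncomputable def A30 (y : ℝ) : ℝ := ∑ r ∈ R30, y ^ r / (1 - y ^ 30)

lemma prod_bound (x : ℝ) (hx0 : 0 < x) (hx1 : x < 1) (n : ℕ) :
    ∏ p ∈ P n, loc x n n p ≤ (1 / (1 - x ^ 2)) ^ 3 *
      Real.exp (A30 x - A30 (x ^ 2) / 2 + A30 (x ^ 3) / 3) := by
  have hl1 : ∀ p, 1 ≤ loc x n n p := by
    intro p
    rw [loc]
    have : 0 ≤ ∑ a ∈ range n, if p ^ (a + 1) ≤ n then x ^ (p ^ (a + 1)) else 0 :=
      sum_nonneg (fun a _ => by split_ifs <;> positivity)
    linarith
  have hx2 : x ^ 2 < 1 := pow_lt_one₀ hx0.le hx1 (by norm_num)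
  rw [← prod_filter_mul_prod_filter_not (P n) (fun p => p < 7)]
  apply mul_le_mul
  · -- small primes
    have h1 : ∏ p ∈ (P n).filter (fun p => p < 7), loc x n n p ≤
        ∏ p ∈ (P n).filter (fun p => p < 7), (1 / (1 - x ^ 2)) := by
      apply prod_le_prod
      · intro p _
        linarith [hl1 p]
      · intro p hp
        rw [mem_filter, mem_P] at hp
        exact loc_le x hx0 hx1 _ _ p hp.1.2.two_le
    rw [prod_const] at h1
    refine h1.trans ?_
    apply pow_le_pow_right₀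
    · rw [le_div_iff₀ (by linarith)]
      nlinarith
    · have h2 : (P n).filter (fun p => p < 7) ⊆ {2, 3, 5} := by
        intro p hp
        rw [mem_filter, mem_P] at hp
        obtain ⟨⟨_, hp⟩, h7⟩ := hp
        have := hp.two_le
        interval_cases p
        · simp
        · simp
        · exact absurd hp (by norm_num)
        · simp
        · exact absurd hp (by norm_num)
      calc _ ≤ _ := card_le_card h2
        _ = 3 := by decide
  · -- large primes
    set D := (((P n).filter (fun p => ¬ p < 7)) ×ˢ (range n)).filter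
      (fun z => z.1 ^ (z.2 + 1) ≤ n) with hD
    set E := (R30 ×ˢ (range n)).image (fun z => z.1 + 30 * z.2) with hE
    have h1 : ∏ p ∈ (P n).filter (fun p => ¬ p < 7), loc x n n p ≤
        ∏ z ∈ D, (1 + x ^ (z.1 ^ (z.2 + 1))) := by
      have h0 : ∏ z ∈ D, (1 + x ^ (z.1 ^ (z.2 + 1))) =
          ∏ p ∈ (P n).filter (fun p => ¬ p < 7), ∏ a ∈ range n,
            (if p ^ (a + 1) ≤ n then (1 + x ^ (p ^ (a + 1))) else 1) := by
        rw [hD, prod_filter, prod_product]
      rw [h0]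
      apply prod_le_prod
      · intro p _
        linarith [hl1 p]
      · intro p _
        rw [loc]
        refine (one_add_sum_le_prod _ _ (fun a _ => by split_ifs <;> positivity)).trans ?_
        apply le_of_eq
        apply prod_congr rfl
        intro a _
        split_ifs
        · rfl
        · simp
    have h2 : ∏ z ∈ D, (1 + x ^ (z.1 ^ (z.2 + 1))) =
        ∏ k ∈ D.image (fun z : ℕ × ℕ => z.1 ^ (z.2 + 1)), (1 + x ^ k) := by
      rw [prod_image]
      exact pair_inj D (by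
        intro z hz
        rw [hD, mem_filter, mem_product, mem_filter, mem_P] at hz
        exact hz.1.1.1.2)
    have h3 : D.image (fun z : ℕ × ℕ => z.1 ^ (z.2 + 1)) ⊆ E := by
      intro k hk
      rw [mem_image] at hk
      obtain ⟨z, hz, rfl⟩ := hk
      rw [hD, mem_filter, mem_product, mem_filter, mem_P] at hz
      obtain ⟨⟨⟨⟨_, hp⟩, h7⟩, _⟩, hle⟩ := hz
      set q := z.1 ^ (z.2 + 1) with hq
      have hq7 : 7 ≤ q := by
        calc 7 ≤ z.1 := by omega
          _ = z.1 ^ 1 := (pow_one _).symm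
          _ ≤ q := Nat.pow_le_pow_right hp.pos (by omega)
      have hdvd : ∀ d : ℕ, d.Prime → d < 7 → ¬ d ∣ q := by
        intro d hd hd7 h
        have := (Nat.prime_dvd_prime_iff_eq hd hp).1 (hd.dvd_of_dvd_pow h)
        omega
      have e2 := hdvd 2 (by norm_num) (by norm_num)
      have e3 := hdvd 3 (by norm_num) (by norm_num)
      have e5 := hdvd 5 (by norm_num) (by norm_num)
      rw [hE, mem_image]
      by_cases h31 : q % 30 = 1
      · refine ⟨(31, (q - 31) / 30), ?_, by simp only; omega⟩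
        rw [mem_product, mem_range]
        refine ⟨by simp [R30], ?_⟩
        simp only
        omega
      · refine ⟨(q % 30, q / 30), ?_, by simp only; omega⟩
        rw [mem_product, mem_range]
        refine ⟨?_, by simp only; omega⟩
        exact mem_R30 _ (Nat.mod_lt _ (by norm_num)) (by omega) (by omega) (by omega) h31
    have h4 : ∏ k ∈ D.image (fun z : ℕ × ℕ => z.1 ^ (z.2 + 1)), (1 + x ^ k) ≤
        ∏ k ∈ E, (1 + x ^ k) := by
      rw [← prod_sdiff h3]
      apply le_mul_of_one_le_left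
      · exact prod_nonneg (fun k _ => by positivity)
      · exact prod_induction _ (fun z => (1:ℝ) ≤ z)
          (fun a b ha hb => one_le_mul_of_one_le_of_one_le ha hb) le_rfl
          (fun k _ => by have : 0 < x ^ k := by positivity
                         linarith)
    have h5 : ∏ k ∈ E, (1 + x ^ k) ≤ Real.exp (∑ k ∈ E, (x ^ k - (x ^ k) ^ 2 / 2 + (x ^ k) ^ 3 / 3)) := by
      rw [Real.exp_sum]
      apply prod_le_prod
      · intro k _
        positivity
      · intro k _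
        exact one_add_le_exp3 _ (by positivity) (pow_le_one₀ hx0.le hx1.le)
    have h6 : ∑ k ∈ E, (x ^ k - (x ^ k) ^ 2 / 2 + (x ^ k) ^ 3 / 3) ≤
        A30 x - A30 (x ^ 2) / 2 + A30 (x ^ 3) / 3 := by
      rw [hE, sum_image]
      · rw [sum_product]
        simp only
        calc _ ≤ ∑ r ∈ R30, (x ^ r / (1 - x ^ 30) - (x ^ 2) ^ r / (1 - (x ^ 2) ^ 30) / 2 +
              (x ^ 3) ^ r / (1 - (x ^ 3) ^ 30) / 3) :=
              sum_le_sum (fun r _ => class_sum x hx0 hx1 r n)
          _ = _ := by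
              rw [sum_add_distrib, sum_sub_distrib, A30, A30, A30, sum_div, sum_div]
      · rintro ⟨r, j⟩ hz ⟨r', j'⟩ hz' h
        rw [mem_coe, mem_product] at hz hz'
        have := inj_R30 r r' j j' hz.1 hz'.1 h
        rw [this.1, this.2]
    exact h1.trans (h2.le.trans (h4.trans (h5.trans (Real.exp_le_exp.2 h6))))
  · exact prod_nonneg (fun p _ => by linarith [hl1 p])
  · have : 0 < 1 - x ^ 2 := by linarith
    positivity

/-! ### estimates of `A30 (exp (-v))` -/

lemma exp_neg_le (t : ℝ) (ht : 0 ≤ t) : Real.exp (-t) ≤ 1 - t + t ^ 2 / 2 := by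
  have h1 := Real.sum_le_exp_of_nonneg ht 4
  simp only [sum_range_succ, range_zero, sum_empty, Nat.factorial] at h1
  norm_num at h1
  rw [Real.exp_neg]
  have h2 : 0 < 1 + t + t ^ 2 / 2 + t ^ 3 / 6 := by positivity
  have h3 : (Real.exp t)⁻¹ ≤ (1 + t + t ^ 2 / 2 + t ^ 3 / 6)⁻¹ := inv_anti₀ h2 h1
  refine h3.trans ?_
  rw [inv_le_iff_one_le_mul₀ h2]
  have : (1 - t + t ^ 2 / 2) * (1 + t + t ^ 2 / 2 + t ^ 3 / 6) =
      1 + t ^ 3 / 6 + t ^ 4 / 12 + t ^ 5 / 12 := by ring
  rw [this]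
  have : 0 ≤ t ^ 3 / 6 + t ^ 4 / 12 + t ^ 5 / 12 := by positivity
  linarith

lemma A30_le (v : ℝ) (hv : 0 < v) (hv1 : v ≤ 1 / 100) : A30 (Real.exp (-v)) ≤ 8 / (30 * v) := by
  have h1 : ∀ r : ℕ, Real.exp (-v) ^ r ≤ 1 - r * v + (r * v) ^ 2 / 2 := by
    intro r
    rw [← Real.exp_nat_mul]
    have := exp_neg_le (r * v) (by positivity)
    rw [show (r:ℝ) * -v = -(r * v) by ring]
    exact this
  have h2 := h1 30
  have h3 : 0 < 1 - Real.exp (-v) ^ 30 := by
    push_cast at h2
    nlinarith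
  rw [A30, ← sum_div, div_le_div_iff₀ h3 (by positivity)]
  have h4 : ∑ r ∈ R30, Real.exp (-v) ^ r ≤ 8 - 150 * v + 1660 * v ^ 2 := by
    calc ∑ r ∈ R30, Real.exp (-v) ^ r ≤ ∑ r ∈ R30, (1 - (r:ℝ) * v + (r * v) ^ 2 / 2) :=
          sum_le_sum (fun r _ => h1 r)
      _ = _ := by
          simp only [R30]
          rw [sum_insert (by decide), sum_insert (by decide), sum_insert (by decide),
            sum_insert (by decide), sum_insert (by decide), sum_insert (by decide),
            sum_insert (by decide), sum_singleton]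
          push_cast
          ring
  push_cast at h2
  have h5 : (∑ r ∈ R30, Real.exp (-v) ^ r) * (30 * v) ≤
      (8 - 150 * v + 1660 * v ^ 2) * (30 * v) := mul_le_mul_of_nonneg_right h4 (by positivity)
  have h6 : (8 - 150 * v + 1660 * v ^ 2) * (30 * v) ≤ 8 * (30 * v - 450 * v ^ 2) := by
    have : 0 ≤ v ^ 2 * (900 - 49800 * v) := mul_nonneg (by positivity) (by linarith)
    nlinarith
  nlinarith

lemma A30_ge (v : ℝ) (hv : 0 < v) (hv1 : v ≤ 1 / 100) :
    8 / (30 * v) - 5 ≤ A30 (Real.exp (-v)) := by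
  have h1 : ∀ r : ℕ, 1 - r * v ≤ Real.exp (-v) ^ r := by
    intro r
    rw [← Real.exp_nat_mul]
    have := Real.add_one_le_exp ((r:ℝ) * -v)
    linarith
  have h2 := h1 30
  have h3 : 0 < 1 - Real.exp (-v) ^ 30 := by
    have : Real.exp (-v) ^ 30 < 1 := pow_lt_one₀ (Real.exp_pos _).le (by
      rw [Real.exp_lt_one_iff]; linarith) (by norm_num)
    linarith
  rw [A30, ← sum_div, le_div_iff₀ h3]
  have h4 : 8 - 150 * v ≤ ∑ r ∈ R30, Real.exp (-v) ^ r := by
    calc 8 - 150 * v = ∑ r ∈ R30, (1 - (r:ℝ) * v) := by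
          simp only [R30]
          rw [sum_insert (by decide), sum_insert (by decide), sum_insert (by decide),
            sum_insert (by decide), sum_insert (by decide), sum_insert (by decide),
            sum_insert (by decide), sum_singleton]
          push_cast
          ring
      _ ≤ _ := sum_le_sum (fun r _ => h1 r)
  push_cast at h2
  refine le_trans ?_ h4
  have h5 : 0 ≤ 8 / (30 * v) - 5 := by
    have : 5 ≤ 8 / (30 * v) := by
      rw [le_div_iff₀ (by positivity)]
      linarith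
    linarith
  calc (8 / (30 * v) - 5) * (1 - Real.exp (-v) ^ 30) ≤ (8 / (30 * v) - 5) * (30 * v) :=
        mul_le_mul_of_nonneg_left (by linarith) h5
      _ = 8 - 150 * v := by
        rw [sub_mul, div_mul_cancel₀ _ (by positivity)]
        ring

/-- the bound for large `n` -/
lemma big (n : ℕ) (hn : 422500 ≤ n) : (ord n : ℝ) ≤ Real.exp (Real.sqrt n) := by
  set s := Real.sqrt n with hs
  have hs2 : s ^ 2 = n := Real.sq_sqrt (Nat.cast_nonneg n)
  have hn' : (422500:ℝ) ≤ n := by exact_mod_cast hn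
  have hs1 : 650 ≤ s := by
    rw [hs]
    apply Real.le_sqrt_of_sq_le
    linarith
  have hs0 : 0 < s := by linarith
  set u := (48 / 100) / s with hu
  have hu0 : 0 < u := by positivity
  have hu1 : u ≤ 1 / 1000 := by
    rw [hu, div_le_iff₀ hs0]
    linarith
  have hus : u * s = 48 / 100 := by
    rw [hu, div_mul_cancel₀ _ hs0.ne']
  set x := Real.exp (-u) with hx
  have hx0 : 0 < x := Real.exp_pos _
  have hx1 : x < 1 := by
    rw [hx, Real.exp_lt_one_iff]
    linarith
  have hx2 : x ^ 2 = Real.exp (-(2 * u)) := by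
    rw [hx, ← Real.exp_nat_mul]
    congr 1
    push_cast
    ring
  have hx3 : x ^ 3 = Real.exp (-(3 * u)) := by
    rw [hx, ← Real.exp_nat_mul]
    congr 1
    push_cast
    ring
  have h1 := (ord_rankin x hx0 hx1.le n).trans (prod_bound x hx0 hx1 n)
  have hA1 := A30_le u hu0 (by linarith)
  have hA2 := A30_ge (2 * u) (by linarith) (by linarith)
  have hA3 := A30_le (3 * u) (by linarith) (by linarith)
  rw [← hx] at hA1
  rw [← hx2] at hA2
  rw [← hx3] at hA3
  have hinv : 1 / u = s * (100 / 48) := by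
    rw [hu]
    field_simp
  have h2 : A30 x - A30 (x ^ 2) / 2 + A30 (x ^ 3) / 3 ≤ 4784 / 10000 * s + 5 / 2 := by
    have e1 : 8 / (30 * u) = 8 / 30 * (1 / u) := by field_simp
    have e2 : 8 / (30 * (2 * u)) = 8 / 60 * (1 / u) := by field_simp; norm_num
    have e3 : 8 / (30 * (3 * u)) = 8 / 90 * (1 / u) := by field_simp; norm_num
    rw [e1, hinv] at hA1
    rw [e2, hinv] at hA2
    rw [e3, hinv] at hA3
    linarith
  have h3 : (959 / 1000) / s ≤ 1 - x ^ 2 := by
    have h4 := exp_neg_le (2 * u) (by linarith)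
    rw [← hx2] at h4
    have h5 : (959 / 1000) / s = (959 / 480) * u := by
      rw [hu]
      field_simp
      norm_num
    rw [h5]
    nlinarith
  have h4 : (1 / (1 - x ^ 2)) ^ 3 ≤ (s / (959 / 1000)) ^ 3 := by
    apply pow_le_pow_left₀
    · have : x ^ 2 < 1 := pow_lt_one₀ hx0.le hx1 (by norm_num)
      have : 0 < 1 - x ^ 2 := by linarith
      positivity
    · rw [← one_div_div (959 / 1000) s]
      exact one_div_le_one_div_of_le (by positivity) h3
  have h5 : s / (959 / 1000) ≤ Real.exp ((416 / 10000 * s - 5 / 2) / 3) := by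
    have e7 : (1000:ℝ) ≤ Real.exp 7 := by
      have h6 : Real.exp 7 = Real.exp 1 ^ 7 := by
        rw [← Real.exp_nat_mul]
        norm_num
      rw [h6]
      calc (1000:ℝ) ≤ (27 / 10) ^ 7 := by norm_num
        _ ≤ _ := pow_le_pow_left₀ (by norm_num) (by
          have := Real.exp_one_gt_d9
          linarith) 7
    have h6 : Real.exp ((416 / 10000 * s - 5 / 2) / 3) =
        Real.exp 7 * Real.exp ((416 / 10000 * s - 5 / 2) / 3 - 7) := by
      rw [← Real.exp_add]
      congr 1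
      ring
    have h7 := Real.add_one_le_exp ((416 / 10000 * s - 5 / 2) / 3 - 7)
    rw [h6]
    calc s / (959 / 1000) ≤ 1000 * ((416 / 10000 * s - 5 / 2) / 3 - 7 + 1) := by
          rw [div_le_iff₀ (by norm_num)]
          linarith
      _ ≤ Real.exp 7 * Real.exp ((416 / 10000 * s - 5 / 2) / 3 - 7) :=
          mul_le_mul e7 h7 (by linarith) (by positivity)
  have h6 : (s / (959 / 1000)) ^ 3 ≤ Real.exp (416 / 10000 * s - 5 / 2) := by
    calc _ ≤ (Real.exp ((416 / 10000 * s - 5 / 2) / 3)) ^ 3 :=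
          pow_le_pow_left₀ (by positivity) h5 3
      _ = _ := by
          rw [← Real.exp_nat_mul]
          congr 1
          push_cast
          ring
  have h7 : (ord n : ℝ) * x ^ n ≤ Real.exp (416 / 10000 * s - 5 / 2) *
      Real.exp (4784 / 10000 * s + 5 / 2) := by
    refine h1.trans ?_
    apply mul_le_mul (h4.trans h6) (Real.exp_le_exp.2 h2) (Real.exp_pos _).le (Real.exp_pos _).le
  have h8 : x ^ n = Real.exp (-(48 / 100 * s)) := by
    rw [hx, ← Real.exp_nat_mul]
    congr 1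
    rw [← hs2]
    have : s ^ 2 * -u = -(u * s * s) := by ring
    rw [this, hus]
  rw [h8, ← Real.exp_add] at h7
  have h9 : (ord n : ℝ) = (ord n : ℝ) * Real.exp (-(48 / 100 * s)) * Real.exp (48 / 100 * s) := by
    rw [mul_assoc, ← Real.exp_add]
    simp
  rw [h9]
  calc _ ≤ Real.exp (416 / 10000 * s - 5 / 2 + (4784 / 10000 * s + 5 / 2)) *
        Real.exp (48 / 100 * s) := mul_le_mul_of_nonneg_right h7 (Real.exp_pos _).le
    _ = Real.exp s := by
        rw [← Real.exp_add]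
        congr 1
        ring

end Pool.Agent.V11318.Ord
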