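import Pool.Agent.V11318.OrdCert

/-!
The three numerical certificates.
-/

set_option autoImplicit false
open Finset

namespace Pool.Agent.V11318.Ord

lemma chk1 : chkC 90 (10 ^ 20) 9 720 2046 3 32 (accU 90 (10 ^ 20) 9 720 (psL 720)) = true := by
  decide +kernel

lemma chk2 : chkC 200 (10 ^ 20) 10 1600 3785 7 51 (accU 200 (10 ^ 20) 10 1600 (psL 1600)) = true := by
  decide +kernel

lemma chk3 : chkC 850 (10 ^ 20) 12 6800 11990 29 145
    (accU 850 (10 ^ 20) 12 6800 (psL 6800)) = true := by
  decide +kernel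

end Pool.Agent.V11318.Ord
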