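import Pool.Agent.V11318.RZStep

set_option autoImplicit false

namespace Pool.Agent.V11318.RZFinal

open MeasureTheory Set Filter Topology

/-- Cauchy estimate for the Fréchet derivative -/
lemma fderiv_le {V : Type*} [NormedAddCommGroup V] [NormedSpace ℂ V] (g : V → ℂ)
    (hg : Differentiable ℂ g) (R R' M : ℝ) (hR : R < R') (hM0 : 0 ≤ M)
    (hM : ∀ z, ‖z‖ ≤ R' → ‖g z‖ ≤ M) (z : V) (hz : ‖z‖ ≤ R) :
    ‖fderiv ℂ g z‖ ≤ M / (R' - R) := by
  have hd : 0 < R' - R := by linarith
  refine ContinuousLinearMap.opNorm_le_bound _ (by positivity) (fun v => ?_)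
  by_cases hv : v = 0
  · rw [hv, map_zero, norm_zero, norm_zero, mul_zero]
  have hv0 : 0 < ‖v‖ := norm_pos_iff.mpr hv
  set φ : ℂ → ℂ := fun t => g (z + t • v) with hφ
  have hline : Differentiable ℂ (fun t : ℂ => z + t • v) := by fun_prop
  have hφd : Differentiable ℂ φ := hg.comp hline
  have hs : 0 < (R' - R) / ‖v‖ := by positivity
  have h1 : ‖deriv φ 0‖ ≤ M / ((R' - R) / ‖v‖) := by
    refine Complex.norm_deriv_le_of_forall_mem_sphere_norm_le hs hφd.diffContOnCl ?_
    intro t ht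
    rw [mem_sphere_zero_iff_norm] at ht
    apply hM
    calc ‖z + t • v‖ ≤ ‖z‖ + ‖t • v‖ := norm_add_le _ _
      _ = ‖z‖ + (R' - R) := by
          rw [norm_smul, ht]
          field_simp
      _ ≤ R' := by linarith
  have h2 : deriv φ 0 = fderiv ℂ g z v := by
    have h3 : HasFDerivAt g (fderiv ℂ g z) (z + (0 : ℂ) • v) := by
      rw [zero_smul, add_zero]
      exact (hg z).hasFDerivAt
    have h4 : HasDerivAt (fun t : ℂ => z + t • v) v 0 := by
      have := ((hasDerivAt_id (0 : ℂ)).smul_const v).const_add z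
      simpa using this
    have h5 := h3.comp_hasDerivAt (0 : ℂ) h4
    exact h5.deriv
  rw [h2] at h1
  calc ‖fderiv ℂ g z v‖ ≤ M / ((R' - R) / ‖v‖) := h1
    _ = M / (R' - R) * ‖v‖ := by field_simp

/-- termwise differentiation of a series of entire functions bounded on a ball -/
lemma diff_tsum {V : Type*} [NormedAddCommGroup V] [NormedSpace ℂ V] (g : ℕ → V → ℂ)
    (hg : ∀ j, Differentiable ℂ (g j)) (u : ℕ → ℝ) (hu : Summable u) (hu0 : ∀ j, 0 ≤ u j)
    (R R' : ℝ) (hR : R < R') (hb : ∀ j, ∀ y : V, ‖y‖ ≤ R' → ‖g j y‖ ≤ u j) (z : V) (hz : ‖z‖ < R)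
    (hs : Summable (fun j => g j z)) :
    DifferentiableAt ℂ (fun y => ∑' j, g j y) z := by
  let _ : NormedSpace ℝ V := NormedSpace.restrictScalars ℝ ℂ V
  have hzb : z ∈ Metric.ball (0 : V) R := by simpa using hz
  have h1 : Summable (fun j => u j / (R' - R)) := hu.div_const _
  have h2 : IsPreconnected (Metric.ball (0 : V) R) := (convex_ball _ _).isPreconnected
  have h3 : ∀ j, ∀ x : V, x ∈ Metric.ball (0 : V) R → HasFDerivAt (g j) (fderiv ℂ (g j) x) x :=
    fun j x _ => (hg j x).hasFDerivAt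
  have h4 : ∀ j, ∀ x : V, x ∈ Metric.ball (0 : V) R → ‖fderiv ℂ (g j) x‖ ≤ u j / (R' - R) := by
    intro j x hx
    have hx' : ‖x‖ < R := by simpa using hx
    exact fderiv_le (g j) (hg j) R R' (u j) hR (hu0 j) (hb j) x hx'.le
  have h5 := hasFDerivAt_tsum_of_isPreconnected h1 Metric.isOpen_ball h2 h3 h4 hzb hs hzb
  exact h5.differentiableAt

/-- radii -/
noncomputable def rad (j : ℕ) : ℝ := 1 - (1 / 2) ^ (j + 1)

lemma rad_pos (j : ℕ) : 0 < rad j := by
  unfold rad
  have : (1 / 2 : ℝ) ^ (j + 1) ≤ 1 / 2 := by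
    rw [pow_succ]
    have : (1 / 2 : ℝ) ^ j ≤ 1 := pow_le_one₀ (by norm_num) (by norm_num)
    linarith
  linarith

lemma rad_lt_one (j : ℕ) : rad j < 1 := by
  unfold rad
  have : (0 : ℝ) < (1 / 2) ^ (j + 1) := by positivity
  linarith

lemma rad_lt_succ (j : ℕ) : rad j < rad (j + 1) := by
  unfold rad
  have : (0 : ℝ) < (1 / 2) ^ (j + 1) := by positivity
  rw [pow_succ _ (j + 1)]
  linarith

lemma rad_mono : Monotone rad := monotone_nat_of_le_succ (fun j => (rad_lt_succ j).le)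

lemma rad_tendsto : Tendsto rad atTop (𝓝 1) := by
  unfold rad
  have h : Tendsto (fun j : ℕ => (1 / 2 : ℝ) ^ (j + 1)) atTop (𝓝 0) :=
    (tendsto_add_atTop_iff_nat 1).mpr (tendsto_pow_atTop_nhds_zero_of_lt_one (by norm_num) (by norm_num))
  simpa using h.const_sub 1

/-- error parameters -/
noncomputable def eps (j : ℕ) : ℝ := (1 / 8) * (1 / 2) ^ j

lemma eps_pos (j : ℕ) : 0 < eps j := by unfold eps; positivity

lemma eps_summable : Summable eps := by
  unfold eps
  exact (summable_geometric_of_lt_one (by norm_num) (by norm_num)).mul_left _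

lemma eps_sum_le (s : Finset ℕ) : ∑ j ∈ s, eps j ≤ 1 / 4 := by
  have h1 : ∑ j ∈ s, eps j ≤ ∑' j, eps j := eps_summable.sum_le_tsum s (fun j _ => (eps_pos j).le)
  have h2 : ∑' j, eps j = 1 / 4 := by
    unfold eps
    rw [tsum_mul_left, tsum_geometric_of_lt_one (by norm_num) (by norm_num)]
    norm_num
  linarith

lemma prod_one_add_eps_le (s : Finset ℕ) : ∏ j ∈ s, (1 + eps j) ≤ Real.exp (1 / 4) := by
  calc ∏ j ∈ s, (1 + eps j) ≤ ∏ j ∈ s, Real.exp (eps j) := by
        refine Finset.prod_le_prod (fun j _ => by linarith [eps_pos j]) (fun j _ => ?_)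
        rw [add_comm]
        exact Real.add_one_le_exp _
    _ = Real.exp (∑ j ∈ s, eps j) := (Real.exp_sum s eps).symm
    _ ≤ Real.exp (1 / 4) := Real.exp_le_exp.mpr (eps_sum_le s)

lemma exp_quarter : Real.exp (1 / 4) ≤ 4 / 3 := by
  have h := Real.one_sub_le_exp_neg (1 / 4)
  rw [Real.exp_neg] at h
  have hp := Real.exp_pos (1 / 4 : ℝ)
  have h2 : (3 / 4 : ℝ) ≤ (Real.exp (1 / 4))⁻¹ := by linarith
  have h3 := (le_inv_comm₀ (by norm_num : (0 : ℝ) < 3 / 4) hp).mp h2
  calc Real.exp (1 / 4) ≤ (3 / 4 : ℝ)⁻¹ := h3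
    _ = 4 / 3 := by norm_num

theorem main {V : Type*} [NormedAddCommGroup V] [InnerProductSpace ℂ V] [ProperSpace V]
    [MeasurableSpace V] [BorelSpace V] (μ : Measure V) [IsFiniteMeasure μ] :
    ∃ f : V → ℂ, DifferentiableOn ℂ f (Metric.ball 0 1) ∧ f 0 ≠ 0 ∧
      ∀ᵐ z ∂μ, z ≠ 0 →
        Tendsto (fun t : ℝ => f (((t / ‖z‖ : ℝ) : ℂ) • z)) (𝓝[<] 1) (𝓝 0) := by
  classical
  have hblock := fun j : ℕ => RZStep.block μ (rad j) (rad (j + 1)) (rad_pos j) (rad_lt_succ j)
    (rad_lt_one (j + 1)).le (2 ^ j) (by positivity) (eps j) (1 / 4) (eps_pos j) (by norm_num)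
  choose h B hd hμ hsmall hmid hend using hblock
  -- sup bounds
  have hbd : ∀ j, ∃ C : ℝ, 1 ≤ C ∧ ∀ z : V, ‖z‖ ≤ 1 → ‖h j z‖ ≤ C := by
    intro j
    obtain ⟨C, hC⟩ := (isCompact_closedBall (0 : V) 1).exists_bound_of_continuousOn
      (hd j).continuous.continuousOn
    refine ⟨max 1 C, le_max_left _ _, fun z hz => (hC z (by simpa using hz)).trans (le_max_right _ _)⟩
  choose Bd hBd1 hBd using hbd
  obtain ⟨P, hP⟩ : ∃ P : ℕ → V → ℂ, P = fun N z => ∏ i ∈ Finset.range N, h i z := ⟨_, rfl⟩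
  obtain ⟨K, hK⟩ : ∃ K : ℕ → ℝ, K = fun k => ∏ i ∈ Finset.range k, Bd i := ⟨_, rfl⟩
  have hK1 : ∀ k, 1 ≤ K k := by
    intro k
    induction k with
    | zero => simp [hK]
    | succ k ih =>
      have h1 : K (k + 1) = K k * Bd k := by rw [hK]; exact Finset.prod_range_succ _ _
      rw [h1]
      have h2 := hBd1 k
      nlinarith
  have hPd : ∀ N, Differentiable ℂ (P N) := by
    intro N
    induction N with
    | zero =>
      have h1 : P 0 = fun _ => (1 : ℂ) := by
        funext z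
        simp [hP]
      rw [h1]
      exact differentiable_const _
    | succ N ih =>
      have h1 : P (N + 1) = fun z => P N z * h N z := by
        funext z
        rw [hP]
        exact Finset.prod_range_succ _ _
      rw [h1]
      exact ih.mul (hd N)
  have hhead : ∀ k (z : V), ‖z‖ ≤ 1 → ‖P k z‖ ≤ K k := by
    intro k z hz
    rw [hP, hK]
    simp only
    rw [norm_prod]
    exact Finset.prod_le_prod (fun i _ => norm_nonneg _) (fun i _ => hBd i z hz)
  have htail : ∀ k N (z : V), ‖z‖ ≤ rad k → ∏ i ∈ Finset.Ico k N, ‖h i z‖ ≤ 4 / 3 := by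
    intro k N z hz
    calc ∏ i ∈ Finset.Ico k N, ‖h i z‖ ≤ ∏ i ∈ Finset.Ico k N, (1 + eps i) := by
          refine Finset.prod_le_prod (fun i _ => norm_nonneg _) (fun i hi => ?_)
          have hik : k ≤ i := (Finset.mem_Ico.mp hi).1
          have h1 := hsmall i z (hz.trans (rad_mono hik))
          calc ‖h i z‖ = ‖1 + (h i z - 1)‖ := by congr 1; ring
            _ ≤ ‖(1 : ℂ)‖ + ‖h i z - 1‖ := norm_add_le _ _
            _ ≤ 1 + eps i := by rw [norm_one]; linarith
      _ ≤ Real.exp (1 / 4) := prod_one_add_eps_le _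
      _ ≤ 4 / 3 := exp_quarter
  have hPbd : ∀ k N (z : V), k ≤ N → ‖z‖ ≤ rad k → ‖P N z‖ ≤ K k * 2 := by
    intro k N z hkN hz
    have hz1 : ‖z‖ ≤ 1 := hz.trans (rad_lt_one k).le
    have h1 : ‖P N z‖ = ‖P k z‖ * ∏ i ∈ Finset.Ico k N, ‖h i z‖ := by
      rw [hP]
      simp only
      rw [norm_prod, norm_prod, Finset.prod_range_mul_prod_Ico _ hkN]
    rw [h1]
    have h2 := hhead k z hz1
    have h3 := htail k N z hz
    have h4 := hK1 k
    calc ‖P k z‖ * ∏ i ∈ Finset.Ico k N, ‖h i z‖ ≤ K k * (4 / 3) := by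
          apply mul_le_mul h2 h3 (Finset.prod_nonneg (fun i _ => norm_nonneg _)) (by linarith)
      _ ≤ K k * 2 := by nlinarith
  -- differences
  obtain ⟨g, hg⟩ : ∃ g : ℕ → V → ℂ, g = fun j z => P (j + 1) z - P j z := ⟨_, rfl⟩
  have hgd : ∀ j, Differentiable ℂ (g j) := by
    intro j
    rw [hg]
    exact (hPd (j + 1)).sub (hPd j)
  have hgbd : ∀ k j (z : V), k ≤ j → ‖z‖ ≤ rad k → ‖g j z‖ ≤ K k * 2 * eps j := by
    intro k j z hkj hz
    have h1 : g j z = P j z * (h j z - 1) := by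
      rw [hg, hP]
      simp only
      rw [Finset.prod_range_succ]
      ring
    rw [h1, norm_mul]
    have h2 := hPbd k j z hkj hz
    have h3 := hsmall j z (hz.trans (rad_mono hkj))
    have h4 := hK1 k
    exact mul_le_mul h2 h3 (norm_nonneg _) (by linarith)
  obtain ⟨f, hf⟩ : ∃ f : V → ℂ, f = fun z => 1 + ∑' j, g j z := ⟨_, rfl⟩
  have hex : ∀ x : ℝ, x < 1 → ∃ k, x < rad k := by
    intro x hx
    exact (rad_tendsto.eventually_const_lt hx).exists
  have hsumm : ∀ z : V, ‖z‖ < 1 → Summable (fun j => g j z) := by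
    intro z hz
    obtain ⟨k, hk⟩ := hex ‖z‖ hz
    rw [← summable_nat_add_iff (f := fun j => g j z) k]
    refine Summable.of_norm_bounded (g := fun j => K k * 2 * eps (j + k))
      (((summable_nat_add_iff k).mpr eps_summable).mul_left _) (fun j => ?_)
    exact hgbd k (j + k) z (Nat.le_add_left _ _) hk.le
  have hsumP : ∀ N (z : V), 1 + ∑ j ∈ Finset.range N, g j z = P N z := by
    intro N z
    have : ∑ j ∈ Finset.range N, g j z = P N z - P 0 z := by
      rw [hg]
      exact Finset.sum_range_sub (fun j => P j z) N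
    rw [this, hP]
    simp
  have hlim : ∀ z : V, ‖z‖ < 1 → Tendsto (fun N => P N z) atTop (𝓝 (f z)) := by
    intro z hz
    have h1 := (hsumm z hz).hasSum.tendsto_sum_nat
    have h2 := h1.const_add (1 : ℂ)
    rw [hf]
    exact h2.congr (fun N => hsumP N z)
  refine ⟨f, ?_, ?_, ?_⟩
  · -- differentiability
    intro z hz
    have hz1 : ‖z‖ < 1 := by simpa using hz
    obtain ⟨k, hk⟩ := hex ‖z‖ hz1
    have hU : ∀ x ∈ Metric.ball (0 : V) (rad k), ‖x‖ < rad k := fun x hx => by simpa using hx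
    have hd1 : DifferentiableAt ℂ (fun y => ∑' j, g (j + (k + 1)) y) z := by
      have hK1' := hK1 (k + 1)
      exact diff_tsum (fun j => g (j + (k + 1))) (fun j => hgd _) (fun j => K (k + 1) * 2 * eps (j + (k + 1)))
        (((summable_nat_add_iff (k + 1)).mpr eps_summable).mul_left _)
        (fun j => mul_nonneg (by linarith) (eps_pos _).le)
        (rad k) (rad (k + 1)) (rad_lt_succ k)
        (fun j y hy => hgbd (k + 1) _ y (Nat.le_add_left _ _) hy) z hk
        ((summable_nat_add_iff (f := fun j => g j z) (k + 1)).mpr (hsumm z hz1))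
    have hd2 : DifferentiableAt ℂ (fun y => P (k + 1) y + ∑' j, g (j + (k + 1)) y) z :=
      (hPd (k + 1) z).add hd1
    have heq : f =ᶠ[𝓝 z] (fun y => P (k + 1) y + ∑' j, g (j + (k + 1)) y) := by
      have hmem : Metric.ball (0 : V) 1 ∈ 𝓝 z := Metric.isOpen_ball.mem_nhds hz
      filter_upwards [hmem] with y hy
      have hy1 : ‖y‖ < 1 := by simpa using hy
      rw [hf]
      simp only
      rw [← (hsumm y hy1).sum_add_tsum_nat_add (k + 1), ← add_assoc, hsumP]
    exact (hd2.congr_of_eventuallyEq heq).differentiableWithinAt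
  · -- nonvanishing at the centre
    have h0 := hlim 0 (by simp)
    have hb : ∀ N, ‖P N 0 - 1‖ ≤ 1 / 3 := by
      intro N
      have h1 : P N 0 = ∏ i ∈ Finset.range N, (1 + (h i 0 - 1)) := by
        rw [hP]
        simp
      rw [h1]
      calc _ ≤ Real.exp (∑ i ∈ Finset.range N, ‖h i 0 - 1‖) - 1 :=
            Finset.norm_prod_one_add_sub_one_le _ _
        _ ≤ Real.exp (1 / 4) - 1 := by
            gcongr
            calc ∑ i ∈ Finset.range N, ‖h i 0 - 1‖ ≤ ∑ i ∈ Finset.range N, eps i := by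
                  refine Finset.sum_le_sum (fun i _ => hsmall i 0 ?_)
                  rw [norm_zero]
                  exact (rad_pos i).le
              _ ≤ 1 / 4 := eps_sum_le _
        _ ≤ 1 / 3 := by linarith [exp_quarter]
    have h2 : ‖f 0 - 1‖ ≤ 1 / 3 :=
      le_of_tendsto ((h0.sub_const 1).norm) (Eventually.of_forall hb)
    intro hzero
    rw [hzero] at h2
    norm_num at h2
  · -- radial limits
    have hBsum : (∑' j, μ (B j)) ≠ ⊤ := by
      have h1 : ∀ j, μ (B j) ≤ ENNReal.ofReal (2 * μ.real univ * (1 / 2) ^ j) := by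
        intro j
        have h2 := hμ j
        have h3 : μ.real (B j) ≤ 2 * μ.real univ * (1 / 2) ^ j := by
          push_cast at h2
          have h4 : (0 : ℝ) < 2 ^ j := by positivity
          rw [div_pow, one_pow, mul_one_div, le_div_iff₀ h4]
          linarith
        rw [← ofReal_measureReal (μ := μ) (s := B j) (measure_ne_top μ _)]
        exact ENNReal.ofReal_le_ofReal h3
      refine ne_top_of_le_ne_top ?_ (ENNReal.tsum_le_tsum h1)
      refine Summable.tsum_ofReal_ne_top ?_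
      exact (summable_geometric_of_lt_one (by norm_num) (by norm_num)).mul_left _
    filter_upwards [ae_eventually_notMem hBsum] with z hz hz0
    obtain ⟨J, hJ⟩ := eventually_atTop.mp hz
    have hzn : 0 < ‖z‖ := norm_pos_iff.mpr hz0
    have hnorm : ∀ t : ℝ, 0 ≤ t → ‖(((t / ‖z‖ : ℝ) : ℂ) • z)‖ = t := by
      intro t ht
      rw [norm_smul, Complex.norm_real, Real.norm_of_nonneg (by positivity)]
      field_simp
    -- main estimate
    have hest : ∀ j, J ≤ j → ∀ t : ℝ, rad j ≤ t → t < rad (j + 1) →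
        ‖f (((t / ‖z‖ : ℝ) : ℂ) • z)‖ ≤ K J * 4 ^ J * 44 * (1 / 2) ^ j := by
      intro j hj t ht1 ht2
      have ht0 : 0 ≤ t := (rad_pos j).le.trans ht1
      have htl : t < 1 := ht2.trans (rad_lt_one _)
      set y : V := ((t / ‖z‖ : ℝ) : ℂ) • z with hy
      have hyn : ‖y‖ = t := hnorm t ht0
      have hlimy := (hlim y (by rw [hyn]; exact htl)).norm
      refine le_of_tendsto hlimy ?_
      filter_upwards [eventually_ge_atTop (j + 1)] with N hN
      have h1 : ‖P N y‖ = (‖P J y‖ * ∏ i ∈ Finset.Ico J j, ‖h i y‖) * ‖h j y‖ *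
          ∏ i ∈ Finset.Ico (j + 1) N, ‖h i y‖ := by
        rw [hP]
        simp only
        rw [norm_prod, norm_prod, Finset.prod_range_mul_prod_Ico _ hj, ← Finset.prod_range_succ,
          Finset.prod_range_mul_prod_Ico _ hN]
      have h2 : ‖P J y‖ ≤ K J := hhead J y (by rw [hyn]; exact htl.le)
      have h3 : ∏ i ∈ Finset.Ico J j, ‖h i y‖ ≤ (1 / 4) ^ (j - J) := by
        calc ∏ i ∈ Finset.Ico J j, ‖h i y‖ ≤ ∏ _i ∈ Finset.Ico J j, (1 / 4 : ℝ) := by
              refine Finset.prod_le_prod (fun i _ => norm_nonneg _) (fun i hi => ?_)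
              have hi' := Finset.mem_Ico.mp hi
              exact hend i z (hJ i hi'.1) hz0 t ((rad_mono (by omega)).trans ht1) htl.le
          _ = (1 / 4) ^ (j - J) := by rw [Finset.prod_const, Nat.card_Ico]
      have h4 : ‖h j y‖ ≤ 33 * 2 ^ j := by
        have h5 := hmid j z (hJ j hj) hz0 t ht0 htl.le
        have h6 : (1 : ℝ) ≤ 2 ^ j := one_le_pow₀ (by norm_num)
        rw [Nat.cast_pow, Nat.cast_ofNat] at h5
        linarith
      have h7 : ∏ i ∈ Finset.Ico (j + 1) N, ‖h i y‖ ≤ 4 / 3 :=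
        htail (j + 1) N y (by rw [hyn]; exact ht2.le)
      have hKJ := hK1 J
      rw [h1]
      calc (‖P J y‖ * ∏ i ∈ Finset.Ico J j, ‖h i y‖) * ‖h j y‖ *
          ∏ i ∈ Finset.Ico (j + 1) N, ‖h i y‖
          ≤ (K J * (1 / 4) ^ (j - J)) * (33 * 2 ^ j) * (4 / 3) := by
            have p1 : 0 ≤ ∏ i ∈ Finset.Ico J j, ‖h i y‖ :=
              Finset.prod_nonneg (fun i _ => norm_nonneg _)
            have p2 : 0 ≤ ∏ i ∈ Finset.Ico (j + 1) N, ‖h i y‖ :=
              Finset.prod_nonneg (fun i _ => norm_nonneg _)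
            have q1 : ‖P J y‖ * ∏ i ∈ Finset.Ico J j, ‖h i y‖ ≤ K J * (1 / 4) ^ (j - J) :=
              mul_le_mul h2 h3 p1 (by linarith)
            have q2 := mul_le_mul q1 h4 (norm_nonneg (h j y)) (by positivity)
            exact mul_le_mul q2 h7 p2 (by positivity)
        _ = K J * 4 ^ J * 44 * (1 / 2) ^ j := by
            have h8 : (1 / 4 : ℝ) ^ (j - J) = 4 ^ J * (1 / 4) ^ j := by
              have h9 : (1 / 4 : ℝ) ^ j = (1 / 4) ^ (j - J) * (1 / 4) ^ J := by
                rw [← pow_add, Nat.sub_add_cancel hj]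
              rw [h9]
              have h10 : (4 : ℝ) ^ J * (1 / 4) ^ J = 1 := by
                rw [← mul_pow]
                norm_num
              calc (1 / 4 : ℝ) ^ (j - J) = (4 ^ J * (1 / 4) ^ J) * (1 / 4) ^ (j - J) := by
                    rw [h10, one_mul]
                _ = _ := by ring
            have h11 : (1 / 4 : ℝ) ^ j * 2 ^ j = (1 / 2) ^ j := by
              rw [← mul_pow]
              norm_num
            rw [h8]
            calc K J * (4 ^ J * (1 / 4) ^ j) * (33 * 2 ^ j) * (4 / 3)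
                = K J * 4 ^ J * 44 * ((1 / 4) ^ j * 2 ^ j) := by ring
              _ = _ := by rw [h11]
    have hKpos : 0 ≤ K J * 4 ^ J * 44 := by
      have := hK1 J
      positivity
    have hest2 : ∀ t : ℝ, rad J ≤ t → t < 1 →
        ‖f (((t / ‖z‖ : ℝ) : ℂ) • z)‖ ≤ K J * 4 ^ J * 44 * (4 * (1 - t)) := by
      intro t ht1 ht2
      have hexj : ∃ j, t < rad (j + 1) := by
        obtain ⟨k, hk⟩ := hex t ht2
        exact ⟨k, hk.trans (rad_lt_succ k)⟩
      set j := Nat.find hexj with hjdef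
      have hj1 : t < rad (j + 1) := Nat.find_spec hexj
      have hJj : J ≤ j := by
        by_contra hlt
        have : rad (j + 1) ≤ rad J := rad_mono (by omega)
        linarith
      have hj2 : rad j ≤ t := by
        rcases Nat.eq_zero_or_pos j with h0 | h0
        · rw [h0]
          have : J = 0 := by omega
          rw [this] at ht1
          exact ht1
        · have := Nat.find_min hexj (m := j - 1) (by omega)
          rw [Nat.sub_add_cancel h0] at this
          exact not_lt.mp this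
      refine (hest j hJj t hj2 hj1).trans ?_
      refine mul_le_mul_of_nonneg_left ?_ hKpos
      have : t < 1 - (1 / 2) ^ (j + 1 + 1) := hj1
      have h12 : (1 / 2 : ℝ) ^ (j + 1 + 1) = (1 / 2) ^ j * (1 / 4) := by
        rw [pow_succ, pow_succ]
        ring
      rw [h12] at this
      linarith
    have hz2 : Tendsto (fun t : ℝ => K J * 4 ^ J * 44 * (4 * (1 - t))) (𝓝[<] 1) (𝓝 0) := by
      have h13 : Tendsto (fun t : ℝ => K J * 4 ^ J * 44 * (4 * (1 - t))) (𝓝 1)
          (𝓝 (K J * 4 ^ J * 44 * (4 * (1 - 1)))) := by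
        apply Continuous.tendsto
        fun_prop
      have h14 : K J * 4 ^ J * 44 * (4 * (1 - 1)) = (0 : ℝ) := by ring
      rw [h14] at h13
      exact h13.mono_left nhdsWithin_le_nhds
    refine squeeze_zero_norm' ?_ hz2
    have hmem : Ioo (rad J) 1 ∈ 𝓝[<] (1 : ℝ) := Ioo_mem_nhdsLT (rad_lt_one J)
    filter_upwards [hmem] with t ht
    exact hest2 t ht.1.le ht.2

/-- the statement in coordinates -/
theorem coord (n : ℕ) (hn : 0 < n) : ∃ f : (Fin n → ℂ) → ℂ,
      DifferentiableOn ℂ f {z : Fin n → ℂ | ∑ i, ‖z i‖ ^ 2 < 1} ∧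
      (∃ z : Fin n → ℂ, ∑ i, ‖z i‖ ^ 2 < 1 ∧ f z ≠ 0) ∧
      ∀ᵐ z ∂(MeasureTheory.volume : MeasureTheory.Measure (Fin n → ℂ)),
        Filter.Tendsto
          (fun r : ℝ => f (((r / Real.sqrt (∑ i, ‖z i‖ ^ 2) : ℝ) : ℂ) • z))
          (nhdsWithin (1 : ℝ) (Set.Iio 1)) (nhds (0 : ℂ)) := by
  set e : (Fin n → ℂ) ≃L[ℂ] EuclideanSpace ℂ (Fin n) := (EuclideanSpace.equiv (Fin n) ℂ).symm with he
  have hen : ∀ z : Fin n → ℂ, ‖e z‖ = Real.sqrt (∑ i, ‖z i‖ ^ 2) := by
    intro z
    rw [EuclideanSpace.norm_eq]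
    rfl
  have heq : ∀ z : Fin n → ℂ, ‖e z‖ < 1 ↔ ∑ i, ‖z i‖ ^ 2 < 1 := by
    intro z
    rw [hen, Real.sqrt_lt' one_pos, one_pow]
  obtain ⟨f, hf1, hf2, hf3⟩ := main ((MeasureTheory.volume : Measure (Fin n → ℂ)).toFinite.map e)
  refine ⟨fun z => f (e z), ?_, ⟨0, by simp, by simpa using hf2⟩, ?_⟩
  · refine hf1.comp e.differentiable.differentiableOn ?_
    intro z hz
    have : ‖e z‖ < 1 := (heq z).mpr hz
    simpa using this
  · have hmeas : AEMeasurable e (MeasureTheory.volume : Measure (Fin n → ℂ)).toFinite :=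
      e.continuous.measurable.aemeasurable
    have h1 := ae_of_ae_map hmeas hf3
    have h2 : ∀ᵐ z ∂(MeasureTheory.volume : Measure (Fin n → ℂ)), e z ≠ 0 →
        Tendsto (fun t : ℝ => f (((t / ‖e z‖ : ℝ) : ℂ) • e z)) (𝓝[<] 1) (𝓝 0) :=
      (absolutelyContinuous_toFinite _).ae_le h1
    have h3 : ∀ᵐ z ∂(MeasureTheory.volume : Measure (Fin n → ℂ)), z ≠ 0 := by
      have : Nonempty (Fin n) := ⟨⟨0, hn⟩⟩
      rw [ae_iff]
      simp only [ne_eq, not_not]
      exact measure_singleton 0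
    filter_upwards [h2, h3] with z hz hz0
    have hez : e z ≠ 0 := by
      intro h
      apply hz0
      exact e.map_eq_zero_iff.mp h
    have h4 := hz hez
    rw [hen] at h4
    refine h4.congr (fun t => ?_)
    rw [map_smul]

end Pool.Agent.V11318.RZFinal
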