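import Pool.Agent.V11318.KhRMarker

/-!
Deterministic part: paths which stay for a long time in prescribed windows.
-/

namespace Pool.Agent.V11318
namespace KhR

open MeasureTheory Filter
open Pool.Agent.V11103.Khin
open scoped Topology ENNReal

/-- number of terms equal to `2` among the first `n` -/
def cnt2 (w : ℕ → ℕ) (n : ℕ) : ℕ := ((Finset.range n).filter (fun i => w i = 2)).card

lemma cnt2_le (w : ℕ → ℕ) (n : ℕ) : cnt2 w n ≤ n := by
  unfold cnt2
  exact (Finset.card_filter_le _ _).trans (by simp)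

lemma prod_eq {w : ℕ → ℕ} (hw : ∀ i, w i = 2 ∨ w i = 3) (n : ℕ) :
    ∏ i ∈ Finset.range n, w i = 2 ^ cnt2 w n * 3 ^ (n - cnt2 w n) := by
  induction n with
  | zero => simp [cnt2]
  | succ n ih =>
      rw [Finset.prod_range_succ, ih]
      have hle := cnt2_le w n
      have e : cnt2 w (n + 1) = cnt2 w n + if w n = 2 then 1 else 0 := by
        unfold cnt2
        rw [Finset.range_add_one, Finset.filter_insert]
        split_ifs with h
        · rw [Finset.card_insert_of_notMem]; simp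
        · simp
      rcases hw n with h | h
      · rw [e, if_pos h, h, show n + 1 - (cnt2 w n + 1) = n - cnt2 w n by omega]
        ring
      · rw [e, if_neg (by omega), h, add_zero, show n + 1 - cnt2 w n = (n - cnt2 w n) + 1 by omega]
        ring

/-- the cell function -/
noncomputable def cell (p W : ℝ) (s t : ℕ) : ℤ := ⌊((s : ℝ) - p * ((s : ℝ) + t)) / W⌋

lemma floor_sub_cases (x y : ℝ) : ⌊x - y⌋ = ⌊x⌋ - ⌊y⌋ ∨ ⌊x - y⌋ = ⌊x⌋ - ⌊y⌋ - 1 := by
  have h1 := Int.floor_le x
  have h2 := Int.lt_floor_add_one x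
  have h3 := Int.floor_le y
  have h4 := Int.lt_floor_add_one y
  have h5 : ⌊x⌋ - ⌊y⌋ - 1 ≤ ⌊x - y⌋ := by
    rw [Int.le_floor]; push_cast; linarith
  have h6 : ⌊x - y⌋ < ⌊x⌋ - ⌊y⌋ + 1 := by
    rw [Int.floor_lt]; push_cast; linarith
  omega

lemma cell_sub (p W : ℝ) (u v s t : ℕ) (hs : s ≤ u) (ht : t ≤ v) :
    cell p W (u - s) (v - t) = cell p W u v - cell p W s t ∨
      cell p W (u - s) (v - t) = cell p W u v - cell p W s t - 1 := by
  unfold cell
  have e : (((u - s : ℕ) : ℝ) - p * (((u - s : ℕ) : ℝ) + ((v - t : ℕ) : ℝ))) / W =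
      ((u : ℝ) - p * ((u : ℝ) + v)) / W - ((s : ℝ) - p * ((s : ℝ) + t)) / W := by
    rw [Nat.cast_sub hs, Nat.cast_sub ht]; ring
  rw [e]
  exact floor_sub_cases _ _

/-- the property of the path -/
def Wander (p : ℝ) (w : ℕ → ℕ) : Prop :=
  ∀ ε : ℝ, 0 < ε → ∀ N0 Q : ℕ, 0 < Q → ∃ W : ℝ, ∃ S : ℕ, ∀ q < Q, ∃ N, N0 ≤ N ∧ 0 < N ∧ N ≤ S ∧
    ∃ T : Finset ℕ, T ⊆ Finset.Icc 1 N ∧ (∀ n ∈ T, ⌊((cnt2 w n : ℝ) - p * n) / W⌋ = (q : ℤ)) ∧
      (1 - ε) * N ≤ T.card

theorem diverges_of_wander {p : ℝ} {w : ℕ → ℕ} (hw : ∀ i, w i = 2 ∨ w i = 3)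
    (hW : Wander p w) :
    ∃ U : Set UnitAddCircle, MeasurableSet U ∧
      ¬ ∀ᵐ x ∂vol, Tendsto (fun N : ℕ => (1 / (N : ℝ)) *
        ∑ n ∈ Finset.Icc 1 N, U.indicator (fun _ => (1 : ℝ)) ((∏ i ∈ Finset.range n, w i) • x))
          atTop (𝓝 (∫ y, U.indicator (fun _ => (1 : ℝ)) y ∂vol)) := by
  refine diverges _ (p0 := 1 / 4) (by norm_num) ?_
  intro ε hε N0
  obtain ⟨Q, hQ⟩ := exists_nat_gt (2 / ε)
  have hQ0 : 0 < Q := by
    rcases Nat.eq_zero_or_pos Q with h | h
    · rw [h] at hQ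
      have : 0 < 2 / ε := by positivity
      simp at hQ; linarith
    · exact h
  have hQr : (0 : ℝ) < Q := by exact_mod_cast hQ0
  obtain ⟨W, S, hS⟩ := hW ε hε N0 Q hQ0
  obtain ⟨A, G, hAm, hGm, hA, hG, hgood⟩ := markerC (cell p W) (cell_sub p W) Q S hQ0
  refine ⟨A, G, hAm, hGm, ?_, hG, ?_⟩
  · refine hA.trans ?_
    rw [div_le_iff₀ hQr]
    rw [div_lt_iff₀ hε] at hQ
    linarith
  · intro x hx
    obtain ⟨q, hq, hqA⟩ := hgood x hx
    obtain ⟨N, hN0, hN, hNS, T, hTs, hT, hcard⟩ := hS q hq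
    refine ⟨N, hN0, hN, T, hTs, ?_, hcard⟩
    intro n hn
    rw [prod_eq hw]
    have hnN := Finset.mem_Icc.1 (hTs hn)
    have hle := cnt2_le w n
    refine hqA _ _ (by omega) (by omega) ?_
    have e : cell p W (cnt2 w n) (n - cnt2 w n) = ⌊((cnt2 w n : ℝ) - p * n) / W⌋ := by
      unfold cell
      rw [Nat.cast_sub hle]
      congr 2
      ring
    rw [e, hT n hn]
    exact Int.emod_eq_of_lt (by positivity) (by exact_mod_cast hq)

/-- target positions, in units of the width -/
noncomputable def tgt (R : ℕ) (i : ℕ) : ℝ := if i ≤ 1 then 0 else (Nat.log R (i - 1) : ℝ) + 1 / 2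

lemma tgt_stay {R q i : ℕ} (h1 : R ^ q < i) (h2 : i ≤ R ^ (q + 1)) (hR : 0 < R) :
    tgt R i = q + 1 / 2 := by
  have hpos : 0 < R ^ q := pow_pos hR q
  unfold tgt
  rw [if_neg (by omega)]
  have : Nat.log R (i - 1) = q := Nat.log_eq_of_pow_le_of_lt_pow (by omega) (by omega)
  rw [this]

/-- number of bad times in a chunk -/
noncomputable def badc (s : ℕ → ℝ) (a m : ℕ) (η : ℝ) : ℕ :=
  by classical exact ((Finset.range m).filter (fun n => η < |s (a + n) - s a|)).card

/-- the chunk conditions imply long stays in windows -/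
theorem chunks (s : ℕ → ℝ) (R Q u m : ℕ) (η ε' : ℝ) (hR : 2 ≤ R) (hm : 0 < m)
    (hη : 0 < η) (hε' : 0 ≤ ε') (hu : |s u| ≤ (R ^ Q + 1) * η)
    (hE : ∀ i < R ^ Q, |s (u + (i + 1) * m) - s (u + i * m) -
      (tgt R (i + 1) - tgt R i) * (4 * (R ^ Q + 1) * η)| ≤ η)
    (hF : ∀ i < R ^ Q, tgt R (i + 1) = tgt R i → (badc s (u + i * m) m η : ℝ) ≤ ε' * m)
    (q : ℕ) (hq : q < Q) :
    ∃ T : Finset ℕ, T ⊆ Finset.Icc 1 (u + R ^ (q + 1) * m) ∧
      (∀ n ∈ T, ⌊s n / (4 * (R ^ Q + 1) * η)⌋ = (q : ℤ)) ∧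
      ((R : ℝ) ^ (q + 1) - R ^ q - 1) * ((1 - ε') * m) ≤ T.card := by
  classical
  set W : ℝ := 4 * ((R : ℝ) ^ Q + 1) * η with hWdef
  have hK0 : (0 : ℝ) < (R : ℝ) ^ Q := by positivity
  have hW : 0 < W := by positivity
  -- positions
  have hpos : ∀ i ≤ R ^ Q, |s (u + i * m) - s u - tgt R i * W| ≤ i * η := by
    intro i
    induction i with
    | zero => intro _; simp [tgt]
    | succ i ih =>
        intro hi
        have h1 := ih (by omega)
        have h2 := hE i (by omega)
        have e : s (u + (i + 1) * m) - s u - tgt R (i + 1) * W =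
          (s (u + (i + 1) * m) - s (u + i * m) - (tgt R (i + 1) - tgt R i) * W) +
            (s (u + i * m) - s u - tgt R i * W) := by ring
        rw [e]
        refine (abs_add_le _ _).trans ?_
        push_cast
        linarith
  have hRq : R ^ (q + 1) ≤ R ^ Q := Nat.pow_le_pow_right (by omega) (by omega)
  have hRlt : R ^ q + 1 ≤ R ^ (q + 1) := by
    have h0 : 0 < R ^ q := pow_pos (by omega) q
    calc R ^ q + 1 ≤ R ^ q + R ^ q := by omega
      _ = R ^ q * 2 := by ring
      _ ≤ R ^ q * R := Nat.mul_le_mul_left _ hR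
      _ = R ^ (q + 1) := by ring
  set I := Finset.Ioo (R ^ q) (R ^ (q + 1)) with hI
  set G : ℕ → Finset ℕ := fun i =>
    (Finset.range m).filter (fun n => ¬ (η < |s (u + i * m + n) - s (u + i * m)|)) with hG
  have hGcard : ∀ i ∈ I, (1 - ε') * m ≤ (G i).card := by
    intro i hi
    rw [hI, Finset.mem_Ioo] at hi
    have h1 := Finset.card_filter_add_card_filter_not (s := Finset.range m)
      (fun n => η < |s (u + i * m + n) - s (u + i * m)|)
    rw [Finset.card_range] at h1
    have h0 : 0 < R ^ q := pow_pos (by omega) q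
    have h2 := hF i (by omega) (by
      rw [tgt_stay (q := q) (by omega) (by omega) (by omega),
        tgt_stay (q := q) (by omega) (by omega) (by omega)])
    have h3 : badc s (u + i * m) m η =
        ((Finset.range m).filter (fun n => η < |s (u + i * m + n) - s (u + i * m)|)).card := by
      unfold badc
      congr
    rw [h3] at h2
    have h4 : (((Finset.range m).filter
      (fun n => η < |s (u + i * m + n) - s (u + i * m)|)).card : ℝ) + (G i).card = m := by
      exact_mod_cast h1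
    linarith
  refine ⟨(I.sigma G).image (fun x => u + x.1 * m + x.2), ?_, ?_, ?_⟩
  · intro n hn
    rw [Finset.mem_image] at hn
    obtain ⟨⟨i, n'⟩, hx, rfl⟩ := hn
    rw [Finset.mem_sigma] at hx
    obtain ⟨h1, h2⟩ := hx
    simp only [hI, Finset.mem_Ioo] at h1
    simp only [hG, Finset.mem_filter, Finset.mem_range] at h2
    rw [Finset.mem_Icc]
    have h0 : 0 < R ^ q := pow_pos (by omega) q
    constructor
    · have : 1 * 1 ≤ i * m := Nat.mul_le_mul (by omega) hm
      simp only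
      omega
    · have : (i + 1) * m ≤ R ^ (q + 1) * m := Nat.mul_le_mul_right _ (by omega)
      simp only
      nlinarith
  · intro n hn
    rw [Finset.mem_image] at hn
    obtain ⟨⟨i, n'⟩, hx, rfl⟩ := hn
    rw [Finset.mem_sigma] at hx
    obtain ⟨h1, h2⟩ := hx
    simp only [hI, Finset.mem_Ioo] at h1
    simp only [hG, Finset.mem_filter, Finset.mem_range, not_lt] at h2
    obtain ⟨h2, h3⟩ := h2
    have h4 := hpos i (by omega)
    rw [tgt_stay (q := q) (by omega) (by omega) (by omega)] at h4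
    have hiK : (i : ℝ) + 1 ≤ (R : ℝ) ^ Q := by
      have : i + 1 ≤ R ^ Q := by omega
      exact_mod_cast this
    have h5 : (i : ℝ) * η ≤ ((R : ℝ) ^ Q - 1) * η := by
      apply mul_le_mul_of_nonneg_right _ hη.le
      linarith
    rw [abs_le] at h3 h4 hu
    simp only
    rw [Int.floor_eq_iff]
    rw [le_div_iff₀ hW, div_lt_iff₀ hW]
    have hK1 : (1 : ℝ) ≤ (R : ℝ) ^ Q := one_le_pow₀ (by exact_mod_cast (by omega : 1 ≤ R))
    push_cast
    constructor
    · nlinarith
    · nlinarith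
  · rw [Finset.card_image_of_injOn, Finset.card_sigma]
    · push_cast
      calc ((R : ℝ) ^ (q + 1) - R ^ q - 1) * ((1 - ε') * m)
          = ∑ i ∈ I, ((1 - ε') * (m : ℝ)) := by
            rw [Finset.sum_const, hI, Nat.card_Ioo, nsmul_eq_mul]
            congr 1
            rw [Nat.cast_sub (by omega), Nat.cast_sub (by omega)]
            push_cast; ring
        _ ≤ _ := Finset.sum_le_sum hGcard
    · rintro ⟨i, n⟩ hx ⟨i', n'⟩ hx' h
      rw [Finset.mem_coe, Finset.mem_sigma] at hx hx'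
      simp only [hG, Finset.mem_filter, Finset.mem_range] at hx hx'
      simp only at h
      have hn := hx.2.1
      have hn' := hx'.2.1
      have h1 : i * m + n = i' * m + n' := by omega
      have hi : i = i' := by
        have e1 : (i * m + n) / m = i := by
          rw [Nat.add_comm, Nat.add_mul_div_right _ _ hm, Nat.div_eq_of_lt hn, zero_add]
        have e2 : (i' * m + n') / m = i' := by
          rw [Nat.add_comm, Nat.add_mul_div_right _ _ hm, Nat.div_eq_of_lt hn', zero_add]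
        rw [← e1, ← e2, h1]
      subst hi
      have : n = n' := by omega
      subst this
      rfl

end KhR
end Pool.Agent.V11318
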