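import Mathlib

/-!
Independence of events which depend on disjoint blocks of independent bits.
-/

namespace Pool.Agent.V11318
namespace KhR

open MeasureTheory Filter ProbabilityTheory
open scoped Topology ENNReal

/-- the predicate depends only on the first `M` bits -/
def Loc (M : ℕ) (C : (ℕ → Bool) → Prop) : Prop := ∀ x y, (∀ j < M, x j = y j) → (C x ↔ C y)

/-- the event that the bits after time `a` satisfy `C` -/
def ev {Ω : Type*} (b : ℕ → Ω → Bool) (a : ℕ) (C : (ℕ → Bool) → Prop) : Set Ω :=
  {ω | C (fun j => b (a + j) ω)}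

variable {Ω : Type*} [MeasurableSpace Ω] {P : Measure Ω} {b : ℕ → Ω → Bool}

lemma Loc.not {M : ℕ} {C : (ℕ → Bool) → Prop} (h : Loc M C) : Loc M (fun x => ¬ C x) := by
  intro x y hxy
  exact not_congr (h x y hxy)

lemma Loc.mono {M M' : ℕ} (hM : M ≤ M') {C : (ℕ → Bool) → Prop} (h : Loc M C) : Loc M' C :=
  fun x y hxy => h x y fun j hj => hxy j (by omega)

lemma Loc.shift {M a N : ℕ} (hN : a + M ≤ N) {C : (ℕ → Bool) → Prop} (h : Loc M C) :
    Loc N (fun x => C (fun j => x (a + j))) :=
  fun x y hxy => h _ _ fun j hj => hxy (a + j) (by omega)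

/-- extension of a vector of bits -/
def extv (S : Finset ℕ) (a : ℕ) (v : S → Bool) : ℕ → Bool :=
  fun j => if h : a + j ∈ S then v ⟨a + j, h⟩ else false

lemma ev_eq {a M : ℕ} {C : (ℕ → Bool) → Prop} (hC : Loc M C) (S : Finset ℕ)
    (hS : ∀ j < M, a + j ∈ S) :
    ev b a C = (fun ω (i : S) => b i ω) ⁻¹' {v | C (extv S a v)} := by
  ext ω
  simp only [ev, Set.mem_ofPred_eq, Set.mem_preimage]
  refine hC _ _ fun j hj => ?_
  unfold extv
  rw [dif_pos (hS j hj)]

lemma meas_ev (hb : ∀ i, Measurable (b i)) {a M : ℕ} {C : (ℕ → Bool) → Prop} (hC : Loc M C) :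
    MeasurableSet (ev b a C) := by
  rw [ev_eq hC (Finset.Ico a (a + M)) (fun j hj => by simp; omega)]
  have h1 : Measurable (fun ω (i : (Finset.Ico a (a + M) : Finset ℕ)) => b i ω) :=
    measurable_pi_lambda _ fun i => hb i
  exact h1 (MeasurableSet.of_discrete)

lemma ev_indep (hind : iIndepFun b P) (hb : ∀ i, Measurable (b i)) {a M : ℕ}
    {D C : (ℕ → Bool) → Prop} (hD : Loc a D) (hC : Loc M C) :
    P (ev b 0 D ∩ ev b a C) = P (ev b 0 D) * P (ev b a C) := by
  have h1 : Disjoint (Finset.range a) (Finset.Ico a (a + M)) := by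
    rw [Finset.disjoint_left]
    intro x hx hx'
    simp at hx hx'
    omega
  have h2 := hind.indepFun_finset (Finset.range a) (Finset.Ico a (a + M)) h1 hb
  rw [ev_eq (a := a) hC (Finset.Ico a (a + M)) (fun j hj => by simp; omega),
    ev_eq (a := 0) hD (Finset.range a) (fun j hj => by simp; omega)]
  exact h2.measure_inter_preimage_eq_mul _ _ MeasurableSet.of_discrete MeasurableSet.of_discrete

lemma ev_ident (hind : iIndepFun b P) (hb : ∀ i, Measurable (b i))
    (hid : ∀ i j, IdentDistrib (b i) (b j) P P) {a M : ℕ} {C : (ℕ → Bool) → Prop}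
    (hC : Loc M C) : P (ev b a C) = P (ev b 0 C) := by
  have h1 : iIndepFun (fun j => b (a + j)) P := hind.precomp (add_right_injective a)
  have h2 := IdentDistrib.pi (X := fun j => b (a + j)) (Y := fun j => b (0 + j))
    (fun j => hid (a + j) (0 + j)) h1 (by simpa using hind)
  have hm : MeasurableSet {x : ℕ → Bool | C x} := by
    have e : {x : ℕ → Bool | C x} =
        (fun x (i : (Finset.range M : Finset ℕ)) => x i) ⁻¹' {v | C (extv (Finset.range M) 0 v)} := by
      ext x
      simp only [Set.mem_ofPred_eq, Set.mem_preimage]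
      refine hC _ _ fun j hj => ?_
      unfold extv
      rw [dif_pos (by simpa using hj)]
      simp
    rw [e]
    have h3 : Measurable (fun (x : ℕ → Bool) (i : (Finset.range M : Finset ℕ)) => x i) :=
      measurable_pi_lambda _ fun i => measurable_pi_apply _
    exact h3 MeasurableSet.of_discrete
  exact h2.measure_preimage_eq hm

/-- independence of blocks -/
theorem ev_prod (hind : iIndepFun b P) (hb : ∀ i, Measurable (b i))
    (hid : ∀ i j, IdentDistrib (b i) (b j) P P) (a L : ℕ → ℕ) (ha0 : a 0 = 0)
    (ha : ∀ i, a (i + 1) = a i + L i) (C : ℕ → (ℕ → Bool) → Prop) (hC : ∀ i, Loc (L i) (C i))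
    (n : ℕ) :
    P (⋂ i ∈ Finset.range n, ev b (a i) (C i)) = ∏ i ∈ Finset.range n, P (ev b 0 (C i)) := by
  have hprob : IsProbabilityMeasure P := hind.isProbabilityMeasure
  have hmono : Monotone a := monotone_nat_of_le_succ fun i => by rw [ha]; omega
  induction n with
  | zero => simp
  | succ n ih =>
      rw [Finset.prod_range_succ, ← ih]
      have e1 : (⋂ i ∈ Finset.range (n + 1), ev b (a i) (C i)) =
          (⋂ i ∈ Finset.range n, ev b (a i) (C i)) ∩ ev b (a n) (C n) := by
        ext ω
        simp only [Set.mem_iInter, Finset.mem_range, Set.mem_inter_iff]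
        constructor
        · intro h
          exact ⟨fun i hi => h i (by omega), h n (by omega)⟩
        · rintro ⟨h, h'⟩ i hi
          rcases Nat.lt_succ_iff_lt_or_eq.1 hi with h3 | h3
          · exact h i h3
          · subst h3; exact h'
      have e2 : (⋂ i ∈ Finset.range n, ev b (a i) (C i)) =
          ev b 0 (fun x => ∀ i < n, C i (fun j => x (a i + j))) := by
        ext ω
        simp only [Set.mem_iInter, Finset.mem_range, ev, Set.mem_ofPred_eq, Nat.zero_add]
      have hloc : Loc (a n) (fun x => ∀ i < n, C i (fun j => x (a i + j))) := by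
        intro x y hxy
        refine forall_congr' fun i => forall_congr' fun hi => ?_
        refine hC i _ _ fun j hj => hxy _ ?_
        have := hmono (show i + 1 ≤ n by omega)
        rw [ha] at this
        omega
      rw [e1, e2, ev_indep hind hb hloc (hC n), ev_ident hind hb hid (hC n)]

end KhR
end Pool.Agent.V11318
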