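import Pool.Agent.V11103.KhinMarker

/-!
A marker lemma for the action of multiplication by `2` and `3` on the circle, for a general
almost additive function of the exponents, and a criterion for divergence of averages.
-/

namespace Pool.Agent.V11318
namespace KhR

open MeasureTheory Filter
open Pool.Agent.V11103.Khin
open scoped Topology ENNReal

/-- marked points -/
def MarkC (c : ℕ → ℕ → ℤ) (r : ℝ) (l Q : ℕ) (ρ : ℤ) : Set UnitAddCircle :=
  {x | ∃ u v, u + v ≤ l ∧ c u v % (Q : ℤ) = ρ % (Q : ℤ) ∧ x ∈ Fst r u v}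

lemma meas_MarkC (c : ℕ → ℕ → ℤ) (r : ℝ) (l Q : ℕ) (ρ : ℤ) :
    MeasurableSet (MarkC c r l Q ρ) := by
  have : MarkC c r l Q ρ = ⋃ u : ℕ, ⋃ v : ℕ,
      ⋃ (_ : u + v ≤ l ∧ c u v % (Q : ℤ) = ρ % (Q : ℤ)), Fst r u v := by
    ext x
    simp only [MarkC, Set.mem_ofPred_eq, Set.mem_iUnion, exists_prop, and_assoc]
  rw [this]
  exact MeasurableSet.iUnion fun u => MeasurableSet.iUnion fun v => MeasurableSet.iUnion
    fun _ => meas_Fst r u v

lemma MarkC_disj (c : ℕ → ℕ → ℤ) (r : ℝ) (l Q : ℕ) :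
    (↑(Finset.range Q) : Set ℕ).PairwiseDisjoint (fun ρ : ℕ => MarkC c r l Q (ρ : ℤ)) := by
  intro ρ hρ ρ' hρ' hne
  have h1 : ρ < Q := by simpa using hρ
  have h2 : ρ' < Q := by simpa using hρ'
  rw [Function.onFun, Set.disjoint_left]
  rintro x ⟨u, v, _, hu, hx⟩ ⟨u', v', _, hu', hx'⟩
  obtain ⟨rfl, rfl⟩ := Fst_unique hx hx'
  rw [Int.emod_eq_of_lt (a := (ρ : ℤ)) (by positivity) (by exact_mod_cast h1)] at hu
  rw [Int.emod_eq_of_lt (a := (ρ' : ℤ)) (by positivity) (by exact_mod_cast h2)] at hu'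
  exact hne (by exact_mod_cast hu.symm.trans hu')

lemma MarkC_sum (c : ℕ → ℕ → ℤ) (r : ℝ) (l Q : ℕ) :
    ∑ ρ ∈ Finset.range Q, vol.real (MarkC c r l Q (ρ : ℤ)) ≤ 1 := by
  have hp := vol_prob
  rw [← measureReal_biUnion_finset (MarkC_disj c r l Q) (fun ρ _ => meas_MarkC c r l Q ρ)]
  exact (measureReal_mono (Set.subset_univ _)).trans (by simp)

lemma MarkC_shift_sum (c : ℕ → ℕ → ℤ) (r : ℝ) (l Q : ℕ) :
    ∑ ρ ∈ Finset.range Q, vol.real (MarkC c r l Q ((ρ : ℤ) + 1)) ≤ 1 := by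
  rcases Nat.eq_zero_or_pos Q with h0 | h0
  · subst h0; simp
  obtain ⟨Q', rfl⟩ : ∃ Q', Q = Q' + 1 := ⟨Q - 1, by omega⟩
  have h1 := MarkC_sum c r l (Q' + 1)
  rw [Finset.sum_range_succ'] at h1
  rw [Finset.sum_range_succ]
  have h2 : MarkC c r l (Q' + 1) ((Q' : ℤ) + 1) = MarkC c r l (Q' + 1) ((0 : ℕ) : ℤ) := by
    unfold MarkC
    have : ((Q' : ℤ) + 1) % ((Q' + 1 : ℕ) : ℤ) = ((0 : ℕ) : ℤ) % ((Q' + 1 : ℕ) : ℤ) := by
      push_cast
      rw [Int.emod_self]; simp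
    rw [this]
  rw [h2]
  have h3 : ∀ ρ ∈ Finset.range Q', vol.real (MarkC c r l (Q' + 1) ((ρ : ℤ) + 1)) =
      vol.real (MarkC c r l (Q' + 1) (((ρ + 1 : ℕ)) : ℤ)) := by
    intro ρ _
    push_cast
    rfl
  rw [Finset.sum_congr rfl h3]
  exact h1

/-- **Marker lemma** for an almost additive function of the exponents -/
theorem markerC (c : ℕ → ℕ → ℤ)
    (hc : ∀ u v s t, s ≤ u → t ≤ v →
      c (u - s) (v - t) = c u v - c s t ∨ c (u - s) (v - t) = c u v - c s t - 1)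
    (Q S : ℕ) (hQ : 0 < Q) :
    ∃ A G : Set UnitAddCircle, MeasurableSet A ∧ MeasurableSet G ∧ vol.real A ≤ 2 / Q ∧
      1 / 4 ≤ vol.real G ∧
      ∀ y ∈ G, ∃ q < Q, ∀ s t, s ≤ S → t ≤ S → c s t % (Q : ℤ) = (q : ℤ) →
        (2 ^ s * 3 ^ t) • y ∈ A := by
  have hp := vol_prob
  have hlim : Tendsto (fun k : ℕ => (2 * (S : ℝ)) * (4 * (k * (1 / 2 : ℝ) ^ k) +
      (1 / 4 : ℝ) ^ k)) atTop (𝓝 0) := by
    have h1 := tendsto_self_mul_const_pow_of_lt_one (r := (1 / 2 : ℝ)) (by norm_num) (by norm_num)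
    have h2 := tendsto_pow_atTop_nhds_zero_of_lt_one (r := (1 / 4 : ℝ)) (by norm_num) (by norm_num)
    have := ((h1.const_mul 4).add h2).const_mul (2 * (S : ℝ))
    simpa using this
  obtain ⟨k, hk⟩ := ((hlim.eventually (gt_mem_nhds (show (0 : ℝ) < 1 / 12 by norm_num)))).exists
  set r : ℝ := 1 / (2 * 4 ^ k) with hrdef
  set l : ℕ := 4 * k * 2 ^ k with hl
  have h4 : (0 : ℝ) < 4 ^ k := by positivity
  have h41 : (1 : ℝ) ≤ 4 ^ k := one_le_pow₀ (by norm_num)
  have hr : (0 : ℝ) ≤ r := by positivity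
  have hr1 : 2 * r = 1 / 4 ^ k := by rw [hrdef]; field_simp
  have hr2 : 2 * r ≤ 1 := by
    rw [hr1, div_le_one h4]; exact h41
  have hlr : ((l : ℝ) + 1) * (2 * r) = 4 * (k * (1 / 2 : ℝ) ^ k) + (1 / 4 : ℝ) ^ k := by
    rw [hr1, hl]
    push_cast
    have : (4 : ℝ) ^ k = 2 ^ k * 2 ^ k := by rw [← mul_pow]; norm_num
    rw [one_div_pow, one_div_pow, this]
    field_simp
  rw [← hlr] at hk
  -- choice of the class
  obtain ⟨ρ, hρ, hρs⟩ : ∃ ρ ∈ Finset.range Q,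
      vol.real (MarkC c r l Q (ρ : ℤ)) + vol.real (MarkC c r l Q ((ρ : ℤ) + 1)) ≤ 2 / Q := by
    by_contra hcon
    push Not at hcon
    have hne : (Finset.range Q).Nonempty := ⟨0, Finset.mem_range.2 hQ⟩
    have h1 := Finset.sum_lt_sum_of_nonempty hne hcon
    rw [Finset.sum_const, Finset.card_range, nsmul_eq_mul, Finset.sum_add_distrib] at h1
    have h2 := MarkC_sum c r l Q
    have h3 := MarkC_shift_sum c r l Q
    have h5 : (Q : ℝ) * (2 / Q) = 2 := by
      have : (Q : ℝ) ≠ 0 := by exact_mod_cast hQ.ne'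
      field_simp
    linarith
  refine ⟨MarkC c r l Q (ρ : ℤ) ∪ MarkC c r l Q ((ρ : ℤ) + 1), Good r l S,
    (meas_MarkC _ _ _ _ _).union (meas_MarkC _ _ _ _ _), meas_Good _ _ _, ?_, ?_, ?_⟩
  · exact (measureReal_union_le _ _).trans hρs
  · have h1 := visit_lower k
    have hsub : (⋃ i ∈ Finset.range (2 ^ k) ×ˢ Finset.range (2 ^ k),
        Vis (1 / (2 * 4 ^ k)) (2 * k * i.1) (2 * k * i.2)) ⊆ Good r l S ∪ Strip r l S := by
      intro x hx
      simp only [Set.mem_iUnion, exists_prop] at hx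
      obtain ⟨i, hi, hx⟩ := hx
      rw [Finset.mem_product, Finset.mem_range, Finset.mem_range] at hi
      refine Good_or_Strip ?_ hx
      rw [hl]
      have a1 : 2 * k * i.1 ≤ 2 * k * 2 ^ k := Nat.mul_le_mul_left _ hi.1.le
      have a2 : 2 * k * i.2 ≤ 2 * k * 2 ^ k := Nat.mul_le_mul_left _ hi.2.le
      nlinarith
    have h2 := (measureReal_mono (μ := vol) hsub).trans (measureReal_union_le _ _)
    have h3 := vol_Strip_le hr hr2 l S
    have h4 : 2 * (S : ℝ) * (l + 1) * (2 * r) = 2 * S * (((l : ℝ) + 1) * (2 * r)) := by ring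
    linarith
  · intro y hy
    obtain ⟨u, v, h1, h2, h3, hx⟩ := hy
    have hQ' : (0 : ℤ) < Q := by exact_mod_cast hQ
    have hnn := Int.emod_nonneg (c u v - ((ρ : ℤ) + 1)) hQ'.ne'
    have hlt := Int.emod_lt_of_pos (c u v - ((ρ : ℤ) + 1)) hQ'
    obtain ⟨q, hq⟩ := Int.eq_ofNat_of_zero_le hnn
    refine ⟨q, by rw [hq] at hlt; exact_mod_cast hlt, fun s t hs ht hst => ?_⟩
    have hmod : c s t % (Q : ℤ) = (c u v - ((ρ : ℤ) + 1)) % (Q : ℤ) := by
      rw [hst, hq]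
    have hmod' : c s t ≡ c u v - ((ρ : ℤ) + 1) [ZMOD (Q : ℤ)] := hmod
    have hF := Fst_shift hx (s := s) (t := t) (by omega) (by omega)
    rcases hc u v s t (by omega) (by omega) with hc1 | hc1
    · right
      refine ⟨u - s, v - t, by omega, ?_, hF⟩
      rw [hc1]
      have := (Int.ModEq.refl (c u v)).sub hmod'
      have e : c u v - (c u v - ((ρ : ℤ) + 1)) = (ρ : ℤ) + 1 := by ring
      rw [e] at this
      exact this
    · left
      refine ⟨u - s, v - t, by omega, ?_, hF⟩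
      rw [hc1]
      have := ((Int.ModEq.refl (c u v)).sub hmod').sub (Int.ModEq.refl 1)
      have e : c u v - (c u v - ((ρ : ℤ) + 1)) - 1 = (ρ : ℤ) := by ring
      rw [e] at this
      exact this

/-- A criterion for divergence of averages of the indicator function of a set. -/
theorem diverges (lam : ℕ → ℕ) {p0 : ℝ} (hp0 : 0 < p0)
    (H : ∀ ε : ℝ, 0 < ε → ∀ N0 : ℕ, ∃ A G : Set UnitAddCircle, MeasurableSet A ∧
      MeasurableSet G ∧ vol.real A ≤ ε ∧ p0 ≤ vol.real G ∧ ∀ x ∈ G, ∃ N ≥ N0, 0 < N ∧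
        ∃ T : Finset ℕ, T ⊆ Finset.Icc 1 N ∧ (∀ n ∈ T, lam n • x ∈ A) ∧
          (1 - ε) * N ≤ T.card) :
    ∃ U : Set UnitAddCircle, MeasurableSet U ∧
      ¬ ∀ᵐ x ∂vol, Tendsto (fun N : ℕ => (1 / (N : ℝ)) *
        ∑ n ∈ Finset.Icc 1 N, U.indicator (fun _ => (1 : ℝ)) (lam n • x)) atTop
          (𝓝 (∫ y, U.indicator (fun _ => (1 : ℝ)) y ∂vol)) := by
  have hp := vol_prob
  have hε : ∀ i : ℕ, (0 : ℝ) < (1 / 2) ^ i * (1 / 8) := fun i => by positivity
  choose A G hAm hGm hA hG hx using fun i : ℕ => H ((1 / 2) ^ i * (1 / 8)) (hε i) i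
  set U : Set UnitAddCircle := ⋃ i, A i with hU
  have hUm : MeasurableSet U := MeasurableSet.iUnion hAm
  refine ⟨U, hUm, fun hae => ?_⟩
  have hUv : vol.real U ≤ 1 / 4 := by
    have h1 : vol U ≤ ENNReal.ofReal (1 / 4) := by
      calc vol U ≤ ∑' i, vol (A i) := measure_iUnion_le _
        _ ≤ ∑' i : ℕ, ENNReal.ofReal ((1 / 2) ^ i * (1 / 8)) := by
            refine ENNReal.tsum_le_tsum fun i => ?_
            rw [← ENNReal.ofReal_toReal (measure_ne_top vol (A i))]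
            exact ENNReal.ofReal_le_ofReal (hA i)
        _ = ENNReal.ofReal (∑' i : ℕ, (1 / 2) ^ i * (1 / 8)) := by
            rw [ENNReal.ofReal_tsum_of_nonneg (fun i => (hε i).le)]
            exact (summable_geometric_two).mul_right _
        _ = ENNReal.ofReal (1 / 4) := by
            rw [tsum_mul_right, tsum_geometric_two]; norm_num
    rw [Measure.real]
    exact ENNReal.toReal_le_of_le_ofReal (by norm_num) h1
  set B : ℕ → Set UnitAddCircle := fun m => ⋃ i, ⋃ (_ : m ≤ i), G i with hB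
  have hBm : ∀ m, MeasurableSet (B m) := fun m =>
    MeasurableSet.iUnion fun i => MeasurableSet.iUnion fun _ => hGm i
  have hBanti : Antitone B := by
    intro m m' hmm x hx
    simp only [hB, Set.mem_iUnion, exists_prop] at hx ⊢
    obtain ⟨i, hi, hxi⟩ := hx
    exact ⟨i, hmm.trans hi, hxi⟩
  have hlimB := tendsto_measure_iInter_atTop (μ := vol) (fun m => (hBm m).nullMeasurableSet)
    hBanti ⟨0, measure_ne_top _ _⟩
  have hge : ENNReal.ofReal p0 ≤ vol (⋂ m, B m) := by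
    refine ge_of_tendsto' hlimB fun m => ?_
    have h1 : vol (G m) ≤ vol (B m) := by
      refine measure_mono fun x hx => ?_
      simp only [hB, Set.mem_iUnion, exists_prop]
      exact ⟨m, le_rfl, hx⟩
    refine le_trans ?_ h1
    rw [← ENNReal.ofReal_toReal (measure_ne_top vol (G m))]
    exact ENNReal.ofReal_le_ofReal (hG m)
  have hpos : 0 < vol (⋂ m, B m) := lt_of_lt_of_le (ENNReal.ofReal_pos.2 hp0) hge
  have hI : ∫ y, U.indicator (fun _ => (1 : ℝ)) y ∂vol = vol.real U := by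
    rw [integral_indicator_const _ hUm]; simp
  obtain ⟨x, hxB, hxlim⟩ : ∃ x ∈ ⋂ m, B m, Tendsto (fun N : ℕ => (1 / (N : ℝ)) *
      ∑ n ∈ Finset.Icc 1 N, U.indicator (fun _ => (1 : ℝ)) (lam n • x)) atTop
        (𝓝 (∫ y, U.indicator (fun _ => (1 : ℝ)) y ∂vol)) := by
    by_contra hcon
    push Not at hcon
    have : vol (⋂ m, B m) = 0 := by
      refine measure_mono_null ?_ (ae_iff.1 hae)
      intro x hx
      exact hcon x hx
    exact hpos.ne' this
  rw [hI] at hxlim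
  have hlt : vol.real U < 1 / 2 := by linarith
  obtain ⟨N1, hN1⟩ := eventually_atTop.1 (hxlim.eventually (gt_mem_nhds hlt))
  have hxN := Set.mem_iInter.1 hxB N1
  simp only [hB, Set.mem_iUnion, exists_prop] at hxN
  obtain ⟨i, hi, hxi⟩ := hxN
  obtain ⟨N, hN, hNpos, T, hTsub, hT, hcard⟩ := hx i x hxi
  have h1 := hN1 N (hi.trans hN)
  have h2 : (T.card : ℝ) ≤ ∑ n ∈ Finset.Icc 1 N, U.indicator (fun _ => (1 : ℝ)) (lam n • x) := by
    calc (T.card : ℝ) = ∑ n ∈ T, U.indicator (fun _ => (1 : ℝ)) (lam n • x) := by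
          rw [Finset.sum_congr rfl (g := fun _ => (1 : ℝ))]
          · simp
          · intro n hn
            rw [Set.indicator_of_mem]
            exact Set.mem_iUnion.2 ⟨i, hT n hn⟩
      _ ≤ _ := Finset.sum_le_sum_of_subset_of_nonneg hTsub fun n _ _ =>
          Set.indicator_nonneg (fun _ _ => zero_le_one) _
  have hNR : (0 : ℝ) < N := by exact_mod_cast hNpos
  have h3 : (1 / 2 : ℝ) ^ i * (1 / 8) ≤ 1 / 8 := by
    have : (1 / 2 : ℝ) ^ i ≤ 1 := pow_le_one₀ (by norm_num) (by norm_num)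
    linarith
  have h4 : (1 - 1 / 8) * (N : ℝ) ≤ T.card := by
    refine le_trans ?_ hcard
    apply mul_le_mul_of_nonneg_right _ hNR.le
    linarith
  have h5 : (1 / (N : ℝ)) * T.card ≤ (1 / (N : ℝ)) *
      ∑ n ∈ Finset.Icc 1 N, U.indicator (fun _ => (1 : ℝ)) (lam n • x) :=
    mul_le_mul_of_nonneg_left h2 (by positivity)
  have h6 : (1 - 1 / 8 : ℝ) ≤ (1 / (N : ℝ)) * T.card := by
    have e : (1 / (N : ℝ)) * T.card = T.card / N := by ring
    rw [e, le_div_iff₀ hNR]; exact h4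
  linarith

end KhR
end Pool.Agent.V11318
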