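import Pool.Agent.V11318.KhRInd
import Mathlib

/-!
Moments and the central limit theorem for the walk driven by independent bits.
-/

namespace Pool.Agent.V11318
namespace KhR

open MeasureTheory Filter ProbabilityTheory
open scoped Topology ENNReal

/-- the centred value of a bit -/
noncomputable def cb (p : ℝ) (t : Bool) : ℝ := (if t = true then 1 else 0) - p

/-- the centred walk -/
noncomputable def sb (p : ℝ) (x : ℕ → Bool) (n : ℕ) : ℝ := ∑ j ∈ Finset.range n, cb p (x j)

lemma sb_shift (p : ℝ) (x : ℕ → Bool) (a n : ℕ) :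
    sb p (fun j => x (a + j)) n = sb p x (a + n) - sb p x a := by
  unfold sb
  rw [Finset.sum_range_add]
  ring

lemma sb_congr {p : ℝ} {x y : ℕ → Bool} {n : ℕ} (h : ∀ j < n, x j = y j) : sb p x n = sb p y n :=
  Finset.sum_congr rfl fun j hj => by rw [h j (Finset.mem_range.1 hj)]

variable {Ω : Type*} [MeasurableSpace Ω] {P : Measure Ω} {b : ℕ → Ω → Bool} {p : ℝ}

/-- the standing assumptions on the bits -/
structure Bits (P : Measure Ω) (b : ℕ → Ω → Bool) (p : ℝ) : Prop where
  p0 : 0 < p
  p1 : p < 1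
  meas : ∀ i, Measurable (b i)
  indep : iIndepFun b P
  prob : ∀ i, P {ω | b i ω = true} = ENNReal.ofReal p

namespace Bits

variable (h : Bits P b p)
include h

lemma ident (i j : ℕ) : IdentDistrib (b i) (b j) P P := by
  have := h.indep.isProbabilityMeasure
  refine ⟨(h.meas i).aemeasurable, (h.meas j).aemeasurable, ?_⟩
  have key : ∀ i, P.map (b i) {true} = ENNReal.ofReal p := by
    intro i
    rw [Measure.map_apply (h.meas i) (measurableSet_singleton _), ← h.prob i]
    rfl
  have key2 : ∀ i, P.map (b i) {false} = 1 - ENNReal.ofReal p := by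
    intro i
    have hp : IsProbabilityMeasure (P.map (b i)) :=
      Measure.isProbabilityMeasure_map (h.meas i).aemeasurable
    have e : ({false} : Set Bool) = {true}ᶜ := by ext t; cases t <;> simp
    rw [e, prob_compl_eq_one_sub (measurableSet_singleton _), key]
  refine Measure.ext_of_singleton fun t => ?_
  cases t
  · rw [key2, key2]
  · rw [key, key]

lemma meas_cb (i : ℕ) : Measurable (fun ω => cb p (b i ω)) :=
  (Measurable.of_discrete (f := cb p)).comp (h.meas i)

lemma cb_bound (t : Bool) : |cb p t| ≤ 1 := by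
  have h0 := h.p0
  have h1 := h.p1
  unfold cb
  rw [abs_le]
  cases t
  · simp; constructor <;> linarith
  · simp; constructor <;> linarith

lemma memLp (i : ℕ) : MemLp (fun ω => cb p (b i ω)) 2 P := by
  have := h.indep.isProbabilityMeasure
  exact MemLp.of_bound (h.meas_cb i).aestronglyMeasurable 1
    (Eventually.of_forall fun ω => by rw [Real.norm_eq_abs]; exact h.cb_bound _)

lemma int_ind (i : ℕ) : ∫ ω, (if b i ω = true then (1 : ℝ) else 0) ∂P = p := by
  have hp := h.indep.isProbabilityMeasure
  have e : (fun ω => if b i ω = true then (1 : ℝ) else 0) =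
      Set.indicator {ω | b i ω = true} (fun _ => (1 : ℝ)) := by
    ext ω
    by_cases hb : b i ω = true
    · rw [if_pos hb, Set.indicator_of_mem (by exact hb)]
    · rw [if_neg hb, Set.indicator_of_notMem (by exact hb)]
  have hm : MeasurableSet {ω | b i ω = true} := h.meas i (measurableSet_singleton true)
  rw [e, integral_indicator_const _ hm, Measure.real, h.prob, ENNReal.toReal_ofReal h.p0.le]
  simp

lemma integrable_ind (i : ℕ) : Integrable (fun ω => if b i ω = true then (1 : ℝ) else 0) P := by
  have hp := h.indep.isProbabilityMeasure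
  have h1 : Measurable (fun ω => if b i ω = true then (1 : ℝ) else 0) :=
    (Measurable.of_discrete (f := fun t : Bool => if t = true then (1 : ℝ) else 0)).comp (h.meas i)
  refine Integrable.of_bound h1.aestronglyMeasurable 1 (Eventually.of_forall fun ω => ?_)
  split_ifs <;> simp

lemma mean (i : ℕ) : ∫ ω, cb p (b i ω) ∂P = 0 := by
  have hp := h.indep.isProbabilityMeasure
  unfold cb
  rw [integral_sub (h.integrable_ind i) (integrable_const _), h.int_ind i]
  simp

lemma sq_mean (i : ℕ) : ∫ ω, (cb p (b i ω)) ^ 2 ∂P = p * (1 - p) := by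
  have hp := h.indep.isProbabilityMeasure
  have e : (fun ω => (cb p (b i ω)) ^ 2) =
      fun ω => (1 - 2 * p) * (if b i ω = true then (1 : ℝ) else 0) + p ^ 2 := by
    ext ω
    unfold cb
    split_ifs <;> ring
  rw [e, integral_add ((h.integrable_ind i).const_mul _) (integrable_const _),
    integral_const_mul, h.int_ind i]
  simp
  ring

lemma var (i : ℕ) : Var[fun ω => cb p (b i ω); P] = p * (1 - p) := by
  have hp := h.indep.isProbabilityMeasure
  rw [variance_eq_sub (h.memLp i)]
  have e : (∫ ω, ((fun ω => cb p (b i ω)) ^ 2) ω ∂P) = p * (1 - p) := h.sq_mean i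
  have e2 := h.mean i
  simp only [Pi.pow_apply] at e
  simp only [Pi.pow_apply, e, e2]
  ring

lemma indep_cb : iIndepFun (fun i ω => cb p (b i ω)) P :=
  h.indep.comp (fun _ => cb p) (fun _ => Measurable.of_discrete)

lemma walk_memLp (n : ℕ) : MemLp (fun ω => sb p (fun j => b (0 + j) ω) n) 2 P := by
  unfold sb
  refine memLp_finsetSum _ fun i _ => ?_
  simpa using h.memLp (0 + i)

lemma walk_mean (n : ℕ) : ∫ ω, sb p (fun j => b (0 + j) ω) n ∂P = 0 := by
  have hp := h.indep.isProbabilityMeasure
  unfold sb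
  rw [integral_finsetSum _ (fun i _ => (h.memLp (0 + i)).integrable (by norm_num))]
  exact Finset.sum_eq_zero fun i _ => h.mean _

lemma walk_var (n : ℕ) : Var[fun ω => sb p (fun j => b (0 + j) ω) n; P] ≤ n := by
  have hp := h.indep.isProbabilityMeasure
  have e : (fun ω => sb p (fun j => b (0 + j) ω) n) =
      ∑ j ∈ Finset.range n, fun ω => cb p (b j ω) := by
    ext ω
    unfold sb
    simp [Finset.sum_apply]
  rw [e, IndepFun.variance_sum (fun i _ => h.memLp i) (fun i _ j _ hij => h.indep_cb.indepFun hij)]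
  calc ∑ i ∈ Finset.range n, Var[fun ω => cb p (b i ω); P]
      ≤ ∑ i ∈ Finset.range n, (1 : ℝ) := by
        refine Finset.sum_le_sum fun i _ => ?_
        rw [h.var i]
        nlinarith [h.p0, h.p1]
    _ = n := by simp

lemma cheb (n : ℕ) {c : ℝ} (hc : 0 < c) :
    P {ω | c ≤ |sb p (fun j => b (0 + j) ω) n|} ≤ ENNReal.ofReal (n / c ^ 2) := by
  have hp := h.indep.isProbabilityMeasure
  have h1 := meas_ge_le_variance_div_sq (h.walk_memLp n) hc
  rw [h.walk_mean n] at h1
  simp only [sub_zero] at h1
  refine h1.trans (ENNReal.ofReal_le_ofReal ?_)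
  gcongr
  exact h.walk_var n

/-- lower bound from the central limit theorem -/
lemma clt (d : ℝ) {η : ℝ} (hη : 0 < η) : ∃ c : ℝ, 0 < c ∧ ∃ M0 : ℕ, ∀ m ≥ M0,
    ENNReal.ofReal c ≤ P {ω | |sb p (fun j => b (0 + j) ω) m - d * Real.sqrt m| ≤
      η * Real.sqrt m} := by
  have hp := h.indep.isProbabilityMeasure
  set v : NNReal := Var[fun ω => cb p (b 0 ω); P].toNNReal with hv
  have hvpos : v ≠ 0 := by
    rw [hv, h.var 0]
    have : 0 < p * (1 - p) := mul_pos h.p0 (by linarith [h.p1])
    intro h0
    rw [Real.toNNReal_eq_zero] at h0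
    linarith
  have hY : HasLaw (id : ℝ → ℝ) (gaussianReal 0 v) (gaussianReal 0 v) :=
    ⟨aemeasurable_id, by rw [Measure.map_id]⟩
  have hid : ∀ i, IdentDistrib (fun ω => cb p (b i ω)) (fun ω => cb p (b 0 ω)) P P := fun i =>
    (h.ident i 0).comp (u := cb p) Measurable.of_discrete
  have hclt := tendstoInDistribution_inv_sqrt_mul_sum_sub (X := fun i ω => cb p (b i ω)) hY
    (h.memLp 0) h.indep_cb hid
  have hopen : IsOpen (Set.Ioo (d - η) (d + η)) := isOpen_Ioo
  have hlim := ProbabilityMeasure.le_liminf_measure_open_of_tendsto hclt.tendsto hopen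
  simp only [ProbabilityMeasure.coe_mk] at hlim
  rw [Measure.map_id] at hlim
  have hpos : 0 < gaussianReal 0 v (Set.Ioo (d - η) (d + η)) := by
    rw [pos_iff_ne_zero]
    intro h0
    have h1 := gaussianReal_absolutelyContinuous' 0 hvpos h0
    rw [Real.volume_Ioo] at h1
    simp at h1
    linarith
  set g := gaussianReal 0 v (Set.Ioo (d - η) (d + η)) with hg
  have hgtop : g ≠ ⊤ := measure_ne_top _ _
  have hlt : ENNReal.ofReal (g.toReal / 2) < g := by
    have h2 : 0 < g.toReal := ENNReal.toReal_pos hpos.ne' hgtop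
    calc ENNReal.ofReal (g.toReal / 2) < ENNReal.ofReal g.toReal :=
          (ENNReal.ofReal_lt_ofReal_iff h2).2 (by linarith)
      _ = g := ENNReal.ofReal_toReal hgtop
  have hev := eventually_lt_of_lt_liminf (lt_of_lt_of_le hlt hlim)
  obtain ⟨M0, hM0⟩ := eventually_atTop.1 hev
  refine ⟨g.toReal / 2, half_pos (ENNReal.toReal_pos hpos.ne' hgtop), max M0 1, fun m hm => ?_⟩
  have hm0 : M0 ≤ m := (le_max_left _ _).trans hm
  have hm1 : 1 ≤ m := (le_max_right _ _).trans hm
  refine (hM0 m hm0).le.trans ?_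
  have hmeas : Measurable (fun ω => (Real.sqrt m)⁻¹ * (∑ k ∈ Finset.range m, cb p (b k ω) -
      m * ∫ ω, cb p (b 0 ω) ∂P)) := by
    refine Measurable.const_mul ?_ _
    refine Measurable.sub_const ?_ _
    exact Finset.measurable_fun_sum _ fun i _ => h.meas_cb i
  rw [Measure.map_apply hmeas hopen.measurableSet]
  refine measure_mono fun ω hω => ?_
  simp only [Set.mem_preimage, Set.mem_Ioo, h.mean 0, mul_zero, sub_zero] at hω
  simp only [Set.mem_ofPred_eq]
  have hs : 0 < Real.sqrt m := Real.sqrt_pos.2 (by exact_mod_cast hm1)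
  have e : sb p (fun j => b (0 + j) ω) m = ∑ k ∈ Finset.range m, cb p (b k ω) := by
    unfold sb; simp
  rw [e]
  obtain ⟨h1, h2⟩ := hω
  rw [inv_mul_eq_div] at h1 h2
  rw [lt_div_iff₀ hs] at h1
  rw [div_lt_iff₀ hs] at h2
  rw [abs_le]
  constructor <;> nlinarith

end Bits

end KhR
end Pool.Agent.V11318
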