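import Pool.Agent.V11318.KhRDet
import Pool.Agent.V11318.KhRMom

/-!
Almost every random walk wanders.
-/

namespace Pool.Agent.V11318
namespace KhR

open MeasureTheory Filter ProbabilityTheory
open scoped Topology ENNReal

/-- the chunk predicate -/
def CE (p : ℝ) (m : ℕ) (η δ ε' : ℝ) (x : ℕ → Bool) : Prop :=
  |sb p x m - δ| ≤ η ∧ (δ = 0 → (badc (sb p x) 0 m η : ℝ) ≤ ε' * m)

lemma CE_loc (p : ℝ) (m : ℕ) (η δ ε' : ℝ) : Loc m (CE p m η δ ε') := by
  intro x y hxy
  have h1 : sb p x m = sb p y m := sb_congr hxy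
  have h2 : badc (sb p x) 0 m η = badc (sb p y) 0 m η := by
    unfold badc
    congr 1
    refine Finset.filter_congr fun n hn => ?_
    have hn' := Finset.mem_range.1 hn
    rw [sb_congr (p := p) (x := x) (y := y) (n := 0 + n) (fun j hj => hxy j (by omega)),
      sb_congr (p := p) (x := x) (y := y) (n := 0) (fun j hj => hxy j (by omega))]
  unfold CE
  rw [h1, h2]

variable {Ω : Type*} [MeasurableSpace Ω] {P : Measure Ω} {b : ℕ → Ω → Bool} {p : ℝ}

namespace Bits

variable (h : Bits P b p)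
include h

lemma stay {m : ℕ} (hm : 0 < m) {η ε' : ℝ} (hη : 0 < η) (hε : 0 < ε') (hε1 : ε' ≤ 1)
    (hbig : 4 * (m : ℝ) ≤ ε' * η ^ 2) :
    ENNReal.ofReal (1 / 2) ≤ P (ev b 0 (CE p m η 0 ε')) := by
  classical
  have hp := h.indep.isProbabilityMeasure
  have hm' : (0 : ℝ) < m := by exact_mod_cast hm
  set B1 : Set Ω := {ω | η ≤ |sb p (fun j => b (0 + j) ω) m|} with hB1
  set bad : Ω → ℝ≥0∞ := fun ω => ∑ n ∈ Finset.range m,
    Set.indicator {ω | η ≤ |sb p (fun j => b (0 + j) ω) n|} (fun _ => (1 : ℝ≥0∞)) ω with hbad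
  have hms : ∀ n, MeasurableSet {ω | η ≤ |sb p (fun j => b (0 + j) ω) n|} := by
    intro n
    have h1 : Measurable fun ω => sb p (fun j => b (0 + j) ω) n := by
      unfold sb
      exact Finset.measurable_fun_sum _ fun i _ => by simpa using h.meas_cb (0 + i)
    exact measurableSet_le measurable_const h1.abs
  have hbm : Measurable bad := by
    refine Finset.measurable_fun_sum _ fun n _ => ?_
    exact measurable_const.indicator (hms n)
  have hint : ∫⁻ ω, bad ω ∂P ≤ ENNReal.ofReal (m * (m / η ^ 2)) := by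
    rw [hbad, lintegral_finsetSum _ (fun n _ => measurable_const.indicator (hms n))]
    calc ∑ n ∈ Finset.range m, ∫⁻ ω, Set.indicator {ω | η ≤ |sb p (fun j => b (0 + j) ω) n|}
          (fun _ => (1 : ℝ≥0∞)) ω ∂P
        ≤ ∑ n ∈ Finset.range m, ENNReal.ofReal (m / η ^ 2) := by
          refine Finset.sum_le_sum fun n hn => ?_
          rw [lintegral_indicator_const (hms n), one_mul]
          refine (h.cheb n hη).trans (ENNReal.ofReal_le_ofReal ?_)
          gcongr
          exact_mod_cast (Finset.mem_range.1 hn).le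
      _ = ENNReal.ofReal (m * (m / η ^ 2)) := by
          rw [Finset.sum_const, Finset.card_range, nsmul_eq_mul,
            ENNReal.ofReal_mul (by positivity), ENNReal.ofReal_natCast]
  set B2 : Set Ω := {ω | ENNReal.ofReal (ε' * m) ≤ bad ω} with hB2
  have hB2m : MeasurableSet B2 := measurableSet_le measurable_const hbm
  have hP1 : P B1 ≤ ENNReal.ofReal (1 / 4) := by
    refine (h.cheb m hη).trans (ENNReal.ofReal_le_ofReal ?_)
    rw [div_le_iff₀ (by positivity)]
    have : ε' * η ^ 2 ≤ 1 * η ^ 2 := mul_le_mul_of_nonneg_right hε1 (by positivity)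
    linarith
  have hP2 : P B2 ≤ ENNReal.ofReal (1 / 4) := by
    have h1 := mul_meas_ge_le_lintegral (μ := P) hbm (ENNReal.ofReal (ε' * m))
    have h2 := h1.trans hint
    have hεm : 0 < ε' * m := by positivity
    have h3 : ENNReal.ofReal (m * (m / η ^ 2)) ≤
        ENNReal.ofReal (ε' * m) * ENNReal.ofReal (1 / 4) := by
      rw [← ENNReal.ofReal_mul hεm.le]
      apply ENNReal.ofReal_le_ofReal
      have h4 : (m : ℝ) / η ^ 2 ≤ ε' / 4 := by
        rw [div_le_div_iff₀ (by positivity) (by norm_num)]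
        linarith
      calc (m : ℝ) * (m / η ^ 2) ≤ m * (ε' / 4) := mul_le_mul_of_nonneg_left h4 hm'.le
        _ = ε' * m * (1 / 4) := by ring
    have h5 := h2.trans h3
    have h6 : ENNReal.ofReal (ε' * m) ≠ 0 := by
      rw [Ne, ENNReal.ofReal_eq_zero]; linarith
    exact (ENNReal.mul_le_mul_iff_right h6 ENNReal.ofReal_ne_top).1 h5
  have hsub : (B1 ∪ B2)ᶜ ⊆ ev b 0 (CE p m η 0 ε') := by
    intro ω hω
    rw [Set.mem_compl_iff, Set.mem_union, not_or] at hω
    obtain ⟨h1, h2⟩ := hω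
    simp only [hB1, Set.mem_ofPred_eq, not_le] at h1
    simp only [hB2, Set.mem_ofPred_eq, not_le] at h2
    simp only [ev, CE, Set.mem_ofPred_eq, sub_zero]
    refine ⟨h1.le, fun _ => ?_⟩
    have h3 : ((badc (sb p fun j => b (0 + j) ω) 0 m η : ℕ) : ℝ≥0∞) ≤ bad ω := by
      unfold badc
      rw [Finset.card_filter]
      push_cast
      simp only [hbad]
      refine Finset.sum_le_sum fun n _ => ?_
      have e0 : sb p (fun j => b (0 + j) ω) 0 = 0 := by simp [sb]
      rw [e0, sub_zero, Nat.zero_add n]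
      split_ifs with hc
      · rw [Set.indicator_of_mem]
        exact hc.le
      · exact zero_le
    have h4 : ((badc (sb p fun j => b (0 + j) ω) 0 m η : ℕ) : ℝ≥0∞) < ENNReal.ofReal (ε' * m) :=
      lt_of_le_of_lt h3 h2
    rw [← ENNReal.ofReal_natCast, ENNReal.ofReal_lt_ofReal_iff (by positivity)] at h4
    exact h4.le
  have hB1m : MeasurableSet B1 := hms m
  have hU : P (B1 ∪ B2) ≤ ENNReal.ofReal (1 / 2) := by
    refine (measure_union_le _ _).trans ((add_le_add hP1 hP2).trans ?_)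
    rw [← ENNReal.ofReal_add (by norm_num) (by norm_num)]
    exact ENNReal.ofReal_le_ofReal (by norm_num)
  refine le_trans ?_ (measure_mono hsub)
  rw [prob_compl_eq_one_sub (hB1m.union hB2m)]
  calc ENNReal.ofReal (1 / 2) = 1 - ENNReal.ofReal (1 / 2) := by
        rw [← ENNReal.ofReal_one, ← ENNReal.ofReal_sub _ (by norm_num)]
        norm_num
    _ ≤ 1 - P (B1 ∪ B2) := tsub_le_tsub_left hU 1

lemma chunk_pos {h0 ε' : ℝ} (hh : 0 < h0) (hε : 0 < ε') (hε1 : ε' ≤ 1) (hbig : 4 ≤ ε' * h0 ^ 2)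
    (δ : ℝ) : ∃ c : ℝ, 0 < c ∧ ∃ M0 : ℕ, ∀ m ≥ M0,
      ENNReal.ofReal c ≤ P (ev b 0 (CE p m (h0 * Real.sqrt m) (δ * (h0 * Real.sqrt m)) ε')) := by
  by_cases hδ : δ = 0
  · refine ⟨1 / 2, by norm_num, 1, fun m hm => ?_⟩
    have hm' : (0 : ℝ) < m := by exact_mod_cast hm
    rw [hδ, zero_mul]
    refine h.stay hm (by positivity) hε hε1 ?_
    rw [mul_pow, Real.sq_sqrt hm'.le]
    nlinarith
  · obtain ⟨c, hc, M0, hM⟩ := h.clt (δ * h0) hh
    refine ⟨c, hc, max M0 1, fun m hm => ?_⟩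
    have hm0 : M0 ≤ m := (le_max_left _ _).trans hm
    have hm1 : 1 ≤ m := (le_max_right _ _).trans hm
    have hs : 0 < Real.sqrt m := Real.sqrt_pos.2 (by exact_mod_cast hm1)
    refine (hM m hm0).trans (measure_mono fun ω hω => ?_)
    simp only [Set.mem_ofPred_eq] at hω
    simp only [ev, CE, Set.mem_ofPred_eq]
    refine ⟨by rwa [← mul_assoc], fun hz => ?_⟩
    exfalso
    have : δ * (h0 * Real.sqrt m) ≠ 0 := mul_ne_zero hδ (by positivity)
    exact this hz

end Bits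

/-- the scale predicate -/
def SC (p : ℝ) (R Q : ℕ) (h0 ε' : ℝ) (m : ℕ) (x : ℕ → Bool) : Prop :=
  ∀ i < R ^ Q, CE p m (h0 * Real.sqrt m)
    (((tgt R (i + 1) - tgt R i) * (4 * ((R : ℝ) ^ Q + 1))) * (h0 * Real.sqrt m)) ε'
      (fun j => x (i * m + j))

lemma SC_loc (p : ℝ) (R Q : ℕ) (h0 ε' : ℝ) (m : ℕ) :
    Loc (R ^ Q * m) (SC p R Q h0 ε' m) := by
  intro x y hxy
  refine forall_congr' fun i => forall_congr' fun hi => ?_
  refine CE_loc _ _ _ _ _ _ _ fun j hj => hxy _ ?_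
  have : (i + 1) * m ≤ R ^ Q * m := Nat.mul_le_mul_right _ hi
  have e : (i + 1) * m = i * m + m := by ring
  omega

namespace Bits

variable (h : Bits P b p)
include h

lemma scale_pos (R Q : ℕ) {h0 ε' : ℝ} (hh : 0 < h0) (hε : 0 < ε') (hε1 : ε' ≤ 1)
    (hbig : 4 ≤ ε' * h0 ^ 2) : ∃ c : ℝ, 0 < c ∧ ∃ M0 : ℕ, ∀ m ≥ M0,
      ENNReal.ofReal c ≤ P (ev b 0 (SC p R Q h0 ε' m)) := by
  choose c hc M hM using fun i : ℕ =>
    h.chunk_pos hh hε hε1 hbig ((tgt R (i + 1) - tgt R i) * (4 * ((R : ℝ) ^ Q + 1)))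
  refine ⟨∏ i ∈ Finset.range (R ^ Q), c i, Finset.prod_pos fun i _ => hc i,
    ∑ i ∈ Finset.range (R ^ Q), M i, fun m hm => ?_⟩
  have h1 := ev_prod (P := P) (b := b) h.indep h.meas h.ident (fun i => i * m) (fun _ => m)
    (by simp) (fun i => by ring) (fun i => CE p m (h0 * Real.sqrt m)
    (((tgt R (i + 1) - tgt R i) * (4 * ((R : ℝ) ^ Q + 1))) * (h0 * Real.sqrt m)) ε')
    (fun i => CE_loc _ _ _ _ _) (R ^ Q)
  have h2 : ev b 0 (SC p R Q h0 ε' m) = ⋂ i ∈ Finset.range (R ^ Q), ev b (i * m)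
      (CE p m (h0 * Real.sqrt m)
        (((tgt R (i + 1) - tgt R i) * (4 * ((R : ℝ) ^ Q + 1))) * (h0 * Real.sqrt m)) ε') := by
    ext ω
    simp only [ev, SC, Set.mem_iInter, Finset.mem_range, Set.mem_ofPred_eq, Nat.zero_add]
  rw [h2, h1, ENNReal.ofReal_prod_of_nonneg (fun i _ => (hc i).le)]
  refine Finset.prod_le_prod' fun i hi => ?_
  refine hM i m (le_trans ?_ hm)
  exact Finset.single_le_sum (f := M) (fun _ _ => Nat.zero_le _) hi

/-- almost surely some scale is good -/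
lemma exists_scale (R Q : ℕ) {h0 ε' : ℝ} (hh : 0 < h0) (hε : 0 < ε') (hε1 : ε' ≤ 1)
    (hbig : 4 ≤ ε' * h0 ^ 2) (N0 E : ℕ) :
    ∀ᵐ ω ∂P, ∃ u m : ℕ, N0 ≤ m ∧ 1 ≤ m ∧ E * u ^ 2 ≤ m ∧
      SC p R Q h0 ε' m (fun j => b (u + j) ω) := by
  have hprob := h.indep.isProbabilityMeasure
  obtain ⟨c, hc, M0, hM⟩ := h.scale_pos R Q hh hε hε1 hbig
  set mm : ℕ → ℕ := fun u => M0 + N0 + 1 + E * u ^ 2 with hmm
  set uu : ℕ → ℕ := fun l => Nat.rec 0 (fun _ u => u + R ^ Q * mm u) l with huu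
  have huu0 : uu 0 = 0 := rfl
  have huus : ∀ l, uu (l + 1) = uu l + R ^ Q * mm (uu l) := fun l => rfl
  have hprod := fun n => ev_prod (P := P) (b := b) h.indep h.meas h.ident uu
    (fun l => R ^ Q * mm (uu l)) huu0 huus (fun l x => ¬ SC p R Q h0 ε' (mm (uu l)) x)
    (fun l => (SC_loc _ _ _ _ _ _).not) n
  have hle : ∀ l, P (ev b 0 (fun x => ¬ SC p R Q h0 ε' (mm (uu l)) x)) ≤
      1 - ENNReal.ofReal c := by
    intro l
    have e : ev b 0 (fun x => ¬ SC p R Q h0 ε' (mm (uu l)) x) =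
        (ev b 0 (SC p R Q h0 ε' (mm (uu l))))ᶜ := by
      ext ω; simp [ev]
    rw [e, prob_compl_eq_one_sub (meas_ev h.meas (SC_loc _ _ _ _ _ _))]
    exact tsub_le_tsub_left (hM _ (by simp only [hmm]; omega)) 1
  have hlt : (1 : ℝ≥0∞) - ENNReal.ofReal c < 1 := by
    apply ENNReal.sub_lt_self ENNReal.one_ne_top one_ne_zero
    rw [Ne, ENNReal.ofReal_eq_zero]; linarith
  have hnull : P (⋂ l, ev b (uu l) (fun x => ¬ SC p R Q h0 ε' (mm (uu l)) x)) = 0 := by
    have h1 : ∀ n : ℕ, P (⋂ l, ev b (uu l) (fun x => ¬ SC p R Q h0 ε' (mm (uu l)) x)) ≤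
        (1 - ENNReal.ofReal c) ^ n := by
      intro n
      calc P (⋂ l, ev b (uu l) (fun x => ¬ SC p R Q h0 ε' (mm (uu l)) x))
          ≤ P (⋂ l ∈ Finset.range n, ev b (uu l) (fun x => ¬ SC p R Q h0 ε' (mm (uu l)) x)) :=
            measure_mono fun ω hω => by
              simp only [Set.mem_iInter] at hω ⊢
              exact fun i _ => hω i
        _ = ∏ l ∈ Finset.range n, P (ev b 0 (fun x => ¬ SC p R Q h0 ε' (mm (uu l)) x)) :=
            hprod n
        _ ≤ ∏ l ∈ Finset.range n, (1 - ENNReal.ofReal c) :=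
            Finset.prod_le_prod' fun l _ => hle l
        _ = (1 - ENNReal.ofReal c) ^ n := by simp
    have h2 := ENNReal.tendsto_pow_atTop_nhds_zero_of_lt_one hlt
    exact le_antisymm (ge_of_tendsto' h2 h1) zero_le
  have hae : ∀ᵐ ω ∂P, ω ∉ ⋂ l, ev b (uu l) (fun x => ¬ SC p R Q h0 ε' (mm (uu l)) x) :=
    measure_eq_zero_iff_ae_notMem.1 hnull
  filter_upwards [hae] with ω hω
  simp only [Set.mem_iInter, not_forall] at hω
  obtain ⟨l, hl⟩ := hω
  simp only [ev, Set.mem_ofPred_eq, not_not] at hl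
  exact ⟨uu l, mm (uu l), by simp only [hmm]; omega, by simp only [hmm]; omega,
    by simp only [hmm]; omega, hl⟩

/-- the wandering property, in terms of bits -/
lemma wander_aux (k N0 Q : ℕ) :
    ∀ᵐ ω ∂P, ∃ W : ℝ, ∃ S : ℕ, ∀ q < Q, ∃ N, N0 ≤ N ∧ 0 < N ∧ N ≤ S ∧
    ∃ T : Finset ℕ, T ⊆ Finset.Icc 1 N ∧
      (∀ n ∈ T, ⌊(sb p (fun j => b (0 + j) ω) n) / W⌋ = (q : ℤ)) ∧
      (1 - 1 / ((k : ℝ) + 1)) * N ≤ T.card := by
  set κ : ℝ := (k : ℝ) + 1 with hκ
  have hκ1 : 1 ≤ κ := by rw [hκ]; linarith [(Nat.cast_nonneg k : (0 : ℝ) ≤ k)]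
  set ε' : ℝ := 1 / (4 * κ) with hε'
  have hε'0 : 0 < ε' := by positivity
  have hε'1 : ε' ≤ 1 := by
    rw [hε', div_le_one (by positivity)]; linarith
  set R : ℕ := 8 * (k + 1) with hR
  have hRr : (R : ℝ) = 8 * κ := by rw [hR, hκ]; push_cast; ring
  set h0 : ℝ := 4 * κ with hh0
  have hh0p : 0 < h0 := by positivity
  have hε'' : ε' = 1 / (4 * κ) := by rw [hε', hh0]
  have hbig : 4 ≤ ε' * h0 ^ 2 := by
    have : ε' * h0 ^ 2 = 4 * κ := by rw [hε', hh0]; field_simp
    rw [this]; linarith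
  filter_upwards [h.exists_scale R Q hh0p hε'0 hε'1 hbig N0 (4 * (k + 1))] with ω hω
  obtain ⟨u, m, hN0, hm, hE, hSC⟩ := hω
  have hmr : (1 : ℝ) ≤ m := by exact_mod_cast hm
  have hs : 0 < Real.sqrt m := Real.sqrt_pos.2 (by linarith)
  set η : ℝ := h0 * Real.sqrt m with hη
  have hηp : 0 < η := by positivity
  set s : ℕ → ℝ := fun n => sb p (fun j => b (0 + j) ω) n with hs'
  have hsh : ∀ a n, sb p (fun j => b (a + j) ω) n = s (a + n) - s a := by
    intro a n
    have := sb_shift p (fun j => b (0 + j) ω) a n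
    simp only [hs']
    simp only [Nat.zero_add] at this ⊢
    exact this
  have hEr : 4 * κ * (u : ℝ) ^ 2 ≤ m := by
    have : ((4 * (k + 1) * u ^ 2 : ℕ) : ℝ) ≤ m := by exact_mod_cast hE
    push_cast at this
    rw [hκ]; linarith
  have hu2 : (u : ℝ) ^ 2 ≤ m := by nlinarith [sq_nonneg (u : ℝ)]
  have husq : (u : ℝ) ≤ Real.sqrt m := Real.le_sqrt_of_sq_le hu2
  have hsu : |s u| ≤ u := by
    simp only [hs', sb]
    refine (Finset.abs_sum_le_sum_abs _ _).trans ?_
    calc ∑ j ∈ Finset.range u, |cb p (b (0 + j) ω)| ≤ ∑ j ∈ Finset.range u, (1 : ℝ) :=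
          Finset.sum_le_sum fun j _ => h.cb_bound _
      _ = u := by simp
  have hRQ : (0 : ℝ) < (R : ℝ) ^ Q := by rw [hRr]; positivity
  have hueps : (u : ℝ) ≤ ε' * m := by
    rcases Nat.eq_zero_or_pos u with hu0 | hu0
    · rw [hu0]; push_cast; positivity
    · have hu1 : (1 : ℝ) ≤ u := by exact_mod_cast hu0
      have h1 : (u : ℝ) ≤ (u : ℝ) ^ 2 := by nlinarith
      have h2 : 4 * κ * (u : ℝ) ≤ m := by nlinarith
      rw [hε', div_mul_eq_mul_div, one_mul, le_div_iff₀ (by positivity)]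
      linarith
  have key := chunks s R Q u m η ε' (by omega) (by omega) hηp hε'0.le ?_ ?_ ?_
  · refine ⟨4 * ((R : ℝ) ^ Q + 1) * η, u + R ^ Q * m, fun q hq => ?_⟩
    obtain ⟨T, hT1, hT2, hT3⟩ := key q hq
    have hRpow : R ^ (q + 1) ≤ R ^ Q := Nat.pow_le_pow_right (by omega) (by omega)
    have hRpos : 0 < R ^ (q + 1) := pow_pos (by omega) _
    have hge : m ≤ R ^ (q + 1) * m := Nat.le_mul_of_pos_left _ hRpos
    refine ⟨u + R ^ (q + 1) * m, by omega, by omega, ?_, T, hT1, hT2, ?_⟩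
    · have := Nat.mul_le_mul_right m hRpow
      omega
    · refine le_trans ?_ hT3
      set A : ℝ := (R : ℝ) ^ (q + 1) with hA
      have hB : (R : ℝ) ^ q = A / R := by
        rw [hA, pow_succ]
        have : (R : ℝ) ≠ 0 := by rw [hRr]; positivity
        field_simp
      have hq1 : (1 : ℝ) ≤ (R : ℝ) ^ q := one_le_pow₀ (by rw [hRr]; linarith)
      have hR2 : (R : ℝ) ^ q + 1 ≤ ε' * A := by
        have e : ε' * A = 2 * (R : ℝ) ^ q := by
          rw [hB, hRr, hε'']; field_simp; ring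
        rw [e]; linarith
      have hA0 : 1 ≤ A := one_le_pow₀ (by rw [hRr]; linarith)
      have e1 : (1 : ℝ) / κ = 4 * ε' := by rw [hε'']; field_simp
      rw [e1]
      push_cast
      rw [← hA]
      have h5 : ε' * (m : ℝ) ≤ ε' * (A * m) := by
        apply mul_le_mul_of_nonneg_left _ hε'0.le
        nlinarith
      have h6 : (u : ℝ) + A * m ≤ (1 + ε') * (A * m) := by linarith
      have hAm : 0 < A * m := by positivity
      rcases le_or_gt (1 - 4 * ε') 0 with h7 | h7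
      · have h8 : (1 - 4 * ε') * ((u : ℝ) + A * m) ≤ 0 :=
          mul_nonpos_of_nonpos_of_nonneg h7 (by positivity)
        refine h8.trans (mul_nonneg ?_ (mul_nonneg (by linarith) (by linarith)))
        nlinarith
      · calc (1 - 4 * ε') * ((u : ℝ) + A * m) ≤ (1 - 4 * ε') * ((1 + ε') * (A * m)) :=
              mul_le_mul_of_nonneg_left h6 h7.le
          _ ≤ ((1 - ε') * A) * ((1 - ε') * m) := by
              have : (1 - 4 * ε') * (1 + ε') ≤ (1 - ε') * (1 - ε') := by nlinarith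
              nlinarith
          _ ≤ (A - (R : ℝ) ^ q - 1) * ((1 - ε') * m) := by
              apply mul_le_mul_of_nonneg_right _ (mul_nonneg (by linarith) (by linarith))
              linarith
  · refine hsu.trans ?_
    have h1 : (u : ℝ) ≤ η := by
      rw [hη, hh0]
      nlinarith
    nlinarith
  · intro i hi
    have h1 := (hSC i hi).1
    have e : (fun j => b (u + (i * m + j)) ω) = fun j => b ((u + i * m) + j) ω := by
      ext j; rw [add_assoc]
    rw [e, hsh] at h1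
    rw [show u + (i + 1) * m = u + i * m + m by ring]
    have e2 : (tgt R (i + 1) - tgt R i) * (4 * ((R : ℝ) ^ Q + 1) * η) =
      ((tgt R (i + 1) - tgt R i) * (4 * ((R : ℝ) ^ Q + 1))) * (h0 * Real.sqrt m) := by
        rw [hη]; ring
    rw [e2]
    exact h1
  · intro i hi hti
    have h1 := (hSC i hi).2 (by rw [hti]; ring)
    have e : (fun j => b (u + (i * m + j)) ω) = fun j => b ((u + i * m) + j) ω := by
      ext j; rw [add_assoc]
    rw [e] at h1
    have e2 : badc (sb p (fun j => b ((u + i * m) + j) ω)) 0 m η = badc s (u + i * m) m η := by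
      unfold badc
      congr 1
      refine Finset.filter_congr fun n _ => ?_
      rw [hsh, hsh]
      simp
    rw [← e2]
    exact h1

end Bits

end KhR
end Pool.Agent.V11318
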