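import Pool.Agent.V11318.MirSys

namespace Pool.Agent.V11318.Mir

open MeasureTheory Filter Topology Set
open scoped ENNReal ContDiff

variable (P : Par)

theorem comp_mem (l : List ℕ) (x : ℝ) (h0 : -1 < x) (h1 : x < 2) :
    -1 < comp (u P) l x ∧ comp (u P) l x < 2 := by
  induction l with
  | nil => exact ⟨h0, h1⟩
  | cons a l ih =>
    have h := u_rng P a _ ih.1.le ih.2.le
    have hc := c_pos P a
    have hc' := c_le P a
    have := al_bd a
    show -1 < u P a (comp (u P) l x) ∧ u P a (comp (u P) l x) < 2
    constructor <;> linarith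

theorem comp_mem' (l : List ℕ) (x : ℝ) (h0 : 0 ≤ x) (h1 : x ≤ 1) :
    0 ≤ comp (u P) l x ∧ comp (u P) l x ≤ 1 := by
  induction l with
  | nil => exact ⟨h0, h1⟩
  | cons a l ih =>
    have h := u_rng' P a _ ih.1 ih.2
    have hc := c_pos P a
    have hc' := c_le P a
    have := al_bd a
    show 0 ≤ u P a (comp (u P) l x) ∧ u P a (comp (u P) l x) ≤ 1
    constructor <;> linarith

noncomputable def D : List ℕ → ℝ → ℝ
  | [], _ => 1
  | (a :: l), x => c P a * prof P a (comp (u P) l x) * D l x

theorem comp_deriv (l : List ℕ) (x : ℝ) : HasDerivAt (comp (u P) l) (D P l x) x := by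
  induction l with
  | nil => exact hasDerivAt_id x
  | cons a l ih => exact (u_deriv P a (comp (u P) l x)).comp x ih

theorem prof_pos (a : ℕ) (x : ℝ) : 0 < prof P a x :=
  lt_of_lt_of_le (kap_pos P) (prof_bd P a x).1

theorem D_pos (l : List ℕ) (x : ℝ) : 0 < D P l x := by
  induction l with
  | nil => exact one_pos
  | cons a l ih => exact mul_pos (mul_pos (c_pos P a) (prof_pos P a _)) ih

theorem D_dist (l : List ℕ) (x y : ℝ) (h0 : -1 < x) (h1 : x < 2) (g0 : -1 < y) (g1 : y < 2) :
    kap P * D P l x ≤ D P l y := by
  induction l with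
  | nil => simp only [D]; linarith [kap_lt P]
  | cons a l ih =>
    match l, ih with
    | [], _ =>
      simp only [D, mul_one, comp, id]
      have a1 := (prof_bd P a x).2
      have a2 := (prof_bd P a y).1
      have a3 := c_pos P a
      have a4 := kap_pos P
      have : kap P * prof P a x ≤ prof P a y := by nlinarith
      nlinarith
    | (b :: l'), ih =>
      have hx := comp_mem P l' x h0 h1
      have hy := comp_mem P l' y g0 g1
      have e1 : prof P a (comp (u P) (b :: l') x) = mu P a b :=
        prof_reg P a b _ (u_memReg P b _ hx.1.le hx.2.le)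
      have e2 : prof P a (comp (u P) (b :: l') y) = mu P a b :=
        prof_reg P a b _ (u_memReg P b _ hy.1.le hy.2.le)
      show kap P * (c P a * prof P a (comp (u P) (b :: l') x) * D P (b :: l') x) ≤
        c P a * prof P a (comp (u P) (b :: l') y) * D P (b :: l') y
      rw [e1, e2]
      have := sg_pos P a b
      unfold sg at this
      calc kap P * (c P a * mu P a b * D P (b :: l') x)
          = (c P a * mu P a b) * (kap P * D P (b :: l') x) := by ring
        _ ≤ _ := mul_le_mul_of_nonneg_left ih this.le

theorem isCIFS : IsCIFS ℕ (Icc 0 1) (Ioo (-1) 2) (u P) where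
  countable := inferInstance
  X_nonempty := ⟨0, by simp⟩
  X_compact := isCompact_Icc
  X_closure := by rw [interior_Icc, closure_Ioo (by norm_num)]
  maps_X := by
    intro a x hx
    exact comp_mem' P [a] x hx.1 hx.2
  X_sub := by
    intro x hx
    exact ⟨by linarith [hx.1], by linarith [hx.2]⟩
  V_open := isOpen_Ioo
  V_conn := isConnected_Ioo (by norm_num)
  V_bdd := Metric.isBounded_Ioo _ _
  V_dist := by
    refine ⟨1, one_pos, ?_⟩
    intro x hx y hy
    rw [Real.dist_eq, le_abs]
    by_cases h : -1 < y
    · have : ¬ y < 2 := fun h2 => hy ⟨h, h2⟩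
      right; linarith [hx.2]
    · left; linarith [hx.1]
  maps_V := by
    intro a x hx
    exact comp_mem P [a] x hx.1 hx.2
  homeo := by
    intro a
    have h1 : IsOpenMap (u P a) := by
      refine isOpenMap_of_hasStrictDerivAt (f' := fun x => c P a * prof P a x) ?_ ?_
      · intro x
        have := (u_smooth P a).contDiffAt (x := x)
        have h2 := this.hasStrictDerivAt (by simp)
        rwa [(u_deriv P a x).deriv] at h2
      · intro x
        exact (mul_pos (c_pos P a) (prof_pos P a x)).ne'
    have h2 : IsOpenEmbedding (u P a) :=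
      IsOpenEmbedding.of_continuous_injective_isOpenMap (u_smooth P a).continuous
        (u_mono P a).injective h1
    exact h2.comp isOpen_Ioo.isOpenEmbedding_subtypeVal
  smooth := fun a => (u_smooth P a).contDiffOn
  conf := by
    intro a x _
    rw [(u_deriv P a x).deriv]
    exact (mul_pos (c_pos P a) (prof_pos P a x)).ne'
  cone := by
    refine ⟨1/2, by norm_num, ?_⟩
    intro x hx r h0 h1
    rw [le_div_iff₀ h0]
    by_cases h : x ≤ 1/2
    · have hs : Ico x (x + r/2) ⊆ Icc 0 1 ∩ Metric.ball x r := by
        intro y hy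
        refine ⟨⟨by linarith [hx.1, hy.1], by linarith [hy.2]⟩, ?_⟩
        rw [Metric.mem_ball, Real.dist_eq, abs_lt]
        constructor <;> linarith [hy.1, hy.2]
      have h2 := measure_mono (μ := (volume : Measure ℝ)) hs
      have h3 : volume (Icc 0 1 ∩ Metric.ball x r) ≠ ⊤ := by
        refine ne_top_of_le_ne_top ?_ (measure_mono inter_subset_left)
        simp
      have h4 := ENNReal.toReal_mono h3 h2
      rw [Real.volume_Ico, ENNReal.toReal_ofReal (by linarith)] at h4
      linarith
    · have hs : Ioc (x - r/2) x ⊆ Icc 0 1 ∩ Metric.ball x r := by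
        intro y hy
        push Not at h
        refine ⟨⟨by linarith [hx.1, hy.1], by linarith [hy.2, hx.2]⟩, ?_⟩
        rw [Metric.mem_ball, Real.dist_eq, abs_lt]
        constructor <;> linarith [hy.1, hy.2]
      have h2 := measure_mono (μ := (volume : Measure ℝ)) hs
      have h3 : volume (Icc 0 1 ∩ Metric.ball x r) ≠ ⊤ := by
        refine ne_top_of_le_ne_top ?_ (measure_mono inter_subset_left)
        simp
      have h4 := ENNReal.toReal_mono h3 h2
      rw [Real.volume_Ioc, ENNReal.toReal_ofReal (by linarith)] at h4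
      linarith
  osc := by
    have key : ∀ a b, a < b → Disjoint (u P a '' interior (Icc 0 1)) (u P b '' interior (Icc 0 1)) := by
      intro a b hab
      rw [Set.disjoint_left]
      rintro z ⟨x, hx, rfl⟩ ⟨y, hy, hxy⟩
      have hx' := interior_subset hx
      have hy' := interior_subset hy
      have := sep P a b hab x y (by linarith [hx'.1]) (by linarith [hx'.2])
        (by linarith [hy'.1]) (by linarith [hy'.2])
      rw [hxy, sub_self, abs_zero] at this
      linarith [c_pos P a]
    intro a b hab
    rcases lt_or_gt_of_ne hab with h | h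
    · exact key a b h
    · exact (key b a h).symm
  contr := by
    refine ⟨1/1000, by norm_num, ?_⟩
    intro a x _
    rw [(u_deriv P a x).deriv, abs_of_pos (mul_pos (c_pos P a) (prof_pos P a x))]
    have := (prof_bd P a x).2
    have := c_pos P a
    have := c_le P a
    nlinarith
  tail := by
    intro ε hε
    obtain ⟨n, hn⟩ := exists_pow_lt_of_lt_one hε (by linarith [q_le] : q < 1)
    refine Set.Finite.subset (Set.finite_Iio (n+2)) ?_
    rintro a ⟨x, _, hx⟩
    rw [(u_deriv P a x).deriv, abs_of_pos (mul_pos (c_pos P a) (prof_pos P a x))] at hx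
    by_contra hcon
    simp only [mem_Iio, not_lt] at hcon
    obtain ⟨m, rfl⟩ : ∃ m, a = m + 2 := ⟨a - 2, by omega⟩
    have h1 := c_succ P m
    have h2 : q^m ≤ q^n := pow_le_pow_of_le_one q_pos.le (by linarith [q_le]) (by omega)
    have h3 := (prof_bd P (m+2) x).2
    have h4 := c_pos P (m+2)
    have h5 := pow_pos q_pos m
    nlinarith
  distortion := by
    refine ⟨1 / kap P, ?_, ?_⟩
    · rw [le_div_iff₀ (kap_pos P)]; linarith [kap_lt P]
    · intro l x hx y hy
      rw [(comp_deriv P l x).deriv, (comp_deriv P l y).deriv, abs_of_pos (D_pos P l x),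
        abs_of_pos (D_pos P l y)]
      have := D_dist P l x y hx.1 hx.2 hy.1 hy.2
      rw [div_mul_eq_mul_div, le_div_iff₀ (kap_pos P)]
      linarith

end Pool.Agent.V11318.Mir
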