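import Pool.Agent.V11318.MirPt

namespace Pool.Agent.V11318.Mir

open MeasureTheory Filter Topology Set
open scoped ENNReal ContDiff NNReal

variable (P : Par)

/-- data for the lower bound -/
structure Low (s : ℝ) (h : ℕ → ℝ) where
  s_pos : 0 < s
  h_nn : ∀ a, 0 ≤ h a
  harm : ∀ a, 0 < h a → HasSum (fun b => (sg P a b)^s * h b) (h a)
  C1 : ℝ
  tl : ∀ m n, ∑ b ∈ Finset.Ico m n, h b ≤ C1 * (c P m)^s

variable {P} {s : ℝ} {h : ℕ → ℝ}

namespace Low

variable (L : Low P s h)
include L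

theorem step_exists (a : ℕ) (ha : 0 < h a) (y : ℝ) (hy0 : 0 ≤ y) (hy1 : y < h a) :
    ∃ b : ℕ, ∃ z : ℝ, 0 ≤ z ∧ z < h b ∧
      y = (∑ i ∈ Finset.range b, (sg P a i)^s * h i) + (sg P a b)^s * z := by
  have hs := (L.harm a ha).tendsto_sum_nat
  have hex : ∃ n, y < ∑ i ∈ Finset.range n, (sg P a i)^s * h i :=
    ((tendsto_order.1 hs).1 y hy1).exists
  classical
  have hn := Nat.find_spec hex
  have hmin := fun m (hm : m < Nat.find hex) => Nat.find_min hex hm
  rcases Nat.eq_zero_or_pos (Nat.find hex) with h0 | h0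
  · rw [h0] at hn; simp at hn; linarith
  · obtain ⟨b, hb⟩ : ∃ b, Nat.find hex = b + 1 := ⟨Nat.find hex - 1, by omega⟩
    have h2 := hmin b (by omega)
    push Not at h2
    rw [hb, Finset.sum_range_succ] at hn
    have hsg : 0 < (sg P a b)^s := Real.rpow_pos_of_pos (sg_pos P a b) s
    refine ⟨b, (y - ∑ i ∈ Finset.range b, (sg P a i)^s * h i) / (sg P a b)^s, ?_, ?_, ?_⟩
    · exact div_nonneg (by linarith) hsg.le
    · rw [div_lt_iff₀ hsg]; linarith
    · field_simp
      ring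

end Low

/-- states -/
abbrev St (h : ℕ → ℝ) : Type := {p : ℕ × ℝ // 0 ≤ p.2 ∧ p.2 < h p.1}

theorem St.hpos (x : St h) : 0 < h x.1.1 := lt_of_le_of_lt x.2.1 x.2.2

namespace Low

variable (L : Low P s h)
include L

theorem stepEx (x : St h) : ∃ x' : St h,
    x.1.2 = (∑ i ∈ Finset.range x'.1.1, (sg P x.1.1 i)^s * h i) + (sg P x.1.1 x'.1.1)^s * x'.1.2 := by
  obtain ⟨b, z, h0, h1, h2⟩ := L.step_exists x.1.1 x.hpos x.1.2 x.2.1 x.2.2
  exact ⟨⟨(b, z), h0, h1⟩, h2⟩

noncomputable def step (x : St h) : St h := (L.stepEx x).choose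

theorem step_spec (x : St h) :
    x.1.2 = (∑ i ∈ Finset.range (L.step x).1.1, (sg P x.1.1 i)^s * h i) +
      (sg P x.1.1 (L.step x).1.1)^s * (L.step x).1.2 := (L.stepEx x).choose_spec

noncomputable def seq (x : St h) (n : ℕ) : ℕ := (L.step^[n] x).1.1

noncomputable def G (x : St h) : ℝ := pt P (L.seq x)

theorem G_step (x : St h) : L.G x = u P x.1.1 (L.G (L.step x)) := by
  unfold G
  rw [pt_cons]
  rfl

theorem G_mem (x : St h) : 0 ≤ L.G x ∧ L.G x ≤ 1 := pt_mem P _

theorem G_reg (x : St h) : L.G x ∈ Reg x.1.1 := by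
  rw [G_step]
  have := L.G_mem (L.step x)
  exact u_memReg P _ _ (by linarith) (by linarith)

theorem C1_nn : 0 ≤ L.C1 := by
  have h1 := L.tl 0 0
  simp only [Finset.Ico_self, Finset.sum_empty] at h1
  have h2 : 0 < (c P 0)^s := Real.rpow_pos_of_pos (c_pos P 0) s
  by_contra hc
  push Not at hc
  nlinarith

theorem h_le (a : ℕ) : h a ≤ L.C1 := by
  have h1 := L.tl a (a+1)
  rw [Nat.Ico_succ_singleton, Finset.sum_singleton] at h1
  have h2 : (c P a)^s ≤ 1 := Real.rpow_le_one (c_pos P a).le (by linarith [c_le P a]) L.s_pos.le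
  have := L.C1_nn
  nlinarith

noncomputable def K2 : ℝ := L.C1 * ((kap P)^s)⁻¹

theorem K2_nn : 0 ≤ L.K2 :=
  mul_nonneg L.C1_nn (inv_nonneg.2 (Real.rpow_nonneg (kap_pos P).le s))

/-- base estimate -/
theorem base (x y : St h) (hxy : x.1.1 = y.1.1) (hlt : (L.step x).1.1 < (L.step y).1.1) :
    |x.1.2 - y.1.2| ≤ L.K2 * |L.G x - L.G y|^s := by
  set a := x.1.1 with ha
  have hx := L.step_spec x
  have hy := L.step_spec y
  have hb0 := (L.step x).2.1
  have hb1 := (L.step x).2.2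
  have hd0 := (L.step y).2.1
  have hd1 := (L.step y).2.2
  set b := (L.step x).1.1 with hb
  set d := (L.step y).1.1 with hd
  rw [← ha] at hx
  rw [← hxy] at hy
  have hsgn : ∀ i, 0 ≤ (sg P a i)^s * h i := fun i =>
    mul_nonneg (Real.rpow_nonneg (sg_pos P a i).le s) (L.h_nn i)
  have hsb : 0 < (sg P a b)^s := Real.rpow_pos_of_pos (sg_pos P a b) s
  have hsd : 0 < (sg P a d)^s := Real.rpow_pos_of_pos (sg_pos P a d) s
  -- y2 ≥ S_{b+1} ≥ x2
  have e1 : ∑ i ∈ Finset.range (b+1), (sg P a i)^s * h i ≤ ∑ i ∈ Finset.range d, (sg P a i)^s * h i := by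
    apply Finset.sum_le_sum_of_subset_of_nonneg
    · exact Finset.range_subset_range.2 (by omega)
    · intro i _ _; exact hsgn i
  rw [Finset.sum_range_succ] at e1
  have e2 : x.1.2 ≤ y.1.2 := by
    have : (sg P a b)^s * (L.step x).1.2 ≤ (sg P a b)^s * h b :=
      mul_le_mul_of_nonneg_left hb1.le hsb.le
    have : 0 ≤ (sg P a d)^s * (L.step y).1.2 := mul_nonneg hsd.le hd0
    linarith
  have e3 : y.1.2 - x.1.2 ≤ ∑ i ∈ Finset.Ico b (d+1), (sg P a i)^s * h i := by
    rw [Finset.sum_Ico_eq_sub _ (by omega), Finset.sum_range_succ]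
    have : (sg P a d)^s * (L.step y).1.2 ≤ (sg P a d)^s * h d :=
      mul_le_mul_of_nonneg_left hd1.le hsd.le
    have : 0 ≤ (sg P a b)^s * (L.step x).1.2 := mul_nonneg hsb.le hb0
    linarith
  have e4 : ∑ i ∈ Finset.Ico b (d+1), (sg P a i)^s * h i ≤ (c P a)^s * (L.C1 * (c P b)^s) := by
    calc _ ≤ ∑ i ∈ Finset.Ico b (d+1), (c P a)^s * h i := by
          apply Finset.sum_le_sum
          intro i _
          exact mul_le_mul_of_nonneg_right
            (Real.rpow_le_rpow (sg_pos P a i).le (sg_le P a i) L.s_pos.le) (L.h_nn i)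
      _ = (c P a)^s * ∑ i ∈ Finset.Ico b (d+1), h i := by rw [Finset.mul_sum]
      _ ≤ _ := mul_le_mul_of_nonneg_left (L.tl b (d+1)) (Real.rpow_nonneg (c_pos P a).le s)
  -- geometric
  have g1 : L.G x = u P a (u P b (L.G (L.step (L.step x)))) := by
    rw [L.G_step x, L.G_step (L.step x)]
  have g2 : L.G y = u P a (u P d (L.G (L.step (L.step y)))) := by
    rw [L.G_step y, L.G_step (L.step y), ← hxy]
  have m1 := L.G_mem (L.step (L.step x))
  have m2 := L.G_mem (L.step (L.step y))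
  have g3 := sep P b d hlt (L.G (L.step (L.step x))) (L.G (L.step (L.step y)))
    (by linarith) (by linarith) (by linarith) (by linarith)
  have g4 : c P a * kap P * c P b ≤ |L.G x - L.G y| := by
    rw [g1, g2]
    set p := u P b (L.G (L.step (L.step x)))
    set r := u P d (L.G (L.step (L.step y)))
    have hck : 0 < c P a * kap P := mul_pos (c_pos P a) (kap_pos P)
    rcases le_total p r with hpr | hpr
    · have h5 := u_low P a r p hpr
      have h6 : |p - r| = r - p := by rw [abs_sub_comm, abs_of_nonneg (by linarith)]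
      rw [h6] at g3
      rw [abs_sub_comm]
      refine le_trans ?_ (le_abs_self _)
      refine le_trans ?_ h5
      exact mul_le_mul_of_nonneg_left g3 hck.le
    · have h5 := u_low P a p r hpr
      have h6 : |p - r| = p - r := by rw [abs_of_nonneg (by linarith)]
      rw [h6] at g3
      refine le_trans ?_ (le_abs_self _)
      refine le_trans ?_ h5
      exact mul_le_mul_of_nonneg_left g3 hck.le
  have g5 : (c P a)^s * (kap P)^s * (c P b)^s ≤ |L.G x - L.G y|^s := by
    rw [← Real.mul_rpow (c_pos P a).le (kap_pos P).le,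
      ← Real.mul_rpow (mul_pos (c_pos P a) (kap_pos P)).le (c_pos P b).le]
    exact Real.rpow_le_rpow (mul_pos (mul_pos (c_pos P a) (kap_pos P)) (c_pos P b)).le g4 L.s_pos.le
  have hk : 0 < (kap P)^s := Real.rpow_pos_of_pos (kap_pos P) s
  rw [abs_sub_comm, abs_of_nonneg (by linarith)]
  calc y.1.2 - x.1.2 ≤ (c P a)^s * (L.C1 * (c P b)^s) := e3.trans e4
    _ = L.K2 * ((c P a)^s * (kap P)^s * (c P b)^s) := by
        unfold K2; field_simp
    _ ≤ _ := mul_le_mul_of_nonneg_left g5 L.K2_nn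

theorem main_aux (N : ℕ) : ∀ x y : St h, x.1.1 = y.1.1 →
    |x.1.2 - y.1.2| ≤ L.K2 * |L.G x - L.G y|^s + ((1/1000 : ℝ)^s)^N * L.C1 := by
  induction N with
  | zero =>
    intro x y hxy
    have h1 := x.2.1
    have h2 := x.2.2
    have h3 := y.2.1
    have h4 := y.2.2
    have h5 := L.h_le x.1.1
    rw [← hxy] at h4
    have h6 : |x.1.2 - y.1.2| ≤ L.C1 := by
      rw [abs_le]; constructor <;> linarith
    have h7 : 0 ≤ L.K2 * |L.G x - L.G y|^s :=
      mul_nonneg L.K2_nn (Real.rpow_nonneg (abs_nonneg _) s)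
    simp only [pow_zero, one_mul]
    linarith
  | succ N ih =>
    intro x y hxy
    have hrho : 0 < (1/1000 : ℝ)^s := Real.rpow_pos_of_pos (by norm_num) s
    have hrest : 0 ≤ ((1/1000 : ℝ)^s)^(N+1) * L.C1 := mul_nonneg (pow_nonneg hrho.le _) L.C1_nn
    rcases lt_trichotomy (L.step x).1.1 (L.step y).1.1 with hlt | heq | hgt
    · have := L.base x y hxy hlt
      linarith
    · have h1 := ih (L.step x) (L.step y) heq
      have hx := L.step_spec x
      have hy := L.step_spec y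
      rw [← heq, ← hxy] at hy
      set a := x.1.1 with ha
      set b := (L.step x).1.1 with hb
      have hsb : 0 < (sg P a b)^s := Real.rpow_pos_of_pos (sg_pos P a b) s
      have e1 : x.1.2 - y.1.2 = (sg P a b)^s * ((L.step x).1.2 - (L.step y).1.2) := by
        rw [hx, hy]; ring
      have e2 : L.G x - L.G y = sg P a b * (L.G (L.step x) - L.G (L.step y)) := by
        rw [L.G_step x, L.G_step y, ← hxy]
        refine u_reg P a b _ _ (L.G_reg _) ?_
        have := L.G_reg (L.step y)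
        rw [← heq] at this
        exact this
      rw [e1, e2, abs_mul, abs_mul, abs_of_pos hsb, abs_of_pos (sg_pos P a b),
        Real.mul_rpow (sg_pos P a b).le (abs_nonneg _)]
      have hle : (sg P a b)^s ≤ (1/1000 : ℝ)^s :=
        Real.rpow_le_rpow (sg_pos P a b).le ((sg_le P a b).trans (c_le P a)) L.s_pos.le
      have hp : 0 ≤ ((1/1000 : ℝ)^s)^N * L.C1 := mul_nonneg (pow_nonneg hrho.le _) L.C1_nn
      calc (sg P a b)^s * |(L.step x).1.2 - (L.step y).1.2|
          ≤ (sg P a b)^s * (L.K2 * |L.G (L.step x) - L.G (L.step y)|^s + ((1/1000 : ℝ)^s)^N * L.C1) :=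
            mul_le_mul_of_nonneg_left h1 hsb.le
        _ = L.K2 * ((sg P a b)^s * |L.G (L.step x) - L.G (L.step y)|^s) +
            (sg P a b)^s * (((1/1000 : ℝ)^s)^N * L.C1) := by ring
        _ ≤ L.K2 * ((sg P a b)^s * |L.G (L.step x) - L.G (L.step y)|^s) +
            (1/1000 : ℝ)^s * (((1/1000 : ℝ)^s)^N * L.C1) := by
            have := mul_le_mul_of_nonneg_right hle hp
            linarith
        _ = _ := by rw [pow_succ]; ring
    · have := L.base y x hxy.symm hgt
      rw [abs_sub_comm, abs_sub_comm (L.G x)]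
      linarith

theorem main (x y : St h) (hxy : x.1.1 = y.1.1) :
    |x.1.2 - y.1.2| ≤ L.K2 * |L.G x - L.G y|^s := by
  have h1 : Tendsto (fun N : ℕ => L.K2 * |L.G x - L.G y|^s + ((1/1000 : ℝ)^s)^N * L.C1) atTop
      (𝓝 (L.K2 * |L.G x - L.G y|^s + 0 * L.C1)) := by
    refine Tendsto.const_add _ (Tendsto.mul_const _ ?_)
    refine tendsto_pow_atTop_nhds_zero_of_lt_one (Real.rpow_nonneg (by norm_num) s) ?_
    exact Real.rpow_lt_one (by norm_num) (by norm_num) L.s_pos
  rw [zero_mul, add_zero] at h1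
  exact ge_of_tendsto' h1 (fun N => L.main_aux N x y hxy)

theorem G_limit (x : St h) : L.G x ∈ limitSet (Icc 0 1) (u P) {a | 0 < h a} := by
  rw [limitSet_eq]
  exact ⟨L.seq x, fun n => (L.step^[n] x).hpos, rfl⟩

theorem dim_ge (a : ℕ) (ha : 0 < h a) :
    ENNReal.ofReal s ≤ dimH (limitSet (Icc 0 1) (u P) {a | 0 < h a}) := by
  classical
  let st : ℝ → St h := fun y => if hy : 0 ≤ y ∧ y < h a then ⟨(a, y), hy⟩ else ⟨(a, 0), le_refl _, ha⟩
  have hst : ∀ y ∈ Ico 0 (h a), (st y).1 = (a, y) := by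
    intro y hy
    have e : st y = ⟨(a, y), ⟨hy.1, hy.2⟩⟩ := dif_pos (⟨hy.1, hy.2⟩ : 0 ≤ y ∧ y < h a)
    rw [e]
  let g : ℝ → ℝ := fun y => L.G (st y)
  have hg : ∀ y ∈ Ico 0 (h a), ∀ z ∈ Ico 0 (h a), |y - z| ≤ L.K2 * |g y - g z|^s := by
    intro y hy z hz
    have := L.main (st y) (st z) (by rw [hst y hy, hst z hz])
    rw [hst y hy, hst z hz] at this
    exact this
  have hinj : InjOn g (Ico 0 (h a)) := by
    intro y hy z hz hyz
    have := hg y hy z hz
    rw [hyz, sub_self, abs_zero, Real.zero_rpow L.s_pos.ne', mul_zero] at this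
    have h0 := abs_nonneg (y - z)
    have h1 : |y - z| = 0 := le_antisymm this h0
    have := abs_eq_zero.1 h1
    linarith
  let f : ℝ → ℝ := Function.invFunOn g (Ico 0 (h a))
  have hf : ∀ y ∈ Ico 0 (h a), f (g y) = y := fun y hy => hinj.leftInvOn_invFunOn hy
  have hhold : HolderOnWith L.K2.toNNReal s.toNNReal f (g '' Ico 0 (h a)) := by
    rintro _ ⟨y, hy, rfl⟩ _ ⟨z, hz, rfl⟩
    rw [hf y hy, hf z hz, edist_dist, edist_dist, Real.dist_eq, Real.dist_eq,
      Real.coe_toNNReal s L.s_pos.le, ENNReal.ofReal_rpow_of_nonneg (abs_nonneg _) L.s_pos.le]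
    show _ ≤ ENNReal.ofReal L.K2 * _
    rw [← ENNReal.ofReal_mul L.K2_nn]
    exact ENNReal.ofReal_le_ofReal (hg y hy z hz)
  have himg : f '' (g '' Ico 0 (h a)) = Ico 0 (h a) := by
    ext y
    constructor
    · rintro ⟨_, ⟨z, hz, rfl⟩, rfl⟩
      rw [hf z hz]; exact hz
    · intro hy
      exact ⟨g y, ⟨y, hy, rfl⟩, hf y hy⟩
  have hs0 : (0 : ℝ≥0) < s.toNNReal := Real.toNNReal_pos.2 L.s_pos
  have h1 := hhold.dimH_image_le hs0
  rw [himg] at h1
  have h2 : dimH (Ico 0 (h a)) = 1 := by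
    rw [Real.dimH_of_nonempty_interior]
    · simp
    · rw [interior_Ico]
      exact nonempty_Ioo.2 ha
  rw [h2] at h1
  have h3 : (s.toNNReal : ℝ≥0∞) ≤ dimH (g '' Ico 0 (h a)) := by
    have h4 : (s.toNNReal : ℝ≥0∞) ≠ 0 := by
      simpa using hs0.ne'
    have h5 : (s.toNNReal : ℝ≥0∞) ≠ ⊤ := ENNReal.coe_ne_top
    rw [ENNReal.le_div_iff_mul_le (Or.inl h4) (Or.inl h5), one_mul] at h1
    exact h1
  refine le_trans h3 (dimH_mono ?_)
  rintro _ ⟨y, hy, rfl⟩
  exact L.G_limit _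

end Low

end Pool.Agent.V11318.Mir
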