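import Pool.Agent.V11318.MirUp
import Pool.Agent.V11318.MirLow

namespace Pool.Agent.V11318.Mir

open MeasureTheory Filter Topology Set
open scoped ENNReal ContDiff NNReal

open Classical in
/-- greedy remainders -/
noncomputable def gr (θ T : ℝ) : ℕ → ℝ
  | 0 => T
  | (n+1) => if θ^n ≤ gr θ T n then gr θ T n - θ^n else gr θ T n

/-- greedy expansions: every number in `[0, 1/(1-θ)]` is a sub-sum of the geometric series when
`1/2 ≤ θ < 1`. -/
theorem subsum (θ T : ℝ) (h0 : 1/2 ≤ θ) (h1 : θ < 1) (hT0 : 0 ≤ T) (hT1 : T * (1 - θ) ≤ 1) :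
    ∃ B : Set ℕ, ∀ f : ℕ → ℝ, (∀ n ∈ B, f n = θ^n) → (∀ n ∉ B, f n = 0) → HasSum f T := by
  classical
  obtain ⟨r, hr0, hrs⟩ : ∃ r : ℕ → ℝ, r 0 = T ∧
      ∀ n, r (n+1) = if θ^n ≤ r n then r n - θ^n else r n :=
    ⟨gr θ T, rfl, fun n => by rw [gr]⟩
  have hθ : 0 < θ := by linarith
  have hinv : ∀ n, 0 ≤ r n ∧ r n * (1-θ) ≤ θ^n := by
    intro n
    induction n with
    | zero => rw [hr0]; exact ⟨hT0, by simpa using hT1⟩
    | succ n ih =>
      rw [hrs]
      have hp : 0 < θ^n := pow_pos hθ n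
      split_ifs with h
      · refine ⟨by linarith, ?_⟩
        rw [pow_succ]
        nlinarith [ih.2]
      · refine ⟨ih.1, ?_⟩
        push Not at h
        rw [pow_succ]
        nlinarith [ih.1]
  have hlim : Tendsto r atTop (𝓝 0) := by
    have h2 : Tendsto (fun n : ℕ => θ^n / (1-θ)) atTop (𝓝 (0/(1-θ))) :=
      (tendsto_pow_atTop_nhds_zero_of_lt_one hθ.le h1).div_const _
    rw [zero_div] at h2
    refine squeeze_zero (fun n => (hinv n).1) (fun n => ?_) h2
    rw [le_div_iff₀ (by linarith)]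
    exact (hinv n).2
  refine ⟨{n | θ^n ≤ r n}, ?_⟩
  intro f hf1 hf2
  have hfs : ∀ n, ∑ i ∈ Finset.range n, f i = T - r n := by
    intro n
    induction n with
    | zero => simp [hr0]
    | succ n ih =>
      rw [Finset.sum_range_succ, ih, hrs]
      by_cases h : θ^n ≤ r n
      · rw [if_pos h, hf1 n h]; ring
      · rw [if_neg h, hf2 n h]; ring
  have hnn : ∀ n, 0 ≤ f n := by
    intro n
    by_cases h : θ^n ≤ r n
    · rw [hf1 n h]; exact pow_nonneg hθ.le n
    · rw [hf2 n h]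
  rw [hasSum_iff_tendsto_nat_of_nonneg hnn]
  have h3 : Tendsto (fun n => T - r n) atTop (𝓝 (T - 0)) := tendsto_const_nhds.sub hlim
  rw [sub_zero] at h3
  refine h3.congr (fun n => (hfs n).symm)

variable (P : Par)

/-- weights -/
noncomputable def hh (t A0 A1 AT : ℝ) (B : Set ℕ) : ℕ → ℝ
  | 0 => A0
  | 1 => A1
  | (n+2) => P.R^t * ((9/10 : ℝ)^t)^n * AT * Set.indicator B 1 n

theorem c_rpow (a : ℕ) (s : ℝ) : (c P a)^s = (w P a)^(100*s) := by
  rw [c_pow, ← Real.rpow_natCast, ← Real.rpow_mul (w_pos P a).le]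
  norm_num

theorem kap_rpow (s : ℝ) : (kap P)^s = P.k^(100*s) := by
  rw [kap_pow, ← Real.rpow_natCast, ← Real.rpow_mul P.hk0.le]
  norm_num

theorem c_rpow_T (n : ℕ) (s : ℝ) :
    (c P (n+2))^s = P.R^(100*s) * ((9/10 : ℝ)^(100*s))^n := by
  rw [c_rpow]
  simp only [w]
  rw [Real.mul_rpow (R_pos P).le (by positivity), ← Real.rpow_natCast ((9/10:ℝ)^(100*s)),
    ← Real.rpow_mul (by norm_num), ← Real.rpow_natCast (9/10:ℝ), ← Real.rpow_mul (by norm_num)]
  congr 2
  ring

theorem mu_two (a n : ℕ) : mu P a (n+2) = mu P a 2 := by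
  match a with
  | 0 => rfl
  | 1 => rfl
  | (m+2) => rfl

structure Dat (s A0 A1 AT tau : ℝ) (B : Set ℕ) : Prop where
  s0 : 0 < s
  a0 : 0 ≤ A0
  a1 : 0 ≤ A1
  aT : 0 ≤ AT
  hB : HasSum (fun n => P.R^(100*s) * ((9/10 : ℝ)^(100*s))^n * Set.indicator B 1 n) tau

variable {P} {s A0 A1 AT tau : ℝ} {B : Set ℕ}

theorem ind_nn (B : Set ℕ) (n : ℕ) : 0 ≤ Set.indicator B (1 : ℕ → ℝ) n := by
  classical
  rw [Set.indicator_apply]
  split_ifs <;> simp

theorem ind_le (B : Set ℕ) (n : ℕ) : Set.indicator B (1 : ℕ → ℝ) n ≤ 1 := by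
  classical
  rw [Set.indicator_apply]
  split_ifs <;> simp

namespace Dat

variable (d : Dat P s A0 A1 AT tau B)
include d

theorem hh_nn (a : ℕ) : 0 ≤ hh P (100*s) A0 A1 AT B a := by
  match a with
  | 0 => exact d.a0
  | 1 => exact d.a1
  | (n+2) =>
    simp only [hh]
    have h1 : 0 < P.R^(100*s) := Real.rpow_pos_of_pos (R_pos P) _
    have h2 : 0 < ((9/10:ℝ)^(100*s)) := Real.rpow_pos_of_pos (by norm_num) _
    have h3 := ind_nn B n
    have h4 := d.aT
    positivity

theorem sum (a : ℕ) : HasSum (fun b => (sg P a b)^s * hh P (100*s) A0 A1 AT B b)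
    ((c P a)^s * ((mu P a 0)^s * A0 + (mu P a 1)^s * A1 + (mu P a 2)^s * AT * tau)) := by
  have h1 : HasSum (fun n => (sg P a (n+2))^s * hh P (100*s) A0 A1 AT B (n+2))
      ((c P a)^s * (mu P a 2)^s * AT * tau) := by
    have h2 := d.hB.mul_left ((c P a)^s * (mu P a 2)^s * AT)
    have hfun : (fun n => (sg P a (n+2))^s * hh P (100*s) A0 A1 AT B (n+2)) =
        fun n => (c P a)^s * (mu P a 2)^s * AT *
          (P.R^(100*s) * ((9/10 : ℝ)^(100*s))^n * Set.indicator B 1 n) := by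
      funext n
      simp only [hh]
      unfold sg
      rw [mu_two, Real.mul_rpow (c_pos P a).le (mu_pos P a 2).le]
      ring
    rw [hfun]
    exact h2
  have h3 := (hasSum_nat_add_iff (f := fun b => (sg P a b)^s * hh P (100*s) A0 A1 AT B b) 2).1 h1
  have e : (c P a)^s * ((mu P a 0)^s * A0 + (mu P a 1)^s * A1 + (mu P a 2)^s * AT * tau) =
      (c P a)^s * (mu P a 2)^s * AT * tau +
        ∑ i ∈ Finset.range 2, (sg P a i)^s * hh P (100*s) A0 A1 AT B i := by
    rw [Finset.sum_range_succ, Finset.sum_range_succ, Finset.sum_range_zero]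
    simp only [hh]
    unfold sg
    rw [Real.mul_rpow (c_pos P a).le (mu_pos P a 0).le,
      Real.mul_rpow (c_pos P a).le (mu_pos P a 1).le]
    ring
  rw [e]
  exact h3

theorem tot : HasSum (hh P (100*s) A0 A1 AT B) (A0 + A1 + AT * tau) := by
  have h1 : HasSum (fun n => hh P (100*s) A0 A1 AT B (n+2)) (AT * tau) := by
    have h2 := d.hB.mul_left AT
    have hfun : (fun n => hh P (100*s) A0 A1 AT B (n+2)) =
        fun n => AT * (P.R^(100*s) * ((9/10 : ℝ)^(100*s))^n * Set.indicator B 1 n) := by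
      funext n
      simp only [hh]
      ring
    rw [hfun]
    exact h2
  have h3 := (hasSum_nat_add_iff (f := hh P (100*s) A0 A1 AT B) 2).1 h1
  have e : A0 + A1 + AT * tau =
      AT * tau + ∑ i ∈ Finset.range 2, hh P (100*s) A0 A1 AT B i := by
    rw [Finset.sum_range_succ, Finset.sum_range_succ, Finset.sum_range_zero]
    simp only [hh]
    ring
  rw [e]
  exact h3

theorem Q_lt : (9/10:ℝ)^(100*s) < 1 := by
  have := d.s0
  exact Real.rpow_lt_one (by norm_num) (by norm_num) (by linarith)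

theorem tail_bd (m n : ℕ) : ∑ b ∈ Finset.Ico m n, hh P (100*s) A0 A1 AT B b ≤
    ((A0 + A1 + AT * tau) / (c P 0)^s + (A0 + A1 + AT * tau) / (c P 1)^s +
      AT / (1 - (9/10:ℝ)^(100*s))) * (c P m)^s := by
  have hQ := d.Q_lt
  have hQ0 : 0 < ((9/10:ℝ)^(100*s)) := Real.rpow_pos_of_pos (by norm_num) _
  have hZ : 0 ≤ A0 + A1 + AT * tau := by
    have := hasSum_le (fun a => d.hh_nn a) hasSum_zero d.tot
    exact this
  have hc0 : 0 < (c P 0)^s := Real.rpow_pos_of_pos (c_pos P 0) s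
  have hc1 : 0 < (c P 1)^s := Real.rpow_pos_of_pos (c_pos P 1) s
  have hT : 0 ≤ AT / (1 - (9/10:ℝ)^(100*s)) := div_nonneg d.aT (by linarith)
  have hle : ∑ b ∈ Finset.Ico m n, hh P (100*s) A0 A1 AT B b ≤ A0 + A1 + AT * tau :=
    sum_le_hasSum _ (fun i _ => d.hh_nn i) d.tot
  have e0 : 0 ≤ (A0 + A1 + AT * tau) / (c P 0)^s := div_nonneg hZ hc0.le
  have e1 : 0 ≤ (A0 + A1 + AT * tau) / (c P 1)^s := div_nonneg hZ hc1.le
  match m, hle with
  | 0, hle =>
    have : (A0 + A1 + AT * tau) / (c P 0)^s * (c P 0)^s = A0 + A1 + AT * tau := by field_simp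
    nlinarith
  | 1, hle =>
    have : (A0 + A1 + AT * tau) / (c P 1)^s * (c P 1)^s = A0 + A1 + AT * tau := by field_simp
    nlinarith
  | (j+2), _ =>
    have hcj : 0 < (c P (j+2))^s := Real.rpow_pos_of_pos (c_pos P (j+2)) s
    have h1 : ∑ b ∈ Finset.Ico (j+2) n, hh P (100*s) A0 A1 AT B b ≤
        AT / (1 - (9/10:ℝ)^(100*s)) * (c P (j+2))^s := by
      rw [Finset.sum_Ico_eq_sum_range]
      have h2 : ∀ i ∈ Finset.range (n - (j+2)), hh P (100*s) A0 A1 AT B (j + 2 + i) ≤
          (c P (j+2))^s * AT * ((9/10:ℝ)^(100*s))^i := by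
        intro i _
        have e : j + 2 + i = (j + i) + 2 := by ring
        rw [e, c_rpow_T]
        simp only [hh]
        have h3 := ind_le B (j+i)
        have h4 : 0 ≤ P.R^(100*s) * ((9/10 : ℝ)^(100*s))^(j+i) * AT := by
          have := Real.rpow_pos_of_pos (R_pos P) (100*s)
          have := d.aT
          positivity
        calc _ ≤ P.R^(100*s) * ((9/10 : ℝ)^(100*s))^(j+i) * AT * 1 :=
              mul_le_mul_of_nonneg_left h3 h4
          _ = _ := by rw [pow_add]; ring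
      refine (Finset.sum_le_sum h2).trans ?_
      rw [← Finset.mul_sum]
      have h5 : ∑ i ∈ Finset.range (n - (j+2)), ((9/10:ℝ)^(100*s))^i ≤ (1 - (9/10:ℝ)^(100*s))⁻¹ :=
        sum_le_hasSum _ (fun i _ => pow_nonneg hQ0.le i) (hasSum_geometric_of_lt_one hQ0.le hQ)
      calc _ ≤ (c P (j+2))^s * AT * (1 - (9/10:ℝ)^(100*s))⁻¹ :=
            mul_le_mul_of_nonneg_left h5 (mul_nonneg hcj.le d.aT)
        _ = _ := by rw [div_eq_mul_inv]; ring
    nlinarith

/-- lower structure -/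
theorem low (e0 : 0 < A0 → (w P 0)^(100*s) * (A0 + A1 + P.k^(100*s) * AT * tau) = A0)
    (e1 : 0 < A1 → (w P 1)^(100*s) * (A0 + A1 + AT * tau) = A1)
    (eT : 0 < AT → A0 + P.k^(100*s) * A1 + P.k^(100*s) * AT * tau = AT) :
    Nonempty (Low P s (hh P (100*s) A0 A1 AT B)) := by
  refine ⟨⟨d.s0, d.hh_nn, ?_, _, d.tail_bd⟩⟩
  intro a ha
  have h := d.sum a
  match a, ha, h with
  | 0, ha, h =>
    simp only [mu, Real.one_rpow, one_mul, kap_rpow] at h
    rw [c_rpow] at h
    rw [e0 ha] at h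
    exact h
  | 1, ha, h =>
    simp only [mu, Real.one_rpow, one_mul] at h
    rw [c_rpow] at h
    rw [e1 ha] at h
    exact h
  | (n+2), ha, h =>
    simp only [mu, Real.one_rpow, one_mul, kap_rpow] at h
    have hAT : 0 < AT := by
      rcases d.aT.lt_or_eq with h1 | h1
      · exact h1
      · exfalso
        simp only [hh] at ha
        rw [← h1] at ha
        simp at ha
    have hI : Set.indicator B (1 : ℕ → ℝ) n = 1 := by
      classical
      rw [Set.indicator_apply]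
      split_ifs with hn
      · rfl
      · exfalso
        simp only [hh] at ha
        rw [Set.indicator_of_notMem hn] at ha
        simp at ha
    rw [eT hAT, c_rpow_T] at h
    simp only [hh]
    rw [hI, mul_one]
    simp only [hh] at h
    exact h

theorem up (e0 : 0 < A0 → (w P 0)^(100*s) * (A0 + A1 + P.k^(100*s) * AT * tau) ≤ A0)
    (e1 : 0 < A1 → (w P 1)^(100*s) * (A0 + A1 + AT * tau) ≤ A1)
    (eT : 0 < AT → A0 + P.k^(100*s) * A1 + P.k^(100*s) * AT * tau ≤ AT) :
    Nonempty (Up P s (hh P (100*s) A0 A1 AT B)) := by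
  have hc0 : 0 < (c P 0)^s := Real.rpow_pos_of_pos (c_pos P 0) s
  have hc1 : 0 < (c P 1)^s := Real.rpow_pos_of_pos (c_pos P 1) s
  have n0 : 0 ≤ (c P 0)^s / A0 := div_nonneg hc0.le d.a0
  have n1 : 0 ≤ (c P 1)^s / A1 := div_nonneg hc1.le d.a1
  have nT : 0 ≤ 1 / AT := div_nonneg zero_le_one d.aT
  have key : ∀ n, 0 < hh P (100*s) A0 A1 AT B (n+2) →
      0 < AT ∧ hh P (100*s) A0 A1 AT B (n+2) = (c P (n+2))^s * AT := by
    intro n ha
    have hAT : 0 < AT := by
      rcases d.aT.lt_or_eq with h1 | h1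
      · exact h1
      · exfalso
        simp only [hh] at ha
        rw [← h1] at ha
        simp at ha
    have hI : Set.indicator B (1 : ℕ → ℝ) n = 1 := by
      classical
      rw [Set.indicator_apply]
      split_ifs with hn
      · rfl
      · exfalso
        simp only [hh] at ha
        rw [Set.indicator_of_notMem hn] at ha
        simp at ha
    refine ⟨hAT, ?_⟩
    rw [c_rpow_T]
    simp only [hh]
    rw [hI, mul_one]
  refine ⟨⟨d.s0, d.hh_nn, d.tot.summable, ?_, (c P 0)^s / A0 + (c P 1)^s / A1 + 1 / AT,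
    by linarith, ?_⟩⟩
  · intro a ha
    refine ⟨_, d.sum a, ?_⟩
    match a, ha with
    | 0, ha =>
      simp only [mu, Real.one_rpow, one_mul, kap_rpow]
      rw [c_rpow]
      exact e0 ha
    | 1, ha =>
      simp only [mu, Real.one_rpow, one_mul]
      rw [c_rpow]
      exact e1 ha
    | (n+2), ha =>
      obtain ⟨h1, h2⟩ := key n ha
      rw [h2]
      simp only [mu, Real.one_rpow, one_mul, kap_rpow]
      exact mul_le_mul_of_nonneg_left (eT h1) (Real.rpow_nonneg (c_pos P (n+2)).le s)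
  · intro a ha
    match a, ha with
    | 0, ha =>
      have ha' : 0 < A0 := ha
      show _ ≤ _ * A0
      have : (c P 0)^s / A0 * A0 = (c P 0)^s := by field_simp
      nlinarith
    | 1, ha =>
      have ha' : 0 < A1 := ha
      show _ ≤ _ * A1
      have : (c P 1)^s / A1 * A1 = (c P 1)^s := by field_simp
      nlinarith
    | (n+2), ha =>
      obtain ⟨h1, h2⟩ := key n ha
      rw [h2]
      have h3 : 0 < (c P (n+2))^s := Real.rpow_pos_of_pos (c_pos P (n+2)) s
      have h4 : (c P (n+2))^s = (1/AT) * ((c P (n+2))^s * AT) := by field_simp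
      have h5 : 0 ≤ ((c P 0)^s / A0 + (c P 1)^s / A1) * ((c P (n+2))^s * AT) := by positivity
      nlinarith

end Dat

end Pool.Agent.V11318.Mir
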