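import Mathlib

namespace Pool.Agent.V11318.Mir

open MeasureTheory Filter Topology Set
open scoped ENNReal ContDiff

/-- the composition `u_{a₁} ∘ ⋯ ∘ u_{aₙ}` attached to the finite word `a₁ ⋯ aₙ` -/
def comp {E : Type} (u : E → ℝ → ℝ) : List E → ℝ → ℝ
  | [] => id
  | a :: l => u a ∘ comp u l

/-- The word `o₀ o₁ ⋯ o_{n-1}`. -/
def pre {E : Type} (o : ℕ → E) (n : ℕ) : List E := (List.range n).map o

/-- `(u_a)_{a ∈ E}` is a conformal iterated function system on the real line, with compact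
set `X` and neighbourhood `V`.  (On the line, a conformal map is a diffeomorphism onto its image;
the maps are required to be infinitely differentiable.) -/
structure IsCIFS (E : Type) (X V : Set ℝ) (u : E → ℝ → ℝ) : Prop where
  countable : Countable E
  X_nonempty : X.Nonempty
  X_compact : IsCompact X
  X_closure : X = closure (interior X)
  maps_X : ∀ a, MapsTo (u a) X X
  X_sub : X ⊆ V
  V_open : IsOpen V
  V_conn : IsConnected V
  V_bdd : Bornology.IsBounded V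
  V_dist : ∃ δ : ℝ, 0 < δ ∧ ∀ x ∈ X, ∀ y, y ∉ V → δ ≤ dist x y
  maps_V : ∀ a, MapsTo (u a) V V
  homeo : ∀ a, IsOpenEmbedding (fun x : V => u a x)
  smooth : ∀ a, ContDiffOn ℝ ∞ (u a) V
  conf : ∀ a, ∀ x ∈ V, deriv (u a) x ≠ 0
  cone : ∃ c : ℝ, 0 < c ∧ ∀ x ∈ X, ∀ r : ℝ, 0 < r → r < 1 →
    c ≤ (volume (X ∩ Metric.ball x r)).toReal / r
  osc : ∀ a b, a ≠ b → Disjoint (u a '' interior X) (u b '' interior X)
  contr : ∃ θ : ℝ, θ < 1 ∧ ∀ a, ∀ x ∈ V, |deriv (u a) x| ≤ θ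
  tail : ∀ ε : ℝ, 0 < ε → {a | ∃ x ∈ V, ε < |deriv (u a) x|}.Finite
  distortion : ∃ C : ℝ, 1 ≤ C ∧ ∀ w : List E, ∀ x ∈ V, ∀ y ∈ V,
    |deriv (comp u w) x| ≤ C * |deriv (comp u w) y|

/-- The limit set `Λ_A = π(A^ℕ)`. -/
def limitSet {E : Type} (X : Set ℝ) (u : E → ℝ → ℝ) (A : Set E) : Set ℝ :=
  {x | ∃ o : ℕ → E, (∀ n, o n ∈ A) ∧
    ∀ x₀ ∈ X, Tendsto (fun n => comp u (pre o n) x₀) atTop (𝓝 x)}

/-- The dimension spectrum. -/
def spectrum {E : Type} (X : Set ℝ) (u : E → ℝ → ℝ) : Set ℝ :=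
  {s | ∃ A : Set E, s = (dimH (limitSet X u A)).toReal}

end Pool.Agent.V11318.Mir
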