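import Pool.Agent.V11318.MirComb

namespace Pool.Agent.V11318.Mir

open MeasureTheory Filter Topology Set
open scoped ENNReal ContDiff NNReal

variable (P : Par)

theorem hasSum_univ (s : ℝ) (hs : 0 < s) :
    HasSum (fun n => P.R^(100*s) * ((9/10 : ℝ)^(100*s))^n * Set.indicator univ 1 n)
      (P.R^(100*s) * (1 - (9/10:ℝ)^(100*s))⁻¹) := by
  have hQ0 : 0 < ((9/10:ℝ)^(100*s)) := Real.rpow_pos_of_pos (by norm_num) _
  have hQ : (9/10:ℝ)^(100*s) < 1 := Real.rpow_lt_one (by norm_num) (by norm_num) (by linarith)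
  have h := (hasSum_geometric_of_lt_one hQ0.le hQ).mul_left (P.R^(100*s))
  have hfun : (fun n : ℕ => P.R^(100*s) * ((9/10 : ℝ)^(100*s))^n * Set.indicator univ 1 n) =
      fun n => P.R^(100*s) * ((9/10 : ℝ)^(100*s))^n := by
    funext n
    rw [Set.indicator_univ, Pi.one_apply, mul_one]
  rw [hfun]
  exact h

theorem exists_B (s tau : ℝ) (hs : 0 < s) (hQ : 1/2 ≤ (9/10:ℝ)^(100*s)) (h0 : 0 ≤ tau)
    (h1 : tau * (1 - (9/10:ℝ)^(100*s)) ≤ P.R^(100*s)) :
    ∃ B : Set ℕ, HasSum (fun n => P.R^(100*s) * ((9/10 : ℝ)^(100*s))^n * Set.indicator B 1 n) tau := by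
  have hR : 0 < P.R^(100*s) := Real.rpow_pos_of_pos (R_pos P) _
  have hQ1 : (9/10:ℝ)^(100*s) < 1 := Real.rpow_lt_one (by norm_num) (by norm_num) (by linarith)
  obtain ⟨B, hB⟩ := subsum ((9/10:ℝ)^(100*s)) (tau / P.R^(100*s)) hQ hQ1 (div_nonneg h0 hR.le)
    (by rw [div_mul_eq_mul_div, div_le_one hR]; exact h1)
  refine ⟨B, ?_⟩
  have h2 := hB (fun n => ((9/10 : ℝ)^(100*s))^n * Set.indicator B 1 n) 
    (fun n hn => by rw [Set.indicator_of_mem hn, Pi.one_apply, mul_one])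
    (fun n hn => by rw [Set.indicator_of_notMem hn, mul_zero])
  have h3 := h2.mul_left (P.R^(100*s))
  rw [mul_div_cancel₀ _ hR.ne'] at h3
  have hfun : (fun n : ℕ => P.R^(100*s) * ((9/10 : ℝ)^(100*s))^n * Set.indicator B 1 n) =
      fun n => P.R^(100*s) * (((9/10 : ℝ)^(100*s))^n * Set.indicator B 1 n) := by
    funext n; ring
  rw [hfun]
  exact h3

theorem case1 (s : ℝ) (hs : 0 < s) (hs1 : s ≤ 1/100) :
    ∃ A : Set ℕ, dimH (limitSet (Icc 0 1) (u P) A) = ENNReal.ofReal s := by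
  have ht1 : 100 * s ≤ 1 := by linarith
  have ht0 : 0 < 100 * s := by linarith
  have hR0 := R_pos P
  have hk0 := P.hk0
  have hk1 := P.hk1
  have hR2 := P.hR2
  have hY : (4/5:ℝ) ≤ (4/5:ℝ)^(100*s) := by
    have := Real.rpow_le_rpow_of_exponent_ge (by norm_num : (0:ℝ) < 4/5) (by norm_num) ht1
    rwa [Real.rpow_one] at this
  have hQ : (9/10:ℝ) ≤ (9/10:ℝ)^(100*s) := by
    have := Real.rpow_le_rpow_of_exponent_ge (by norm_num : (0:ℝ) < 9/10) (by norm_num) ht1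
    rwa [Real.rpow_one] at this
  have hK : P.k ≤ P.k^(100*s) := by
    have := Real.rpow_le_rpow_of_exponent_ge hk0 (by linarith) ht1
    rwa [Real.rpow_one] at this
  have hR : P.R ≤ P.R^(100*s) := by
    have := Real.rpow_le_rpow_of_exponent_ge hR0 (by linarith) ht1
    rwa [Real.rpow_one] at this
  have hY1 : (4/5:ℝ)^(100*s) ≤ 1 := Real.rpow_le_one (by norm_num) (by norm_num) ht0.le
  have hQ1 : (9/10:ℝ)^(100*s) ≤ 1 := Real.rpow_le_one (by norm_num) (by norm_num) ht0.le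
  set Y := (4/5:ℝ)^(100*s) with hYd
  set Q := (9/10:ℝ)^(100*s) with hQd
  set K := P.k^(100*s) with hKd
  have hK0 : 0 < K := by linarith
  have hb : (1 - Y)/K * (1 - Q) ≤ P.R^(100*s) := by
    rw [div_mul_eq_mul_div, div_le_iff₀ hK0]
    have e1 : (1-Y)*(1-Q) ≤ 1/5*(1/10) := by
      apply mul_le_mul (by linarith) (by linarith) (by linarith) (by norm_num)
    have e2 : P.R * P.k ≤ P.R^(100*s) * K := by
      apply mul_le_mul hR hK hk0.le (by linarith)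
    have e3 := P.hRk
    linarith
  obtain ⟨B, hB⟩ := exists_B P s ((1-Y)/K) hs (by rw [← hQd]; linarith)
    (div_nonneg (by linarith) hK0.le) hb
  have hKt : K * ((1-Y)/K) = 1 - Y := by field_simp
  have d : Dat P s 0 Y K ((1-Y)/K) B := ⟨hs, le_refl _, by linarith, hK0.le, hB⟩
  have hw1 : w P 1 = 4/5 := rfl
  have e1 : (w P 1)^(100*s) * (0 + Y + K * ((1-Y)/K)) = Y := by
    rw [hw1, hKt, ← hYd]; ring
  have eT : 0 + P.k^(100*s) * Y + P.k^(100*s) * K * ((1-Y)/K) = K := by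
    rw [← hKd, mul_assoc, hKt]; ring
  obtain ⟨L⟩ := d.low (fun h => absurd h (lt_irrefl _)) (fun _ => e1) (fun _ => eT)
  obtain ⟨U⟩ := d.up (fun h => absurd h (lt_irrefl _)) (fun _ => e1.le) (fun _ => eT.le)
  refine ⟨{a | 0 < hh P (100*s) 0 Y K B a}, le_antisymm U.dim_le (L.dim_ge 1 ?_)⟩
  show 0 < Y
  linarith

/-- algebraic identities and estimates for exponents between `2/100` and `3/100` -/
theorem case3_facts (s : ℝ) (hs : 2/100 ≤ s) (hs1 : s ≤ 3/100) :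
    ∃ X Y K G : ℝ, X = (3/5:ℝ)^(100*s) ∧ Y = (4/5:ℝ)^(100*s) ∧ K = P.k^(100*s) ∧
      G = K + X*Y*(1-K)^2 ∧ 0 < X ∧ 0 < Y ∧ 0 < K ∧ X < 1 ∧ Y < 1 ∧ K < 1 ∧ 0 < G ∧ X + Y ≤ 1 ∧
      (1 - X - Y) * (1 - (9/10:ℝ)^(100*s)) ≤ P.R^(100*s) * G ∧ 1/2 ≤ (9/10:ℝ)^(100*s) := by
  have ht1 : 100 * s ≤ 3 := by linarith
  have ht0 : 2 ≤ 100 * s := by linarith
  have hR0 := R_pos P
  have hk0 := P.hk0
  have hk1 := P.hk1
  have hR2 := P.hR2
  have hX3 : (27/125:ℝ) ≤ (3/5:ℝ)^(100*s) := by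
    have := Real.rpow_le_rpow_of_exponent_ge (by norm_num : (0:ℝ) < 3/5) (by norm_num) ht1
    have e : (3/5:ℝ)^(3:ℝ) = 27/125 := by rw [Real.rpow_ofNat]; norm_num
    rwa [e] at this
  have hY3 : (64/125:ℝ) ≤ (4/5:ℝ)^(100*s) := by
    have := Real.rpow_le_rpow_of_exponent_ge (by norm_num : (0:ℝ) < 4/5) (by norm_num) ht1
    have e : (4/5:ℝ)^(3:ℝ) = 64/125 := by rw [Real.rpow_ofNat]; norm_num
    rwa [e] at this
  have hQ3 : (729/1000:ℝ) ≤ (9/10:ℝ)^(100*s) := by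
    have := Real.rpow_le_rpow_of_exponent_ge (by norm_num : (0:ℝ) < 9/10) (by norm_num) ht1
    have e : (9/10:ℝ)^(3:ℝ) = 729/1000 := by rw [Real.rpow_ofNat]; norm_num
    rwa [e] at this
  have hK3 : P.k^3 ≤ P.k^(100*s) := by
    have := Real.rpow_le_rpow_of_exponent_ge hk0 (by linarith) ht1
    rwa [Real.rpow_ofNat] at this
  have hR3 : P.R^3 ≤ P.R^(100*s) := by
    have := Real.rpow_le_rpow_of_exponent_ge hR0 (by linarith) ht1
    rwa [Real.rpow_ofNat] at this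
  have hX2 : (3/5:ℝ)^(100*s) ≤ 9/25 := by
    have := Real.rpow_le_rpow_of_exponent_ge (by norm_num : (0:ℝ) < 3/5) (by norm_num) ht0
    have e : (3/5:ℝ)^(2:ℝ) = 9/25 := by rw [Real.rpow_ofNat]; norm_num
    rwa [e] at this
  have hY2 : (4/5:ℝ)^(100*s) ≤ 16/25 := by
    have := Real.rpow_le_rpow_of_exponent_ge (by norm_num : (0:ℝ) < 4/5) (by norm_num) ht0
    have e : (4/5:ℝ)^(2:ℝ) = 16/25 := by rw [Real.rpow_ofNat]; norm_num
    rwa [e] at this
  have hQ1 : (9/10:ℝ)^(100*s) ≤ 1 := Real.rpow_le_one (by norm_num) (by norm_num) (by linarith)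
  have hK1 : P.k^(100*s) < 1 := Real.rpow_lt_one hk0.le (by linarith) (by linarith)
  have hk3 : 0 < P.k^3 := pow_pos hk0 3
  refine ⟨_, _, _, _, rfl, rfl, rfl, rfl, ?_⟩
  set X := (3/5:ℝ)^(100*s)
  set Y := (4/5:ℝ)^(100*s)
  set K := P.k^(100*s)
  set Q := (9/10:ℝ)^(100*s)
  have hX0 : 0 < X := by linarith
  have hY0 : 0 < Y := by linarith
  have hK0 : 0 < K := by linarith
  have hG0 : 0 < K + X*Y*(1-K)^2 := by positivity
  refine ⟨hX0, hY0, hK0, by linarith, by linarith, hK1, hG0, by linarith, ?_, by linarith⟩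
  have hXY : (1728/15625:ℝ) ≤ X*Y := by nlinarith
  have hk3' : P.k^3 < 1 := by linarith
  have hG : P.k^3 + (1728/15625) * (1 - P.k^3)^2 ≤ K + X*Y*(1-K)^2 := by
    have e1 : 0 ≤ (X*Y - 1728/15625) * (1-K)^2 := mul_nonneg (by linarith) (sq_nonneg _)
    have e2 : 0 ≤ (K - P.k^3) * (1 - (1728/15625) * (2 - K - P.k^3)) :=
      mul_nonneg (by linarith) (by linarith)
    nlinarith
  have e3 : (1 - X - Y) * (1 - Q) ≤ (34/125) * (271/1000) := by
    apply mul_le_mul (by linarith) (by linarith) (by linarith) (by norm_num)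
  have e4 : P.R^3 * (P.k^3 + (1728/15625) * (1 - P.k^3)^2) ≤ P.R^(100*s) * (K + X*Y*(1-K)^2) := by
    apply mul_le_mul hR3 hG (by positivity)
    exact le_trans (by positivity) hR3
  have e5 := P.hE
  have e6 : P.R^3 * (P.k^3 + (1728/15625) * (1 - P.k^3)^2) = (34/125) * (271/1000) := by
    linarith
  linarith

theorem case3 (s : ℝ) (hs : 2/100 ≤ s) (hs1 : s ≤ 3/100) :
    ∃ A : Set ℕ, dimH (limitSet (Icc 0 1) (u P) A) = ENNReal.ofReal s := by
  obtain ⟨X, Y, K, G, hX, hY, hK, hG, hX0, hY0, hK0, hX1, hY1, hK1, hG0, hXY, hb, hQ⟩ :=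
    case3_facts P s hs hs1
  have hs0 : 0 < s := by linarith
  obtain ⟨B, hB⟩ := exists_B P s ((1-X-Y)/G) hs0 hQ (div_nonneg (by linarith) hG0.le)
    (by rw [div_mul_eq_mul_div, div_le_iff₀ hG0]; exact hb)
  have hGt : G * ((1-X-Y)/G) = 1 - X - Y := by field_simp
  have hA0 : 0 < X * (Y + K*(1-Y)) := by
    apply mul_pos hX0
    have : 0 < K * (1-Y) := mul_pos hK0 (by linarith)
    linarith
  have hA1 : 0 < Y * (1 - X*(1-K)) := by
    apply mul_pos hY0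
    nlinarith
  have d : Dat P s (X * (Y + K*(1-Y))) (Y * (1 - X*(1-K))) G ((1-X-Y)/G) B :=
    ⟨hs0, hA0.le, hA1.le, hG0.le, hB⟩
  have hw0 : w P 0 = 3/5 := rfl
  have hw1 : w P 1 = 4/5 := rfl
  have e0 : (w P 0)^(100*s) * (X * (Y + K*(1-Y)) + Y * (1 - X*(1-K)) +
      P.k^(100*s) * G * ((1-X-Y)/G)) = X * (Y + K*(1-Y)) := by
    rw [hw0, ← hX, ← hK, mul_assoc K, hGt]; ring
  have e1 : (w P 1)^(100*s) * (X * (Y + K*(1-Y)) + Y * (1 - X*(1-K)) +
      G * ((1-X-Y)/G)) = Y * (1 - X*(1-K)) := by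
    rw [hw1, ← hY, hGt]; ring
  have eT : X * (Y + K*(1-Y)) + P.k^(100*s) * (Y * (1 - X*(1-K))) +
      P.k^(100*s) * G * ((1-X-Y)/G) = G := by
    rw [← hK, mul_assoc K, hGt, hG]; ring
  obtain ⟨L⟩ := d.low (fun _ => e0) (fun _ => e1) (fun _ => eT)
  obtain ⟨U⟩ := d.up (fun _ => e0.le) (fun _ => e1.le) (fun _ => eT.le)
  exact ⟨_, le_antisymm U.dim_le (L.dim_ge 0 hA0)⟩

/-- every subsystem has dimension at most `3/100` -/
theorem top_le (A : Set ℕ) : dimH (limitSet (Icc 0 1) (u P) A) ≤ ENNReal.ofReal (3/100) := by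
  obtain ⟨X, Y, K, G, hX, hY, hK, hG, hX0, hY0, hK0, hX1, hY1, hK1, hG0, hXY, hb, hQ⟩ :=
    case3_facts P (3/100) (by norm_num) (le_refl _)
  have h3 : (100 * (3/100) : ℝ) = 3 := by norm_num
  have hXv : X = 27/125 := by rw [hX, h3, Real.rpow_ofNat]; norm_num
  have hYv : Y = 64/125 := by rw [hY, h3, Real.rpow_ofNat]; norm_num
  have hKv : K = P.k^3 := by rw [hK, h3, Real.rpow_ofNat]
  have hsum := hasSum_univ P (3/100) (by norm_num)
  have htau : P.R^((100:ℝ)*(3/100)) * (1 - (9/10:ℝ)^((100:ℝ)*(3/100)))⁻¹ = (1000/271) * P.R^3 := by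
    rw [h3, Real.rpow_ofNat, Real.rpow_ofNat]; norm_num; ring
  rw [htau] at hsum
  have hGt : G * ((1000/271) * P.R^3) = 1 - X - Y := by
    have := P.hE
    rw [hG, hXv, hYv, hKv]
    linarith
  have hA0 : 0 < X * (Y + K*(1-Y)) := by
    apply mul_pos hX0
    have : 0 < K * (1-Y) := mul_pos hK0 (by linarith)
    linarith
  have hA1 : 0 < Y * (1 - X*(1-K)) := by
    apply mul_pos hY0
    nlinarith
  have d : Dat P (3/100) (X * (Y + K*(1-Y))) (Y * (1 - X*(1-K))) G ((1000/271) * P.R^3) univ :=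
    ⟨by norm_num, hA0.le, hA1.le, hG0.le, hsum⟩
  have hw0 : w P 0 = 3/5 := rfl
  have hw1 : w P 1 = 4/5 := rfl
  have e0 : (w P 0)^((100:ℝ)*(3/100)) * (X * (Y + K*(1-Y)) + Y * (1 - X*(1-K)) +
      P.k^((100:ℝ)*(3/100)) * G * ((1000/271) * P.R^3)) = X * (Y + K*(1-Y)) := by
    rw [hw0, ← hX, ← hK, mul_assoc K, hGt]; ring
  have e1 : (w P 1)^((100:ℝ)*(3/100)) * (X * (Y + K*(1-Y)) + Y * (1 - X*(1-K)) +
      G * ((1000/271) * P.R^3)) = Y * (1 - X*(1-K)) := by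
    rw [hw1, ← hY, hGt]; ring
  have eT : X * (Y + K*(1-Y)) + P.k^((100:ℝ)*(3/100)) * (Y * (1 - X*(1-K))) +
      P.k^((100:ℝ)*(3/100)) * G * ((1000/271) * P.R^3) = G := by
    rw [← hK, mul_assoc K, hGt, hG]; ring
  obtain ⟨U⟩ := d.up (fun _ => e0.le) (fun _ => e1.le) (fun _ => eT.le)
  refine le_trans (dimH_mono (limitSet_mono P _ _ ?_)) U.dim_le
  intro a _
  show 0 < hh P _ _ _ _ _ a
  match a with
  | 0 => exact hA0
  | 1 => exact hA1
  | (n+2) =>
    simp only [hh, Set.indicator_univ, Pi.one_apply, mul_one]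
    have := Real.rpow_pos_of_pos (R_pos P) (100*(3/100))
    have : 0 < (9/10:ℝ)^((100:ℝ)*(3/100)) := Real.rpow_pos_of_pos (by norm_num) _
    positivity

theorem low_le_1 (A : Set ℕ) (h0 : 0 ∉ A) :
    dimH (limitSet (Icc 0 1) (u P) A) ≤ ENNReal.ofReal (1/100) := by
  have h3 : (100 * (1/100) : ℝ) = 1 := by norm_num
  have hsum := hasSum_univ P (1/100) (by norm_num)
  have htau : P.R^((100:ℝ)*(1/100)) * (1 - (9/10:ℝ)^((100:ℝ)*(1/100)))⁻¹ = 10 * P.R := by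
    rw [h3, Real.rpow_one, Real.rpow_one]; norm_num; ring
  rw [htau] at hsum
  have hk0 := P.hk0
  have hRk := P.hRk
  have d : Dat P (1/100) 0 (4/5) P.k (10 * P.R) univ :=
    ⟨by norm_num, le_refl _, by norm_num, hk0.le, hsum⟩
  have e1 : (w P 1)^((100:ℝ)*(1/100)) * (0 + 4/5 + P.k * (10 * P.R)) ≤ 4/5 := by
    rw [h3, Real.rpow_one]
    have hw1 : w P 1 = 4/5 := rfl
    rw [hw1]
    nlinarith
  have eT : 0 + P.k^((100:ℝ)*(1/100)) * (4/5) + P.k^((100:ℝ)*(1/100)) * P.k * (10 * P.R) ≤ P.k := by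
    rw [h3, Real.rpow_one]
    nlinarith
  obtain ⟨U⟩ := d.up (fun h => absurd h (lt_irrefl _)) (fun _ => e1) (fun _ => eT)
  refine le_trans (dimH_mono (limitSet_mono P _ _ ?_)) U.dim_le
  intro a ha
  show 0 < hh P _ _ _ _ _ a
  match a, ha with
  | 0, ha => exact absurd ha h0
  | 1, _ => show (0:ℝ) < 4/5; norm_num
  | (n+2), _ =>
    simp only [hh, Set.indicator_univ, Pi.one_apply, mul_one]
    have := Real.rpow_pos_of_pos (R_pos P) (100*(1/100))
    have : 0 < (9/10:ℝ)^((100:ℝ)*(1/100)) := Real.rpow_pos_of_pos (by norm_num) _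
    positivity

theorem low_le_2 (A : Set ℕ) (h1 : 1 ∉ A) :
    dimH (limitSet (Icc 0 1) (u P) A) ≤ ENNReal.ofReal (1/100) := by
  have h3 : (100 * (1/100) : ℝ) = 1 := by norm_num
  have hsum := hasSum_univ P (1/100) (by norm_num)
  have htau : P.R^((100:ℝ)*(1/100)) * (1 - (9/10:ℝ)^((100:ℝ)*(1/100)))⁻¹ = 10 * P.R := by
    rw [h3, Real.rpow_one, Real.rpow_one]; norm_num; ring
  rw [htau] at hsum
  have hk0 := P.hk0
  have hRk := P.hRk
  have d : Dat P (1/100) (3/5) 0 1 (10 * P.R) univ :=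
    ⟨by norm_num, by norm_num, le_refl _, by norm_num, hsum⟩
  have e0 : (w P 0)^((100:ℝ)*(1/100)) * (3/5 + 0 + P.k^((100:ℝ)*(1/100)) * 1 * (10 * P.R)) ≤ 3/5 := by
    rw [h3, Real.rpow_one, Real.rpow_one]
    have hw1 : w P 0 = 3/5 := rfl
    rw [hw1]
    nlinarith
  have eT : 3/5 + P.k^((100:ℝ)*(1/100)) * 0 + P.k^((100:ℝ)*(1/100)) * 1 * (10 * P.R) ≤ 1 := by
    rw [h3, Real.rpow_one]
    nlinarith
  obtain ⟨U⟩ := d.up (fun _ => e0) (fun h => absurd h (lt_irrefl _)) (fun _ => eT)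
  refine le_trans (dimH_mono (limitSet_mono P _ _ ?_)) U.dim_le
  intro a ha
  show 0 < hh P _ _ _ _ _ a
  match a, ha with
  | 0, _ => show (0:ℝ) < 3/5; norm_num
  | 1, ha => exact absurd ha h1
  | (n+2), _ =>
    simp only [hh, Set.indicator_univ, Pi.one_apply, mul_one]
    have := Real.rpow_pos_of_pos (R_pos P) (100*(1/100))
    have : 0 < (9/10:ℝ)^((100:ℝ)*(1/100)) := Real.rpow_pos_of_pos (by norm_num) _
    positivity

theorem two_ge (A : Set ℕ) (h0 : 0 ∈ A) (h1 : 1 ∈ A) :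
    ENNReal.ofReal (2/100) ≤ dimH (limitSet (Icc 0 1) (u P) A) := by
  have h2 : (100 * (2/100) : ℝ) = 2 := by norm_num
  have hB : HasSum (fun n => P.R^((100:ℝ)*(2/100)) * ((9/10 : ℝ)^((100:ℝ)*(2/100)))^n *
      Set.indicator (∅ : Set ℕ) 1 n) 0 := by
    simp only [Set.indicator_empty, mul_zero]
    exact hasSum_zero
  have d : Dat P (2/100) (9/25) (16/25) 0 0 ∅ :=
    ⟨by norm_num, by norm_num, by norm_num, le_refl _, hB⟩
  have e0 : (w P 0)^((100:ℝ)*(2/100)) * (9/25 + 16/25 + P.k^((100:ℝ)*(2/100)) * 0 * 0) = 9/25 := by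
    have hw1 : w P 0 = 3/5 := rfl
    rw [hw1, h2, Real.rpow_ofNat]; norm_num
  have e1 : (w P 1)^((100:ℝ)*(2/100)) * (9/25 + 16/25 + 0 * 0) = 16/25 := by
    have hw1 : w P 1 = 4/5 := rfl
    rw [hw1, h2, Real.rpow_ofNat]; norm_num
  obtain ⟨L⟩ := d.low (fun _ => e0) (fun _ => e1) (fun h => absurd h (lt_irrefl _))
  refine le_trans (L.dim_ge 0 (by show (0:ℝ) < 9/25; norm_num)) 
    (dimH_mono (limitSet_mono P _ _ ?_))
  intro a ha
  match a, ha with
  | 0, _ => exact h0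
  | 1, _ => exact h1
  | (n+2), ha =>
    exfalso
    have : (0:ℝ) < hh P (100*(2/100)) (9/25) (16/25) 0 ∅ (n+2) := ha
    simp only [hh, mul_zero, zero_mul] at this
    exact lt_irrefl _ this

theorem spectrum_eq : spectrum (Icc 0 1) (u P) = Icc 0 (1/100) ∪ Icc (2/100) (3/100) := by
  ext s
  constructor
  · rintro ⟨A, rfl⟩
    by_cases h0 : 0 ∈ A
    · by_cases h1 : 1 ∈ A
      · right
        have a1 := two_ge P A h0 h1
        have a2 := top_le P A
        have hfin : dimH (limitSet (Icc 0 1) (u P) A) ≠ ⊤ := ne_top_of_le_ne_top ENNReal.ofReal_ne_top a2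
        constructor
        · have := ENNReal.toReal_mono hfin a1
          rwa [ENNReal.toReal_ofReal (by norm_num)] at this
        · have := ENNReal.toReal_mono ENNReal.ofReal_ne_top a2
          rwa [ENNReal.toReal_ofReal (by norm_num)] at this
      · left
        have a2 := low_le_2 P A h1
        refine ⟨ENNReal.toReal_nonneg, ?_⟩
        have := ENNReal.toReal_mono ENNReal.ofReal_ne_top a2
        rwa [ENNReal.toReal_ofReal (by norm_num)] at this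
    · left
      have a2 := low_le_1 P A h0
      refine ⟨ENNReal.toReal_nonneg, ?_⟩
      have := ENNReal.toReal_mono ENNReal.ofReal_ne_top a2
      rwa [ENNReal.toReal_ofReal (by norm_num)] at this
  · rintro (⟨h0, h1⟩ | ⟨h0, h1⟩)
    · rcases h0.lt_or_eq with h | h
      · obtain ⟨A, hA⟩ := case1 P s h h1
        refine ⟨A, ?_⟩
        rw [hA, ENNReal.toReal_ofReal h0]
      · refine ⟨∅, ?_⟩
        have : limitSet (Icc 0 1) (u P) ∅ = ∅ := by
          ext x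
          simp only [limitSet, mem_ofPred_eq, mem_empty_iff_false, iff_false]
          rintro ⟨o, ho, _⟩
          exact (ho 0)
        rw [this, dimH_empty, ENNReal.toReal_zero, ← h]
    · obtain ⟨A, hA⟩ := case3 P s h0 h1
      refine ⟨A, ?_⟩
      rw [hA, ENNReal.toReal_ofReal (by linarith)]

end Pool.Agent.V11318.Mir
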