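import Pool.Agent.V11318.MirCifs

namespace Pool.Agent.V11318.Mir

open MeasureTheory Filter Topology Set
open scoped ENNReal ContDiff

variable (P : Par)

theorem pre_zero {E : Type} (o : ℕ → E) : pre o 0 = [] := rfl

theorem pre_cons {E : Type} (o : ℕ → E) (n : ℕ) :
    pre o (n+1) = o 0 :: pre (fun i => o (i+1)) n := by
  unfold pre
  rw [List.range_succ_eq_map, List.map_cons, List.map_map]
  rfl

theorem pre_snoc {E : Type} (o : ℕ → E) (n : ℕ) :
    pre o (n+1) = pre o n ++ [o n] := by
  unfold pre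
  rw [List.range_succ, List.map_append]
  rfl

theorem comp_append {E : Type} (v : E → ℝ → ℝ) (l1 l2 : List E) (x : ℝ) :
    comp v (l1 ++ l2) x = comp v l1 (comp v l2 x) := by
  induction l1 with
  | nil => rfl
  | cons a l ih => show v a (comp v (l ++ l2) x) = v a (comp v l (comp v l2 x)); rw [ih]

theorem comp_mono (l : List ℕ) : StrictMono (comp (u P) l) := by
  induction l with
  | nil => exact strictMono_id
  | cons a l ih => exact (u_mono P a).comp ih

theorem comp_contr (l : List ℕ) (x y : ℝ) (hxy : x ≤ y) :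
    comp (u P) l y - comp (u P) l x ≤ (1/1000)^l.length * (y - x) := by
  induction l with
  | nil => simp [comp]
  | cons a l ih =>
    have h1 := (comp_mono P l).monotone hxy
    have h2 := u_up P a _ _ h1
    have h3 := c_le P a
    have h4 := c_pos P a
    show u P a (comp (u P) l y) - u P a (comp (u P) l x) ≤ _
    have h5 : c P a * (comp (u P) l y - comp (u P) l x) ≤
        1/1000 * ((1/1000)^l.length * (y - x)) := by
      apply mul_le_mul h3 ih (by linarith) (by norm_num)
    rw [List.length_cons, pow_succ]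
    linarith

theorem pre_length {E : Type} (o : ℕ → E) (n : ℕ) : (pre o n).length = n := by
  simp [pre]

/-- coding map -/
noncomputable def pt (o : ℕ → ℕ) : ℝ := ⨆ n, comp (u P) (pre o n) 0

theorem pt_tendsto0 (o : ℕ → ℕ) :
    Tendsto (fun n => comp (u P) (pre o n) 0) atTop (𝓝 (pt P o)) := by
  refine tendsto_atTop_ciSup ?_ ?_
  · refine monotone_nat_of_le_succ ?_
    intro n
    rw [pre_snoc, comp_append]
    exact (comp_mono P _).monotone (comp_mem' P [o n] 0 (le_refl _) zero_le_one).1
  · refine ⟨1, ?_⟩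
    rintro _ ⟨n, rfl⟩
    exact (comp_mem' P _ 0 (le_refl _) zero_le_one).2

theorem pt_tendsto (o : ℕ → ℕ) (x : ℝ) (h0 : 0 ≤ x) (h1 : x ≤ 1) :
    Tendsto (fun n => comp (u P) (pre o n) x) atTop (𝓝 (pt P o)) := by
  have h2 : Tendsto (fun n : ℕ => comp (u P) (pre o n) x - comp (u P) (pre o n) 0) atTop (𝓝 0) := by
    have h3 : Tendsto (fun n : ℕ => (1/1000 : ℝ)^n) atTop (𝓝 0) :=
      tendsto_pow_atTop_nhds_zero_of_lt_one (by norm_num) (by norm_num)
    refine squeeze_zero ?_ ?_ h3
    · intro n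
      have := (comp_mono P (pre o n)).monotone h0
      linarith
    · intro n
      have := comp_contr P (pre o n) 0 x h0
      rw [pre_length] at this
      have h4 : (0:ℝ) < (1/1000)^n := by positivity
      nlinarith
  have h5 := h2.add (pt_tendsto0 P o)
  simp only [sub_add_cancel, zero_add] at h5
  exact h5

theorem pt_mem (o : ℕ → ℕ) : 0 ≤ pt P o ∧ pt P o ≤ 1 := by
  have h := pt_tendsto0 P o
  constructor
  · exact ge_of_tendsto' h (fun n => (comp_mem' P _ 0 (le_refl _) zero_le_one).1)
  · exact le_of_tendsto' h (fun n => (comp_mem' P _ 0 (le_refl _) zero_le_one).2)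

theorem u_cont (a : ℕ) : Continuous (u P a) := (u_smooth P a).continuous

theorem pt_cons (o : ℕ → ℕ) : pt P o = u P (o 0) (pt P (fun i => o (i+1))) := by
  have h1 := (tendsto_add_atTop_iff_nat 1).2 (pt_tendsto0 P o)
  have h2 := ((u_cont P (o 0)).tendsto _).comp (pt_tendsto0 P (fun i => o (i+1)))
  refine tendsto_nhds_unique h1 ?_
  refine h2.congr ?_
  intro n
  rw [pre_cons]
  rfl

theorem pt_comp (o : ℕ → ℕ) (n : ℕ) :
    pt P o = comp (u P) (pre o n) (pt P (fun i => o (i+n))) := by
  induction n generalizing o with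
  | zero => rfl
  | succ n ih =>
    rw [pt_cons, pre_cons, ih]
    show _ = u P (o 0) (comp (u P) (pre (fun i => o (i+1)) n) (pt P fun i => o (i + (n+1))))
    have : (fun i => (fun j => o (j+1)) (i + n)) = fun i => o (i + (n+1)) := by
      funext i; simp [add_assoc]
    rw [this]

theorem limitSet_eq (A : Set ℕ) :
    limitSet (Icc 0 1) (u P) A = {x | ∃ o : ℕ → ℕ, (∀ n, o n ∈ A) ∧ x = pt P o} := by
  ext x
  constructor
  · rintro ⟨o, ho, h⟩
    refine ⟨o, ho, ?_⟩
    exact tendsto_nhds_unique (h 0 (by simp)) (pt_tendsto0 P o)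
  · rintro ⟨o, ho, rfl⟩
    exact ⟨o, ho, fun x hx => pt_tendsto P o x hx.1 hx.2⟩

theorem limitSet_mono (A B : Set ℕ) (h : A ⊆ B) :
    limitSet (Icc 0 1) (u P) A ⊆ limitSet (Icc 0 1) (u P) B := by
  rintro x ⟨o, ho, hx⟩
  exact ⟨o, fun n => h (ho n), hx⟩

end Pool.Agent.V11318.Mir
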