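import Pool.Agent.V11318.MirDefs

namespace Pool.Agent.V11318.Mir

open MeasureTheory Filter Topology Set
open scoped ENNReal ContDiff

/-- parameters -/
structure Par where
  R : ℝ
  k : ℝ
  hR1 : 4/5 ≤ R
  hR2 : R ≤ 9/10
  hk0 : 0 < k
  hk1 : k < 1/30
  hRk : R * k = 1/50
  hE : (1000/271) * R^3 * (k^3 + (1728/15625) * (1 - k^3)^2) = 34/125

theorem exists_par : Nonempty Par := by
  let f : ℝ → ℝ := fun R => (1000/271) * R^3 * ((1/(50*R))^3 + (1728/15625) * (1 - (1/(50*R))^3)^2)
  have hc : ContinuousOn f (Icc (4/5) (9/10)) := by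
    have : ∀ x ∈ Icc (4/5:ℝ) (9/10), (50 * x) ≠ 0 := by
      intro x hx
      have := hx.1
      positivity
    fun_prop (disch := assumption)
  have hiv := intermediate_value_Icc (by norm_num : (4/5:ℝ) ≤ 9/10) hc
  have hm : (34/125 : ℝ) ∈ Icc (f (4/5)) (f (9/10)) := by
    constructor
    · show (1000/271) * (4/5:ℝ)^3 * ((1/(50*(4/5)))^3 + (1728/15625) * (1 - (1/(50*(4/5)))^3)^2) ≤ _
      norm_num
    · show _ ≤ (1000/271) * (9/10:ℝ)^3 * ((1/(50*(9/10)))^3 + (1728/15625) * (1 - (1/(50*(9/10)))^3)^2)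
      norm_num
  obtain ⟨R, hR, hfR⟩ := hiv hm
  have hR0 : 0 < R := by linarith [hR.1]
  refine ⟨⟨R, 1/(50*R), hR.1, hR.2, by positivity, ?_, by field_simp, hfR⟩⟩
  rw [div_lt_div_iff₀ (by positivity) (by norm_num)]
  linarith [hR.1]

variable (P : Par)

noncomputable def kap : ℝ := P.k ^ 100

noncomputable def w : ℕ → ℝ
  | 0 => 3/5
  | 1 => 4/5
  | (n+2) => P.R * (9/10)^n

noncomputable def c (a : ℕ) : ℝ := (w P a)^100

noncomputable def q : ℝ := (9/10 : ℝ)^100

noncomputable def al : ℕ → ℝ
  | 0 => 1/10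
  | 1 => 2/5
  | (n+2) => 4/5 + 1/10 * q ^ n

noncomputable def prof : ℕ → ℝ → ℝ
  | 0, x => 1 - (1 - kap P) * Real.smoothTransition (10*x-5)
  | 1, _ => 1
  | (_+2), x => 1 - (1 - kap P) * Real.smoothTransition (10*x-2)

noncomputable def phi (a : ℕ) (x : ℝ) : ℝ := ∫ t in (0:ℝ)..x, prof P a t

noncomputable def u (a : ℕ) (x : ℝ) : ℝ := al a + c P a * phi P a x

def Reg : ℕ → Set ℝ
  | 0 => Iic (1/5)
  | 1 => Icc (3/10) (1/2)
  | (_+2) => Ici (3/5)

noncomputable def mu : ℕ → ℕ → ℝ
  | 0, 0 => 1
  | 0, 1 => 1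
  | 0, (_+2) => kap P
  | 1, _ => 1
  | (_+2), 0 => 1
  | (_+2), (_+1) => kap P

noncomputable def sg (a b : ℕ) : ℝ := c P a * mu P a b

theorem kap_pos : 0 < kap P := pow_pos P.hk0 _
theorem kap_lt : kap P < 1 := by
  have := P.hk1
  exact pow_lt_one₀ P.hk0.le (by linarith) (by norm_num)
theorem R_pos : 0 < P.R := by linarith [P.hR1]

theorem w_pos (a : ℕ) : 0 < w P a := by
  have := R_pos P
  match a with
  | 0 => norm_num [w]
  | 1 => norm_num [w]
  | (n+2) => simp only [w]; positivity

theorem w_le (a : ℕ) : w P a ≤ 9/10 := by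
  match a with
  | 0 => norm_num [w]
  | 1 => norm_num [w]
  | (n+2) =>
    simp only [w]
    have h1 : (9/10:ℝ)^n ≤ 1 := pow_le_one₀ (by norm_num) (by norm_num)
    have := P.hR2
    have := R_pos P
    nlinarith

theorem c_pos (a : ℕ) : 0 < c P a := pow_pos (w_pos P a) _

theorem q_pos : 0 < q := by unfold q; positivity
theorem q_le : q ≤ 1/1000 := by unfold q; norm_num

theorem c_le (a : ℕ) : c P a ≤ 1/1000 := by
  refine le_trans (pow_le_pow_left₀ (w_pos P a).le (w_le P a) 100) ?_
  have := q_le
  unfold q at this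
  exact this

theorem c_succ (n : ℕ) : c P (n+2) ≤ 1/1000 * q^n := by
  have h : c P (n+2) = P.R^100 * q^n := by
    simp only [c, w, q]
    rw [mul_pow, ← pow_mul, ← pow_mul, mul_comm n 100]
  rw [h]
  have h1 : P.R^100 ≤ 1/1000 := by
    refine le_trans (pow_le_pow_left₀ (R_pos P).le P.hR2 100) ?_
    have := q_le
    unfold q at this
    exact this
  have := pow_pos q_pos n
  nlinarith

theorem c_pow (a : ℕ) : c P a = (w P a)^100 := rfl
theorem q_pow : q = (9/10 : ℝ)^100 := rfl
theorem kap_pow : kap P = P.k^100 := rfl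

attribute [irreducible] c kap q

theorem prof_cont (a : ℕ) : Continuous (prof P a) := by
  match a with
  | 0 =>
    have : prof P 0 = fun x => 1 - (1 - kap P) * Real.smoothTransition (10*x-5) := by
      funext x; rfl
    rw [this]
    exact continuous_const.sub (continuous_const.mul (Real.smoothTransition.continuous.comp (by fun_prop)))
  | 1 =>
    have : prof P 1 = fun x => 1 := by funext x; rfl
    rw [this]; exact continuous_const
  | (n+2) =>
    have : prof P (n+2) = fun x => 1 - (1 - kap P) * Real.smoothTransition (10*x-2) := by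
      funext x; rfl
    rw [this]
    exact continuous_const.sub (continuous_const.mul (Real.smoothTransition.continuous.comp (by fun_prop)))

theorem prof_smooth (a : ℕ) : ContDiff ℝ ∞ (prof P a) := by
  match a with
  | 0 =>
    have : prof P 0 = fun x => 1 - (1 - kap P) * Real.smoothTransition (10*x-5) := by
      funext x; rfl
    rw [this]
    exact contDiff_const.sub (contDiff_const.mul (Real.smoothTransition.contDiff.comp (by fun_prop)))
  | 1 =>
    have : prof P 1 = fun x => 1 := by funext x; rfl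
    rw [this]; exact contDiff_const
  | (n+2) =>
    have : prof P (n+2) = fun x => 1 - (1 - kap P) * Real.smoothTransition (10*x-2) := by
      funext x; rfl
    rw [this]
    exact contDiff_const.sub (contDiff_const.mul (Real.smoothTransition.contDiff.comp (by fun_prop)))

theorem prof_bd (a : ℕ) (x : ℝ) : kap P ≤ prof P a x ∧ prof P a x ≤ 1 := by
  have h0 := kap_pos P
  have h1 := kap_lt P
  match a with
  | 0 =>
    have a1 := Real.smoothTransition.nonneg (10*x-5)
    have a2 := Real.smoothTransition.le_one (10*x-5)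
    simp only [prof]
    constructor <;> nlinarith
  | 1 => simp only [prof]; exact ⟨h1.le, le_refl _⟩
  | (n+2) =>
    have a1 := Real.smoothTransition.nonneg (10*x-2)
    have a2 := Real.smoothTransition.le_one (10*x-2)
    simp only [prof]
    constructor <;> nlinarith

theorem prof_reg (a b : ℕ) (x : ℝ) (hx : x ∈ Reg b) : prof P a x = mu P a b := by
  match a, b with
  | 0, 0 =>
    simp only [Reg, mem_Iic] at hx
    simp only [prof, mu]
    rw [Real.smoothTransition.zero_of_nonpos (by linarith)]; ring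
  | 0, 1 =>
    simp only [Reg, mem_Icc] at hx
    simp only [prof, mu]
    rw [Real.smoothTransition.zero_of_nonpos (by linarith)]; ring
  | 0, (m+2) =>
    simp only [Reg, mem_Ici] at hx
    simp only [prof, mu]
    rw [Real.smoothTransition.one_of_one_le (by linarith)]; ring
  | 1, b => simp only [prof, mu]
  | (n+2), 0 =>
    simp only [Reg, mem_Iic] at hx
    simp only [prof, mu]
    rw [Real.smoothTransition.zero_of_nonpos (by linarith)]; ring
  | (n+2), 1 =>
    simp only [Reg, mem_Icc] at hx
    simp only [prof, mu]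
    rw [Real.smoothTransition.one_of_one_le (by linarith)]; ring
  | (n+2), (m+2) =>
    simp only [Reg, mem_Ici] at hx
    simp only [prof, mu]
    rw [Real.smoothTransition.one_of_one_le (by linarith)]; ring

theorem mu_pos (a b : ℕ) : 0 < mu P a b := by
  have h0 := kap_pos P
  match a, b with
  | 0, 0 => simp [mu]
  | 0, 1 => simp [mu]
  | 0, (m+2) => simpa [mu] using h0
  | 1, b => simp [mu]
  | (n+2), 0 => simp [mu]
  | (n+2), (m+1) => simpa [mu] using h0

theorem mu_le (a b : ℕ) : mu P a b ≤ 1 := by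
  have h0 := kap_lt P
  match a, b with
  | 0, 0 => simp [mu]
  | 0, 1 => simp [mu]
  | 0, (m+2) => simpa [mu] using h0.le
  | 1, b => simp [mu]
  | (n+2), 0 => simp [mu]
  | (n+2), (m+1) => simpa [mu] using h0.le

theorem sg_pos (a b : ℕ) : 0 < sg P a b := mul_pos (c_pos P a) (mu_pos P a b)

theorem sg_le (a b : ℕ) : sg P a b ≤ c P a := by
  have := c_pos P a
  have := mu_le P a b
  unfold sg
  nlinarith

theorem phi_deriv (a : ℕ) (x : ℝ) : HasDerivAt (phi P a) (prof P a x) x :=
  (prof_cont P a).integral_hasStrictDerivAt 0 x |>.hasDerivAt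

theorem u_deriv (a : ℕ) (x : ℝ) : HasDerivAt (u P a) (c P a * prof P a x) x :=
  ((phi_deriv P a x).const_mul (c P a)).const_add (al a)

theorem u_smooth (a : ℕ) : ContDiff ℝ ∞ (u P a) := by
  rw [contDiff_infty_iff_deriv]
  refine ⟨fun x => (u_deriv P a x).differentiableAt, ?_⟩
  have : deriv (u P a) = fun x => c P a * prof P a x := by
    funext x; exact (u_deriv P a x).deriv
  rw [this]
  exact contDiff_const.mul (prof_smooth P a)

theorem u_sub (a : ℕ) (x y : ℝ) : u P a x - u P a y = c P a * ∫ t in y..x, prof P a t := by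
  unfold u phi
  rw [← intervalIntegral.integral_interval_sub_left
    ((prof_cont P a).intervalIntegrable 0 x) ((prof_cont P a).intervalIntegrable 0 y)]
  ring

theorem Reg_ord (b : ℕ) : (Reg b).OrdConnected := by
  match b with
  | 0 => exact ordConnected_Iic
  | 1 => exact ordConnected_Icc
  | (n+2) => exact ordConnected_Ici

theorem u_reg (a b : ℕ) (x y : ℝ) (hx : x ∈ Reg b) (hy : y ∈ Reg b) :
    u P a x - u P a y = sg P a b * (x - y) := by
  rw [u_sub]
  have h : ∫ t in y..x, prof P a t = ∫ t in y..x, mu P a b := by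
    refine intervalIntegral.integral_congr ?_
    intro t ht
    exact prof_reg P a b t ((Reg_ord b).uIcc_subset hy hx ht)
  rw [h, intervalIntegral.integral_const, smul_eq_mul]
  unfold sg
  ring

theorem u_low (a : ℕ) (x y : ℝ) (hxy : y ≤ x) :
    c P a * kap P * (x - y) ≤ u P a x - u P a y := by
  rw [u_sub]
  have h : ∫ t in y..x, kap P ≤ ∫ t in y..x, prof P a t :=
    intervalIntegral.integral_mono_on hxy (by simp) ((prof_cont P a).intervalIntegrable y x)
      (fun t _ => (prof_bd P a t).1)
  rw [intervalIntegral.integral_const, smul_eq_mul] at h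
  have := c_pos P a
  nlinarith

theorem u_up (a : ℕ) (x y : ℝ) (hxy : y ≤ x) :
    u P a x - u P a y ≤ c P a * (x - y) := by
  rw [u_sub]
  have h : ∫ t in y..x, prof P a t ≤ ∫ t in y..x, (1:ℝ) :=
    intervalIntegral.integral_mono_on hxy ((prof_cont P a).intervalIntegrable y x) (by simp)
      (fun t _ => (prof_bd P a t).2)
  rw [intervalIntegral.integral_const, smul_eq_mul] at h
  have := c_pos P a
  nlinarith

theorem u_mono (a : ℕ) : StrictMono (u P a) := by
  intro y x hxy
  have h := u_low P a x y hxy.le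
  have := c_pos P a
  have := kap_pos P
  have : 0 < c P a * kap P * (x - y) := by
    have h1 : 0 < x - y := by linarith
    exact mul_pos (mul_pos (c_pos P a) (kap_pos P)) h1
  linarith

theorem u_zero (a : ℕ) : u P a 0 = al a := by simp [u, phi]

/-- Image of `[0,∞)` points. -/
theorem u_rng (a : ℕ) (x : ℝ) (h0 : -1 ≤ x) (h1 : x ≤ 2) :
    al a - c P a ≤ u P a x ∧ u P a x ≤ al a + 2 * c P a := by
  have hc := c_pos P a
  have hz := u_zero P a
  rcases le_total 0 x with h | h
  · have a1 := (u_mono P a).monotone h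
    have a2 := u_up P a x 0 h
    constructor <;> nlinarith
  · have a1 := (u_mono P a).monotone h
    have a2 := u_up P a 0 x h
    constructor <;> nlinarith

theorem u_rng' (a : ℕ) (x : ℝ) (h0 : 0 ≤ x) (h1 : x ≤ 1) :
    al a ≤ u P a x ∧ u P a x ≤ al a + c P a := by
  have hc := c_pos P a
  have hz := u_zero P a
  have a1 := (u_mono P a).monotone h0
  have a2 := u_up P a x 0 h0
  constructor <;> nlinarith

theorem qn_bd (n : ℕ) : 0 < q^n ∧ q^n ≤ 1 :=
  ⟨pow_pos q_pos n, pow_le_one₀ q_pos.le (by linarith [q_le])⟩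

theorem al_bd (a : ℕ) : 1/10 ≤ al a ∧ al a ≤ 9/10 := by
  match a with
  | 0 => norm_num [al]
  | 1 => norm_num [al]
  | (n+2) =>
    have := qn_bd n
    simp only [al]
    constructor <;> linarith

theorem u_memReg (a : ℕ) (x : ℝ) (h0 : -1 ≤ x) (h1 : x ≤ 2) : u P a x ∈ Reg a := by
  have h := u_rng P a x h0 h1
  have hc := c_pos P a
  have hc' := c_le P a
  match a with
  | 0 => simp only [al] at h; simp only [Reg, mem_Iic]; linarith
  | 1 => simp only [al] at h; simp only [Reg, mem_Icc]; constructor <;> linarith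
  | (n+2) =>
    have := qn_bd n
    simp only [al] at h; simp only [Reg, mem_Ici]; linarith

/-- separation of distinct letters: for `a < b`, every point of `u_a([-1,2])` is at distance at
least `c_a` from every point of `u_b([-1,2])`. -/
theorem sep (a b : ℕ) (hab : a < b) (x y : ℝ) (hx0 : -1 ≤ x) (hx1 : x ≤ 2) (hy0 : -1 ≤ y)
    (hy1 : y ≤ 2) : c P a ≤ |u P a x - u P b y| := by
  have hx := u_rng P a x hx0 hx1
  have hy := u_rng P b y hy0 hy1
  have hca := c_le P a
  have hcb := c_le P b
  have hca0 := c_pos P a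
  have hcb0 := c_pos P b
  match a, b, hab with
  | 0, 1, _ =>
    simp only [al] at hx hy
    rw [abs_sub_comm, le_abs]; left; linarith
  | 0, (m+2), _ =>
    have := qn_bd m
    simp only [al] at hx hy
    rw [abs_sub_comm, le_abs]; left; linarith
  | 1, (m+2), _ =>
    have := qn_bd m
    simp only [al] at hx hy
    rw [abs_sub_comm, le_abs]; left; linarith
  | (n+2), (m+2), h =>
    have hnm : n + 1 ≤ m := by omega
    have hq := q_le
    have hq0 := q_pos
    have h1 : q^m ≤ q^(n+1) := pow_le_pow_of_le_one hq0.le (by linarith) hnm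
    have h2 : q^(n+1) ≤ 1/1000 * q^n := by
      rw [pow_succ]
      have := pow_pos q_pos n
      nlinarith
    have h3 := c_succ P n
    have h4 := c_succ P m
    have h5 := pow_pos q_pos n
    have h6 := pow_pos q_pos m
    simp only [al] at hx hy
    rw [le_abs]; left
    nlinarith

end Pool.Agent.V11318.Mir
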