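import Pool.Agent.V11318.MirPt

namespace Pool.Agent.V11318.Mir

open MeasureTheory Filter Topology Set Metric
open scoped ENNReal ContDiff NNReal

variable (P : Par)

theorem pre_ofFn (o : ℕ → ℕ) (n : ℕ) : pre o n = List.ofFn (fun i : Fin n => o i) := by
  induction n generalizing o with
  | zero => rfl
  | succ n ih =>
    rw [pre_cons, List.ofFn_succ, ih]
    rfl

noncomputable def len (l : List ℕ) : ℝ := comp (u P) l 1 - comp (u P) l 0

theorem len_nn (l : List ℕ) : 0 ≤ len P l := by
  have := (comp_mono P l).monotone (zero_le_one : (0:ℝ) ≤ 1)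
  unfold len
  linarith

theorem len_cons (a b : ℕ) (l : List ℕ) : len P (a :: b :: l) = sg P a b * len P (b :: l) := by
  have h0 := comp_mem' P l 0 (le_refl _) zero_le_one
  have h1 := comp_mem' P l 1 zero_le_one (le_refl _)
  show u P a (u P b (comp (u P) l 1)) - u P a (u P b (comp (u P) l 0)) = _
  rw [u_reg P a b _ _ (u_memReg P b _ (by linarith) (by linarith))
    (u_memReg P b _ (by linarith) (by linarith))]
  rfl

theorem len_one (a : ℕ) : len P [a] ≤ c P a := by
  have := u_up P a 1 0 zero_le_one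
  show u P a 1 - u P a 0 ≤ _
  linarith

theorem len_le (l : List ℕ) : len P l ≤ (1/1000)^l.length := by
  have := comp_contr P l 0 1 zero_le_one
  unfold len
  linarith

theorem diam_le (l : List ℕ) : ediam (comp (u P) l '' Icc 0 1) ≤ ENNReal.ofReal (len P l) := by
  have h : comp (u P) l '' Icc 0 1 ⊆ Icc (comp (u P) l 0) (comp (u P) l 1) := by
    rintro _ ⟨x, hx, rfl⟩
    exact ⟨(comp_mono P l).monotone hx.1, (comp_mono P l).monotone hx.2⟩
  refine (ediam_mono h).trans ?_
  rw [Real.ediam_Icc]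
  exact le_refl _

/-- data for the upper bound -/
structure Up (s : ℝ) (h : ℕ → ℝ) where
  s_pos : 0 < s
  h_nn : ∀ a, 0 ≤ h a
  summ : Summable h
  sup : ∀ a, 0 < h a → ∃ T, HasSum (fun b => (sg P a b)^s * h b) T ∧ T ≤ h a
  C : ℝ
  C_nn : 0 ≤ C
  cmp : ∀ a, 0 < h a → (c P a)^s ≤ C * h a

variable {P} {s : ℝ} {h : ℕ → ℝ}

namespace Up

variable (U : Up P s h)
include U

theorem T_le (n : ℕ) : ∀ a : {a // 0 < h a},
    ∑' w : Fin n → {a // 0 < h a}, ENNReal.ofReal ((len P (a.1 :: List.ofFn (fun i => (w i).1)))^s) ≤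
      ENNReal.ofReal (U.C * h a.1) := by
  induction n with
  | zero =>
    intro a
    rw [tsum_fintype, Finset.univ_unique, Finset.sum_singleton]
    refine ENNReal.ofReal_le_ofReal ?_
    refine le_trans ?_ (U.cmp a.1 a.2)
    refine Real.rpow_le_rpow (len_nn P _) ?_ U.s_pos.le
    rw [List.ofFn_zero]
    exact len_one P a.1
  | succ n ih =>
    intro a
    rw [← (Fin.consEquiv (fun _ : Fin (n+1) => {a // 0 < h a})).tsum_eq]
    rw [ENNReal.tsum_prod']
    obtain ⟨T, hT, hTle⟩ := U.sup a.1 a.2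
    calc _ = ∑' b : {a // 0 < h a}, ∑' w : Fin n → {a // 0 < h a},
          ENNReal.ofReal ((sg P a.1 b.1)^s) *
            ENNReal.ofReal ((len P (b.1 :: List.ofFn (fun i => (w i).1)))^s) := by
          refine tsum_congr fun b => tsum_congr fun w => ?_
          rw [← ENNReal.ofReal_mul (Real.rpow_nonneg (sg_pos P a.1 b.1).le s),
            ← Real.mul_rpow (sg_pos P a.1 b.1).le (len_nn P _), ← len_cons, List.ofFn_succ]
          rfl
      _ = ∑' b : {a // 0 < h a}, ENNReal.ofReal ((sg P a.1 b.1)^s) *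
          ∑' w : Fin n → {a // 0 < h a}, 
            ENNReal.ofReal ((len P (b.1 :: List.ofFn (fun i => (w i).1)))^s) := by
          refine tsum_congr fun b => ?_
          rw [ENNReal.tsum_mul_left]
      _ ≤ ∑' b : {a // 0 < h a}, ENNReal.ofReal ((sg P a.1 b.1)^s) *
            ENNReal.ofReal (U.C * h b.1) := by
          refine ENNReal.tsum_le_tsum fun b => ?_
          gcongr
          exact ih b
      _ = ∑' b : {a // 0 < h a}, (fun b : ℕ => ENNReal.ofReal (U.C * ((sg P a.1 b)^s * h b))) b.1 := by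
          refine tsum_congr fun b => ?_
          rw [← ENNReal.ofReal_mul (Real.rpow_nonneg (sg_pos P a.1 b.1).le s)]
          congr 1
          ring
      _ ≤ ∑' b : ℕ, ENNReal.ofReal (U.C * ((sg P a.1 b)^s * h b)) :=
          ENNReal.tsum_comp_le_tsum_of_injective Subtype.val_injective _
      _ = ENNReal.ofReal (U.C * T) := by
          have h1 := hT.mul_left U.C
          rw [← h1.tsum_eq, ENNReal.ofReal_tsum_of_nonneg _ h1.summable]
          intro b
          exact mul_nonneg U.C_nn (mul_nonneg (Real.rpow_nonneg (sg_pos P a.1 b).le s) (U.h_nn b))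
      _ ≤ _ := ENNReal.ofReal_le_ofReal (mul_le_mul_of_nonneg_left hTle U.C_nn)

theorem tot (n : ℕ) :
    ∑' w : Fin (n+1) → {a // 0 < h a},
      (ediam (comp (u P) (List.ofFn (fun i => (w i).1)) '' Icc 0 1))^s ≤
      ENNReal.ofReal (U.C * ∑' a, h a) := by
  have hcast : ∀ l : List ℕ, (ediam (comp (u P) l '' Icc 0 1))^s ≤ ENNReal.ofReal ((len P l)^s) := by
    intro l
    rw [← ENNReal.ofReal_rpow_of_nonneg (len_nn P l) U.s_pos.le]
    exact ENNReal.rpow_le_rpow (diam_le P l) U.s_pos.le
  rw [← (Fin.consEquiv (fun _ : Fin (n+1) => {a // 0 < h a})).tsum_eq]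
  rw [ENNReal.tsum_prod']
  calc _ ≤ ∑' b : {a // 0 < h a}, ∑' w : Fin n → {a // 0 < h a},
            ENNReal.ofReal ((len P (b.1 :: List.ofFn (fun i => (w i).1)))^s) := by
        refine ENNReal.tsum_le_tsum fun b => ENNReal.tsum_le_tsum fun w => ?_
        refine le_trans (hcast _) ?_
        rw [List.ofFn_succ]
        exact le_refl _
    _ ≤ ∑' b : {a // 0 < h a}, ENNReal.ofReal (U.C * h b.1) :=
        ENNReal.tsum_le_tsum fun b => U.T_le n b
    _ ≤ ∑' b : ℕ, ENNReal.ofReal (U.C * h b) :=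
        ENNReal.tsum_comp_le_tsum_of_injective (g := fun b : ℕ => ENNReal.ofReal (U.C * h b))
          Subtype.val_injective
    _ = _ := by
        have h1 := U.summ.mul_left U.C
        rw [← tsum_mul_left, ENNReal.ofReal_tsum_of_nonneg _ h1]
        intro b
        exact mul_nonneg U.C_nn (U.h_nn b)

theorem dim_le : dimH (limitSet (Icc 0 1) (u P) {a | 0 < h a}) ≤ ENNReal.ofReal s := by
  have hs : (s.toNNReal : ℝ) = s := Real.coe_toNNReal s U.s_pos.le
  have key : μH[s] (limitSet (Icc 0 1) (u P) {a | 0 < h a}) ≤ ENNReal.ofReal (U.C * ∑' a, h a) := by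
    have h1 := Measure.hausdorffMeasure_le_liminf_tsum (l := atTop) (β := ℕ)
      (ι := fun n => Fin (n+1) → {a // 0 < h a}) s
      (limitSet (Icc 0 1) (u P) {a | 0 < h a})
      (fun n => ENNReal.ofReal ((1/1000)^(n+1))) ?_
      (fun n w => comp (u P) (List.ofFn (fun i => (w i).1)) '' Icc 0 1) ?_ ?_
    · refine h1.trans ?_
      refine (liminf_le_liminf (Eventually.of_forall fun n => U.tot n)).trans ?_
      rw [liminf_const]
    · have h3 : Tendsto (fun n : ℕ => (1/1000 : ℝ)^(n+1)) atTop (𝓝 0) :=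
        (tendsto_add_atTop_iff_nat 1).2 
          (tendsto_pow_atTop_nhds_zero_of_lt_one (by norm_num) (by norm_num))
      have := ENNReal.tendsto_ofReal h3
      simpa using this
    · refine Eventually.of_forall fun n w => ?_
      refine (diam_le P _).trans (ENNReal.ofReal_le_ofReal ?_)
      have := len_le P (List.ofFn (fun i => (w i).1))
      rwa [List.length_ofFn] at this
    · refine Eventually.of_forall fun n => ?_
      rw [limitSet_eq]
      rintro _ ⟨o, ho, rfl⟩
      rw [mem_iUnion]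
      refine ⟨fun i => ⟨o i, ho i⟩, ?_⟩
      refine ⟨pt P (fun i => o (i + (n+1))), ⟨(pt_mem P _).1, (pt_mem P _).2⟩, ?_⟩
      rw [pt_comp P o (n+1)]
      congr 1
      rw [pre_ofFn]
  have h2 : dimH (limitSet (Icc 0 1) (u P) {a | 0 < h a}) ≤ s.toNNReal := by
    refine dimH_le_of_hausdorffMeasure_ne_top ?_
    rw [hs]
    exact ne_top_of_le_ne_top ENNReal.ofReal_ne_top key
  exact h2

end Up

end Pool.Agent.V11318.Mir
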