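import Mathlib

/-!
Orders of permutations: the function `S m = ∑ p ^ v_p(m)`, counting integers with `S m ≤ n`.
-/

set_option autoImplicit false
open Finset

namespace Pool.Agent.V11318.Ord

/-- the sum of the prime powers exactly dividing `m` -/
def S (m : ℕ) : ℕ := ∑ p ∈ m.primeFactors, p ^ m.factorization p

lemma S_one : S 1 = 0 := by simp [S]

lemma S_prime_pow {p k : ℕ} (hp : p.Prime) (hk : 0 < k) : S (p ^ k) = p ^ k := by
  rw [S, Nat.primeFactors_prime_pow hk.ne' hp, sum_singleton, hp.factorization_pow]
  simp

lemma S_mul {a b : ℕ} (hab : Nat.Coprime a b) (ha : a ≠ 0) (hb : b ≠ 0) :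
    S (a * b) = S a + S b := by
  rw [S, hab.primeFactors_mul, sum_union hab.disjoint_primeFactors, S, S]
  congr 1
  · apply sum_congr rfl
    intro p hp
    rw [Nat.factorization_mul ha hb, Finsupp.add_apply]
    have : b.factorization p = 0 := by
      apply Nat.factorization_eq_zero_of_not_dvd
      intro h
      have h1 := Nat.dvd_of_mem_primeFactors hp
      have h2 := Nat.prime_of_mem_primeFactors hp
      have := Nat.eq_one_of_dvd_coprimes hab h1 h
      exact h2.one_lt.ne' this
    rw [this, add_zero]
  · apply sum_congr rfl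
    intro p hp
    rw [Nat.factorization_mul ha hb, Finsupp.add_apply]
    have : a.factorization p = 0 := by
      apply Nat.factorization_eq_zero_of_not_dvd
      intro h
      have h1 := Nat.dvd_of_mem_primeFactors hp
      have h2 := Nat.prime_of_mem_primeFactors hp
      have := Nat.eq_one_of_dvd_coprimes hab h h1
      exact h2.one_lt.ne' this
    rw [this, zero_add]

lemma S_le (m : ℕ) : S m ≤ m := by
  induction m using Nat.recOnPosPrimePosCoprime with
  | prime_pow p n hp hn => rw [S_prime_pow hp hn]
  | zero => simp [S]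
  | one => simp [S]
  | coprime a b ha hb hab iha ihb =>
    rw [S_mul hab (by omega) (by omega)]
    have : a + b ≤ a * b := by nlinarith
    omega

lemma S_lcm {a b : ℕ} (ha : a ≠ 0) (hb : b ≠ 0) : S (Nat.lcm a b) ≤ S a + S b := by
  have hsub : (Nat.lcm a b).primeFactors ⊆ a.primeFactors ∪ b.primeFactors := by
    intro p hp
    rw [Nat.mem_primeFactors] at hp
    rw [mem_union, Nat.mem_primeFactors, Nat.mem_primeFactors]
    have h1 : p ∣ a * b := hp.2.1.trans (Nat.lcm_dvd_mul a b)
    rcases (hp.1.dvd_mul).1 h1 with h | h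
    · exact Or.inl ⟨hp.1, h, ha⟩
    · exact Or.inr ⟨hp.1, h, hb⟩
  have h2 : S (Nat.lcm a b) ≤ ∑ p ∈ a.primeFactors ∪ b.primeFactors,
      ((if p ∈ a.primeFactors then p ^ a.factorization p else 0) +
        (if p ∈ b.primeFactors then p ^ b.factorization p else 0)) := by
    rw [S]
    calc ∑ p ∈ (Nat.lcm a b).primeFactors, p ^ (Nat.lcm a b).factorization p
        ≤ ∑ p ∈ (Nat.lcm a b).primeFactors,
          ((if p ∈ a.primeFactors then p ^ a.factorization p else 0) +
          (if p ∈ b.primeFactors then p ^ b.factorization p else 0)) := by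
          apply sum_le_sum
          intro p hp
          have hp1 := Nat.prime_of_mem_primeFactors hp
          have hp2 : 0 < (Nat.lcm a b).factorization p :=
            hp1.factorization_pos_of_dvd (Nat.lcm_ne_zero ha hb) (Nat.dvd_of_mem_primeFactors hp)
          rw [Nat.factorization_lcm ha hb, Finsupp.sup_apply] at hp2 ⊢
          rcases le_total (a.factorization p) (b.factorization p) with h | h
          · rw [sup_eq_right.2 h] at hp2 ⊢
            have : p ∈ b.primeFactors := by
              rw [← Nat.support_factorization, Finsupp.mem_support_iff]; omega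
            rw [if_pos this]
            omega
          · rw [sup_eq_left.2 h] at hp2 ⊢
            have : p ∈ a.primeFactors := by
              rw [← Nat.support_factorization, Finsupp.mem_support_iff]; omega
            rw [if_pos this]
            omega
      _ ≤ _ := sum_le_sum_of_subset hsub
  refine h2.trans (le_of_eq ?_)
  rw [sum_add_distrib, S, S]
  congr 1
  · rw [← sum_filter]
    congr 1
    ext p
    simp only [mem_filter, mem_union]
    tauto
  · rw [← sum_filter]
    congr 1
    ext p
    simp only [mem_filter, mem_union]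
    tauto

lemma S_lcm_multiset (s : Multiset ℕ) (hs : ∀ a ∈ s, a ≠ 0) :
    s.lcm ≠ 0 ∧ S s.lcm ≤ s.sum := by
  induction s using Multiset.induction_on with
  | empty => simp [S]
  | cons a s ih =>
    obtain ⟨h1, h2⟩ := ih (fun b hb => hs b (Multiset.mem_cons_of_mem hb))
    have ha := hs a (Multiset.mem_cons_self a s)
    rw [Multiset.lcm_cons, Multiset.sum_cons]
    refine ⟨?_, ?_⟩
    · exact Nat.lcm_ne_zero ha h1
    · calc S (GCDMonoid.lcm a s.lcm) ≤ S a + S s.lcm := S_lcm ha h1
        _ ≤ a + s.sum := Nat.add_le_add (S_le a) h2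

lemma S_orderOf {n : ℕ} (g : Equiv.Perm (Fin n)) : orderOf g ≠ 0 ∧ S (orderOf g) ≤ n := by
  have h := S_lcm_multiset g.cycleType (fun a ha => by
    have := Equiv.Perm.two_le_of_mem_cycleType ha
    omega)
  rw [Equiv.Perm.lcm_cycleType] at h
  refine ⟨h.1, h.2.trans ?_⟩
  rw [Equiv.Perm.sum_cycleType]
  calc _ ≤ Fintype.card (Fin n) := card_le_univ _
    _ = n := Fintype.card_fin n

/-- the powers of `p` with exponent in `[1, K]` and value at most `N` -/
def pw (K N p : ℕ) : List ℕ := ((List.range K).map (fun a => p ^ (a + 1))).filter (fun q => q ≤ N)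

/-- the number of choices of at most one element from each list with total sum at most `n` -/
def T : List (List ℕ) → ℕ → ℕ
  | [], _ => 1
  | (qs :: r), n => T r n + (qs.map (fun q => if q ≤ n then T r (n - q) else 0)).sum

/-- integers with prescribed prime factors and `S m ≤ n` -/
def O (P : Finset ℕ) (n : ℕ) : Set ℕ := {m | m ≠ 0 ∧ m.primeFactors ⊆ P ∧ S m ≤ n}

lemma mem_pw {K N p q : ℕ} : q ∈ pw K N p ↔ (∃ a < K, p ^ (a + 1) = q) ∧ q ≤ N := by
  simp [pw]

lemma count_list (r : List (List ℕ)) (P : Finset ℕ) (n : ℕ)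
    (ih : ∀ k ≤ n, (O P k).Finite ∧ (O P k).ncard ≤ T r k) (l : List ℕ) :
    ({m | ∃ q ∈ l, q ≤ n ∧ ∃ m' ∈ O P (n - q), m = m' * q}).Finite ∧
    ({m | ∃ q ∈ l, q ≤ n ∧ ∃ m' ∈ O P (n - q), m = m' * q}).ncard ≤
      (l.map (fun q => if q ≤ n then T r (n - q) else 0)).sum := by
  induction l with
  | nil => simp
  | cons q l ihl =>
    by_cases hq : q ≤ n
    · have h1 : {m | ∃ q' ∈ q :: l, q' ≤ n ∧ ∃ m' ∈ O P (n - q'), m = m' * q'} ⊆
          ((fun m' => m' * q) '' (O P (n - q))) ∪
          {m | ∃ q' ∈ l, q' ≤ n ∧ ∃ m' ∈ O P (n - q'), m = m' * q'} := by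
        rintro m ⟨q', hq', h⟩
        rcases List.mem_cons.1 hq' with rfl | h'
        · left
          obtain ⟨_, m', hm', rfl⟩ := h
          exact ⟨m', hm', rfl⟩
        · right
          exact ⟨q', h', h⟩
      have h2 := ih (n - q) (Nat.sub_le _ _)
      have hfin : (((fun m' => m' * q) '' (O P (n - q))) ∪
          {m | ∃ q' ∈ l, q' ≤ n ∧ ∃ m' ∈ O P (n - q'), m = m' * q'}).Finite :=
        (h2.1.image _).union ihl.1
      refine ⟨hfin.subset h1, ?_⟩
      calc _ ≤ _ := Set.ncard_le_ncard h1 hfin
        _ ≤ _ := Set.ncard_union_le _ _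
        _ ≤ T r (n - q) + _ := Nat.add_le_add ((Set.ncard_image_le h2.1).trans h2.2) ihl.2
        _ = _ := by simp [hq]
    · have h1 : {m | ∃ q' ∈ q :: l, q' ≤ n ∧ ∃ m' ∈ O P (n - q'), m = m' * q'} =
          {m | ∃ q' ∈ l, q' ≤ n ∧ ∃ m' ∈ O P (n - q'), m = m' * q'} := by
        ext m
        constructor
        · rintro ⟨q', hq', h⟩
          rcases List.mem_cons.1 hq' with rfl | h'
          · exact absurd h.1 hq
          · exact ⟨q', h', h⟩
        · rintro ⟨q', hq', h⟩
          exact ⟨q', List.mem_cons_of_mem _ hq', h⟩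
      rw [h1]
      refine ⟨ihl.1, ihl.2.trans ?_⟩
      simp [hq]

lemma count_le (K N : ℕ) (hK : N < 2 ^ (K + 1)) (ps : List ℕ) :
    ∀ n ≤ N, (O ps.toFinset n).Finite ∧ (O ps.toFinset n).ncard ≤ T (ps.map (pw K N)) n := by
  induction ps with
  | nil =>
    intro n _
    have : O ([] : List ℕ).toFinset n = {1} := by
      ext m
      simp only [O, List.toFinset_nil, subset_empty, Set.mem_ofPred_eq, Set.mem_singleton_iff,
        Nat.primeFactors_eq_empty]
      constructor
      · rintro ⟨h1, h2, _⟩
        rcases h2 with h | h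
        · exact absurd h h1
        · exact h
      · rintro rfl
        refine ⟨one_ne_zero, Or.inr rfl, ?_⟩
        rw [S_one]
        omega
    rw [this]
    simp [T]
  | cons p ps ih =>
    intro n hn
    rw [List.map_cons, T]
    by_cases hp : p.Prime ∧ p ∉ ps
    · obtain ⟨hp, hpps⟩ := hp
      have h1 : O (p :: ps).toFinset n ⊆ O ps.toFinset n ∪
          {m | ∃ q ∈ pw K N p, q ≤ n ∧ ∃ m' ∈ O ps.toFinset (n - q), m = m' * q} := by
        rintro m ⟨hm1, hm2, hm3⟩
        rw [List.toFinset_cons] at hm2
        by_cases hpm : p ∣ m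
        · right
          set a := m.factorization p with ha
          have ha0 : 0 < a := hp.factorization_pos_of_dvd hm1 hpm
          have hdecomp : ordProj[p] m * ordCompl[p] m = m := Nat.ordProj_mul_ordCompl_eq_self m p
          have hc : Nat.Coprime (p ^ a) (m / p ^ a) :=
            (Nat.coprime_ordCompl hp hm1).pow_left a
          have hm' : m / p ^ a ≠ 0 := (Nat.ordCompl_pos p hm1).ne'
          have hS : S m = p ^ a + S (m / p ^ a) := by
            conv_lhs => rw [← hdecomp]
            rw [S_mul hc (pow_pos hp.pos a).ne' hm', S_prime_pow hp ha0]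
          have hqn : p ^ a ≤ n := by omega
          refine ⟨p ^ a, ?_, hqn, m / p ^ a, ⟨hm', ?_, by omega⟩, ?_⟩
          · rw [mem_pw]
            refine ⟨⟨a - 1, ?_, by rw [Nat.sub_add_cancel ha0]⟩, hqn.trans hn⟩
            have h3 : 2 ^ a < 2 ^ (K + 1) :=
              lt_of_le_of_lt ((Nat.pow_le_pow_left hp.two_le a).trans (hqn.trans hn)) hK
            have := (Nat.pow_lt_pow_iff_right (by norm_num : 1 < 2)).1 h3
            omega
          · intro r hr
            have hr1 : r ∈ m.primeFactors := by
              rw [Nat.mem_primeFactors] at hr ⊢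
              exact ⟨hr.1, hr.2.1.trans (Nat.ordCompl_dvd m p), hm1⟩
            have hr2 := hm2 hr1
            rw [mem_insert] at hr2
            rcases hr2 with rfl | h
            · exfalso
              rw [Nat.mem_primeFactors] at hr
              exact Nat.not_dvd_ordCompl hp hm1 hr.2.1
            · exact h
          · rw [mul_comm]
            exact hdecomp.symm
        · left
          refine ⟨hm1, ?_, hm3⟩
          intro r hr
          have hr2 := hm2 hr
          rw [mem_insert] at hr2
          rcases hr2 with rfl | h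
          · exact absurd (Nat.dvd_of_mem_primeFactors hr) hpm
          · exact h
      have h2 := ih n hn
      have h3 := count_list (ps.map (pw K N)) ps.toFinset n
        (fun k hk => ih k (hk.trans hn)) (pw K N p)
      have hfin := h2.1.union h3.1
      refine ⟨hfin.subset h1, ?_⟩
      calc _ ≤ _ := Set.ncard_le_ncard h1 hfin
        _ ≤ _ := Set.ncard_union_le _ _
        _ ≤ _ := Nat.add_le_add h2.2 h3.2
    · have h1 : O (p :: ps).toFinset n = O ps.toFinset n := by
        ext m
        simp only [O, Set.mem_ofPred_eq, List.toFinset_cons]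
        constructor
        · rintro ⟨h1, h2, h3⟩
          refine ⟨h1, ?_, h3⟩
          intro r hr
          have hr2 := h2 hr
          rw [mem_insert] at hr2
          rcases hr2 with rfl | h
          · by_contra hcon
            apply hp
            refine ⟨Nat.prime_of_mem_primeFactors hr, ?_⟩
            rwa [List.mem_toFinset] at hcon
          · exact h
        · rintro ⟨h1, h2, h3⟩
          exact ⟨h1, h2.trans (subset_insert _ _), h3⟩
      rw [h1]
      exact ⟨(ih n hn).1, (ih n hn).2.trans (Nat.le_add_right _ _)⟩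

/-- the orders of the elements of the symmetric group -/
lemma orders_subset (n : ℕ) (P : Finset ℕ) (hP : ∀ p ≤ n, p.Prime → p ∈ P) :
    Set.range (fun g : Equiv.Perm (Fin n) => orderOf g) ⊆ O P n := by
  rintro m ⟨g, rfl⟩
  obtain ⟨h1, h2⟩ := S_orderOf g
  refine ⟨h1, ?_, h2⟩
  intro p hp
  have hp1 := Nat.prime_of_mem_primeFactors hp
  refine hP p ?_ hp1
  calc p = p ^ 1 := (pow_one p).symm
    _ ≤ p ^ (orderOf g).factorization p := Nat.pow_le_pow_right hp1.pos
        (hp1.factorization_pos_of_dvd h1 (Nat.dvd_of_mem_primeFactors hp))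
    _ ≤ S (orderOf g) := single_le_sum (f := fun p => p ^ (orderOf g).factorization p)
        (fun _ _ => Nat.zero_le _) hp
    _ ≤ n := h2

/-- Rankin's bound -/
lemma rankin (x : ℝ) (hx0 : 0 < x) (hx1 : x ≤ 1) (L : List (List ℕ)) :
    ∀ n : ℕ, (T L n : ℝ) * x ^ n ≤ (L.map (fun qs => 1 + (qs.map (fun q => x ^ q)).sum)).prod := by
  induction L with
  | nil =>
    intro n
    simp only [T, Nat.cast_one, one_mul, List.map_nil, List.prod_nil]
    exact pow_le_one₀ hx0.le hx1
  | cons qs r ih =>
    intro n
    set M := (r.map (fun qs => 1 + (qs.map (fun q => x ^ q)).sum)).prod with hM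
    rw [T, List.map_cons, List.prod_cons, ← hM]
    have key : ∀ l : List ℕ, (((l.map (fun q => if q ≤ n then T r (n - q) else 0)).sum : ℕ) : ℝ)
        * x ^ n ≤ (l.map (fun q => x ^ q)).sum * M := by
      intro l
      induction l with
      | nil => simp
      | cons q l ihl =>
        simp only [List.map_cons, List.sum_cons]
        rw [Nat.cast_add, add_mul, add_mul]
        refine add_le_add ?_ ihl
        by_cases hq : q ≤ n
        · rw [if_pos hq]
          have h1 : x ^ n = x ^ (n - q) * x ^ q := by rw [← pow_add, Nat.sub_add_cancel hq]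
          rw [h1]
          calc (T r (n - q) : ℝ) * (x ^ (n - q) * x ^ q)
              = (T r (n - q) * x ^ (n - q)) * x ^ q := by ring
            _ ≤ M * x ^ q := mul_le_mul_of_nonneg_right (ih _) (by positivity)
            _ = x ^ q * M := by ring
        · rw [if_neg hq]
          have hM0 : 0 ≤ M := le_trans (by positivity) (ih 0)
          rw [Nat.cast_zero, zero_mul]
          positivity
    rw [Nat.cast_add, add_mul, add_mul, one_mul]
    exact add_le_add (ih n) (key qs)

end Pool.Agent.V11318.Ord
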