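import Pool.Agent.V11318.OrdDP

/-!
Rankin's bound with explicit numerical certificates.
-/

set_option autoImplicit false
open Finset

namespace Pool.Agent.V11318.Ord

/-- number of orders -/
noncomputable def ord (n : ℕ) : ℕ :=
  (Set.range (fun g : Equiv.Perm (Fin n) => orderOf g)).ncard

/-- local factor -/
noncomputable def loc (x : ℝ) (K N p : ℕ) : ℝ :=
  1 + ∑ a ∈ range K, if p ^ (a + 1) ≤ N then x ^ (p ^ (a + 1)) else 0

/-- the primes up to `n` -/
def P (n : ℕ) : Finset ℕ := (range (n + 1)).filter Nat.Prime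

lemma mem_P {n p : ℕ} : p ∈ P n ↔ p ≤ n ∧ p.Prime := by
  simp [P, Nat.lt_succ_iff]

lemma loc_eq (x : ℝ) (K N p : ℕ) : loc x K N p = 1 + ((pw K N p).map (fun q => x ^ q)).sum := by
  rw [loc]
  congr 1
  induction K with
  | zero => simp [pw]
  | succ K ih =>
    rw [sum_range_succ, ih]
    simp only [pw, List.range_succ, List.map_append, List.filter_append, List.sum_append,
      List.map_cons, List.map_nil]
    congr 1
    by_cases h : p ^ (K + 1) ≤ N
    · rw [if_pos h]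
      simp [h]
    · rw [if_neg h]
      simp [h]

lemma ord_rankin (x : ℝ) (hx0 : 0 < x) (hx1 : x ≤ 1) (n : ℕ) :
    (ord n : ℝ) * x ^ n ≤ ∏ p ∈ P n, loc x n n p := by
  set ps : List ℕ := (P n).toList with hps
  have hps' : ps.toFinset = P n := toList_toFinset _
  have h1 := count_le n n (by
    calc n < n + 1 := by omega
      _ < 2 ^ (n + 1) := Nat.lt_two_pow_self) ps n le_rfl
  have h2 := orders_subset n ps.toFinset (by
    intro p hp hp'
    rw [hps', mem_P]
    exact ⟨hp, hp'⟩)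
  have h3 : ord n ≤ T (ps.map (pw n n)) n := (Set.ncard_le_ncard h2 h1.1).trans h1.2
  have h4 := rankin x hx0 hx1 (ps.map (pw n n)) n
  have h5 : ((ps.map (pw n n)).map (fun qs => 1 + (qs.map (fun q => x ^ q)).sum)).prod =
      ∏ p ∈ P n, loc x n n p := by
    rw [List.map_map, hps, prod_map_toList]
    apply prod_congr rfl
    intro p _
    rw [loc_eq]
    rfl
  rw [h5] at h4
  refine le_trans (mul_le_mul_of_nonneg_right ?_ (by positivity)) h4
  exact_mod_cast h3

lemma pair_inj (D : Finset (ℕ × ℕ)) (hD : ∀ z ∈ D, z.1.Prime) :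
    Set.InjOn (fun z : ℕ × ℕ => z.1 ^ (z.2 + 1)) (D : Set (ℕ × ℕ)) := by
  rintro ⟨p, a⟩ hz ⟨q, b⟩ hz' h
  simp only at h
  obtain ⟨h1, h2⟩ := Nat.Prime.pow_inj (hD _ hz) (hD _ hz') h
  have h3 : p = q := h1
  rw [h3, h2]

lemma split_loc (x : ℝ) (hx0 : 0 < x) (K Q n : ℕ) (hK : Q < 2 ^ (K + 1)) (hKn : K ≤ n)
    (hQn : Q ≤ n) :
    ∏ p ∈ P n, loc x n n p ≤ (∏ p ∈ P Q, loc x K Q p) * Real.exp (∑ k ∈ Ioc Q n, x ^ k) := by
  set B : ℕ → ℝ := fun p => ∑ a ∈ range n, if Q < p ^ (a + 1) ∧ p ^ (a + 1) ≤ n then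
    x ^ (p ^ (a + 1)) else 0 with hB
  have hloc : ∀ p ∈ P n, loc x n n p ≤ loc x K Q p * Real.exp (B p) := by
    intro p hp
    have hp' := (mem_P.1 hp).2
    have h1 : loc x n n p = loc x n Q p + B p := by
      rw [loc, loc, hB, add_assoc, ← sum_add_distrib]
      congr 1
      apply sum_congr rfl
      intro a _
      by_cases h : p ^ (a + 1) ≤ Q
      · rw [if_pos h, if_pos (h.trans hQn), if_neg (by omega), add_zero]
      · rw [if_neg h]
        by_cases h' : p ^ (a + 1) ≤ n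
        · rw [if_pos h', if_pos ⟨by omega, h'⟩, zero_add]
        · rw [if_neg h', if_neg (by omega), zero_add]
    have h2 : loc x n Q p = loc x K Q p := by
      rw [loc, loc]
      congr 1
      symm
      apply sum_subset (range_subset_range.2 hKn)
      intro a _ ha
      rw [mem_range, not_lt] at ha
      rw [if_neg]
      rw [not_le]
      calc Q < 2 ^ (K + 1) := hK
        _ ≤ 2 ^ (a + 1) := Nat.pow_le_pow_right (by norm_num) (by omega)
        _ ≤ p ^ (a + 1) := Nat.pow_le_pow_left hp'.two_le _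
    have hB0 : 0 ≤ B p := sum_nonneg (fun a _ => by split_ifs <;> positivity)
    have hl1 : 1 ≤ loc x K Q p := by
      rw [loc]
      have : 0 ≤ ∑ a ∈ range K, if p ^ (a + 1) ≤ Q then x ^ (p ^ (a + 1)) else 0 :=
        sum_nonneg (fun a _ => by split_ifs <;> positivity)
      linarith
    rw [h1, h2]
    calc loc x K Q p + B p ≤ loc x K Q p * (1 + B p) := by nlinarith
      _ ≤ _ := by
        apply mul_le_mul_of_nonneg_left _ (by linarith)
        rw [add_comm]
        exact Real.add_one_le_exp _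
  have hl0 : ∀ p, 0 ≤ loc x K Q p := fun p => by
    rw [loc]
    have : 0 ≤ ∑ a ∈ range K, if p ^ (a + 1) ≤ Q then x ^ (p ^ (a + 1)) else 0 :=
      sum_nonneg (fun a _ => by split_ifs <;> positivity)
    linarith
  have h3 : ∏ p ∈ P n, loc x n n p ≤ ∏ p ∈ P n, (loc x K Q p * Real.exp (B p)) := by
    apply prod_le_prod
    · intro p _
      rw [loc]
      have : 0 ≤ ∑ a ∈ range n, if p ^ (a + 1) ≤ n then x ^ (p ^ (a + 1)) else 0 :=
        sum_nonneg (fun a _ => by split_ifs <;> positivity)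
      linarith
    · exact hloc
  rw [prod_mul_distrib, ← Real.exp_sum] at h3
  refine h3.trans ?_
  have h4 : ∏ p ∈ P n, loc x K Q p = ∏ p ∈ P Q, loc x K Q p := by
    symm
    apply prod_subset
    · intro p hp
      rw [mem_P] at hp ⊢
      exact ⟨hp.1.trans hQn, hp.2⟩
    · intro p hp hp'
      rw [mem_P] at hp hp'
      have hpQ : Q < p := by
        by_contra hcon
        exact hp' ⟨by omega, hp.2⟩
      rw [loc, sum_eq_zero, add_zero]
      intro a _
      rw [if_neg]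
      rw [not_le]
      calc Q < p := hpQ
        _ = p ^ 1 := (pow_one p).symm
        _ ≤ p ^ (a + 1) := Nat.pow_le_pow_right hp.2.pos (by omega)
  rw [h4]
  apply mul_le_mul_of_nonneg_left _ (prod_nonneg (fun p _ => hl0 p))
  apply Real.exp_le_exp.2
  -- the double sum
  have h5 : ∑ p ∈ P n, B p = ∑ z ∈ ((P n) ×ˢ (range n)).filter
      (fun z => Q < z.1 ^ (z.2 + 1) ∧ z.1 ^ (z.2 + 1) ≤ n), x ^ (z.1 ^ (z.2 + 1)) := by
    rw [hB, sum_filter, sum_product]
  rw [h5]
  have hinj := pair_inj (((P n) ×ˢ (range n)).filter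
      (fun z => Q < z.1 ^ (z.2 + 1) ∧ z.1 ^ (z.2 + 1) ≤ n)) (by
    intro z hz
    rw [mem_filter, mem_product, mem_P] at hz
    exact hz.1.1.2)
  rw [← sum_image (g := fun z : ℕ × ℕ => z.1 ^ (z.2 + 1)) (f := fun k => x ^ k) hinj]
  apply sum_le_sum_of_subset_of_nonneg
  · intro k hk
    rw [mem_image] at hk
    obtain ⟨z, hz, rfl⟩ := hk
    rw [mem_filter] at hz
    rw [mem_Ioc]
    exact hz.2
  · intro k _ _
    positivity

/-! ### numerical certificates -/

/-- fixed point upper bound for `((w - 1) / w) ^ q` -/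
def ub (w D q : ℕ) : ℕ := ((w - 1) ^ q * D) / w ^ q + 1

/-- fixed point upper bound for the local factor -/
def locU (w D K Q p : ℕ) : ℕ := D + ((pw K Q p).map (ub w D)).sum

/-- fixed point upper bound for the product -/
def accU (w D K Q : ℕ) : List ℕ → ℕ
  | [] => D
  | (p :: ps) => accU w D K Q ps * locU w D K Q p / D + 1

lemma le_div_add_one (a b : ℕ) (hb : 0 < b) : (a : ℝ) / b ≤ ((a / b + 1 : ℕ) : ℝ) := by
  rw [div_le_iff₀ (by exact_mod_cast hb)]
  have h1 := Nat.div_add_mod a b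
  have h2 := Nat.mod_lt a hb
  have : a ≤ (a / b + 1) * b := by nlinarith
  exact_mod_cast this

lemma ub_ge (w D q : ℕ) (hw : 2 ≤ w) (hD : 0 < D) :
    (((w:ℝ) - 1) / w) ^ q ≤ (ub w D q : ℝ) / D := by
  have hw0 : (0:ℝ) < w := by exact_mod_cast (by omega : 0 < w)
  have hD0 : (0:ℝ) < D := by exact_mod_cast hD
  rw [le_div_iff₀ hD0, ub]
  have h := le_div_add_one ((w - 1) ^ q * D) (w ^ q) (by positivity)
  have h2 : (((w - 1 : ℕ) : ℝ)) = (w:ℝ) - 1 := by
    rw [Nat.cast_sub (by omega)]; simp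
  push_cast at h ⊢
  rw [h2] at h
  rw [div_pow, div_mul_eq_mul_div]
  exact h

lemma locU_ge (w D K Q p : ℕ) (hw : 2 ≤ w) (hD : 0 < D) :
    loc (((w:ℝ) - 1) / w) K Q p ≤ (locU w D K Q p : ℝ) / D := by
  rw [loc_eq, locU]
  have hD0 : (0:ℝ) < D := by exact_mod_cast hD
  rw [Nat.cast_add, add_div, div_self hD0.ne']
  have key : ∀ l : List ℕ, (l.map (fun q => (((w:ℝ) - 1) / w) ^ q)).sum ≤
      (((l.map (ub w D)).sum : ℕ) : ℝ) / D := by
    intro l
    induction l with
    | nil => simp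
    | cons q l ih =>
      simp only [List.map_cons, List.sum_cons]
      rw [Nat.cast_add, add_div]
      exact add_le_add (ub_ge w D q hw hD) ih
  have := key (pw K Q p)
  linarith

lemma accU_ge (w D K Q : ℕ) (hw : 2 ≤ w) (hD : 0 < D) (ps : List ℕ) :
    (ps.map (loc (((w:ℝ) - 1) / w) K Q)).prod ≤ (accU w D K Q ps : ℝ) / D := by
  have hD0 : (0:ℝ) < D := by exact_mod_cast hD
  have hw0 : (1:ℝ) < w := by exact_mod_cast (by omega : 1 < w)
  have hx0 : 0 < ((w:ℝ) - 1) / w := by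
    apply div_pos <;> linarith
  have hl1 : ∀ p, 1 ≤ loc (((w:ℝ) - 1) / w) K Q p := by
    intro p
    rw [loc]
    have : 0 ≤ ∑ a ∈ range K, if p ^ (a + 1) ≤ Q then (((w:ℝ) - 1) / w) ^ (p ^ (a + 1)) else 0 :=
      sum_nonneg (fun a _ => by split_ifs <;> positivity)
    linarith
  induction ps with
  | nil => simp [accU, div_self hD0.ne']
  | cons p ps ih =>
    rw [List.map_cons, List.prod_cons, accU]
    have h1 := locU_ge w D K Q p hw hD
    have h2 : loc (((w:ℝ) - 1) / w) K Q p * (ps.map (loc (((w:ℝ) - 1) / w) K Q)).prod ≤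
        ((locU w D K Q p : ℝ) / D) * ((accU w D K Q ps : ℝ) / D) := by
      apply mul_le_mul h1 ih
      · apply List.prod_nonneg
        intro a ha
        rw [List.mem_map] at ha
        obtain ⟨b, _, rfl⟩ := ha
        linarith [hl1 b]
      · positivity
    refine h2.trans ?_
    rw [le_div_iff₀ hD0]
    have h3 := le_div_add_one (accU w D K Q ps * locU w D K Q p) D hD
    calc (locU w D K Q p : ℝ) / D * ((accU w D K Q ps : ℝ) / D) * D
        = ((accU w D K Q ps * locU w D K Q p : ℕ) : ℝ) / D := by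
          push_cast
          field_simp
      _ ≤ _ := h3

/-- divisibility test by the primes up to 83 -/
def isP2 (k : ℕ) : Bool :=
  2 ≤ k && [2, 3, 5, 7, 11, 13, 17, 19, 23, 29, 31, 37, 41, 43, 47, 53, 59, 61, 67, 71, 73, 79,
    83].all (fun d => k % d != 0 || k == d)

lemma isP2_of_prime {k : ℕ} (hk : k.Prime) : isP2 k = true := by
  have h : ∀ d, 2 ≤ d → (k % d != 0 || k == d) = true := by
    intro d hd
    by_cases h1 : k % d = 0
    · have := (Nat.dvd_prime hk).1 (Nat.dvd_of_mod_eq_zero h1)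
      have : k = d := by omega
      simp [this]
    · simp [h1]
  simp only [isP2, Bool.and_eq_true, decide_eq_true_eq, List.all_cons, List.all_nil]
  refine ⟨hk.two_le, ?_⟩
  simp only [h 2 (by norm_num), h 3 (by norm_num), h 5 (by norm_num), h 7 (by norm_num),
    h 11 (by norm_num), h 13 (by norm_num), h 17 (by norm_num), h 19 (by norm_num),
    h 23 (by norm_num), h 29 (by norm_num), h 31 (by norm_num), h 37 (by norm_num),
    h 41 (by norm_num), h 43 (by norm_num), h 47 (by norm_num), h 53 (by norm_num),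
    h 59 (by norm_num), h 61 (by norm_num), h 67 (by norm_num), h 71 (by norm_num),
    h 73 (by norm_num), h 79 (by norm_num), h 83 (by norm_num), and_self]

/-- a list containing the primes up to `Q` -/
def psL (Q : ℕ) : List ℕ := (List.range (Q + 1)).filter (fun k => isP2 k)

lemma prod_P_le (x : ℝ) (hx0 : 0 < x) (K Q : ℕ) :
    ∏ p ∈ P Q, loc x K Q p ≤ ((psL Q).map (loc x K Q)).prod := by
  have hl1 : ∀ p, 1 ≤ loc x K Q p := by
    intro p
    rw [loc]
    have : 0 ≤ ∑ a ∈ range K, if p ^ (a + 1) ≤ Q then x ^ (p ^ (a + 1)) else 0 :=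
      sum_nonneg (fun a _ => by split_ifs <;> positivity)
    linarith
  have hnd : (psL Q).Nodup := List.Nodup.filter _ List.nodup_range
  rw [← List.prod_toFinset _ hnd]
  have hsub : P Q ⊆ (psL Q).toFinset := by
    intro p hp
    rw [mem_P] at hp
    rw [List.mem_toFinset, psL, List.mem_filter, List.mem_range]
    exact ⟨by omega, isP2_of_prime hp.2⟩
  rw [← prod_sdiff hsub]
  apply le_mul_of_one_le_left
  · exact prod_nonneg (fun p _ => by linarith [hl1 p])
  · exact prod_induction _ (fun z => (1:ℝ) ≤ z)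
      (fun a b ha hb => one_le_mul_of_one_le_of_one_le ha hb) le_rfl (fun p _ => hl1 p)

/-- the numerical check -/
def chkC (w D K Q j t s1 : ℕ) (acc : ℕ) : Bool :=
  acc ^ 100 * (10 ^ 9) ^ j ≤ D ^ 100 * 2718281828 ^ j && 100 * w * ub w D (Q + 1) ≤ t * D &&
    (j + t) * (w - 1) ≤ 100 * (s1 * (w - 1 - s1)) && s1 ≤ w - 1 && Q < 2 ^ (K + 1) && 2 ≤ w &&
    0 < D

lemma tail_le (x : ℝ) (hx0 : 0 < x) (hx1 : x < 1) (Q n : ℕ) :
    ∑ k ∈ Ioc Q n, x ^ k ≤ x ^ (Q + 1) / (1 - x) := by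
  have h0 : Ioc Q n = Ico (Q + 1) (n + 1) := by
    ext k
    simp only [mem_Ioc, mem_Ico]
    omega
  rw [h0, sum_Ico_eq_sum_range]
  have h1 : ∑ k ∈ range (n + 1 - (Q + 1)), x ^ (Q + 1 + k) =
      x ^ (Q + 1) * ∑ k ∈ range (n + 1 - (Q + 1)), x ^ k := by
    rw [mul_sum]
    apply sum_congr rfl
    intro k _
    rw [pow_add]
  rw [h1, le_div_iff₀ (by linarith), mul_assoc]
  have h2 := mul_neg_geom_sum x (n + 1 - (Q + 1))
  have h3 : (∑ k ∈ range (n + 1 - (Q + 1)), x ^ k) * (1 - x) ≤ 1 := by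
    rw [mul_comm, h2]
    have : 0 < x ^ (n + 1 - (Q + 1)) := by positivity
    linarith
  calc x ^ (Q + 1) * ((∑ k ∈ range (n + 1 - (Q + 1)), x ^ k) * (1 - x)) ≤ x ^ (Q + 1) * 1 := by
        apply mul_le_mul_of_nonneg_left h3 (by positivity)
    _ = _ := mul_one _

lemma cert (w D K Q j t s1 : ℕ) (h : chkC w D K Q j t s1 (accU w D K Q (psL Q)) = true)
    (n : ℕ) (hKn : K ≤ n) (hQn : Q ≤ n) (hn1 : s1 ^ 2 ≤ n) (hn2 : n ≤ (w - 1 - s1) ^ 2) :
    (ord n : ℝ) ≤ Real.exp (Real.sqrt n) := by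
  simp only [chkC, Bool.and_eq_true, decide_eq_true_eq] at h
  obtain ⟨⟨⟨⟨⟨⟨h1, h2⟩, h3⟩, h4⟩, h5⟩, h6⟩, h7⟩ := h
  have hw0 : (1:ℝ) < w := by exact_mod_cast (by omega : 1 < w)
  have hD0 : (0:ℝ) < D := by exact_mod_cast h7
  set x : ℝ := ((w:ℝ) - 1) / w with hx
  have hx0 : 0 < x := by
    apply div_pos <;> linarith
  have hx1 : x < 1 := by
    rw [hx, div_lt_one (by linarith)]
    linarith
  have hxw : 1 - x = 1 / w := by
    rw [hx]
    field_simp
    ring
  -- upper bound for the product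
  have e1 := ord_rankin x hx0 hx1.le n
  have e2 := split_loc x hx0 K Q n h5 hKn hQn
  have e3 := prod_P_le x hx0 K Q
  have e4 := accU_ge w D K Q h6 h7 (psL Q)
  have e5 : ((accU w D K Q (psL Q) : ℝ) / D) ≤ Real.exp (j / 100) := by
    have h8 : ((accU w D K Q (psL Q) : ℝ)) ^ 100 * (10 ^ 9) ^ j ≤ D ^ 100 * 2718281828 ^ j := by
      exact_mod_cast h1
    have h9 : ((accU w D K Q (psL Q) : ℝ) / D) ^ 100 ≤ (2718281828 / 10 ^ 9) ^ j := by
      rw [div_pow, div_pow, div_le_div_iff₀ (by positivity) (by positivity)]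
      linarith
    have h10 : ((accU w D K Q (psL Q) : ℝ) / D) ^ 100 ≤ (Real.exp (j / 100)) ^ 100 := by
      rw [← Real.exp_nat_mul]
      calc _ ≤ (2718281828 / 10 ^ 9 : ℝ) ^ j := h9
        _ ≤ (Real.exp 1) ^ j := by
          apply pow_le_pow_left₀ (by norm_num)
          have := Real.exp_one_gt_d9
          linarith
        _ = Real.exp (j * 1) := by rw [Real.exp_nat_mul]
        _ = _ := by congr 1; push_cast; ring
    exact le_of_pow_le_pow_left₀ (by norm_num) (Real.exp_pos _).le h10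
  have e6 : ∑ k ∈ Ioc Q n, x ^ k ≤ t / 100 := by
    refine (tail_le x hx0 hx1 Q n).trans ?_
    rw [hxw, div_div_eq_mul_div, div_one]
    have h8 := ub_ge w D (Q + 1) h6 h7
    have h9 : (100 * (w:ℝ) * ub w D (Q + 1)) ≤ t * D := by exact_mod_cast h2
    calc x ^ (Q + 1) * w ≤ ((ub w D (Q + 1) : ℝ) / D) * w :=
          mul_le_mul_of_nonneg_right h8 (by linarith)
      _ = (100 * (w:ℝ) * ub w D (Q + 1)) / (100 * D) := by field_simp
      _ ≤ (t * D) / (100 * D) := by gcongr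
      _ = t / 100 := by field_simp
  have e7 : (ord n : ℝ) * x ^ n ≤ Real.exp (j / 100 + t / 100) := by
    refine e1.trans (e2.trans ?_)
    rw [Real.exp_add]
    apply mul_le_mul (e3.trans (e4.trans e5)) (Real.exp_le_exp.2 e6) (Real.exp_pos _).le
      (Real.exp_pos _).le
  have e8 : 1 ≤ x ^ n * Real.exp (n / (w - 1)) := by
    have h8 : 1 ≤ x * Real.exp (1 / (w - 1)) := by
      have h9 : 1 / ((w:ℝ) - 1) + 1 ≤ Real.exp (1 / (w - 1)) := Real.add_one_le_exp _
      have h10 : x * (1 / ((w:ℝ) - 1) + 1) = 1 := by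
        have : (w:ℝ) - 1 ≠ 0 := by linarith
        rw [hx]
        field_simp
        ring
      nlinarith
    have h9 : (x * Real.exp (1 / (w - 1))) ^ n = x ^ n * Real.exp (n / (w - 1)) := by
      rw [mul_pow, ← Real.exp_nat_mul]
      congr 2
      ring
    rw [← h9]
    exact one_le_pow₀ h8
  have e9 : (ord n : ℝ) ≤ Real.exp (n / (w - 1) + (j / 100 + t / 100)) := by
    calc (ord n : ℝ) = ord n * 1 := (mul_one _).symm
      _ ≤ ord n * (x ^ n * Real.exp (n / (w - 1))) :=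
          mul_le_mul_of_nonneg_left e8 (Nat.cast_nonneg _)
      _ = (ord n * x ^ n) * Real.exp (n / (w - 1)) := by ring
      _ ≤ Real.exp (j / 100 + t / 100) * Real.exp (n / (w - 1)) :=
          mul_le_mul_of_nonneg_right e7 (Real.exp_pos _).le
      _ = _ := by rw [← Real.exp_add, add_comm]
  refine e9.trans (Real.exp_le_exp.2 ?_)
  -- the quadratic inequality
  set s := Real.sqrt n with hs
  have hs2 : s ^ 2 = n := Real.sq_sqrt (Nat.cast_nonneg n)
  have hs0 : 0 ≤ s := Real.sqrt_nonneg _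
  have f1 : (s1:ℝ) ≤ s := by
    apply Real.le_sqrt_of_sq_le
    exact_mod_cast hn1
  have f2 : s ≤ (w:ℝ) - 1 - s1 := by
    have h8 : ((w - 1 - s1 : ℕ) : ℝ) = (w:ℝ) - 1 - s1 := by
      rw [Nat.cast_sub h4, Nat.cast_sub (by omega)]
      simp
    rw [← h8, hs, Real.sqrt_le_left (by positivity)]
    exact_mod_cast hn2
  have f3 : ((j:ℝ) + t) * (w - 1) ≤ 100 * (s1 * (w - 1 - s1)) := by
    have h8 : ((w - 1 - s1 : ℕ) : ℝ) = (w:ℝ) - 1 - s1 := by
      rw [Nat.cast_sub h4, Nat.cast_sub (by omega)]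
      simp
    have h9 : ((w - 1 : ℕ) : ℝ) = (w:ℝ) - 1 := by
      rw [Nat.cast_sub (by omega)]
      simp
    rw [← h8, ← h9]
    exact_mod_cast h3
  have hw1 : (0:ℝ) < (w:ℝ) - 1 := by linarith
  rw [← hs2]
  have f4 : s ^ 2 + ((j:ℝ) / 100 + t / 100) * (w - 1) ≤ s * (w - 1) := by
    have : 0 ≤ (s - s1) * ((w:ℝ) - 1 - s1 - s) := mul_nonneg (by linarith) (by linarith)
    nlinarith
  have f5 : s ^ 2 / ((w:ℝ) - 1) + (j / 100 + t / 100) =
      (s ^ 2 + ((j:ℝ) / 100 + t / 100) * (w - 1)) / (w - 1) := by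
    field_simp
  rw [f5, div_le_iff₀ hw1]
  exact f4

end Pool.Agent.V11318.Ord
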