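import Pool.Agent.V11318.OrdBasic

/-!
Exact computation of `T L n` by packing all values in one natural number.
-/

set_option autoImplicit false
open Finset

namespace Pool.Agent.V11318.Ord

lemma T_le (L : List (List ℕ)) : ∀ n, T L n ≤ (L.map (fun qs => 1 + qs.length)).prod := by
  induction L with
  | nil => intro n; simp [T]
  | cons qs r ih =>
    intro n
    set M := (r.map (fun qs => 1 + qs.length)).prod with hM
    rw [T, List.map_cons, List.prod_cons, ← hM]
    have key : ∀ l : List ℕ, (l.map (fun q => if q ≤ n then T r (n - q) else 0)).sum ≤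
        l.length * M := by
      intro l
      induction l with
      | nil => simp
      | cons q l ihl =>
        simp only [List.map_cons, List.sum_cons, List.length_cons]
        have : (if q ≤ n then T r (n - q) else 0) ≤ M := by
          split_ifs
          · exact ih _
          · exact Nat.zero_le _
        linarith
    have := key qs
    have := ih n
    linarith

/-- packed table -/
def Hc (B N : ℕ) : List (List ℕ) → ℕ
  | [] => (B ^ (N + 1) - 1) / (B - 1)
  | (qs :: r) => (Hc B N r * (1 + (qs.map (fun q => B ^ q)).sum)) % B ^ (N + 1)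

lemma sum_lt (B : ℕ) (hB : 1 ≤ B) (f : ℕ → ℕ) (hf : ∀ j, f j < B) (m : ℕ) :
    ∑ j ∈ range m, f j * B ^ j < B ^ m := by
  induction m with
  | zero => simp
  | succ m ih =>
    rw [sum_range_succ, pow_succ]
    have h1 : f m * B ^ m ≤ (B - 1) * B ^ m := Nat.mul_le_mul_right _ (by have := hf m; omega)
    have h2 : (B - 1) * B ^ m + B ^ m = B ^ m * B := by
      obtain ⟨c, rfl⟩ : ∃ c, B = c + 1 := ⟨B - 1, by omega⟩
      simp only [Nat.add_sub_cancel]
      ring
    omega

lemma digit (B : ℕ) (hB : 1 ≤ B) (f : ℕ → ℕ) (hf : ∀ j, f j < B) (m n : ℕ) (hn : n < m) :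
    (∑ j ∈ range m, f j * B ^ j) / B ^ n % B = f n := by
  have h1 : ∑ j ∈ range m, f j * B ^ j =
      ∑ j ∈ range n, f j * B ^ j + B ^ n * (f n + B * ∑ i ∈ range (m - (n + 1)),
        f (n + 1 + i) * B ^ i) := by
    obtain ⟨k, rfl⟩ : ∃ k, m = (n + 1) + k := ⟨m - (n + 1), by omega⟩
    rw [sum_range_add, sum_range_succ, Nat.add_sub_cancel_left, mul_add, ← mul_assoc, mul_sum,
      add_assoc]
    congr 2
    · ring
    · apply sum_congr rfl
      intro i _
      ring
  rw [h1, Nat.add_mul_div_left _ _ (by positivity),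
    Nat.div_eq_of_lt (sum_lt B hB f hf n), zero_add, Nat.add_mul_mod_self_left,
    Nat.mod_eq_of_lt (hf n)]

lemma shift (B N q : ℕ) (f : ℕ → ℕ) :
    (∑ j ∈ range (N + 1), f j * B ^ j) * B ^ q ≡
      ∑ j ∈ range (N + 1), (if q ≤ j then f (j - q) else 0) * B ^ j [MOD B ^ (N + 1)] := by
  have h1 : ∑ j ∈ range (q + (N + 1)), (if q ≤ j then f (j - q) else 0) * B ^ j =
      (∑ j ∈ range (N + 1), f j * B ^ j) * B ^ q := by
    rw [sum_range_add]
    have : ∑ j ∈ range q, (if q ≤ j then f (j - q) else 0) * B ^ j = 0 := by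
      apply sum_eq_zero
      intro j hj
      rw [mem_range] at hj
      rw [if_neg (by omega), zero_mul]
    rw [this, zero_add, sum_mul]
    apply sum_congr rfl
    intro j _
    rw [if_pos (by omega), Nat.add_sub_cancel_left, pow_add]
    ring
  have h2 : ∑ j ∈ range ((N + 1) + q), (if q ≤ j then f (j - q) else 0) * B ^ j =
      ∑ j ∈ range (N + 1), (if q ≤ j then f (j - q) else 0) * B ^ j +
      B ^ (N + 1) * ∑ i ∈ range q, (if q ≤ (N + 1) + i then f ((N + 1) + i - q) else 0) * B ^ i := by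
    rw [sum_range_add, mul_sum]
    congr 1
    apply sum_congr rfl
    intro j _
    rw [pow_add]
    ring
  rw [← h1, add_comm q (N + 1), h2]
  exact (Nat.modEq_of_dvd (by simp)).symm

lemma Hc_eq (B N : ℕ) (hB : 2 ≤ B) (L : List (List ℕ))
    (hL : (L.map (fun qs => 1 + qs.length)).prod < B) :
    Hc B N L = ∑ j ∈ range (N + 1), T L j * B ^ j := by
  induction L with
  | nil =>
    simp only [Hc, T, one_mul]
    rw [Nat.geomSum_eq hB]
  | cons qs r ih =>
    have hr : (r.map (fun qs => 1 + qs.length)).prod < B := by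
      rw [List.map_cons, List.prod_cons] at hL
      have : 1 * (r.map (fun qs => 1 + qs.length)).prod ≤
        (1 + qs.length) * (r.map (fun qs => 1 + qs.length)).prod :=
        Nat.mul_le_mul_right _ (by omega)
      omega
    have ih' := ih hr
    rw [Hc, ih']
    have hlt : ∑ j ∈ range (N + 1), T (qs :: r) j * B ^ j < B ^ (N + 1) :=
      sum_lt B (by omega) _ (fun j => lt_of_le_of_lt (T_le _ j) hL) _
    have key : ∀ l : List ℕ, (∑ j ∈ range (N + 1), T r j * B ^ j) *
        (l.map (fun q => B ^ q)).sum ≡ ∑ j ∈ range (N + 1),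
          (l.map (fun q => if q ≤ j then T r (j - q) else 0)).sum * B ^ j [MOD B ^ (N + 1)] := by
      intro l
      induction l with
      | nil => simp; rfl
      | cons q l ihl =>
        simp only [List.map_cons, List.sum_cons, mul_add, add_mul, sum_add_distrib]
        exact Nat.ModEq.add (shift B N q _) ihl
    have h2 : (∑ j ∈ range (N + 1), T r j * B ^ j) * (1 + (qs.map (fun q => B ^ q)).sum) ≡
        ∑ j ∈ range (N + 1), T (qs :: r) j * B ^ j [MOD B ^ (N + 1)] := by
      simp only [T, add_mul, sum_add_distrib]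
      rw [mul_add, mul_one]
      exact Nat.ModEq.add_left _ (key qs)
    rw [h2]
    exact Nat.mod_eq_of_lt hlt

/-- divisibility test by the primes up to 31 -/
def isP (k : ℕ) : Bool :=
  2 ≤ k && [2, 3, 5, 7, 11, 13, 17, 19, 23, 29, 31].all (fun d => k % d != 0 || k == d)

lemma isP_of_prime {k : ℕ} (hk : k.Prime) : isP k = true := by
  have h : ∀ d, 2 ≤ d → (k % d != 0 || k == d) = true := by
    intro d hd
    by_cases h1 : k % d = 0
    · have := (Nat.dvd_prime hk).1 (Nat.dvd_of_mod_eq_zero h1)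
      have : k = d := by omega
      simp [this]
    · simp [h1]
  simp only [isP, Bool.and_eq_true, decide_eq_true_eq, List.all_cons, List.all_nil]
  refine ⟨hk.two_le, ?_⟩
  simp only [h 2 (by norm_num), h 3 (by norm_num), h 5 (by norm_num), h 7 (by norm_num),
    h 11 (by norm_num), h 13 (by norm_num), h 17 (by norm_num), h 19 (by norm_num),
    h 23 (by norm_num), h 29 (by norm_num), h 31 (by norm_num), and_self]

/-- Newton iteration -/
def newt : ℕ → ℕ → ℕ → ℕ
  | 0, _, a => a
  | (k + 1), m, a => newt k m ((a + m / a) / 2)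

/-- the test `t ≤ exp (√n)` -/
def chkA (a t n : ℕ) : Bool :=
  a * a ≤ 10000 * n && t ^ 100 * (10 ^ 9) ^ a ≤ 2718281828 ^ a

lemma chkA_sound {a t n : ℕ} (h : chkA a t n = true) : (t : ℝ) ≤ Real.exp (Real.sqrt n) := by
  simp only [chkA, Bool.and_eq_true, decide_eq_true_eq] at h
  obtain ⟨h1, h2⟩ := h
  have h3 : ((a:ℝ) / 100) ≤ Real.sqrt n := by
    apply Real.le_sqrt_of_sq_le
    have : ((a:ℝ) * a) ≤ 10000 * n := by exact_mod_cast h1
    rw [div_pow]
    rw [div_le_iff₀ (by norm_num)]
    linarith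
  have h4 : (t:ℝ) ^ 100 ≤ (Real.exp 1) ^ a := by
    have h5 : (t:ℝ) ^ 100 * (10 ^ 9) ^ a ≤ 2718281828 ^ a := by exact_mod_cast h2
    have h6 : (t:ℝ) ^ 100 ≤ (2718281828 / 10 ^ 9) ^ a := by
      rw [div_pow, le_div_iff₀ (by positivity)]
      exact h5
    refine h6.trans ?_
    apply pow_le_pow_left₀ (by norm_num)
    have := Real.exp_one_gt_d9
    linarith
  have h5 : (t:ℝ) ^ 100 ≤ (Real.exp ((a:ℝ) / 100)) ^ 100 := by
    rw [← Real.exp_nat_mul]
    calc (t:ℝ) ^ 100 ≤ (Real.exp 1) ^ a := h4
      _ = Real.exp (a * 1) := by rw [Real.exp_nat_mul]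
      _ = _ := by congr 1; push_cast; ring
  have h6 : (t:ℝ) ≤ Real.exp ((a:ℝ) / 100) :=
    le_of_pow_le_pow_left₀ (by norm_num) (Real.exp_pos _).le h5
  exact h6.trans (Real.exp_le_exp.2 h3)

/-- candidate for `⌊100 √n⌋` -/
def cand (n : ℕ) : ℕ :=
  let a := newt 16 (10000 * n) 3300
  if a * a ≤ 10000 * n then a else a - 1

/-- primes up to 1024 -/
def ps1024 : List ℕ := (List.range 1025).filter (fun k => isP k)

/-- the test of all `n ≤ 1024` -/
def chkAll (h : ℕ) : Bool :=
  (List.range 1025).all (fun n => chkA (cand n) ((h / (2 ^ 200) ^ n) % 2 ^ 200) n)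

lemma bound1024 : ((ps1024.map (pw 10 1024)).map (fun qs => 1 + qs.length)).prod < 2 ^ 200 := by
  decide +kernel

lemma chk1024 : chkAll (Hc (2 ^ 200) 1024 (ps1024.map (pw 10 1024))) = true := by
  decide +kernel

lemma small (n : ℕ) (hn : n ≤ 1024) :
    ((Set.range (fun g : Equiv.Perm (Fin n) => orderOf g)).ncard : ℝ) ≤ Real.exp (Real.sqrt n) := by
  have h1 := count_le 10 1024 (by norm_num) ps1024 n hn
  have h2 := orders_subset n ps1024.toFinset (by
    intro p hp hp'
    rw [List.mem_toFinset, ps1024, List.mem_filter, List.mem_range]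
    exact ⟨by omega, isP_of_prime hp'⟩)
  have h3 : (Set.range (fun g : Equiv.Perm (Fin n) => orderOf g)).ncard ≤
      T (ps1024.map (pw 10 1024)) n := (Set.ncard_le_ncard h2 h1.1).trans h1.2
  have h4 := chk1024
  rw [chkAll, List.all_eq_true] at h4
  have h5 := chkA_sound (h4 n (List.mem_range.2 (by omega)))
  have h6 : (Hc (2 ^ 200) 1024 (ps1024.map (pw 10 1024)) / (2 ^ 200) ^ n) % 2 ^ 200 =
      T (ps1024.map (pw 10 1024)) n := by
    rw [Hc_eq (2 ^ 200) 1024 (by norm_num) _ bound1024]
    exact digit (2 ^ 200) (by norm_num) _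
      (fun j => lt_of_le_of_lt (T_le _ j) bound1024) _ _ (by omega)
  rw [h6] at h5
  exact le_trans (by exact_mod_cast h3) h5

end Pool.Agent.V11318.Ord
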