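import Pool.Agent.H38R2.CG.N1

/-!
# Counting ideals whose norm is a product of distinct primes, by one of the primes

`comb`: for weights `w ≤ 2`, among the `k`-subsets weighted by the product of the weights, the share of those that
contain a given `q` is at most `2 k / n`, `n` the number of the elements with positive weight.
-/

set_option autoImplicit false

namespace Pool.Agent.V11318.RB

open Finset NumberField
open scoped Classical

/-- replacing `q` by `r` -/
def swap (q r : ℕ) (s : Finset ℕ) : Finset ℕ := if r ∈ s then s else insert r (s.erase q)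

lemma swap_inj (q r : ℕ) (s t : Finset ℕ) (hs : q ∈ s) (ht : q ∈ t) (h : swap q r s = swap q r t) :
    s = t := by
  by_cases hqr : q = r
  · subst hqr
    unfold swap at h
    rwa [if_pos hs, if_pos ht] at h
  unfold swap at h
  by_cases h1 : r ∈ s <;> by_cases h2 : r ∈ t
  · rwa [if_pos h1, if_pos h2] at h
  · rw [if_pos h1, if_neg h2] at h
    rw [h] at hs
    simp [hqr] at hs
  · rw [if_neg h1, if_pos h2] at h
    rw [← h] at ht
    simp [hqr] at ht
  · rw [if_neg h1, if_neg h2] at h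
    have h3 : r ∉ s.erase q := fun hh => h1 (mem_of_mem_erase hh)
    have h4 : r ∉ t.erase q := fun hh => h2 (mem_of_mem_erase hh)
    have h5 : s.erase q = t.erase q := by
      rw [← erase_insert h3, h, erase_insert h4]
    rw [← insert_erase hs, h5, insert_erase ht]

lemma swap_mem (P : Finset ℕ) (k q r : ℕ) (hr : r ∈ P) (s : Finset ℕ) (hs : s ∈ P.powersetCard k)
    (hq : q ∈ s) : swap q r s ∈ P.powersetCard k ∧ r ∈ swap q r s := by
  rw [mem_powersetCard] at hs
  obtain ⟨h1, h2⟩ := hs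
  unfold swap
  by_cases h : r ∈ s
  · rw [if_pos h]
    exact ⟨mem_powersetCard.2 ⟨h1, h2⟩, h⟩
  · rw [if_neg h]
    refine ⟨mem_powersetCard.2 ⟨?_, ?_⟩, mem_insert_self _ _⟩
    · exact insert_subset hr ((erase_subset _ _).trans h1)
    · have h3 : r ∉ s.erase q := fun hh => h (mem_of_mem_erase hh)
      rw [card_insert_of_notMem h3, card_erase_of_mem hq, h2]
      have : 0 < s.card := card_pos.2 ⟨q, hq⟩
      omega

lemma swap_weight (w : ℕ → ℕ) (hw : ∀ q, w q ≤ 2) (q r : ℕ) (hr : 0 < w r) (s : Finset ℕ) (hq : q ∈ s) :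
    ∏ p ∈ s, w p ≤ 2 * ∏ p ∈ swap q r s, w p := by
  unfold swap
  by_cases h : r ∈ s
  · rw [if_pos h]
    omega
  · rw [if_neg h]
    have h3 : r ∉ s.erase q := fun hh => h (mem_of_mem_erase hh)
    rw [prod_insert h3, ← mul_prod_erase s w hq]
    calc w q * ∏ x ∈ s.erase q, w x ≤ 2 * ∏ x ∈ s.erase q, w x := Nat.mul_le_mul_right _ (hw q)
      _ ≤ 2 * (w r * ∏ x ∈ s.erase q, w x) := by
        apply Nat.mul_le_mul_left
        exact Nat.le_mul_of_pos_left _ hr

lemma cmp (P : Finset ℕ) (w : ℕ → ℕ) (hw : ∀ q, w q ≤ 2) (k q r : ℕ) (hr : r ∈ P) (hwr : 0 < w r) :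
    ∑ s ∈ (P.powersetCard k).filter (fun s => q ∈ s), ∏ p ∈ s, w p ≤
      2 * ∑ s ∈ (P.powersetCard k).filter (fun s => r ∈ s), ∏ p ∈ s, w p := by
  calc ∑ s ∈ (P.powersetCard k).filter (fun s => q ∈ s), ∏ p ∈ s, w p
      ≤ ∑ s ∈ (P.powersetCard k).filter (fun s => q ∈ s), 2 * ∏ p ∈ swap q r s, w p :=
        sum_le_sum fun s hs => swap_weight w hw q r hwr s (mem_filter.1 hs).2
    _ = 2 * ∑ s ∈ (P.powersetCard k).filter (fun s => q ∈ s), ∏ p ∈ swap q r s, w p := by
        rw [mul_sum]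
    _ = 2 * ∑ t ∈ ((P.powersetCard k).filter (fun s => q ∈ s)).image (swap q r), ∏ p ∈ t, w p := by
        rw [sum_image]
        intro s hs t ht h
        exact swap_inj q r s t (mem_filter.1 hs).2 (mem_filter.1 ht).2 h
    _ ≤ _ := by
        apply Nat.mul_le_mul_left
        apply sum_le_sum_of_subset
        intro t ht
        obtain ⟨s, hs, rfl⟩ := mem_image.1 ht
        obtain ⟨h1, h2⟩ := mem_filter.1 hs
        rw [mem_filter]
        exact swap_mem P k q r hr s h1 h2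

theorem comb (P : Finset ℕ) (w : ℕ → ℕ) (hw : ∀ q, w q ≤ 2) (k q : ℕ) :
    (P.filter (fun r => 0 < w r)).card *
      ∑ s ∈ (P.powersetCard k).filter (fun s => q ∈ s), ∏ p ∈ s, w p ≤
        2 * k * ∑ s ∈ P.powersetCard k, ∏ p ∈ s, w p := by
  calc (P.filter (fun r => 0 < w r)).card *
      ∑ s ∈ (P.powersetCard k).filter (fun s => q ∈ s), ∏ p ∈ s, w p
      = ∑ r ∈ P.filter (fun r => 0 < w r),
          ∑ s ∈ (P.powersetCard k).filter (fun s => q ∈ s), ∏ p ∈ s, w p := by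
        rw [sum_const, smul_eq_mul]
    _ ≤ ∑ r ∈ P.filter (fun r => 0 < w r),
          2 * ∑ s ∈ (P.powersetCard k).filter (fun s => r ∈ s), ∏ p ∈ s, w p :=
        sum_le_sum fun r hr => cmp P w hw k q r (mem_filter.1 hr).1 (mem_filter.1 hr).2
    _ = 2 * ∑ r ∈ P.filter (fun r => 0 < w r),
          ∑ s ∈ P.powersetCard k, if r ∈ s then ∏ p ∈ s, w p else 0 := by
        rw [mul_sum]
        refine sum_congr rfl fun r _ => ?_
        rw [sum_filter]
    _ = 2 * ∑ s ∈ P.powersetCard k, ∑ r ∈ P.filter (fun r => 0 < w r),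
          if r ∈ s then ∏ p ∈ s, w p else 0 := by
        rw [sum_comm]
    _ ≤ 2 * ∑ s ∈ P.powersetCard k, k * ∏ p ∈ s, w p := by
        apply Nat.mul_le_mul_left
        refine sum_le_sum fun s hs => ?_
        rw [← sum_filter, sum_const, smul_eq_mul]
        apply Nat.mul_le_mul_right
        rw [← (mem_powersetCard.1 hs).2]
        exact card_le_card fun r hr => (mem_filter.1 hr).2
    _ = _ := by
        rw [← mul_sum, mul_assoc]

variable {K : Type} [Field K] [NumberField K]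

/-- the number of the ideals of norm `q` -/
noncomputable def wt (K : Type) [Field K] [NumberField K] (q : ℕ) : ℕ :=
  Nat.card {I : Ideal (𝓞 K) // Ideal.absNorm I = q}

lemma fin_norm (n : ℕ) : Finite {I : Ideal (𝓞 K) // Ideal.absNorm I = n} :=
  (Ideal.finite_setOfPred_absNorm_eq (S := 𝓞 K) n).to_subtype

/-- at most two ideals of norm `q` -/
theorem wt_le (h2 : Module.finrank ℚ K = 2) {q : ℕ} (hq : q.Prime) : wt K q ≤ 2 := by
  unfold wt
  have hf := fin_norm (K := K) q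
  have : Fintype {I : Ideal (𝓞 K) // Ideal.absNorm I = q} := Fintype.ofFinite _
  rw [Nat.card_eq_fintype_card]
  by_contra hlt
  rw [not_le, ← Finset.card_univ, two_lt_card] at hlt
  obtain ⟨A, -, B, -, C, -, hAB, hAC, hBC⟩ := hlt
  have hmax : ∀ D : {I : Ideal (𝓞 K) // Ideal.absNorm I = q}, D.1.IsMaximal := by
    intro D
    have h1 : D.1.IsPrime := Ideal.isPrime_of_irreducible_absNorm (by rw [D.2]; exact hq)
    exact h1.isMaximal (Pool.Agent.H38R2.CG.N1h.ne_bot hq D.2)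
  have hcop : ∀ D E : {I : Ideal (𝓞 K) // Ideal.absNorm I = q}, D ≠ E → IsCoprime D.1 E.1 := by
    intro D E h
    rw [Ideal.isCoprime_iff_sup_eq]
    exact (hmax D).coprime_of_ne (hmax E) fun hh => h (Subtype.ext hh)
  have hdvd : ∀ D : {I : Ideal (𝓞 K) // Ideal.absNorm I = q}, D.1 ∣ Ideal.span {(q : 𝓞 K)} := by
    intro D
    rw [Ideal.dvd_iff_le]
    exact Pool.Agent.H38R2.CG.N1h.span_le D.2
  have h3 : A.1 * B.1 * C.1 ∣ Ideal.span {(q : 𝓞 K)} :=
    IsCoprime.mul_dvd (IsCoprime.mul_left (hcop A C hAC) (hcop B C hBC))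
      (IsCoprime.mul_dvd (hcop A B hAB) (hdvd A) (hdvd B)) (hdvd C)
  have h4 := Ideal.absNorm_dvd_absNorm_of_le (Ideal.le_of_dvd h3)
  rw [Pool.Agent.H38R2.CG.N1h.norm_span, h2, map_mul, map_mul, A.2, B.2, C.2] at h4
  have h5 := Nat.le_of_dvd (by have := hq.pos; positivity) h4
  have h6 := hq.two_le
  nlinarith [mul_le_mul h6 (le_refl (q * q)) (Nat.zero_le _) (Nat.zero_le _), mul_pos hq.pos hq.pos]

/-- multiplicativity -/
theorem wt_prod (s : Finset ℕ) (hs : ∀ p ∈ s, p.Prime) :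
    Nat.card {I : Ideal (𝓞 K) // Ideal.absNorm I = ∏ p ∈ s, p} = ∏ p ∈ s, wt K p := by
  induction s using Finset.induction_on with
  | empty =>
    rw [prod_empty, prod_empty, Nat.card_eq_one_iff_unique]
    refine ⟨⟨fun A B => Subtype.ext ?_⟩, ⟨⟨⊤, Ideal.absNorm_top⟩⟩⟩
    rw [Ideal.absNorm_eq_one_iff.1 A.2, Ideal.absNorm_eq_one_iff.1 B.2]
  | insert q t hq ih =>
    have hqp := hs q (mem_insert_self _ _)
    have ht : ∀ p ∈ t, p.Prime := fun p hp => hs p (mem_insert_of_mem hp)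
    rw [prod_insert hq, prod_insert hq, ← ih ht]
    refine Pool.Agent.H38R2.CG.N1h.card_mul hqp.pos (prod_pos fun p hp => (ht p hp).pos) ?_
    rw [Nat.coprime_prod_right_iff]
    intro p hp
    exact (Nat.coprime_primes hqp (ht p hp)).2 fun h => hq (h ▸ hp)

/-- the class of an ideal whose norm is a product of primes, all ideals over which are in `H` -/
theorem class_mem (H : Subgroup (ClassGroup (𝓞 K))) (s : Finset ℕ) (hs : ∀ p ∈ s, p.Prime)
    (hH : ∀ p ∈ s, ∀ J : nonZeroDivisors (Ideal (𝓞 K)), Ideal.absNorm (J : Ideal (𝓞 K)) = p →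
      ClassGroup.mk0 J ∈ H)
    (I : nonZeroDivisors (Ideal (𝓞 K))) (hI : Ideal.absNorm (I : Ideal (𝓞 K)) = ∏ p ∈ s, p) :
    ClassGroup.mk0 I ∈ H := by
  induction s using Finset.induction_on generalizing I with
  | empty =>
    rw [prod_empty, Ideal.absNorm_eq_one_iff] at hI
    have : I = 1 := Subtype.ext (by rw [hI, Submonoid.coe_one, Ideal.one_eq_top])
    rw [this, map_one]
    exact H.one_mem
  | insert q t hq ih =>
    have hqp := hs q (mem_insert_self _ _)
    have ht : ∀ p ∈ t, p.Prime := fun p hp => hs p (mem_insert_of_mem hp)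
    have hpos : 0 < ∏ p ∈ t, p := prod_pos fun p hp => (ht p hp).pos
    have hcop : q.Coprime (∏ p ∈ t, p) := by
      rw [Nat.coprime_prod_right_iff]
      intro p hp
      exact (Nat.coprime_primes hqp (ht p hp)).2 fun h => hq (h ▸ hp)
    rw [prod_insert hq] at hI
    obtain ⟨h1, h2⟩ := Pool.Agent.H38R2.CG.N1h.norm_sup hqp.pos hpos hcop hI
    have h3 := Pool.Agent.H38R2.CG.N1h.sup_mul hcop hI
    obtain ⟨A, hA⟩ : ∃ A, A = (I : Ideal (𝓞 K)) ⊔ Ideal.span {(q : 𝓞 K)} := ⟨_, rfl⟩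
    obtain ⟨B, hB⟩ : ∃ B, B = (I : Ideal (𝓞 K)) ⊔ Ideal.span {((∏ p ∈ t, p : ℕ) : 𝓞 K)} := ⟨_, rfl⟩
    rw [← hA] at h1 h3
    rw [← hB] at h2 h3
    have hA0 : A ∈ nonZeroDivisors (Ideal (𝓞 K)) := by
      rw [mem_nonZeroDivisors_iff_ne_zero]
      rintro rfl
      rw [Ideal.zero_eq_bot, Ideal.absNorm_bot] at h1
      exact hqp.pos.ne h1
    have hB0 : B ∈ nonZeroDivisors (Ideal (𝓞 K)) := by
      rw [mem_nonZeroDivisors_iff_ne_zero]
      rintro rfl
      rw [Ideal.zero_eq_bot, Ideal.absNorm_bot] at h2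
      exact hpos.ne h2
    have hI2 : I = ⟨A, hA0⟩ * ⟨B, hB0⟩ := Subtype.ext h3.symm
    rw [hI2, map_mul]
    exact H.mul_mem (hH q (mem_insert_self _ _) ⟨A, hA0⟩ h1)
      (ih ht (fun p hp => hH p (mem_insert_of_mem hp)) ⟨B, hB0⟩ h2)

end Pool.Agent.V11318.RB
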