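import Pool.Agent.Results.MP_321647_nt.ProductsInEveryClass
import Pool.Agent.V11318.RBa

/-!
# Tiny primes outside a subgroup of the class group
-/

set_option autoImplicit false

namespace Pool.Agent.V11318.RB

open Finset NumberField
open scoped Classical
open Pool.Agent.Results.MP_321647_nt.ProductsInEveryClass

/-- The primes of `(y, 2y]` that are norms of ideals. -/
noncomputable def tiny (K : Type) [Field K] [NumberField K] (y : ℕ) : Finset ℕ :=
  (Finset.Ioc y (2 * y)).filter fun q => q.Prime ∧ ∃ I : Ideal (𝓞 K), Ideal.absNorm I = q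

/-- The primes of `(y, 2y]` that are norms of ideals with class outside the subgroup `H`. -/
noncomputable def outside (K : Type) [Field K] [NumberField K] (y : ℕ)
    (H : Subgroup (ClassGroup (𝓞 K))) : Finset ℕ :=
  (Finset.Ioc y (2 * y)).filter fun q => q.Prime ∧
    ∃ I : nonZeroDivisors (Ideal (𝓞 K)), Ideal.absNorm (I : Ideal (𝓞 K)) = q ∧ ClassGroup.mk0 I ∉ H

variable {K : Type} [Field K] [NumberField K]

/-- the ideals with norm the product of `s` -/
noncomputable def nrm (K : Type) [Field K] [NumberField K] (s : Finset ℕ) : Finset (Ideal (𝓞 K)) :=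
  (Ideal.finite_setOfPred_absNorm_eq (S := 𝓞 K) (∏ p ∈ s, p)).toFinset

lemma mem_nrm (s : Finset ℕ) (I : Ideal (𝓞 K)) : I ∈ nrm K s ↔ Ideal.absNorm I = ∏ p ∈ s, p := by
  unfold nrm
  rw [Set.Finite.mem_toFinset]
  rfl

lemma card_nrm (s : Finset ℕ) (hs : ∀ p ∈ s, p.Prime) : (nrm K s).card = ∏ p ∈ s, wt K p := by
  rw [← wt_prod s hs]
  rw [← Fintype.card_coe, ← Nat.card_eq_fintype_card]
  exact Nat.card_congr (Equiv.subtypeEquivRight fun I => mem_nrm s I)

/-- the subsets -/
noncomputable def fam (y k : ℕ) : Finset (Finset ℕ) :=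
  ((Finset.Ioc y (2 * y)).filter Nat.Prime).powersetCard k

lemma fam_prime {y k : ℕ} {s : Finset ℕ} (hs : s ∈ fam y k) : ∀ p ∈ s, p.Prime := by
  intro p hp
  exact (Finset.mem_filter.1 ((Finset.mem_powersetCard.1 hs).1 hp)).2

lemma card_fam (y k : ℕ) (F : Finset (Finset ℕ)) (hF : F ⊆ fam y k) :
    (F.biUnion (nrm K)).card = ∑ s ∈ F, ∏ p ∈ s, wt K p := by
  rw [card_biUnion]
  · exact sum_congr rfl fun s hs => card_nrm s (fam_prime (hF hs))
  · intro s hs t ht hst
    change Disjoint (nrm K s) (nrm K t)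
    rw [disjoint_left]
    intro I h1 h2
    rw [mem_nrm] at h1 h2
    apply hst
    rw [← Nat.primeFactors_prod (fam_prime (hF hs)), ← h1, h2,
      Nat.primeFactors_prod (fam_prime (hF ht))]

lemma nz {y k : ℕ} {I : Ideal (𝓞 K)} (h : I ∈ (fam y k).biUnion (nrm K)) :
    I ∈ nonZeroDivisors (Ideal (𝓞 K)) := by
  obtain ⟨s, hs, h1⟩ := mem_biUnion.1 h
  rw [mem_nrm] at h1
  rw [mem_nonZeroDivisors_iff_ne_zero]
  rintro rfl
  rw [Ideal.zero_eq_bot, Ideal.absNorm_bot] at h1
  have : 0 < ∏ p ∈ s, p := prod_pos fun p hp => (fam_prime hs p hp).pos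
  omega

lemma total_eq (y k : ℕ) : total K y k = ∑ s ∈ fam y k, ∏ p ∈ s, wt K p := by
  rw [← card_fam y k (fam y k) subset_rfl, ← Fintype.card_coe, ← Nat.card_eq_fintype_card]
  unfold total
  refine Nat.card_congr
    { toFun := fun I => ⟨(I.1 : Ideal (𝓞 K)), ?_⟩
      invFun := fun J => ⟨⟨J.1, nz J.2⟩, ?_⟩
      left_inv := fun I => rfl
      right_inv := fun J => rfl }
  · obtain ⟨s, hs, h⟩ := I.2
    exact mem_biUnion.2 ⟨s, hs, (mem_nrm s _).2 h⟩
  · obtain ⟨s, hs, h⟩ := mem_biUnion.1 J.2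
    exact ⟨s, hs, (mem_nrm s _).1 h⟩

lemma in_eq (y k : ℕ) (H : Subgroup (ClassGroup (𝓞 K))) :
    inSubgroup K y k H = (((fam y k).biUnion (nrm K)).filter
      (fun I => ∃ h : I ∈ nonZeroDivisors (Ideal (𝓞 K)), ClassGroup.mk0 ⟨I, h⟩ ∈ H)).card := by
  rw [← Fintype.card_coe, ← Nat.card_eq_fintype_card]
  unfold inSubgroup
  refine Nat.card_congr
    { toFun := fun I => ⟨(I.1.1 : Ideal (𝓞 K)), ?_⟩
      invFun := fun J => ⟨⟨⟨J.1, nz (mem_filter.1 J.2).1⟩, ?_⟩, ?_⟩
      left_inv := fun I => rfl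
      right_inv := fun J => rfl }
  · obtain ⟨s, hs, h⟩ := I.1.2
    rw [mem_filter]
    exact ⟨mem_biUnion.2 ⟨s, hs, (mem_nrm s _).2 h⟩, I.1.1.2, I.2⟩
  · obtain ⟨s, hs, h⟩ := mem_biUnion.1 (mem_filter.1 J.2).1
    exact ⟨s, hs, (mem_nrm s _).1 h⟩
  · obtain ⟨_, h⟩ := (mem_filter.1 J.2).2
    exact h

/-- all but few `k`-products are in the subgroup if few tiny primes are outside -/
lemma total_le (y k : ℕ) (H : Subgroup (ClassGroup (𝓞 K))) :
    total K y k ≤ inSubgroup K y k H + ∑ q ∈ outside K y H,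
      ∑ s ∈ (fam y k).filter (fun s => q ∈ s), ∏ p ∈ s, wt K p := by
  rw [total_eq, ← card_fam (K := K) y k (fam y k) subset_rfl, in_eq]
  rw [← card_filter_add_card_filter_not (s := (fam y k).biUnion (nrm K))
    (fun I => ∃ h : I ∈ nonZeroDivisors (Ideal (𝓞 K)), ClassGroup.mk0 ⟨I, h⟩ ∈ H)]
  apply Nat.add_le_add_left
  calc (((fam y k).biUnion (nrm K)).filter
      (fun I => ¬ ∃ h : I ∈ nonZeroDivisors (Ideal (𝓞 K)), ClassGroup.mk0 ⟨I, h⟩ ∈ H)).card
      ≤ ((outside K y H).biUnion fun q => ((fam y k).filter (fun s => q ∈ s)).biUnion (nrm K)).card := by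
        apply card_le_card
        intro I hI
        obtain ⟨h1, h2⟩ := mem_filter.1 hI
        have hz := nz h1
        obtain ⟨s, hs, h3⟩ := mem_biUnion.1 h1
        have h4 : ClassGroup.mk0 ⟨I, hz⟩ ∉ H := fun h => h2 ⟨hz, h⟩
        have h5 : ∃ q ∈ s, ∃ J : nonZeroDivisors (Ideal (𝓞 K)),
            Ideal.absNorm (J : Ideal (𝓞 K)) = q ∧ ClassGroup.mk0 J ∉ H := by
          by_contra hno
          push Not at hno
          exact h4 (class_mem H s (fam_prime hs) hno ⟨I, hz⟩ ((mem_nrm s I).1 h3))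
        obtain ⟨q, hq, J, hJ1, hJ2⟩ := h5
        have hq2 := mem_filter.1 ((mem_powersetCard.1 hs).1 hq)
        refine mem_biUnion.2 ⟨q, mem_filter.2 ⟨hq2.1, hq2.2, J, hJ1, hJ2⟩, ?_⟩
        exact mem_biUnion.2 ⟨s, mem_filter.2 ⟨hs, hq⟩, h3⟩
    _ ≤ ∑ q ∈ outside K y H, (((fam y k).filter (fun s => q ∈ s)).biUnion (nrm K)).card := card_biUnion_le
    _ = _ := sum_congr rfl fun q _ => card_fam y k _ (filter_subset _ _)

lemma tiny_eq (y : ℕ) : tiny K y =
    ((Finset.Ioc y (2 * y)).filter Nat.Prime).filter (fun r => 0 < wt K r) := by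
  unfold tiny
  rw [filter_filter]
  apply filter_congr
  intro q _
  unfold wt
  have := fin_norm (K := K) q
  rw [Nat.card_pos_iff]
  constructor
  · rintro ⟨h1, I, hI⟩
    exact ⟨h1, ⟨⟨I, hI⟩⟩, this⟩
  · rintro ⟨h1, ⟨⟨I, hI⟩⟩, _⟩
    exact ⟨h1, I, hI⟩

/-- the main inequality -/
theorem main_ineq (hK : Module.finrank ℚ K = 2) (y k : ℕ) (H : Subgroup (ClassGroup (𝓞 K))) :
    (tiny K y).card * total K y k ≤ (tiny K y).card * inSubgroup K y k H +
      (outside K y H).card * (2 * k * total K y k) := by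
  calc (tiny K y).card * total K y k ≤ (tiny K y).card * (inSubgroup K y k H + ∑ q ∈ outside K y H,
      ∑ s ∈ (fam y k).filter (fun s => q ∈ s), ∏ p ∈ s, wt K p) :=
        Nat.mul_le_mul_left _ (total_le y k H)
    _ = (tiny K y).card * inSubgroup K y k H + ∑ q ∈ outside K y H, (tiny K y).card *
      ∑ s ∈ (fam y k).filter (fun s => q ∈ s), ∏ p ∈ s, wt K p := by
        rw [mul_add, mul_sum]
    _ ≤ (tiny K y).card * inSubgroup K y k H + ∑ q ∈ outside K y H, (2 * k * total K y k) := by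
        apply Nat.add_le_add_left
        refine sum_le_sum fun q _ => ?_
        have hP : ∀ p ∈ (Finset.Ioc y (2 * y)).filter Nat.Prime, wt K p ≤ 2 := fun p hp =>
          wt_le hK (mem_filter.1 hp).2
        obtain ⟨w, hw⟩ : ∃ w : ℕ → ℕ, w = fun p => if p.Prime then wt K p else 0 := ⟨_, rfl⟩
        have hw2 : ∀ p, w p ≤ 2 := by
          intro p
          rw [hw]
          dsimp only
          split_ifs with h
          · exact wt_le hK h
          · omega
        have hwe : ∀ p, p.Prime → w p = wt K p := by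
          intro p hp
          rw [hw]
          dsimp only
          rw [if_pos hp]
        have key := comb ((Finset.Ioc y (2 * y)).filter Nat.Prime) w hw2 k q
        rw [total_eq, tiny_eq]
        have e1 : ((Finset.Ioc y (2 * y)).filter Nat.Prime).filter (fun r => 0 < wt K r) =
            ((Finset.Ioc y (2 * y)).filter Nat.Prime).filter (fun r => 0 < w r) := by
          apply filter_congr
          intro p hp
          rw [hwe p (mem_filter.1 hp).2]
        rw [e1]
        have e2 : ∀ F : Finset (Finset ℕ), F ⊆ fam y k →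
            ∑ s ∈ F, ∏ p ∈ s, wt K p = ∑ s ∈ F, ∏ p ∈ s, w p := by
          intro F hF
          refine sum_congr rfl fun s hs => prod_congr rfl fun p hp => ?_
          rw [hwe p (fam_prime (hF hs) p hp)]
        rw [e2 _ (filter_subset _ _), e2 _ subset_rfl]
        exact key
    _ = _ := by rw [sum_const, smul_eq_mul]

/-- every proper subgroup misses many tiny primes -/
theorem outside_many (hK : Module.finrank ℚ K = 2) (y k : ℕ) (H : Subgroup (ClassGroup (𝓞 K)))
    (hH : H ≠ ⊤) {δ : ℝ} (hδ1 : δ ≤ 1 / 100) (hT : 0 < total K y k)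
    (h : |(inSubgroup K y k H : ℝ) / total K y k - 1 / H.index| ≤ δ / √(H.index : ℝ)) :
    49 / 100 * ((tiny K y).card : ℝ) ≤ 2 * k * (outside K y H).card ∧ 0 < (outside K y H).card := by
  have hTR : (0 : ℝ) < total K y k := by exact_mod_cast hT
  have hj1 : H.index ≠ 1 := fun h1 => hH (Subgroup.index_eq_one.1 h1)
  have hj0 : H.index ≠ 0 := Subgroup.index_ne_zero_of_finite
  have hj : (2 : ℝ) ≤ H.index := by
    have : 2 ≤ H.index := by omega
    exact_mod_cast this
  have h1 : (inSubgroup K y k H : ℝ) / total K y k ≤ 51 / 100 := by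
    have h2 := (abs_le.1 h).2
    have h3 : 1 / (H.index : ℝ) ≤ 1 / 2 := one_div_le_one_div_of_le (by norm_num) hj
    have h4 : δ / √(H.index : ℝ) ≤ 1 / 100 := by
      have h5 : (1 : ℝ) ≤ √(H.index : ℝ) := Real.one_le_sqrt.2 (by linarith)
      rw [div_le_iff₀ (by linarith)]
      linarith
    linarith
  rw [div_le_iff₀ hTR] at h1
  have h2 : ((tiny K y).card : ℝ) * total K y k ≤ (tiny K y).card * inSubgroup K y k H +
      (outside K y H).card * (2 * k * total K y k) := by
    exact_mod_cast main_ineq hK y k H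
  have h3 : ((tiny K y).card : ℝ) * inSubgroup K y k H ≤
      (tiny K y).card * (51 / 100 * total K y k) :=
    mul_le_mul_of_nonneg_left h1 (Nat.cast_nonneg _)
  refine ⟨?_, ?_⟩
  · have h4 : (49 / 100 * ((tiny K y).card : ℝ)) * total K y k ≤
        (2 * k * (outside K y H).card) * total K y k := by
      nlinarith
    exact le_of_mul_le_mul_right h4 hTR
  · rw [Nat.pos_iff_ne_zero]
    intro h0
    rw [card_eq_zero] at h0
    have h5 := total_le (K := K) y k H
    rw [h0, sum_empty, add_zero] at h5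
    have h6 : (total K y k : ℝ) ≤ inSubgroup K y k H := by exact_mod_cast h5
    linarith

end Pool.Agent.V11318.RB
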