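import Pool.Agent.H38R2.CG3.All

/-!
# Exceptional discriminants, including those with few ideals
-/

set_option autoImplicit false

namespace Pool.Agent.V11318.RC

open Finset Filter NumberField Pool.Agent.H38R2.CG Pool.Agent.H38R2.CG2 Pool.Agent.H38R2.CG3
open scoped Classical

/-- exceptional discriminants: the Cauchy-Schwarz inequality is far from equality, or there are few ideals -/
def Bq (a t0 : ℝ) (X D : ℕ) : Prop :=
  Bd a t0 X D ∨ MD D (SA a X) (fun _ => 1) < 1 / 2 * NA a X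

/-- few exceptional discriminants -/
def P4_AS0 : Prop := ∀ a : ℝ, 2 < a → ∀ t0 : ℝ, 0 < t0 → ∀ C0 : ℕ, 1 ≤ C0 → ∀ ε : ℝ, 0 < ε →
  ∃ z0 : ℕ, ∀ z ≥ z0,
  ∃ η1 : ℝ, 0 < η1 ∧ ∀ η : ℝ, 0 < η → η ≤ η1 → ∀ r : ℕ, FundRes z r → ∃ X0 : ℕ, ∀ X ≥ X0,
  ∀ ρ : ℕ → ℝ, SWt z X (PA a X) (cc a) C0 ρ →
    ∑ D ∈ (FD z r X η).filter (fun D => Bq a t0 X D), Pool.Agent.H38R2.CG2.wt ρ D ≤ ε * WW z X η ρ

theorem T4_AS0 : P3_AS0 → P2_MLOW → P2_WT → P4_AS0 := by
  intro h3 hM hWT a ha t0 ht0 C0 hC0 ε hε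
  obtain ⟨z0, hz0⟩ := h3 a ha t0 ht0 C0 hC0 (ε / 2) (half_pos hε)
  refine ⟨z0, fun z hz => ?_⟩
  obtain ⟨η1, hη1, H⟩ := hz0 z hz
  refine ⟨min η1 1, lt_min hη1 one_pos, fun η hη hη1' r hr => ?_⟩
  obtain ⟨X0, hX0⟩ := H η hη (hη1'.trans (min_le_left _ _)) r hr
  have he0 : 0 < min (ε / 2) (1 / 2) := lt_min (half_pos hε) (by norm_num)
  obtain ⟨X1, hX1⟩ := hM a ha z r hr η hη (hη1'.trans (min_le_right _ _)) C0 hC0 (min (ε / 2) (1 / 2)) he0
  refine ⟨max (max X0 X1) 3, fun X hX ρ hρ => ?_⟩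
  have hXa : X0 ≤ X := (le_max_left _ _).trans ((le_max_left _ _).trans hX)
  have hXb : X1 ≤ X := (le_max_right _ _).trans ((le_max_left _ _).trans hX)
  have hX3 : 3 ≤ X := (le_max_right _ _).trans hX
  have h1 := hX0 X hXa ρ hρ
  have h2 := hX1 X hXb ρ hρ
  have hXr : (3 : ℝ) ≤ X := by exact_mod_cast hX3
  have hlog : 0 < Real.log X := Real.log_pos (by linarith)
  have hG : 0 < GG X ρ := lt_of_lt_of_le (by positivity) hρ.low
  have hW : 0 ≤ WW z X η ρ := by unfold WW; positivity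
  have hcc : cc a ≤ 1 := by
    unfold cc
    rw [div_le_one (by linarith)]
    linarith
  have hwD : ∀ D ∈ DD z r X η, 0 ≤ Pool.Agent.H38R2.CG2.wt ρ D := by
    intro D hD
    simp only [DD, mem_filter, mem_Ioc] at hD
    exact (hWT z X (PA a X) (cc a) C0 ρ (by omega) hcc hρ D (by omega)).1
  have hFD : FD z r X η ⊆ DD z r X η := filter_subset _ _
  have hNA : 0 ≤ NA a X := by unfold NA CA; positivity
  have hsub : (FD z r X η).filter (fun D => Bq a t0 X D) ⊆
      (FD z r X η).filter (fun D => Bd a t0 X D) ∪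
        (DD z r X η).filter (fun D => MD D (SA a X) (fun _ => 1) < (1 - min (ε / 2) (1 / 2)) * NA a X) := by
    intro D hD
    rw [mem_filter] at hD
    rw [mem_union, mem_filter, mem_filter]
    rcases hD.2 with h | h
    · exact Or.inl ⟨hD.1, h⟩
    · refine Or.inr ⟨hFD hD.1, lt_of_lt_of_le h ?_⟩
      apply mul_le_mul_of_nonneg_right _ hNA
      have := min_le_right (ε / 2) (1 / 2)
      linarith
  have h4 : ∑ D ∈ (FD z r X η).filter (fun D => Bq a t0 X D), Pool.Agent.H38R2.CG2.wt ρ D ≤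
      ∑ D ∈ (FD z r X η).filter (fun D => Bd a t0 X D), Pool.Agent.H38R2.CG2.wt ρ D +
      ∑ D ∈ (DD z r X η).filter (fun D => MD D (SA a X) (fun _ => 1) <
        (1 - min (ε / 2) (1 / 2)) * NA a X), Pool.Agent.H38R2.CG2.wt ρ D := by
    refine le_trans (sum_le_sum_of_subset_of_nonneg hsub ?_) ?_
    · intro D hD _
      rw [mem_union, mem_filter, mem_filter] at hD
      rcases hD with h | h
      · exact hwD D (hFD h.1)
      · exact hwD D h.1
    · rw [← sum_union_inter]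
      have : 0 ≤ ∑ D ∈ (FD z r X η).filter (fun D => Bd a t0 X D) ∩
          (DD z r X η).filter (fun D => MD D (SA a X) (fun _ => 1) <
            (1 - min (ε / 2) (1 / 2)) * NA a X), Pool.Agent.H38R2.CG2.wt ρ D := by
        apply sum_nonneg
        intro D hD
        rw [mem_inter, mem_filter, mem_filter] at hD
        exact hwD D hD.2.1
      linarith
  have h5 : min (ε / 2) (1 / 2) * WW z X η ρ ≤ ε / 2 * WW z X η ρ :=
    mul_le_mul_of_nonneg_right (min_le_left _ _) hW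
  linarith

end Pool.Agent.V11318.RC
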