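import Pool.Agent.V11318.RBb

/-!
# Counting tiny primes
-/

set_option autoImplicit false

namespace Pool.Agent.V11318.RB

open Finset NumberField
open scoped Classical
open Pool.Agent.Results.MP_321647_nt.ProductsInEveryClass

variable {K : Type} [Field K] [NumberField K]

lemma total_le_choose (hK : Module.finrank ℚ K = 2) (y k : ℕ) :
    total K y k ≤ 2 ^ k * (tiny K y).card.choose k := by
  rw [total_eq]
  have h1 : ∑ s ∈ fam y k, ∏ p ∈ s, wt K p = ∑ s ∈ (tiny K y).powersetCard k, ∏ p ∈ s, wt K p := by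
    symm
    apply sum_subset
    · intro s hs
      rw [mem_powersetCard] at hs
      refine mem_powersetCard.2 ⟨hs.1.trans ?_, hs.2⟩
      rw [tiny_eq]
      exact filter_subset _ _
    · intro s hs hns
      obtain ⟨h2, h3⟩ := mem_powersetCard.1 hs
      have h4 : ¬ s ⊆ tiny K y := fun h => hns (mem_powersetCard.2 ⟨h, h3⟩)
      rw [not_subset] at h4
      obtain ⟨p, hp, hpt⟩ := h4
      apply prod_eq_zero hp
      by_contra h0
      apply hpt
      rw [tiny_eq, mem_filter]
      exact ⟨h2 hp, Nat.pos_of_ne_zero h0⟩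
  rw [h1]
  calc ∑ s ∈ (tiny K y).powersetCard k, ∏ p ∈ s, wt K p
      ≤ ∑ s ∈ (tiny K y).powersetCard k, 2 ^ k := by
        refine sum_le_sum fun s hs => ?_
        obtain ⟨h2, h3⟩ := mem_powersetCard.1 hs
        rw [← h3, ← prod_const]
        refine prod_le_prod' fun p hp => wt_le hK ?_
        have := h2 hp
        rw [tiny_eq, mem_filter, mem_filter] at this
        exact this.1.2
    _ = 2 ^ k * (tiny K y).card.choose k := by
        rw [sum_const, card_powersetCard, smul_eq_mul, mul_comm]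

lemma choose_le_in (y k : ℕ) (H : Subgroup (ClassGroup (𝓞 K))) :
    (tiny K y \ outside K y H).card.choose k ≤ inSubgroup K y k H := by
  have hsub : (tiny K y \ outside K y H).powersetCard k ⊆ fam y k := by
    intro s hs
    rw [mem_powersetCard] at hs
    refine mem_powersetCard.2 ⟨hs.1.trans (sdiff_subset.trans ?_), hs.2⟩
    rw [tiny_eq]
    exact filter_subset _ _
  calc (tiny K y \ outside K y H).card.choose k
      = ∑ s ∈ (tiny K y \ outside K y H).powersetCard k, 1 := by
        rw [sum_const, card_powersetCard, smul_eq_mul, mul_one]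
    _ ≤ ∑ s ∈ (tiny K y \ outside K y H).powersetCard k, ∏ p ∈ s, wt K p := by
        refine sum_le_sum fun s hs => ?_
        obtain ⟨h2, h3⟩ := mem_powersetCard.1 hs
        apply Nat.one_le_iff_ne_zero.2
        rw [prod_ne_zero_iff]
        intro p hp
        have := (mem_sdiff.1 (h2 hp)).1
        rw [tiny_eq, mem_filter] at this
        exact this.2.ne'
    _ = (((tiny K y \ outside K y H).powersetCard k).biUnion (nrm K)).card := (card_fam y k _ hsub).symm
    _ ≤ inSubgroup K y k H := by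
        rw [in_eq]
        apply card_le_card
        intro I hI
        obtain ⟨s, hs, h3⟩ := mem_biUnion.1 hI
        have h1 : I ∈ (fam y k).biUnion (nrm K) := mem_biUnion.2 ⟨s, hsub hs, h3⟩
        rw [mem_filter]
        refine ⟨h1, nz h1, ?_⟩
        refine class_mem H s (fam_prime (hsub hs)) ?_ ⟨I, nz h1⟩ ((mem_nrm s I).1 h3)
        intro p hp J hJ
        by_contra hJH
        have h4 := mem_sdiff.1 ((mem_powersetCard.1 hs).1 hp)
        apply h4.2
        have h5 := h4.1
        rw [tiny_eq, mem_filter, mem_filter] at h5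
        exact mem_filter.2 ⟨h5.1.1, h5.1.2, J, hJ, hJH⟩

/-- enough tiny primes -/
lemma desc_five {n N : ℕ} (h : 5 * n ≤ N) (k : ℕ) : 5 ^ k * n.descFactorial k ≤ N.descFactorial k := by
  induction k with
  | zero => simp
  | succ k ih =>
    rw [Nat.descFactorial_succ, Nat.descFactorial_succ, pow_succ]
    calc 5 ^ k * 5 * ((n - k) * n.descFactorial k) = (5 * (n - k)) * (5 ^ k * n.descFactorial k) := by ring
      _ ≤ (N - k) * N.descFactorial k := Nat.mul_le_mul (by omega) ih

lemma choose_five {n N : ℕ} (h : 5 * n ≤ N) (k : ℕ) : 5 ^ k * n.choose k ≤ N.choose k := by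
  have h1 := desc_five h k
  rw [Nat.descFactorial_eq_factorial_mul_choose, Nat.descFactorial_eq_factorial_mul_choose] at h1
  have h2 : k.factorial * (5 ^ k * n.choose k) ≤ k.factorial * N.choose k := by
    calc k.factorial * (5 ^ k * n.choose k) = 5 ^ k * (k.factorial * n.choose k) := by ring
      _ ≤ _ := h1
  exact Nat.le_of_mul_le_mul_left h2 (Nat.factorial_pos k)

theorem many_tiny (hK : Module.finrank ℚ K = 2) (y k N : ℕ) (hk : 1 ≤ k) (hkN : k ≤ N)
    (hT : N.choose k ≤ 2 * total K y k) : N ≤ 5 * (tiny K y).card := by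
  by_contra hlt
  rw [not_le] at hlt
  have h1 := choose_five hlt.le k
  have h2 := total_le_choose hK y k
  have h3 : 0 < N.choose k := Nat.choose_pos hkN
  have h4 : 5 ^ k * N.choose k ≤ 2 * 2 ^ k * N.choose k := by
    calc 5 ^ k * N.choose k ≤ 5 ^ k * (2 * total K y k) := Nat.mul_le_mul_left _ hT
      _ ≤ 5 ^ k * (2 * (2 ^ k * (tiny K y).card.choose k)) := by gcongr
      _ = 2 * 2 ^ k * (5 ^ k * (tiny K y).card.choose k) := by ring
      _ ≤ 2 * 2 ^ k * N.choose k := Nat.mul_le_mul_left _ h1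
  have h5 : 5 ^ k ≤ 2 * 2 ^ k := Nat.le_of_mul_le_mul_right h4 h3
  have h6 : 2 * 2 ^ k < 5 ^ k := by
    obtain ⟨m, rfl⟩ : ∃ m, k = m + 1 := ⟨k - 1, by omega⟩
    have : 2 ^ m ≤ 5 ^ m := Nat.pow_le_pow_left (by norm_num) m
    have h7 : 0 < 5 ^ m := by positivity
    rw [pow_succ, pow_succ]
    omega
  omega

/-- the number of `k`-products is at least the square root of the class number -/
lemma card_le_sq (y k : ℕ) (δ : ℝ) (hδ : 0 < δ) (hδ1 : δ ≤ 1 / 100)
    (h : ∀ r : ℕ, 2 ≤ r → ∀ C : ClassGroup (𝓞 K),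
        |(tuples K y k r C : ℝ) / (total K y k : ℝ) ^ r - 1 / Nat.card (ClassGroup (𝓞 K))| ≤
          δ ^ r / Nat.card (ClassGroup (𝓞 K))) :
    Nat.card (ClassGroup (𝓞 K)) ≤ total K y k ^ 2 := by
  have hpos : ∀ C : ClassGroup (𝓞 K), 0 < tuples K y k 2 C := by
    intro C
    rw [Nat.pos_iff_ne_zero]
    intro h0
    have h1 := (abs_le.1 (h 2 le_rfl C)).1
    rw [h0, Nat.cast_zero, zero_div, zero_sub] at h1
    have hc : (0 : ℝ) < Nat.card (ClassGroup (𝓞 K)) := by exact_mod_cast Nat.card_pos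
    have h2 : δ ^ 2 / (Nat.card (ClassGroup (𝓞 K)) : ℝ) < 1 / Nat.card (ClassGroup (𝓞 K)) := by
      apply div_lt_div_of_pos_right _ hc
      nlinarith
    linarith
  have hsurj : Function.Surjective (fun f : Fin 2 → KProduct K y k =>
      (ClassGroup.mk0 (∏ i, (f i).1) : ClassGroup (𝓞 K))) := by
    intro C
    have h1 := hpos C
    unfold tuples at h1
    rw [Nat.card_pos_iff] at h1
    obtain ⟨⟨f, hf⟩⟩ := h1.1
    exact ⟨f, hf⟩
  have h2 := Nat.card_le_card_of_surjective _ hsurj
  have h3 : Nat.card (Fin 2 → KProduct K y k) = total K y k ^ 2 := by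
    unfold total
    rw [Nat.card_fun, Nat.card_fin]
  rwa [h3] at h2

end Pool.Agent.V11318.RB
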