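import Mathlib

/-!
# Random elements generate, if every proper subgroup misses a proportion of them
-/

set_option autoImplicit false

namespace Pool.Agent.V11318.RB

open Finset
open scoped Classical

variable {G : Type} [CommGroup G] [Finite G] {X : Type} [Fintype X]

lemma index_half (H L : Subgroup G) (h : ¬ L ≤ H) : 2 * (H ⊔ L).index ≤ H.index := by
  have h1 := Subgroup.relIndex_mul_index (le_sup_left : H ≤ H ⊔ L)
  have h2 : H.relIndex (H ⊔ L) ≠ 1 := by
    intro h3
    rw [Subgroup.relIndex_eq_one] at h3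
    exact h (le_sup_right.trans h3)
  have h3 : H.relIndex (H ⊔ L) ≠ 0 := by
    intro h0
    rw [h0, zero_mul] at h1
    exact (Subgroup.index_ne_zero_of_finite (H := H)) h1.symm
  have h4 : 2 ≤ H.relIndex (H ⊔ L) := by omega
  calc 2 * (H ⊔ L).index ≤ H.relIndex (H ⊔ L) * (H ⊔ L).index := Nat.mul_le_mul_right _ h4
    _ = H.index := h1

lemma step (L : X → Subgroup G) (ρ : ℝ) (hρ : 0 ≤ ρ)
    (hL : ∀ H : Subgroup G, H ≠ ⊤ →
      ρ * Fintype.card X ≤ ((univ.filter fun x => ¬ L x ≤ H).card : ℝ)) (H : Subgroup G) :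
    ∑ x, (((H ⊔ L x).index : ℝ) - 1) ≤ ((1 - ρ / 2) * Fintype.card X) * ((H.index : ℝ) - 1) := by
  by_cases hH : H = ⊤
  · subst hH
    simp
  · have hj0 : 0 < H.index := Nat.pos_of_ne_zero Subgroup.index_ne_zero_of_finite
    have hj1 : (1 : ℝ) ≤ H.index := by exact_mod_cast hj0
    have h1 : ∀ x, ((H ⊔ L x).index : ℝ) - 1 ≤
        ((H.index : ℝ) - 1) - (if ¬ L x ≤ H then (H.index : ℝ) / 2 else 0) := by
      intro x
      by_cases h : L x ≤ H
      · rw [if_neg (not_not.2 h), sup_eq_left.2 h]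
        linarith
      · rw [if_pos h]
        have h2 := index_half H (L x) h
        have h3 : 2 * ((H ⊔ L x).index : ℝ) ≤ H.index := by exact_mod_cast h2
        linarith
    have h2 : ∑ x, (((H ⊔ L x).index : ℝ) - 1) ≤ ∑ x : X,
        (((H.index : ℝ) - 1) - (if ¬ L x ≤ H then (H.index : ℝ) / 2 else 0)) :=
      sum_le_sum fun x _ => h1 x
    have h7 : ∑ x : X, (((H.index : ℝ) - 1) - (if ¬ L x ≤ H then (H.index : ℝ) / 2 else 0)) =
        Fintype.card X * ((H.index : ℝ) - 1) -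
          ((univ.filter fun x => ¬ L x ≤ H).card : ℝ) * ((H.index : ℝ) / 2) := by
      rw [sum_sub_distrib, ← sum_filter, sum_const, sum_const, nsmul_eq_mul, nsmul_eq_mul, card_univ]
    rw [h7] at h2
    refine h2.trans ?_
    have h3 := hL H hH
    have h4 : (0 : ℝ) ≤ Fintype.card X := Nat.cast_nonneg _
    have h5 := mul_le_mul_of_nonneg_right h3 (show (0 : ℝ) ≤ (H.index : ℝ) / 2 by positivity)
    have h6 : 0 ≤ ρ * (Fintype.card X : ℝ) := mul_nonneg hρ h4
    nlinarith

theorem bad_tuples (L : X → Subgroup G) (ρ : ℝ) (hρ : 0 ≤ ρ) (hρ2 : ρ ≤ 2)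
    (hL : ∀ H : Subgroup G, H ≠ ⊤ →
      ρ * Fintype.card X ≤ ((univ.filter fun x => ¬ L x ≤ H).card : ℝ)) (t : ℕ) (H : Subgroup G) :
    ∑ f : Fin t → X, (if H ⊔ ⨆ i, L (f i) ≠ ⊤ then (1 : ℝ) else 0) ≤
      ((1 - ρ / 2) * Fintype.card X) ^ t * ((H.index : ℝ) - 1) := by
  induction t generalizing H with
  | zero =>
    rw [pow_zero, one_mul]
    have hj0 : 0 < H.index := Nat.pos_of_ne_zero Subgroup.index_ne_zero_of_finite
    have hj1 : (1 : ℝ) ≤ H.index := by exact_mod_cast hj0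
    rw [Fintype.sum_unique]
    rw [iSup_of_empty, sup_bot_eq]
    split_ifs with h
    · have h2 : H.index ≠ 1 := fun h3 => h (Subgroup.index_eq_one.1 h3)
      have h3 : 2 ≤ H.index := by omega
      have h4 : (2 : ℝ) ≤ H.index := by exact_mod_cast h3
      linarith
    · linarith
  | succ t ih =>
    rw [← (Fin.consEquiv (fun _ : Fin (t + 1) => X)).sum_comp, Fintype.sum_prod_type]
    have h1 : ∀ (x : X) (f : Fin t → X),
        H ⊔ ⨆ i, L ((Fin.consEquiv (fun _ : Fin (t + 1) => X)) (x, f) i) =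
          (H ⊔ L x) ⊔ ⨆ i, L (f i) := by
      intro x f
      rw [sup_assoc]
      congr 1
      apply le_antisymm
      · refine iSup_le fun i => ?_
        refine Fin.cases ?_ (fun i => ?_) i
        · exact le_sup_left
        · exact le_sup_of_le_right (le_iSup (fun i => L (f i)) i)
      · refine sup_le ?_ (iSup_le fun i => ?_)
        · exact le_iSup (fun i => L ((Fin.consEquiv (fun _ : Fin (t + 1) => X)) (x, f) i)) 0
        · exact le_iSup (fun i => L ((Fin.consEquiv (fun _ : Fin (t + 1) => X)) (x, f) i)) i.succ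
    simp only [h1]
    have hr : 0 ≤ (1 - ρ / 2) * (Fintype.card X : ℝ) := mul_nonneg (by linarith) (Nat.cast_nonneg _)
    calc ∑ x : X, ∑ f : Fin t → X, (if (H ⊔ L x) ⊔ ⨆ i, L (f i) ≠ ⊤ then (1 : ℝ) else 0)
        ≤ ∑ x : X, ((1 - ρ / 2) * Fintype.card X) ^ t * (((H ⊔ L x).index : ℝ) - 1) :=
          sum_le_sum fun x _ => ih (H ⊔ L x)
      _ = ((1 - ρ / 2) * Fintype.card X) ^ t * ∑ x : X, (((H ⊔ L x).index : ℝ) - 1) := by
          rw [mul_sum]
      _ ≤ ((1 - ρ / 2) * Fintype.card X) ^ t *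
            (((1 - ρ / 2) * Fintype.card X) * ((H.index : ℝ) - 1)) :=
          mul_le_mul_of_nonneg_left (step L ρ hρ hL H) (pow_nonneg hr t)
      _ = _ := by rw [pow_succ]; ring

end Pool.Agent.V11318.RB
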