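import Pool.Agent.V11318.RCe
import Pool.Agent.V11318.RCh

/-!
# Random tiny primes generate the class group
-/

set_option autoImplicit false

namespace Pool.Agent.V11318.RB

open Finset NumberField
open scoped Classical
open Pool.Agent.Results.MP_321647_nt.ProductsInEveryClass

/-- The ideals with norm in the set `T` generate the class group. -/
def Generates (K : Type) [Field K] [NumberField K] (T : Finset ℕ) : Prop :=
  Subgroup.closure {C : ClassGroup (𝓞 K) | ∃ I : nonZeroDivisors (Ideal (𝓞 K)),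
    Ideal.absNorm (I : Ideal (𝓞 K)) ∈ T ∧ ClassGroup.mk0 I = C} = ⊤

/-- The number of the `t`-tuples of tiny primes such that the ideals with these norms do not generate the class
group. -/
noncomputable def badTuples (K : Type) [Field K] [NumberField K] (y t : ℕ) : ℕ :=
  Nat.card {f : Fin t → {q : ℕ // q ∈ tiny K y} //
    ¬ Generates K (Finset.univ.image fun i => (f i : ℕ))}

variable {K : Type} [Field K] [NumberField K]

lemma bad_le (y t : ℕ) (ρ : ℝ) (hρ : 0 ≤ ρ) (hρ2 : ρ ≤ 2)
    (h : ∀ H : Subgroup (ClassGroup (𝓞 K)), H ≠ ⊤ → ρ * (tiny K y).card ≤ ((outside K y H).card : ℝ)) :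
    (badTuples K y t : ℝ) ≤
      ((1 - ρ / 2) * (tiny K y).card) ^ t * (Nat.card (ClassGroup (𝓞 K)) : ℝ) := by
  obtain ⟨L, hLd⟩ : ∃ L : {q : ℕ // q ∈ tiny K y} → Subgroup (ClassGroup (𝓞 K)),
      ∀ q, L q = Subgroup.closure {C | ∃ I : nonZeroDivisors (Ideal (𝓞 K)),
        Ideal.absNorm (I : Ideal (𝓞 K)) = (q : ℕ) ∧ ClassGroup.mk0 I = C} := ⟨_, fun _ => rfl⟩
  have hcard : Fintype.card {q : ℕ // q ∈ tiny K y} = (tiny K y).card := Fintype.card_coe _
  have hL : ∀ H : Subgroup (ClassGroup (𝓞 K)), H ≠ ⊤ →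
      ρ * Fintype.card {q : ℕ // q ∈ tiny K y} ≤ ((univ.filter fun x => ¬ L x ≤ H).card : ℝ) := by
    intro H hH
    rw [hcard]
    refine (h H hH).trans ?_
    have h1 : outside K y H ⊆ (univ.filter fun x => ¬ L x ≤ H).image Subtype.val := by
      intro q hq
      obtain ⟨h2, h3, I, h4, h5⟩ := mem_filter.1 hq
      have h6 : q ∈ tiny K y := mem_filter.2 ⟨h2, h3, I, h4⟩
      refine mem_image.2 ⟨⟨q, h6⟩, mem_filter.2 ⟨mem_univ _, fun hle => h5 (hle ?_)⟩, rfl⟩
      rw [hLd]
      exact Subgroup.subset_closure ⟨I, h4, rfl⟩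
    have h2 := (card_le_card h1).trans card_image_le
    exact_mod_cast h2
  have key := bad_tuples L ρ hρ hρ2 hL t ⊥
  rw [hcard, Subgroup.index_bot] at key
  have h1 : (badTuples K y t : ℝ) ≤
      ∑ f : Fin t → {q : ℕ // q ∈ tiny K y}, (if ⊥ ⊔ ⨆ i, L (f i) ≠ ⊤ then (1 : ℝ) else 0) := by
    unfold badTuples
    rw [Nat.card_eq_fintype_card, Fintype.card_subtype, card_filter]
    push_cast
    refine sum_le_sum fun f _ => ?_
    by_cases hg : ¬ Generates K (Finset.univ.image fun i => (f i : ℕ))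
    · have h2 : ⊥ ⊔ ⨆ i, L (f i) ≠ ⊤ := by
        intro htop
        apply hg
        unfold Generates
        rw [eq_top_iff, ← htop, bot_sup_eq]
        refine iSup_le fun i => ?_
        rw [hLd, Subgroup.closure_le]
        rintro C ⟨I, h3, h4⟩
        exact Subgroup.subset_closure ⟨I, by rw [h3]; exact mem_image_of_mem _ (mem_univ i), h4⟩
      rw [if_pos hg, if_pos h2]
    · rw [if_neg hg]
      split_ifs <;> norm_num
  refine h1.trans (key.trans ?_)
  apply mul_le_mul_of_nonneg_left (by linarith)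
  apply pow_nonneg
  exact mul_nonneg (by linarith) (Nat.cast_nonneg _)

/-- an upper bound for the class number -/
lemma card_le_pow (hK : Module.finrank ℚ K = 2) (d y k : ℕ) (a : ℝ) (ha : 0 ≤ a) (hd : 1 < d)
    (hl : 0 < Real.log d) (hll : 0 < Real.log (Real.log d))
    (hkd : 2 * (k : ℝ) ≤ Real.log d / Real.log (Real.log d)) (hy : 2 * (y : ℝ) ≤ (Real.log d) ^ a)
    (hc : Nat.card (ClassGroup (𝓞 K)) ≤ total K y k ^ 2) :
    (Nat.card (ClassGroup (𝓞 K)) : ℝ) ≤ (d : ℝ) ^ a := by
  have h1 : (tiny K y).card ≤ y := by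
    have : tiny K y ⊆ Finset.Ioc y (2 * y) := filter_subset _ _
    have h2 := card_le_card this
    rw [Nat.card_Ioc] at h2
    omega
  have h1r : ((tiny K y).card : ℝ) ≤ y := by exact_mod_cast h1
  have h2 : (total K y k : ℝ) ≤ ((Real.log d) ^ a) ^ k := by
    calc (total K y k : ℝ) ≤ 2 ^ k * ((tiny K y).card.choose k : ℝ) := by
          exact_mod_cast total_le_choose hK y k
      _ ≤ 2 ^ k * ((tiny K y).card : ℝ) ^ k := by
          apply mul_le_mul_of_nonneg_left _ (by positivity)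
          exact_mod_cast Nat.choose_le_pow _ _
      _ = (2 * (tiny K y).card) ^ k := by rw [mul_pow]
      _ ≤ ((Real.log d) ^ a) ^ k := by
          apply pow_le_pow_left₀ (by positivity)
          linarith
  have h3 : (Nat.card (ClassGroup (𝓞 K)) : ℝ) ≤ (total K y k : ℝ) ^ 2 := by exact_mod_cast hc
  refine h3.trans ?_
  calc (total K y k : ℝ) ^ 2 ≤ (((Real.log d) ^ a) ^ k) ^ 2 := pow_le_pow_left₀ (Nat.cast_nonneg _) h2 2
    _ ≤ (d : ℝ) ^ a := by
      rw [le_div_iff₀ hll] at hkd
      have hd0 : (0 : ℝ) < d := by exact_mod_cast (by omega : 0 < d)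
      rw [← pow_mul, ← Real.rpow_natCast, ← Real.rpow_mul hl.le, Real.rpow_def_of_pos hl,
        Real.rpow_def_of_pos hd0]
      apply Real.exp_le_exp.2
      push_cast
      nlinarith

theorem random_generate (hK : Module.finrank ℚ K = 2) (d y k : ℕ) (a : ℝ) (ha : 0 ≤ a) (hd : 1 < d)
    (hk : 1 ≤ k) (hkd : 2 * (k : ℝ) ≤ Real.log d / Real.log (Real.log d))
    (hy : 2 * (y : ℝ) ≤ (Real.log d) ^ a)
    (hc : Nat.card (ClassGroup (𝓞 K)) ≤ total K y k ^ 2)
    (h : ∀ H : Subgroup (ClassGroup (𝓞 K)), H ≠ ⊤ →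
      49 / 100 * (Real.log (Real.log d) / Real.log d) * (tiny K y).card ≤ ((outside K y H).card : ℝ))
    (t : ℕ) (ht : 5 * (a + 1) * (Real.log d) ^ 2 / Real.log (Real.log d) ≤ t) :
    (badTuples K y t : ℝ) ≤ 1 / d * (tiny K y).card ^ t := by
  have hd1 : (1 : ℝ) < d := by exact_mod_cast hd
  have hd0 : (0 : ℝ) < d := by linarith
  have hl : 0 < Real.log d := Real.log_pos hd1
  have hk1 : (1 : ℝ) ≤ k := by exact_mod_cast hk
  have hll : 0 < Real.log (Real.log d) := by
    by_contra hneg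
    rw [not_lt] at hneg
    have := div_nonpos_of_nonneg_of_nonpos hl.le hneg
    linarith
  have hcl := card_le_pow hK d y k a ha hd hl hll hkd hy hc
  obtain ⟨p, hp⟩ : ∃ p : ℝ, p = Real.log (Real.log d) / Real.log d := ⟨_, rfl⟩
  rw [← hp] at h
  have hp0 : 0 < p := by rw [hp]; exact div_pos hll hl
  have hp1 : p ≤ 1 := by
    rw [hp, div_le_one hl]
    rw [le_div_iff₀ hll] at hkd
    nlinarith
  have h1 := bad_le y t (49 / 100 * p) (by positivity) (by linarith) h
  have h2 : (1 - 49 / 100 * p / 2) ^ t ≤ 1 / (d : ℝ) ^ (a + 1) := by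
    have e1 : 1 - 49 / 100 * p / 2 ≤ Real.exp (-(49 / 100 * p / 2)) := by
      have := Real.add_one_le_exp (-(49 / 100 * p / 2))
      linarith
    calc (1 - 49 / 100 * p / 2) ^ t ≤ (Real.exp (-(49 / 100 * p / 2))) ^ t :=
          pow_le_pow_left₀ (by linarith) e1 t
      _ = Real.exp (-(49 / 100 * p / 2) * t) := by rw [← Real.exp_nat_mul]; ring_nf
      _ ≤ Real.exp (-((a + 1) * Real.log d)) := by
          apply Real.exp_le_exp.2
          rw [div_le_iff₀ hll] at ht
          have e2 : p * Real.log d = Real.log (Real.log d) := by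
            rw [hp, div_mul_cancel₀ _ hl.ne']
          have e3 : 5 * (a + 1) * Real.log d ≤ t * p := by
            have e4 : 5 * (a + 1) * Real.log d * Real.log d ≤ t * p * Real.log d := by
              calc 5 * (a + 1) * Real.log d * Real.log d = 5 * (a + 1) * (Real.log d) ^ 2 := by ring
                _ ≤ t * Real.log (Real.log d) := ht
                _ = t * p * Real.log d := by rw [← e2]; ring
            exact le_of_mul_le_mul_right e4 hl
          have e5 : 0 ≤ (a + 1) * Real.log d := by positivity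
          nlinarith
      _ = 1 / (d : ℝ) ^ (a + 1) := by
          rw [Real.rpow_def_of_pos hd0, one_div, ← Real.exp_neg]
          congr 1
          ring
  have hn : (0 : ℝ) ≤ ((tiny K y).card : ℝ) ^ t := by positivity
  have hda : 0 < (d : ℝ) ^ a := Real.rpow_pos_of_pos hd0 a
  calc (badTuples K y t : ℝ) ≤ ((1 - 49 / 100 * p / 2) * (tiny K y).card) ^ t *
        (Nat.card (ClassGroup (𝓞 K)) : ℝ) := h1
    _ = (1 - 49 / 100 * p / 2) ^ t * (tiny K y).card ^ t * (Nat.card (ClassGroup (𝓞 K)) : ℝ) := by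
        rw [mul_pow]
    _ ≤ (1 / (d : ℝ) ^ (a + 1)) * (tiny K y).card ^ t * (d : ℝ) ^ a := by
        apply mul_le_mul _ hcl (Nat.cast_nonneg _) (by positivity)
        exact mul_le_mul_of_nonneg_right h2 hn
    _ = 1 / d * (tiny K y).card ^ t := by
        rw [Real.rpow_add hd0, Real.rpow_one]
        field_simp

end Pool.Agent.V11318.RB
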