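import Pool.Agent.V11318.RCa

/-!
# Exceptional discriminants, including those with few ideals or many near collisions
-/

set_option autoImplicit false

namespace Pool.Agent.V11318.RD

open Finset Filter NumberField Pool.Agent.H38R2.CG Pool.Agent.H38R2.CG2 Pool.Agent.H38R2.CG3
open Pool.Agent.V11318.RC Pool.Agent.H38R2.CG2.AS0h
open scoped Classical

/-- exceptional discriminants -/
def Br (a t0 : ℝ) (X D : ℕ) : Prop :=
  Bq a t0 X D ∨ Real.log X * (NA a X) ^ 2 / √(X : ℝ) < SD D (SA a X) (fun _ => 1)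

/-- few exceptional discriminants -/
def P5_AS0 : Prop := ∀ a : ℝ, 2 < a → ∀ t0 : ℝ, 0 < t0 → ∀ C0 : ℕ, 1 ≤ C0 → ∀ ε : ℝ, 0 < ε →
  ∃ z0 : ℕ, ∀ z ≥ z0,
  ∃ η1 : ℝ, 0 < η1 ∧ ∀ η : ℝ, 0 < η → η ≤ η1 → ∀ r : ℕ, FundRes z r → ∃ X0 : ℕ, ∀ X ≥ X0,
  ∀ ρ : ℕ → ℝ, SWt z X (PA a X) (cc a) C0 ρ →
    ∑ D ∈ (FD z r X η).filter (fun D => Br a t0 X D), Pool.Agent.H38R2.CG2.wt ρ D ≤ ε * WW z X η ρ

theorem T5_AS0 : P4_AS0 → P2_TM → P2_WT → P2_NB → P5_AS0 := by
  intro h3 hTM hWT hNB a ha t0 ht0 C0 hC0 ε hε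
  obtain ⟨z0, hz0⟩ := h3 a ha t0 ht0 C0 hC0 (ε / 2) (half_pos hε)
  refine ⟨max z0 2, fun z hz => ?_⟩
  have hz2 : 2 ≤ z := (le_max_right _ _).trans hz
  obtain ⟨η1, hη1, H⟩ := hz0 z ((le_max_left _ _).trans hz)
  refine ⟨min η1 1, lt_min hη1 one_pos, fun η hη hη1' r hr => ?_⟩
  obtain ⟨X0, hX0⟩ := H η hη (hη1'.trans (min_le_left _ _)) r hr
  obtain ⟨X1, hX1⟩ := hTM a ha z r hz2 hr η hη (hη1'.trans (min_le_right _ _)) C0 hC0 1 one_pos
  obtain ⟨X2, hX2⟩ := hNB a ha 1 one_pos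
  have htl : Tendsto (fun X : ℕ => Real.log (X : ℝ)) atTop atTop :=
    Real.tendsto_log_atTop.comp tendsto_natCast_atTop_atTop
  obtain ⟨X3, hX3⟩ := Filter.eventually_atTop.1 (htl.eventually_ge_atTop (2 * PiR z r / ε))
  refine ⟨max (max X0 X1) (max (max X2 X3) 3), fun X hX ρ hρ => ?_⟩
  have hXa : X0 ≤ X := (le_max_left _ _).trans ((le_max_left _ _).trans hX)
  have hXb : X1 ≤ X := (le_max_right _ _).trans ((le_max_left _ _).trans hX)
  have hXc : X2 ≤ X := (le_max_left _ _).trans ((le_max_left _ _).trans ((le_max_right _ _).trans hX))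
  have hXd : X3 ≤ X := (le_max_right _ _).trans ((le_max_left _ _).trans ((le_max_right _ _).trans hX))
  have hXe : 3 ≤ X := (le_max_right _ _).trans ((le_max_right _ _).trans hX)
  have h1 := hX0 X hXa ρ hρ
  have h2 := hX1 X hXb ρ hρ
  have h4 := hX3 X hXd
  have hXr : (3 : ℝ) ≤ X := by exact_mod_cast hXe
  have hXpos : (0 : ℝ) < X := by linarith
  have hlog : 0 < Real.log X := Real.log_pos (by linarith)
  have hG : 0 < GG X ρ := lt_of_lt_of_le (by positivity) hρ.low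
  have hQ : (0:ℝ) < (Qz z : ℝ) := by
    have : 0 < Qz z := by
      unfold Qz
      apply Nat.mul_pos (by norm_num)
      apply prod_pos
      intro l hl
      exact pow_pos (mem_filter.1 hl).2.pos 2
    exact_mod_cast this
  have hW : 0 < WW z X η ρ := by unfold WW; positivity
  obtain ⟨N, hN⟩ : ∃ N : ℝ, N = NA a X := ⟨_, rfl⟩
  have hN0 : 0 < N := by
    rw [hN]
    exact lt_of_lt_of_le (by positivity) (hX2 X hXc).2.1
  have hP := PiR_pos z r
  have hcc : cc a ≤ 1 := by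
    unfold cc
    rw [div_le_one (by linarith)]
    linarith
  have hwD : ∀ D ∈ DD z r X η, 0 ≤ Pool.Agent.H38R2.CG2.wt ρ D := by
    intro D hD
    simp only [DD, mem_filter, mem_Ioc] at hD
    exact (hWT z X (PA a X) (cc a) C0 ρ (by omega) hcc hρ D (by omega)).1
  have hFD : FD z r X η ⊆ DD z r X η := filter_subset _ _
  obtain ⟨F, hF⟩ : ∃ F : Finset ℕ, F = (DD z r X η).filter (fun D =>
    Real.log X * N ^ 2 / √(X : ℝ) < SD D (SA a X) (fun _ => 1)) := ⟨_, rfl⟩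
  have hsub : (FD z r X η).filter (fun D => Br a t0 X D) ⊆
      (FD z r X η).filter (fun D => Bq a t0 X D) ∪ F := by
    intro D hD
    rw [mem_filter] at hD
    rw [mem_union, mem_filter, hF, mem_filter, hN]
    rcases hD.2 with h | h
    · exact Or.inl ⟨hD.1, h⟩
    · exact Or.inr ⟨hFD hD.1, h⟩
  have hF0 : ∀ D ∈ F, 0 ≤ Pool.Agent.H38R2.CG2.wt ρ D := by
    intro D hD
    rw [hF, mem_filter] at hD
    exact hwD D hD.1
  have h5 : ∑ D ∈ (FD z r X η).filter (fun D => Br a t0 X D), Pool.Agent.H38R2.CG2.wt ρ D ≤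
      ∑ D ∈ (FD z r X η).filter (fun D => Bq a t0 X D), Pool.Agent.H38R2.CG2.wt ρ D +
      ∑ D ∈ F, Pool.Agent.H38R2.CG2.wt ρ D := by
    refine le_trans (sum_le_sum_of_subset_of_nonneg hsub ?_) ?_
    · intro D hD _
      rw [mem_union, mem_filter] at hD
      rcases hD with h | h
      · exact hwD D (hFD h.1)
      · exact hF0 D h
    · rw [← sum_union_inter]
      have : 0 ≤ ∑ D ∈ (FD z r X η).filter (fun D => Bq a t0 X D) ∩ F,
          Pool.Agent.H38R2.CG2.wt ρ D := by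
        apply sum_nonneg
        intro D hD
        exact hF0 D (mem_inter.1 hD).2
      linarith
  have hsX : 0 < √(X : ℝ) := Real.sqrt_pos.2 hXpos
  have hc0 : 0 < Real.log X * N ^ 2 / √(X : ℝ) := by positivity
  have h6 : (Real.log X * N ^ 2 / √(X : ℝ)) * ∑ D ∈ F, Pool.Agent.H38R2.CG2.wt ρ D ≤
      ∑ D ∈ DD z r X η, Pool.Agent.H38R2.CG2.wt ρ D * SD D (SA a X) (fun _ => 1) := by
    rw [mul_sum]
    calc ∑ D ∈ F, (Real.log X * N ^ 2 / √(X : ℝ)) * Pool.Agent.H38R2.CG2.wt ρ D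
        ≤ ∑ D ∈ F, Pool.Agent.H38R2.CG2.wt ρ D * SD D (SA a X) (fun _ => 1) := by
          refine sum_le_sum fun D hD => ?_
          rw [mul_comm]
          refine mul_le_mul_of_nonneg_left ?_ (hF0 D hD)
          rw [hF, mem_filter] at hD
          exact hD.2.le
      _ ≤ _ := by
          apply sum_le_sum_of_subset_of_nonneg
          · rw [hF]
            exact filter_subset _ _
          · intro D hD _
            exact mul_nonneg (hwD D hD) (SD_nonneg D _)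
  have h7 : (Real.log X * N ^ 2 / √(X : ℝ)) * ∑ D ∈ F, Pool.Agent.H38R2.CG2.wt ρ D ≤
      (Real.log X * N ^ 2 / √(X : ℝ)) * (PiR z r / Real.log X * WW z X η ρ) := by
    refine h6.trans (h2.trans (le_of_eq ?_))
    rw [← hN]
    unfold WW
    have hss : √(X : ℝ) * √(X : ℝ) = X := Real.mul_self_sqrt hXpos.le
    field_simp
    nlinarith [hss]
  have h8 : ∑ D ∈ F, Pool.Agent.H38R2.CG2.wt ρ D ≤ PiR z r / Real.log X * WW z X η ρ :=
    le_of_mul_le_mul_left h7 hc0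
  have h9 : PiR z r / Real.log X ≤ ε / 2 := by
    rw [div_le_iff₀ hlog]
    rw [div_le_iff₀ hε] at h4
    linarith
  have h10 : PiR z r / Real.log X * WW z X η ρ ≤ ε / 2 * WW z X η ρ :=
    mul_le_mul_of_nonneg_right h9 hW.le
  linarith

end Pool.Agent.V11318.RD
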