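import Pool.Agent.V11318.RDa
import Pool.Agent.Y892.UF.W7

/-!
Few exceptional discriminants in short intervals: the proofs of the starting library (H38R2.CG3.Fin, Y892.UF.W3, W7)
for the larger set `Br` of exceptional discriminants.
-/

set_option autoImplicit false

namespace Pool.Agent.V11318.RD

open Finset Filter NumberField Pool.Agent.H38R2.CG Pool.Agent.H38R2.CG2 Pool.Agent.H38R2.CG3
open Pool.Agent.H38R2.CG.FINh
open scoped Classical

section A

open Pool.Agent.H38R2.CG.AS1h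

/-- few exceptional discriminants in a short interval -/
theorem short_all (ht : P2_TRIV) (h : P5_AS0) (a : ℝ) (ha : 2 < a) (t0 : ℝ) (ht0 : 0 < t0)
    (ε : ℝ) (hε : 0 < ε) : ∃ η : ℝ, 0 < η ∧ η ≤ 1 ∧ ∃ X0 : ℕ, ∀ X ≥ X0,
    (((Finset.Ioc X ⌊(1 + η) * X⌋₊).filter (fun D => IsFund D ∧ Br a t0 X D)).card : ℝ) ≤
      ε * η * X := by
  obtain ⟨z0, hz0⟩ := h a ha t0 ht0 1 le_rfl ε hε
  obtain ⟨η1, hη1, H⟩ := hz0 z0 le_rfl
  have hηpos : 0 < min η1 1 := lt_min hη1 one_pos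
  refine ⟨min η1 1, hηpos, min_le_right _ _, ?_⟩
  have H' : ∀ r : ℕ, ∃ X0 : ℕ, ∀ X ≥ X0, FundRes z0 r → ∀ ρ : ℕ → ℝ,
      SWt z0 X (PA a X) (cc a) 1 ρ →
      ∑ D ∈ (FD z0 r X (min η1 1)).filter (fun D => Br a t0 X D), wt ρ D ≤
        ε * WW z0 X (min η1 1) ρ := by
    intro r
    by_cases hr : FundRes z0 r
    · obtain ⟨X0, hX0⟩ := H (min η1 1) hηpos (min_le_left _ _) r hr
      exact ⟨X0, fun X hX _ => hX0 X hX⟩
    · exact ⟨0, fun X _ hr' => absurd hr' hr⟩
  choose X0 hX0 using H'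
  refine ⟨max 3 ((Finset.range (Qz z0)).sup X0), ?_⟩
  intro X hX
  have hX3 : 3 ≤ X := le_trans (le_max_left _ _) hX
  have hXs : (Finset.range (Qz z0)).sup X0 ≤ X := le_trans (le_max_right _ _) hX
  have hcc : 0 < cc a := by
    unfold cc
    apply div_pos <;> linarith
  obtain ⟨hSW, hGG, hwt⟩ := ht z0 X (PA a X) (cc a) 1 hX3 hcc le_rfl
    (fun p hp => (Finset.mem_filter.1 hp).2)
  set η := min η1 1 with hη
  set ρ : ℕ → ℝ := fun d => if d = 1 then 1 else 0 with hρ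
  have hWW : WW z0 X η ρ = η * X / Qz z0 := by
    unfold WW
    rw [hGG, mul_one]
  set S := (Finset.Ioc X ⌊(1 + η) * X⌋₊).filter (fun D => IsFund D ∧ Br a t0 X D) with hS
  have hcard : S.card = ∑ r ∈ Finset.range (Qz z0), (S.filter (fun D => D % Qz z0 = r)).card := by
    apply Finset.card_eq_sum_card_fiberwise
    intro D _
    simp only [Finset.coe_range, Set.mem_Iio]
    exact Nat.mod_lt _ (Qz_pos z0)
  have hQ : (0 : ℝ) < Qz z0 := by exact_mod_cast Qz_pos z0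
  have hnn : 0 ≤ ε * (η * X / Qz z0) := by positivity
  have hle : ∀ r ∈ Finset.range (Qz z0),
      ((S.filter (fun D => D % Qz z0 = r)).card : ℝ) ≤ ε * (η * X / Qz z0) := by
    intro r hr
    by_cases hfr : FundRes z0 r
    · have h1 := hX0 r X (le_trans (Finset.le_sup hr) hXs) hfr ρ hSW
      rw [hWW] at h1
      refine le_trans ?_ h1
      have hcardsum : ∑ D ∈ (FD z0 r X η).filter (fun D => Br a t0 X D), wt ρ D =
          (((FD z0 r X η).filter (fun D => Br a t0 X D)).card : ℝ) := by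
        rw [Finset.card_eq_sum_ones]
        push_cast
        apply Finset.sum_congr rfl
        intro D hD
        apply hwt
        have h2 := (Finset.mem_filter.1 (Finset.mem_filter.1 hD).1).2
        exact h2.1.le
      rw [hcardsum]
      have : (S.filter (fun D => D % Qz z0 = r)) ⊆
          ((FD z0 r X η).filter (fun D => Br a t0 X D)) := by
        intro D hD
        simp only [hS, FD, DD, Finset.mem_filter] at hD ⊢
        exact ⟨⟨⟨hD.1.1, hD.2⟩, hD.1.2.1⟩, hD.1.2.2⟩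
      exact_mod_cast Finset.card_le_card this
    · have : (S.filter (fun D => D % Qz z0 = r)) = ∅ := by
        rw [Finset.filter_eq_empty_iff]
        intro D hD hDr
        apply hfr
        rw [← hDr]
        exact fundRes z0 D (Finset.mem_filter.1 hD).2.1
      rw [this]
      simpa using hnn
  rw [hcard]
  push_cast
  refine le_trans (Finset.sum_le_sum hle) ?_
  rw [Finset.sum_const, Finset.card_range, nsmul_eq_mul]
  have : (Qz z0 : ℝ) * (ε * (η * X / Qz z0)) = ε * η * X := by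
    field_simp
  rw [this]


open APh in
/-- few exceptional prime discriminants in a short interval -/
theorem short_primes (hAS : P5_AS0) (hBH : P2_BH) (hRC : P2_RC) (a : ℝ) (ha : 2 < a) (t0 : ℝ)
    (ht0 : 0 < t0) (ε : ℝ) (hε : 0 < ε) : ∃ η : ℝ, 0 < η ∧ η ≤ 1 ∧ ∃ X0 : ℕ, ∀ X ≥ X0,
    (((Finset.Ioc X ⌊(1 + η) * X⌋₊).filter (fun D => (∃ p : ℕ, p.Prime ∧ (D = p ∨ D = 4 * p)) ∧
      IsFund D ∧ Br a t0 X D)).card : ℝ) ≤ ε * η * X / Real.log X := by
  have ha1 : 0 < a - 1 := by linarith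
  have hcc0 : 0 < cc a := by
    unfold cc
    exact div_pos (by linarith) (by linarith)
  have hcc1 : cc a ≤ 1 / 2 := by
    unfold cc
    rw [div_le_iff₀ (by linarith)]
    linarith
  obtain ⟨C0, hC0, hB⟩ := hBH (cc a) hcc0 (by linarith)
  have hC0' : (1 : ℝ) ≤ C0 := by exact_mod_cast hC0
  obtain ⟨z0, hz0⟩ := hAS a ha t0 ht0 C0 hC0 (ε / C0) (by positivity)
  set z := max 2 z0 with hz
  have hz2 : 2 ≤ z := le_max_left _ _
  obtain ⟨η1, hη1, H⟩ := hz0 z (le_max_right _ _)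
  obtain ⟨XB, hXB⟩ := hB z hz2 a ha
  have hηpos : 0 < min η1 1 := lt_min hη1 one_pos
  refine ⟨min η1 1, hηpos, min_le_right _ _, ?_⟩
  set η := min η1 1 with hη
  have H' : ∀ r : ℕ, ∃ X0 : ℕ, ∀ X ≥ X0, ∀ ρ : ℕ → ℝ, SWt z X (PA a X) (cc a) C0 ρ →
      FundRes z r →
      ∑ D ∈ (FD z r X η).filter (fun D => Br a t0 X D), wt ρ D ≤ ε / C0 * WW z X η ρ := by
    intro r
    by_cases hr : FundRes z r
    · obtain ⟨X0, hX0⟩ := H η hηpos (min_le_left _ _) r hr
      exact ⟨X0, fun X hX ρ hρ _ => hX0 X hX ρ hρ⟩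
    · exact ⟨0, fun X _ ρ _ hr' => absurd hr' hr⟩
  choose X0 hX0 using H'
  refine ⟨max (max ((Finset.range (Qz z)).sup X0) XB) (max 17 (4 * z)), ?_⟩
  intro X hX
  have hX1 : (Finset.range (Qz z)).sup X0 ≤ X :=
    (le_max_left _ _).trans ((le_max_left _ _).trans hX)
  have hX2 : XB ≤ X := (le_max_right _ _).trans ((le_max_left _ _).trans hX)
  have hX3 : 17 ≤ X := (le_max_left _ _).trans ((le_max_right _ _).trans hX)
  have hX4 : 4 * z ≤ X := (le_max_right _ _).trans ((le_max_right _ _).trans hX)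
  obtain ⟨ρ, hρ, hρ1, hGG⟩ := hXB X hX2
  have hX17 : (17 : ℝ) ≤ X := by exact_mod_cast hX3
  have hlog : 0 < Real.log X := Real.log_pos (by linarith)
  have hGpos : 0 ≤ GG X ρ := le_trans (by positivity) hρ.low
  set S := (Finset.Ioc X ⌊(1 + η) * X⌋₊).filter (fun D =>
    (∃ p : ℕ, p.Prime ∧ (D = p ∨ D = 4 * p)) ∧ IsFund D ∧ Br a t0 X D) with hS
  have hcard : S.card = ∑ r ∈ Finset.range (Qz z), (S.filter (fun D => D % Qz z = r)).card := by
    apply Finset.card_eq_sum_card_fiberwise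
    intro D _
    simp only [Finset.coe_range, Set.mem_Iio]
    exact Nat.mod_lt _ (AS1h.Qz_pos z)
  have hQ : (0 : ℝ) < Qz z := by exact_mod_cast AS1h.Qz_pos z
  have hW : 0 ≤ ε / C0 * WW z X η ρ := by
    unfold WW
    positivity
  have hle : ∀ r ∈ Finset.range (Qz z),
      ((S.filter (fun D => D % Qz z = r)).card : ℝ) ≤
        if (∀ q ∈ (Finset.Icc 3 z).filter Nat.Prime, ¬ q ∣ r) then ε / C0 * WW z X η ρ else 0 := by
    intro r hr
    by_cases hfr : FundRes z r ∧ ∀ q ∈ (Finset.Icc 3 z).filter Nat.Prime, ¬ q ∣ r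
    · rw [if_pos hfr.2]
      refine le_trans ?_ (hX0 r X (le_trans (Finset.le_sup hr) hX1) ρ hρ hfr.1)
      have hsub : (S.filter (fun D => D % Qz z = r)) ⊆
          ((FD z r X η).filter (fun D => Br a t0 X D)) := by
        intro D hD
        simp only [hS, FD, DD, Finset.mem_filter] at hD ⊢
        exact ⟨⟨⟨hD.1.1, hD.2⟩, hD.1.2.2.1⟩, hD.1.2.2.2⟩
      have e1 : ((S.filter (fun D => D % Qz z = r)).card : ℝ) =
          ∑ D ∈ S.filter (fun D => D % Qz z = r), wt ρ D := by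
        rw [Finset.sum_congr rfl (g := fun _ => (1 : ℝ)), Finset.sum_const, nsmul_eq_mul, mul_one]
        intro D hD
        simp only [hS, Finset.mem_filter, Finset.mem_Ioc] at hD
        obtain ⟨p, hp, hDp⟩ := hD.1.2.1
        exact wt_one hX3 hcc1 hρ hρ1 hD.1.1.1 hp hDp
      rw [e1]
      refine Finset.sum_le_sum_of_subset_of_nonneg hsub ?_
      intro D hD _
      simp only [FD, DD, Finset.mem_filter, Finset.mem_Ioc] at hD
      exact wt_nonneg (by omega) (by linarith) hρ D (by omega)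
    · have hemp : (S.filter (fun D => D % Qz z = r)) = ∅ := by
        rw [Finset.filter_eq_empty_iff]
        intro D hD hDr
        apply hfr
        simp only [hS, Finset.mem_filter, Finset.mem_Ioc] at hD
        obtain ⟨p, hp, hDp⟩ := hD.2.1
        rw [← hDr]
        exact ⟨AS1h.fundRes z D hD.2.2.1, res_cop hD.1.1 hp hDp hX4⟩
      rw [hemp, Finset.card_empty, Nat.cast_zero]
      split_ifs
      · exact hW
      · exact le_rfl
  rw [hcard]
  push_cast
  refine le_trans (Finset.sum_le_sum hle) ?_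
  rw [← Finset.sum_filter, Finset.sum_const, nsmul_eq_mul]
  have hRC' : ∀ inst : DecidablePred fun r : ℕ =>
      ∀ q ∈ (Finset.Icc 3 z).filter Nat.Prime, ¬ q ∣ r,
      (((@Finset.filter ℕ (fun r : ℕ => ∀ q ∈ (Finset.Icc 3 z).filter Nat.Prime, ¬ q ∣ r) inst
        (Finset.range (Qz z))).card : ℕ) : ℝ) =
      Qz z * ∏ q ∈ (Finset.Icc 3 z).filter Nat.Prime, (1 - (1 : ℝ) / q) := by
    intro inst
    have h5 := hRC z
    convert h5
  refine (le_of_eq (congrArg (fun t : ℝ => t * (ε / C0 * WW z X η ρ)) (hRC' _))).trans ?_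
  show (Qz z : ℝ) * (∏ q ∈ (Finset.Icc 3 z).filter Nat.Prime, (1 - (1 : ℝ) / q)) *
    (ε / C0 * WW z X η ρ) ≤ ε * η * X / Real.log X
  unfold WW
  have e2 : (Qz z : ℝ) * (∏ q ∈ (Finset.Icc 3 z).filter Nat.Prime, (1 - (1 : ℝ) / q)) *
      (ε / C0 * (η * X / Qz z * GG X ρ)) = ε / C0 * (η * X) *
        (GG X ρ * ∏ q ∈ (Finset.Icc 3 z).filter Nat.Prime, (1 - (1 : ℝ) / q)) := by
    field_simp
  rw [e2]
  calc ε / C0 * (η * X) *
        (GG X ρ * ∏ q ∈ (Finset.Icc 3 z).filter Nat.Prime, (1 - (1 : ℝ) / q))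
      ≤ ε / C0 * (η * X) * (C0 / Real.log X) :=
        mul_le_mul_of_nonneg_left hGG (by positivity)
    _ = ε * η * X / Real.log X := by
        field_simp


end A

section B

open Pool.Agent.Y892.UF Pool.Agent.H38R2.CG2.APh

theorem short_semi (hAS : P5_AS0) (hBH : P2_BH) (hRC : P2_RC) (a : ℝ) (ha : 2 < a) (t0 : ℝ)
    (ht0 : 0 < t0) (ε : ℝ) (hε : 0 < ε) : ∃ z : ℕ, 2 ≤ z ∧ ∃ η : ℝ, 0 < η ∧ η ≤ 1 ∧
    ∃ X0 : ℕ, ∀ X ≥ X0, 1 ≤ SR a z X →
    (((Finset.Ioc X ⌊(1 + η) * X⌋₊).filter (fun D => (∃ p ∈ Pool.Agent.Y892.UF.RR a z X, ∃ q : ℕ, q.Prime ∧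
      q % 4 = 3 ∧ D = p * q) ∧ Br a t0 X D)).card : ℝ) ≤ ε * η * X * SR a z X / Real.log X := by
  obtain ⟨hcc0, hcc1⟩ := cc_bd ha
  obtain ⟨C0, hC0, hB⟩ := hBH (cc a / 2) (by linarith) (by linarith)
  have hC0' : (1 : ℝ) ≤ C0 := by exact_mod_cast hC0
  obtain ⟨z0, hz0⟩ := hAS a ha t0 ht0 (C0 * (6 + 2 * C0))
    (Nat.one_le_iff_ne_zero.2 (Nat.mul_ne_zero (by omega) (by omega)))
    (2 * ε / (3 * C0)) (by positivity)
  obtain ⟨z, hz⟩ : ∃ z, z = max (2 * C0) (max 2 z0) := ⟨_, rfl⟩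
  have hz2 : 2 ≤ z := by rw [hz]; exact le_trans (le_max_left _ _) (le_max_right _ _)
  have hzC : 2 * C0 ≤ z := by rw [hz]; exact le_max_left _ _
  have hzz : z0 ≤ z := by rw [hz]; exact le_trans (le_max_right _ _) (le_max_right _ _)
  obtain ⟨η1, hη1, H⟩ := hz0 z hzz
  obtain ⟨XB, hXB⟩ := hB z hz2 a ha
  have hηpos : 0 < min η1 1 := lt_min hη1 one_pos
  refine ⟨z, hz2, min η1 1, hηpos, min_le_right _ _, ?_⟩
  set η := min η1 1 with hη
  have H' : ∀ r : ℕ, ∃ X0 : ℕ, ∀ X ≥ X0, ∀ ρ : ℕ → ℝ,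
      SWt z X (PA a X) (cc a) (C0 * (6 + 2 * C0)) ρ → FundRes z r →
      ∑ D ∈ (FD z r X η).filter (fun D => Br a t0 X D), wt ρ D ≤
        2 * ε / (3 * C0) * WW z X η ρ := by
    intro r
    by_cases hr : FundRes z r
    · obtain ⟨X0, hX0⟩ := H η hηpos (min_le_left _ _) r hr
      exact ⟨X0, fun X hX ρ hρ _ => hX0 X hX ρ hρ⟩
    · exact ⟨0, fun X _ ρ _ hr' => absurd hr' hr⟩
  choose X0 hX0 using H'
  refine ⟨max (max ((Finset.range (Qz z)).sup X0) XB) 17, ?_⟩
  intro X hX hSR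
  have hX1 : (Finset.range (Qz z)).sup X0 ≤ X :=
    (le_max_left _ _).trans ((le_max_left _ _).trans hX)
  have hX2 : XB ≤ X := (le_max_right _ _).trans ((le_max_left _ _).trans hX)
  have hX3 : 17 ≤ X := (le_max_right _ _).trans hX
  obtain ⟨ρ, hρ, hρ1, hGG⟩ := hXB X hX2
  have hX17 : (17 : ℝ) ≤ X := by exact_mod_cast hX3
  have hlog : 0 < Real.log X := Real.log_pos (by linarith)
  have hGpos : 0 ≤ GG X ρ := le_trans (by positivity) hρ.low
  have hR : ∀ p ∈ Pool.Agent.Y892.UF.RR a z X, p.Prime ∧ (p : ℝ) ≤ (X : ℝ) ^ (cc a / 2) := by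
    intro p hp
    simp only [Pool.Agent.Y892.UF.RR, mem_filter] at hp
    exact ⟨hp.2.1, hp.2.2.2.2.2⟩
  have hRz : ∀ p ∈ Pool.Agent.Y892.UF.RR a z X, z < p := by
    intro p hp
    simp only [Pool.Agent.Y892.UF.RR, mem_filter] at hp
    exact hp.2.2.2.1
  have hRP : ∀ p ∈ Pool.Agent.Y892.UF.RR a z X, p ∉ PA a X := by
    intro p hp
    simp only [Pool.Agent.Y892.UF.RR, mem_filter] at hp
    exact hp.2.2.2.2.1
  have hPP : ∀ q ∈ PA a X, q.Prime := by
    intro q hq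
    simp only [PA, PP, mem_filter] at hq
    exact hq.2
  have hR2 : ∀ p ∈ Pool.Agent.Y892.UF.RR a z X, 2 * C0 ≤ p := fun p hp => by
    have := hRz p hp
    omega
  have hSW : SWt z X (PA a X) (cc a) (C0 * (6 + 2 * C0)) (lft (Pool.Agent.Y892.UF.RR a z X) (Real.log X) ρ) := by
    have h1 := swt_lft (by omega) (by linarith) (by linarith) hC0 hz2 hρ hPP hR hR2 hRz hRP hSR
    have e : 2 * (cc a / 2) = cc a := by ring
    rwa [e] at h1
  have hGL := (GG_lft (L := Real.log X) (by omega) (by linarith) (by linarith) hρ hlog hGpos hR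
    hR2).2
  have hsd : SR a z X = ∑ p ∈ Pool.Agent.Y892.UF.RR a z X, 1 / (p : ℝ) := rfl
  rw [← hsd] at hGL
  set S := (Finset.Ioc X ⌊(1 + η) * X⌋₊).filter (fun D =>
    (∃ p ∈ Pool.Agent.Y892.UF.RR a z X, ∃ q : ℕ, q.Prime ∧ q % 4 = 3 ∧ D = p * q) ∧ Br a t0 X D) with hS
  -- the larger prime factor
  have hbig : ∀ p ∈ Pool.Agent.Y892.UF.RR a z X, ∀ q : ℕ, q.Prime → X < p * q →
      (X : ℝ) ^ (cc a / 2) < q ∧ z < q ∧ p ≠ q := by
    intro p hp q hq hXq
    obtain ⟨hpp, hpX⟩ := hR p hp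
    have h1 : (X : ℝ) < (p : ℝ) * q := by exact_mod_cast hXq
    have hq0 : (0 : ℝ) < q := by exact_mod_cast hq.pos
    have h2 : (X : ℝ) ^ (cc a / 2) * (X : ℝ) ^ (cc a / 2) ≤ X := by
      rw [← Real.rpow_add (by linarith)]
      calc (X : ℝ) ^ (cc a / 2 + cc a / 2) ≤ (X : ℝ) ^ (1 : ℝ) :=
            Real.rpow_le_rpow_of_exponent_le (by linarith) (by linarith)
        _ = X := Real.rpow_one _
    have h3 : (X : ℝ) ^ (cc a / 2) < q := by
      by_contra hcon
      push Not at hcon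
      have : (p : ℝ) * q ≤ (X : ℝ) ^ (cc a / 2) * (X : ℝ) ^ (cc a / 2) := by gcongr
      linarith
    have h4 : (p : ℝ) < q := lt_of_le_of_lt hpX h3
    have h5 : p < q := by exact_mod_cast h4
    have := hRz p hp
    exact ⟨h3, by omega, by omega⟩
  have hcard : S.card = ∑ r ∈ Finset.range (Qz z), (S.filter (fun D => D % Qz z = r)).card := by
    apply Finset.card_eq_sum_card_fiberwise
    intro D _
    simp only [Finset.coe_range, Set.mem_Iio]
    exact Nat.mod_lt _ (AS1h.Qz_pos z)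
  have hQ : (0 : ℝ) < Qz z := by exact_mod_cast AS1h.Qz_pos z
  have hGl0 : 0 ≤ GG X (lft (Pool.Agent.Y892.UF.RR a z X) (Real.log X) ρ) := le_trans (by positivity) hSW.low
  have hW : 0 ≤ 2 * ε / (3 * C0) * WW z X η (lft (Pool.Agent.Y892.UF.RR a z X) (Real.log X) ρ) := by
    unfold WW
    positivity
  have hle : ∀ r ∈ Finset.range (Qz z),
      ((S.filter (fun D => D % Qz z = r)).card : ℝ) ≤
        if (∀ q ∈ (Finset.Icc 3 z).filter Nat.Prime, ¬ q ∣ r) then
          Real.log X * (2 * ε / (3 * C0) * WW z X η (lft (Pool.Agent.Y892.UF.RR a z X) (Real.log X) ρ)) else 0 := by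
    intro r hr
    by_cases hfr : FundRes z r ∧ ∀ q ∈ (Finset.Icc 3 z).filter Nat.Prime, ¬ q ∣ r
    · rw [if_pos hfr.2]
      refine le_trans ?_ (mul_le_mul_of_nonneg_left
        (hX0 r X (le_trans (Finset.le_sup hr) hX1) _ hSW hfr.1) hlog.le)
      have hsub : (S.filter (fun D => D % Qz z = r)) ⊆
          ((FD z r X η).filter (fun D => Br a t0 X D)) := by
        intro D hD
        simp only [hS, FD, DD, Finset.mem_filter, Finset.mem_Ioc] at hD ⊢
        obtain ⟨⟨hD1, ⟨p, hp, q, hq, hq4, hDpq⟩, hDb⟩, hDr⟩ := hD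
        refine ⟨⟨⟨hD1, hDr⟩, ?_⟩, hDb⟩
        have hbq := hbig p hp q hq (by rw [← hDpq]; exact hD1.1)
        have hp4 : p % 4 = 3 := by
          simp only [Pool.Agent.Y892.UF.RR, mem_filter] at hp
          exact hp.2.2.1
        rw [hDpq]
        exact isFund_pq (hR p hp).1 hq hbq.2.2 hp4 hq4
      have e1 : ((S.filter (fun D => D % Qz z = r)).card : ℝ) =
          Real.log X * ∑ D ∈ S.filter (fun D => D % Qz z = r),
            wt (lft (Pool.Agent.Y892.UF.RR a z X) (Real.log X) ρ) D := by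
        rw [Finset.mul_sum, Finset.sum_congr rfl (g := fun _ => (1 : ℝ)), Finset.sum_const,
          nsmul_eq_mul, mul_one]
        intro D hD
        simp only [hS, Finset.mem_filter, Finset.mem_Ioc] at hD
        obtain ⟨⟨hD1, ⟨p, hp, q, hq, hq4, hDpq⟩, hDb⟩, hDr⟩ := hD
        have hbq := hbig p hp q hq (by rw [← hDpq]; exact hD1.1)
        rw [hDpq, wt_pq (by omega) hρ hρ1 hR hp hq hbq.1]
        field_simp
      rw [e1]
      refine mul_le_mul_of_nonneg_left ?_ hlog.le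
      refine Finset.sum_le_sum_of_subset_of_nonneg hsub ?_
      intro D hD _
      simp only [FD, DD, Finset.mem_filter, Finset.mem_Ioc] at hD
      exact wt_nonneg (by omega) (by linarith) hSW D (by omega)
    · have hemp : (S.filter (fun D => D % Qz z = r)) = ∅ := by
        rw [Finset.filter_eq_empty_iff]
        intro D hD hDr
        apply hfr
        simp only [hS, Finset.mem_filter, Finset.mem_Ioc] at hD
        obtain ⟨hD1, ⟨p, hp, q, hq, hq4, hDpq⟩, hDb⟩ := hD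
        have hbq := hbig p hp q hq (by rw [← hDpq]; exact hD1.1)
        have hp4 : p % 4 = 3 := by
          simp only [Pool.Agent.Y892.UF.RR, mem_filter] at hp
          exact hp.2.2.1
        rw [← hDr]
        refine ⟨AS1h.fundRes z D (by rw [hDpq]; exact isFund_pq (hR p hp).1 hq hbq.2.2 hp4 hq4),
          ?_⟩
        intro l hl hdvd
        have hlD : l ∣ D := (Nat.dvd_mod_iff (small_dvd_Qz hl)).1 hdvd
        obtain ⟨hl1, hlp⟩ := Finset.mem_filter.1 hl
        obtain ⟨hl3, hlz⟩ := Finset.mem_Icc.1 hl1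
        rw [hDpq] at hlD
        have := hRz p hp
        rcases (Nat.Prime.dvd_mul hlp).1 hlD with h2 | h2
        · have := (Nat.prime_dvd_prime_iff_eq hlp (hR p hp).1).1 h2
          omega
        · have := (Nat.prime_dvd_prime_iff_eq hlp hq).1 h2
          omega
      rw [hemp, Finset.card_empty, Nat.cast_zero]
      split_ifs
      · positivity
      · exact le_rfl
  rw [hcard]
  push_cast
  refine le_trans (Finset.sum_le_sum hle) ?_
  rw [← Finset.sum_filter, Finset.sum_const, nsmul_eq_mul]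
  have hRC' : ∀ inst : DecidablePred fun r : ℕ =>
      ∀ q ∈ (Finset.Icc 3 z).filter Nat.Prime, ¬ q ∣ r,
      (((@Finset.filter ℕ (fun r : ℕ => ∀ q ∈ (Finset.Icc 3 z).filter Nat.Prime, ¬ q ∣ r) inst
        (Finset.range (Qz z))).card : ℕ) : ℝ) =
      Qz z * ∏ q ∈ (Finset.Icc 3 z).filter Nat.Prime, (1 - (1 : ℝ) / q) := by
    intro inst
    have h5 := hRC z
    convert h5
  refine (le_of_eq (congrArg (fun t : ℝ => t * (Real.log X * (2 * ε / (3 * C0) *
    WW z X η (lft (Pool.Agent.Y892.UF.RR a z X) (Real.log X) ρ)))) (hRC' _))).trans ?_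
  show (Qz z : ℝ) * (∏ q ∈ (Finset.Icc 3 z).filter Nat.Prime, (1 - (1 : ℝ) / q)) *
    (Real.log X * (2 * ε / (3 * C0) * WW z X η (lft (Pool.Agent.Y892.UF.RR a z X) (Real.log X) ρ))) ≤
      ε * η * X * SR a z X / Real.log X
  have hprod : 0 ≤ ∏ q ∈ (Finset.Icc 3 z).filter Nat.Prime, (1 - (1 : ℝ) / q) := by
    apply prod_nonneg
    intro q hq
    have hq3 := (Finset.mem_Icc.1 (Finset.mem_filter.1 hq).1).1
    have : (1 : ℝ) ≤ q := by exact_mod_cast (by omega : 1 ≤ q)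
    rw [sub_nonneg, div_le_one (by linarith)]
    exact this
  have hSR0 : 0 ≤ SR a z X := by linarith
  unfold WW
  calc (Qz z : ℝ) * (∏ q ∈ (Finset.Icc 3 z).filter Nat.Prime, (1 - (1 : ℝ) / q)) *
        (Real.log X * (2 * ε / (3 * C0) * (η * X / Qz z *
          GG X (lft (Pool.Agent.Y892.UF.RR a z X) (Real.log X) ρ))))
      ≤ (Qz z : ℝ) * (∏ q ∈ (Finset.Icc 3 z).filter Nat.Prime, (1 - (1 : ℝ) / q)) *
        (Real.log X * (2 * ε / (3 * C0) * (η * X / Qz z *
          (3 / 2 * SR a z X * GG X ρ / Real.log X)))) := by gcongr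
    _ = ε / C0 * (η * X) * SR a z X *
        (GG X ρ * ∏ q ∈ (Finset.Icc 3 z).filter Nat.Prime, (1 - (1 : ℝ) / q)) := by
        field_simp
    _ ≤ ε / C0 * (η * X) * SR a z X * (C0 / Real.log X) :=
        mul_le_mul_of_nonneg_left hGG (by positivity)
    _ = ε * η * X * SR a z X / Real.log X := by
        field_simp


/-- few exceptional discriminants `8 p` in a short interval -/
theorem short_8 (hAS : P5_AS0) (hBH : P2_BH) (hRC : P2_RC) (a : ℝ) (ha : 2 < a) (t0 : ℝ)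
    (ht0 : 0 < t0) (ε : ℝ) (hε : 0 < ε) : ∃ η : ℝ, 0 < η ∧ η ≤ 1 ∧ ∃ X0 : ℕ, ∀ X ≥ X0,
    (((Finset.Ioc X ⌊(1 + η) * X⌋₊).filter (fun D => (∃ p : ℕ, p.Prime ∧ D = 8 * p) ∧
      IsFund D ∧ Br a t0 X D)).card : ℝ) ≤ ε * η * X / Real.log X := by
  obtain ⟨hcc0, hcc1⟩ := cc_bd ha
  obtain ⟨C0, hC0, hB⟩ := hBH (cc a) hcc0 (by linarith)
  have hC0' : (1 : ℝ) ≤ C0 := by exact_mod_cast hC0
  obtain ⟨z0, hz0⟩ := hAS a ha t0 ht0 C0 hC0 (ε / C0) (by positivity)
  set z := max 2 z0 with hz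
  have hz2 : 2 ≤ z := le_max_left _ _
  obtain ⟨η1, hη1, H⟩ := hz0 z (le_max_right _ _)
  obtain ⟨XB, hXB⟩ := hB z hz2 a ha
  have hηpos : 0 < min η1 1 := lt_min hη1 one_pos
  refine ⟨min η1 1, hηpos, min_le_right _ _, ?_⟩
  set η := min η1 1 with hη
  have H' : ∀ r : ℕ, ∃ X0 : ℕ, ∀ X ≥ X0, ∀ ρ : ℕ → ℝ, SWt z X (PA a X) (cc a) C0 ρ →
      FundRes z r →
      ∑ D ∈ (FD z r X η).filter (fun D => Br a t0 X D), wt ρ D ≤ ε / C0 * WW z X η ρ := by
    intro r
    by_cases hr : FundRes z r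
    · obtain ⟨X0, hX0⟩ := H η hηpos (min_le_left _ _) r hr
      exact ⟨X0, fun X hX ρ hρ _ => hX0 X hX ρ hρ⟩
    · exact ⟨0, fun X _ ρ _ hr' => absurd hr' hr⟩
  choose X0 hX0 using H'
  refine ⟨max (max ((Finset.range (Qz z)).sup X0) XB) (max 65 (8 * z)), ?_⟩
  intro X hX
  have hX1 : (Finset.range (Qz z)).sup X0 ≤ X :=
    (le_max_left _ _).trans ((le_max_left _ _).trans hX)
  have hX2 : XB ≤ X := (le_max_right _ _).trans ((le_max_left _ _).trans hX)
  have hX3 : 65 ≤ X := (le_max_left _ _).trans ((le_max_right _ _).trans hX)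
  have hX4 : 8 * z ≤ X := (le_max_right _ _).trans ((le_max_right _ _).trans hX)
  obtain ⟨ρ, hρ, hρ1, hGG⟩ := hXB X hX2
  have hX17 : (65 : ℝ) ≤ X := by exact_mod_cast hX3
  have hlog : 0 < Real.log X := Real.log_pos (by linarith)
  have hGpos : 0 ≤ GG X ρ := le_trans (by positivity) hρ.low
  set S := (Finset.Ioc X ⌊(1 + η) * X⌋₊).filter (fun D =>
    (∃ p : ℕ, p.Prime ∧ D = 8 * p) ∧ IsFund D ∧ Br a t0 X D) with hS
  have hcard : S.card = ∑ r ∈ Finset.range (Qz z), (S.filter (fun D => D % Qz z = r)).card := by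
    apply Finset.card_eq_sum_card_fiberwise
    intro D _
    simp only [Finset.coe_range, Set.mem_Iio]
    exact Nat.mod_lt _ (AS1h.Qz_pos z)
  have hQ : (0 : ℝ) < Qz z := by exact_mod_cast AS1h.Qz_pos z
  have hW : 0 ≤ ε / C0 * WW z X η ρ := by
    unfold WW
    positivity
  have hle : ∀ r ∈ Finset.range (Qz z),
      ((S.filter (fun D => D % Qz z = r)).card : ℝ) ≤
        if (∀ q ∈ (Finset.Icc 3 z).filter Nat.Prime, ¬ q ∣ r) then ε / C0 * WW z X η ρ else 0 := by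
    intro r hr
    by_cases hfr : FundRes z r ∧ ∀ q ∈ (Finset.Icc 3 z).filter Nat.Prime, ¬ q ∣ r
    · rw [if_pos hfr.2]
      refine le_trans ?_ (hX0 r X (le_trans (Finset.le_sup hr) hX1) ρ hρ hfr.1)
      have hsub : (S.filter (fun D => D % Qz z = r)) ⊆
          ((FD z r X η).filter (fun D => Br a t0 X D)) := by
        intro D hD
        simp only [hS, FD, DD, Finset.mem_filter] at hD ⊢
        exact ⟨⟨⟨hD.1.1, hD.2⟩, hD.1.2.2.1⟩, hD.1.2.2.2⟩
      have e1 : ((S.filter (fun D => D % Qz z = r)).card : ℝ) =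
          ∑ D ∈ S.filter (fun D => D % Qz z = r), wt ρ D := by
        rw [Finset.sum_congr rfl (g := fun _ => (1 : ℝ)), Finset.sum_const, nsmul_eq_mul, mul_one]
        intro D hD
        simp only [hS, Finset.mem_filter, Finset.mem_Ioc] at hD
        obtain ⟨p, hp, hDp⟩ := hD.1.2.1
        rw [hDp]
        exact wt_one8 hX3 hcc1 hρ hρ1 (by rw [← hDp]; exact hD.1.1.1) hp
      rw [e1]
      refine Finset.sum_le_sum_of_subset_of_nonneg hsub ?_
      intro D hD _
      simp only [FD, DD, Finset.mem_filter, Finset.mem_Ioc] at hD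
      exact wt_nonneg (by omega) (by linarith) hρ D (by omega)
    · have hemp : (S.filter (fun D => D % Qz z = r)) = ∅ := by
        rw [Finset.filter_eq_empty_iff]
        intro D hD hDr
        apply hfr
        simp only [hS, Finset.mem_filter, Finset.mem_Ioc] at hD
        obtain ⟨p, hp, hDp⟩ := hD.2.1
        rw [← hDr]
        refine ⟨AS1h.fundRes z D hD.2.2.1, ?_⟩
        rw [hDp]
        exact res_cop8 (by rw [← hDp]; exact hD.1.1) hp hX4
      rw [hemp, Finset.card_empty, Nat.cast_zero]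
      split_ifs
      · exact hW
      · exact le_rfl
  rw [hcard]
  push_cast
  refine le_trans (Finset.sum_le_sum hle) ?_
  rw [← Finset.sum_filter, Finset.sum_const, nsmul_eq_mul]
  have hRC' : ∀ inst : DecidablePred fun r : ℕ =>
      ∀ q ∈ (Finset.Icc 3 z).filter Nat.Prime, ¬ q ∣ r,
      (((@Finset.filter ℕ (fun r : ℕ => ∀ q ∈ (Finset.Icc 3 z).filter Nat.Prime, ¬ q ∣ r) inst
        (Finset.range (Qz z))).card : ℕ) : ℝ) =
      Qz z * ∏ q ∈ (Finset.Icc 3 z).filter Nat.Prime, (1 - (1 : ℝ) / q) := by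
    intro inst
    have h5 := hRC z
    convert h5
  refine (le_of_eq (congrArg (fun t : ℝ => t * (ε / C0 * WW z X η ρ)) (hRC' _))).trans ?_
  show (Qz z : ℝ) * (∏ q ∈ (Finset.Icc 3 z).filter Nat.Prime, (1 - (1 : ℝ) / q)) *
    (ε / C0 * WW z X η ρ) ≤ ε * η * X / Real.log X
  unfold WW
  have e2 : (Qz z : ℝ) * (∏ q ∈ (Finset.Icc 3 z).filter Nat.Prime, (1 - (1 : ℝ) / q)) *
      (ε / C0 * (η * X / Qz z * GG X ρ)) = ε / C0 * (η * X) *
        (GG X ρ * ∏ q ∈ (Finset.Icc 3 z).filter Nat.Prime, (1 - (1 : ℝ) / q)) := by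
    field_simp
  rw [e2]
  calc ε / C0 * (η * X) *
        (GG X ρ * ∏ q ∈ (Finset.Icc 3 z).filter Nat.Prime, (1 - (1 : ℝ) / q))
      ≤ ε / C0 * (η * X) * (C0 / Real.log X) :=
        mul_le_mul_of_nonneg_left hGG (by positivity)
    _ = ε * η * X / Real.log X := by
        field_simp

end B

end Pool.Agent.V11318.RD
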