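import Mathlib

/-!
# Restricted order, part 1: density of sums of distinct elements

If every `n ≥ N0` is a sum of at most `h` elements of `A`, then the sums of at most `h` distinct
elements of `A` have positive density at every scale, with a constant that depends only on `h`.
-/

namespace Pool.Agent.V11318.RO

open Finset

/-- every `n ≥ N0` is a sum of at most `h` elements of `A` -/
def IsBasis (A : Set ℕ) (h N0 : ℕ) : Prop :=
  ∀ n ≥ N0, ∃ s : Multiset ℕ, Multiset.card s ≤ h ∧ (∀ x ∈ s, x ∈ A) ∧ s.sum = n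

/-- a representation with the maximal number of distinct elements -/
lemma exists_max (A : Set ℕ) (h n : ℕ)
    (hn : ∃ s : Multiset ℕ, Multiset.card s ≤ h ∧ (∀ x ∈ s, x ∈ A) ∧ s.sum = n) :
    ∃ s : Multiset ℕ, (Multiset.card s ≤ h ∧ (∀ x ∈ s, x ∈ A) ∧ s.sum = n) ∧
      ∀ s' : Multiset ℕ, (Multiset.card s' ≤ h ∧ (∀ x ∈ s', x ∈ A) ∧ s'.sum = n) →
        s'.toFinset.card ≤ s.toFinset.card := by
  classical
  let P : ℕ → Prop := fun l => ∃ s : Multiset ℕ,
    (Multiset.card s ≤ h ∧ (∀ x ∈ s, x ∈ A) ∧ s.sum = n) ∧ s.toFinset.card = l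
  have hP : ∃ l, P l := by
    obtain ⟨s, hs⟩ := hn
    exact ⟨_, s, hs, rfl⟩
  have hbd : ∀ l, P l → l ≤ h := by
    rintro l ⟨s, hs, rfl⟩
    exact (Multiset.toFinset_card_le s).trans hs.1
  obtain ⟨l0, hl0⟩ := hP
  have h1 := Nat.findGreatest_spec (P := P) (hbd l0 hl0) hl0
  obtain ⟨s, hs, hsl⟩ := h1
  refine ⟨s, hs, fun s' hs' => ?_⟩
  rw [hsl]
  exact Nat.le_findGreatest (hbd _ ⟨s', hs', rfl⟩) ⟨s', hs', rfl⟩

lemma density (h : ℕ) (A : Set ℕ) (N0 : ℕ) (hA : IsBasis A h N0) (N : ℕ) (hN : 2 * N0 ≤ N) :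
    ∃ 𝒮 : Finset (Finset ℕ), (∀ T ∈ 𝒮, (↑T : Set ℕ) ⊆ A ∧ T.card ≤ h ∧ T.sum id ≤ N) ∧
      Set.InjOn (fun T : Finset ℕ => T.sum id) 𝒮 ∧
      N ≤ 2 * ((h + 1) ^ h * (h + 1)) * 𝒮.card := by
  classical
  -- choose representations
  have hex : ∀ n : ℕ, ∃ s : Multiset ℕ, N0 ≤ n →
      ((Multiset.card s ≤ h ∧ (∀ x ∈ s, x ∈ A) ∧ s.sum = n) ∧
      ∀ s' : Multiset ℕ, (Multiset.card s' ≤ h ∧ (∀ x ∈ s', x ∈ A) ∧ s'.sum = n) →
        s'.toFinset.card ≤ s.toFinset.card) := by
    intro n
    by_cases hn : N0 ≤ n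
    · obtain ⟨s, hs⟩ := exists_max A h n (hA n hn)
      exact ⟨s, fun _ => hs⟩
    · exact ⟨0, fun h => absurd h hn⟩
  choose s hs using hex
  set T : ℕ → Finset ℕ := fun n => (s n).toFinset with hT
  set w : ℕ → ℕ := fun n => (T n).sum id with hw
  have hTle : ∀ n, (T n).val ≤ s n := by
    intro n
    simp only [hT, Multiset.toFinset_val]
    exact Multiset.dedup_le _
  have hsplit : ∀ n, N0 ≤ n → w n + ((s n) - (T n).val).sum = n := by
    intro n hn
    have h1 : (T n).val + ((s n) - (T n).val) = s n := by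
      rw [add_comm]
      exact tsub_add_cancel_of_le (hTle n)
    have h2 : ((T n).val + ((s n) - (T n).val)).sum = n := by
      rw [h1]; exact (hs n hn).1.2.2
    rw [Multiset.sum_add] at h2
    have h3 : w n = (T n).val.sum := by
      simp only [hw, Finset.sum, Multiset.map_id]
    rw [h3]
    exact h2
  -- the fibres
  have hfib : ∀ b ∈ (Icc N0 N).image (fun n => (w n, (T n).card)),
      ((Icc N0 N).filter (fun n => (w n, (T n).card) = b)).card ≤ (h + 1) ^ h := by
    intro b hb
    rw [mem_image] at hb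
    obtain ⟨n', hn', rfl⟩ := hb
    rw [mem_Icc] at hn'
    set T' := T n' with hT'
    have hsub : (Icc N0 N).filter (fun n => (w n, (T n).card) = (w n', T'.card)) ⊆
        (univ : Finset (T' → Fin (h + 1))).image
          (fun f => w n' + ∑ a : T', (f a : ℕ) * (a : ℕ)) := by
      intro n hn
      rw [mem_filter, mem_Icc, Prod.mk.injEq] at hn
      obtain ⟨⟨hn1, hn2⟩, hwn, hcn⟩ := hn
      obtain ⟨⟨hc, hmem, hsum⟩, hmax⟩ := hs n hn1
      obtain ⟨⟨hc', hmem', hsum'⟩, hmax'⟩ := hs n' hn'.1
      -- the exchanged representation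
      have hcardT : Multiset.card (T n).val = Multiset.card T'.val := hcn
      have hx := hmax (((s n) - (T n).val) + T'.val) ⟨?_, ?_, ?_⟩
      · have hsub1 : T' ⊆ ((s n - (T n).val) + T'.val).toFinset := by
          intro x hx
          rw [Multiset.mem_toFinset, Multiset.mem_add]
          exact Or.inr hx
        have hsub2 : (s n - (T n).val).toFinset ⊆ ((s n - (T n).val) + T'.val).toFinset := by
          intro x hx
          rw [Multiset.mem_toFinset] at hx
          rw [Multiset.mem_toFinset, Multiset.mem_add]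
          exact Or.inl hx
        have heq : T' = ((s n - (T n).val) + T'.val).toFinset := by
          apply Finset.eq_of_subset_of_card_le hsub1
          calc _ ≤ (s n).toFinset.card := hx
            _ = T'.card := hcn
        have hin : ∀ x ∈ s n - (T n).val, x ∈ T' := by
          intro x hx
          rw [heq]
          exact hsub2 (Multiset.mem_toFinset.2 hx)
        rw [mem_image]
        refine ⟨fun a => ⟨(s n - (T n).val).count (a : ℕ), ?_⟩, mem_univ _, ?_⟩
        · have h1 : (s n - (T n).val).count (a : ℕ) ≤ Multiset.card (s n - (T n).val) :=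
            Multiset.count_le_card _ _
          have h2 : Multiset.card (s n - (T n).val) ≤ Multiset.card (s n) :=
            Multiset.card_le_card (Multiset.sub_le_self _ _)
          omega
        · simp only
          have h1 : ∑ a : T', (s n - (T n).val).count (a : ℕ) * (a : ℕ)
              = (s n - (T n).val).sum := by
            rw [Finset.sum_coe_sort T' (fun a => (s n - (T n).val).count a * a)]
            rw [Finset.sum_multiset_count_of_subset (s n - (T n).val) T' ?_]
            · simp only [smul_eq_mul]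
            · intro x hx
              exact hin x (Multiset.mem_toFinset.1 hx)
          rw [h1, ← hwn]
          exact hsplit n hn1
      · rw [Multiset.card_add, Multiset.card_sub (hTle n), hcardT]
        have h3 : Multiset.card (T n).val ≤ Multiset.card (s n) := Multiset.card_le_card (hTle n)
        rw [hcardT] at h3
        omega
      · intro x hx
        rw [Multiset.mem_add] at hx
        rcases hx with hx | hx
        · exact hmem x (Multiset.mem_of_le (Multiset.sub_le_self _ _) hx)
        · exact hmem' x (Multiset.mem_toFinset.1 hx)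
      · rw [Multiset.sum_add]
        have h1 := hsplit n hn1
        have h2 : T'.val.sum = w n' := by
          simp only [hw, Finset.sum, Multiset.map_id]
          rfl
        rw [h2, ← hwn]
        omega
    calc _ ≤ _ := card_le_card hsub
      _ ≤ _ := card_image_le
      _ = (h + 1) ^ T'.card := by
        rw [Finset.card_univ, Fintype.card_fun, Fintype.card_fin, Fintype.card_coe]
      _ ≤ (h + 1) ^ h := by
        apply Nat.pow_le_pow_right (by omega)
        exact (Multiset.toFinset_card_le _).trans (hs n' hn'.1).1.1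
  have hcount := Finset.card_le_mul_card_image (f := fun n => (w n, (T n).card)) (Icc N0 N)
    ((h + 1) ^ h) hfib
  -- the set of values
  set W : Finset ℕ := (Icc N0 N).image w with hW
  have himg : ((Icc N0 N).image (fun n => (w n, (T n).card))).card ≤ W.card * (h + 1) := by
    have : (Icc N0 N).image (fun n => (w n, (T n).card)) ⊆ W ×ˢ range (h + 1) := by
      intro b hb
      rw [mem_image] at hb
      obtain ⟨n, hn, rfl⟩ := hb
      rw [mem_product, mem_range]
      refine ⟨mem_image_of_mem _ hn, ?_⟩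
      have := (Multiset.toFinset_card_le (s n)).trans (hs n (mem_Icc.1 hn).1).1.1
      simp only [hT]
      omega
    calc _ ≤ _ := card_le_card this
      _ = _ := by rw [card_product, card_range]
  have hsel : ∀ v : ℕ, ∃ n : ℕ, v ∈ W → (n ∈ Icc N0 N ∧ w n = v) := by
    intro v
    by_cases hv : v ∈ W
    · obtain ⟨n, hn, hnv⟩ := mem_image.1 hv
      exact ⟨n, fun _ => ⟨hn, hnv⟩⟩
    · exact ⟨0, fun h => absurd h hv⟩
  choose m hm using hsel
  have hinjW : Set.InjOn (fun v => T (m v)) W := by
    intro v hv v' hv' hvv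
    simp only at hvv
    have h1 := (hm v hv).2
    have h2 := (hm v' hv').2
    rw [← h1, ← h2]
    simp only [hw, hvv]
  refine ⟨W.image (fun v => T (m v)), ?_, ?_, ?_⟩
  · intro U hU
    obtain ⟨v, hv, rfl⟩ := mem_image.1 hU
    obtain ⟨h1, h2⟩ := hm v hv
    rw [mem_Icc] at h1
    obtain ⟨⟨hc, hmem, hsum⟩, hmax⟩ := hs (m v) h1.1
    refine ⟨fun x hx => hmem x (Multiset.mem_toFinset.1 hx),
      (Multiset.toFinset_card_le _).trans hc, ?_⟩
    have := hsplit (m v) h1.1
    change w (m v) ≤ N
    omega
  · intro U hU U' hU' hUU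
    rw [coe_image] at hU hU'
    obtain ⟨v, hv, rfl⟩ := hU
    obtain ⟨v', hv', rfl⟩ := hU'
    have h1 : w (m v) = w (m v') := hUU
    rw [(hm v hv).2, (hm v' hv').2] at h1
    rw [h1]
  · rw [card_image_of_injOn hinjW]
    rw [Nat.card_Icc] at hcount
    have h1 : N + 1 - N0 ≤ (h + 1) ^ h * (W.card * (h + 1)) :=
      hcount.trans (Nat.mul_le_mul_left _ himg)
    have h2 : (h + 1) ^ h * (W.card * (h + 1)) = (h + 1) ^ h * (h + 1) * W.card := by ring
    rw [h2] at h1
    have h3 : 2 * ((h + 1) ^ h * (h + 1)) * W.card = 2 * ((h + 1) ^ h * (h + 1) * W.card) := by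
      ring
    rw [h3]
    omega

end Pool.Agent.V11318.RO
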