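import Pool.Agent.V11318.ROMain

/-!
# Restricted order, part 7: the hypothesis on residues
-/

namespace Pool.Agent.V11318.RO

open Finset

/-- replace the elements of a multiset by distinct elements in the same residue classes -/
lemma replace (A : Set ℕ) (q : ℕ) (s : Multiset ℕ)
    (hs : ∀ x ∈ s, {a : ℕ | a ∈ A ∧ a % q = x % q}.Infinite) :
    ∃ Z : Finset ℕ, (↑Z : Set ℕ) ⊆ A ∧ Z.sum id ≡ s.sum [MOD q] := by
  classical
  induction s using Multiset.induction_on with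
  | empty => exact ⟨∅, by simp, by simp [Nat.ModEq]⟩
  | cons x t ih =>
    obtain ⟨Z, hZA, hZ⟩ := ih (fun y hy => hs y (Multiset.mem_cons_of_mem hy))
    obtain ⟨a, ha, haZ⟩ := (hs x (Multiset.mem_cons_self _ _)).exists_notMem_finset Z
    refine ⟨insert a Z, ?_, ?_⟩
    · intro y hy
      rw [mem_coe, mem_insert] at hy
      rcases hy with rfl | hy
      · exact ha.1
      · exact hZA hy
    · rw [sum_insert haZ, Multiset.sum_cons]
      exact Nat.ModEq.add ha.2 hZ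

/-- the residue hypothesis for sets stable under finite deletions -/
lemma residues_of_stable (A : Set ℕ)
    (hA : ∀ F : Finset ℕ, ∃ N : ℕ, ∀ n ≥ N,
        ∃ s : Multiset ℕ, (∀ x ∈ s, x ∈ A ∧ x ∉ F) ∧ s.sum = n) :
    ∀ q ≥ 1, ∀ r : ℕ, ∃ Z : Finset ℕ, (↑Z : Set ℕ) ⊆ A ∧ Z.sum id ≡ r [MOD q] := by
  classical
  intro q hq r
  -- the finite exceptional set
  have hfin : (⋃ c ∈ (range q).filter (fun c => ¬ {a : ℕ | a ∈ A ∧ a % q = c}.Infinite),
      {a : ℕ | a ∈ A ∧ a % q = c}).Finite := by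
    apply Set.Finite.biUnion
    · exact Finset.finite_toSet _
    · intro c hc
      have := (mem_filter.1 (mem_coe.1 hc)).2
      rwa [Set.not_infinite] at this
  obtain ⟨N, hN⟩ := hA hfin.toFinset
  obtain ⟨s, hs, hsum⟩ := hN (q * N + r) (by nlinarith)
  obtain ⟨Z, hZA, hZ⟩ := replace A q s (by
    intro x hx
    by_contra hcon
    apply (hs x hx).2
    rw [Set.Finite.mem_toFinset, Set.mem_iUnion₂]
    refine ⟨x % q, ?_, (hs x hx).1, rfl⟩
    exact mem_filter.2 ⟨mem_range.2 (Nat.mod_lt _ hq), hcon⟩)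
  refine ⟨Z, hZA, hZ.trans ?_⟩
  rw [hsum]
  simp [Nat.ModEq]

theorem stable (A : Set ℕ)
    (hA : ∀ F : Finset ℕ, ∃ k : ℕ, ∃ N : ℕ, ∀ n ≥ N,
        ∃ s : Multiset ℕ, (∀ x ∈ s, x ∈ A ∧ x ∉ F) ∧ Multiset.card s ≤ k ∧ s.sum = n) :
    ∃ t : ℕ, ∃ N1 : ℕ, ∀ n ≥ N1, ∃ U : Finset ℕ, (↑U : Set ℕ) ⊆ A ∧ U.card ≤ t ∧
      U.sum id = n := by
  obtain ⟨h, N0, hb⟩ := hA ∅
  obtain ⟨t, ht⟩ := restricted h
  refine ⟨t, ht A N0 ?_ (residues_of_stable A ?_)⟩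
  · intro n hn
    obtain ⟨s, h1, h2, h3⟩ := hb n hn
    exact ⟨s, h2, fun x hx => (h1 x hx).1, h3⟩
  · intro F
    obtain ⟨k, N, hN⟩ := hA F
    refine ⟨N, fun n hn => ?_⟩
    obtain ⟨s, h1, h2, h3⟩ := hN n hn
    exact ⟨s, h1, h3⟩

end Pool.Agent.V11318.RO
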