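import Pool.Agent.V11318.ROSelect

/-!
# Restricted order, part 5: long progressions of sums with disjoint supports
-/

namespace Pool.Agent.V11318.RO

open Finset

/-- the conclusion of the main proposition -/
def Good (𝒮0 : Finset (Finset ℕ)) (J N Kmax : ℕ) : Prop :=
  ∃ (K : ℕ) (𝒮 : Finset (Finset ℕ)) (q σ : ℕ), 1 ≤ q ∧ q ≤ K ∧ K ≤ Kmax ∧ σ ≤ K * N ∧
    (∀ T ∈ 𝒮, T.card ≤ J) ∧ 𝒮.card ≤ N + 1 ∧ (∀ a, 2 * K * q * deg 𝒮 a ≤ N) ∧
    ∀ F : Finset ℕ, K * meet 𝒮 F ≤ N → ∀ d ≤ N, q ∣ d →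
      ∃ U : Finset ℕ, Disjoint U F ∧ U.card ≤ K ∧ (∀ x ∈ U, ∃ V ∈ 𝒮0, x ∈ V) ∧
        U.sum id = σ + d

lemma Good.mono {𝒮0 𝒮1 : Finset (Finset ℕ)} {J J' N K K' : ℕ} (h : Good 𝒮0 J N K)
    (hS : ∀ V ∈ 𝒮0, ∀ x ∈ V, ∃ W ∈ 𝒮1, x ∈ W) (hJ : J ≤ J') (hK : K ≤ K') :
    Good 𝒮1 J' N K' := by
  obtain ⟨K0, 𝒮, q, σ, h1, h2, h3, h4, h5, h6, h7, h8⟩ := h
  refine ⟨K0, 𝒮, q, σ, h1, h2, h3.trans hK, h4, fun T hT => (h5 T hT).trans hJ, h6, h7, ?_⟩
  intro F hF d hd hqd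
  obtain ⟨U, hU1, hU2, hU3, hU4⟩ := h8 F hF d hd hqd
  refine ⟨U, hU1, hU2, ?_, hU4⟩
  intro x hx
  obtain ⟨V, hV, hxV⟩ := hU3 x hx
  exact hS V hV x hxV

/-- the case without popular elements -/
lemma unpopular (D J : ℕ) (hD : 1 ≤ D) (hJ1 : 1 ≤ J) :
    ∃ K e : ℕ, 1 ≤ e ∧ ∀ N ≥ K, ∀ 𝒮 : Finset (Finset ℕ),
      (∀ T ∈ 𝒮, T.card ≤ J ∧ T.sum id ≤ N) →
      Set.InjOn (fun T : Finset ℕ => T.sum id) 𝒮 → N ≤ D * 𝒮.card →
      (∀ a, e * deg 𝒮 a ≤ N) → Good 𝒮 J N K := by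
  classical
  obtain ⟨D', hD'⟩ : ∃ D', D' = 3 * D ^ 2 := ⟨_, rfl⟩
  obtain ⟨k, hk⟩ : ∃ k, k = 8 * D' := ⟨_, rfl⟩
  have hD'1 : 1 ≤ D' := by rw [hD']; nlinarith
  have hk1 : 1 ≤ k := by omega
  obtain ⟨K, hK⟩ : ∃ K, K = 200 * D' ^ 2 + 8 * J * k + 8 * k + 1 := ⟨_, rfl⟩
  obtain ⟨e, he⟩ : ∃ e, e = 2 * K * k * (1800 * J * D' ^ 2) := ⟨_, rfl⟩
  have hK1 : 1 ≤ K := by omega
  have he1 : 1 ≤ e := by rw [he]; exact Nat.succ_le_of_lt (by positivity)
  refine ⟨K, e, he1, ?_⟩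
  intro N hN 𝒮 h𝒮 hinj hcard hdeg
  have hN1 : 1 ≤ N := hK1.trans hN
  have hkN : k ≤ N := by
    have : k ≤ K := by rw [hK]; nlinarith [Nat.zero_le (8 * J * k)]
    omega
  -- the set of sums
  set E : Finset ℤ := 𝒮.image (fun T => ((T.sum id : ℕ) : ℤ)) with hE
  have hEcard : E.card = 𝒮.card := by
    rw [hE, card_image_of_injOn]
    intro T hT T' hT' h
    apply hinj hT hT'
    exact Nat.cast_injective (R := ℤ) h
  have hEN : ∀ b ∈ E, 0 ≤ b ∧ b ≤ N := by
    intro b hb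
    rw [hE, mem_image] at hb
    obtain ⟨T, hT, rfl⟩ := hb
    exact ⟨by positivity, by exact_mod_cast (h𝒮 T hT).2⟩
  obtain ⟨s, hs0, hs2, hspop⟩ := exists_popular_sum E N hEN
  set B : Finset ℤ := E.filter (fun b => s - b ∈ E) with hBdef
  have hBs : ∀ b ∈ B, s - b ∈ B := by
    intro b hb
    rw [hBdef, mem_filter] at hb ⊢
    refine ⟨hb.2, ?_⟩
    rw [sub_sub_cancel]
    exact hb.1
  have hBN : ∀ b ∈ B, 0 ≤ b ∧ b ≤ N := fun b hb => hEN b (mem_filter.1 hb).1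
  have hBcard : N ≤ D' * B.card := by
    have h1 : N ^ 2 ≤ D ^ 2 * ((2 * N + 1) * B.card) := by
      calc N ^ 2 ≤ (D * 𝒮.card) ^ 2 := Nat.pow_le_pow_left hcard 2
        _ = D ^ 2 * E.card ^ 2 := by rw [hEcard]; ring
        _ ≤ _ := Nat.mul_le_mul_left _ hspop
    have h2 : N * N ≤ N * (D' * B.card) := by
      calc N * N = N ^ 2 := by ring
        _ ≤ D ^ 2 * ((2 * N + 1) * B.card) := h1
        _ ≤ D ^ 2 * ((3 * N) * B.card) := by gcongr; omega
        _ = _ := by rw [hD']; ring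
    exact Nat.le_of_mul_le_mul_left h2 hN1
  have hB1 : 1 ≤ B.card := by
    rcases Nat.eq_zero_or_pos B.card with h | h
    · rw [h] at hBcard; omega
    · exact h
  -- supports
  have hTex : ∀ b : ℤ, ∃ T : Finset ℕ, b ∈ B → (T ∈ 𝒮 ∧ (((T).sum id : ℕ) : ℤ) = b) := by
    intro b
    by_cases hb : b ∈ B
    · have := (mem_filter.1 hb).1
      rw [hE, mem_image] at this
      obtain ⟨T, hT, hTb⟩ := this
      exact ⟨T, fun _ => ⟨hT, hTb⟩⟩
    · exact ⟨∅, fun h => absurd h hb⟩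
  choose T hT using hTex
  -- popular differences
  have hkk : 2 * (3 * N + 1) < (k + 1) * B.card := by
    have : (k + 1) * B.card = 8 * (D' * B.card) + B.card := by rw [hk]; ring
    omega
  set P : ℤ → Prop := fun d => B.card ^ 4 ≤ 2 * (3 * N + 1) * E4 B d with hP
  have hneg : ∀ d, P d → P (-d) := by
    intro d hd
    simp only [hP] at hd ⊢
    rwa [E4_neg]
  have h0 : P 0 := zero_popular B N hBN
  have hind : ∀ x : Fin (k + 1) → ℤ, (∀ i, 0 ≤ x i ∧ x i ≤ N) → ∃ i j, i ≠ j ∧ P (x j - x i) :=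
    fun x hx => exists_popular B N k hBN hkk x hx
  -- the modulus
  obtain ⟨q, hq1, hqk, hqP⟩ : ∃ q : ℕ, 1 ≤ q ∧ q ≤ k ∧ P q := by
    obtain ⟨i, j, hij, hPij⟩ := hind (fun i => ((i : ℕ) : ℤ))
      (fun i => ⟨by positivity, by have := i.2; exact_mod_cast (by omega : (i : ℕ) ≤ N)⟩)
    rcases lt_or_gt_of_ne hij with h | h
    · refine ⟨(j : ℕ) - i, by omega, by have := j.2; omega, ?_⟩
      rw [Nat.cast_sub (by omega)]
      exact hPij
    · refine ⟨(i : ℕ) - j, by omega, by have := i.2; omega, ?_⟩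
      rw [Nat.cast_sub (by omega)]
      have := hneg _ hPij
      rwa [neg_sub] at this
  -- constants
  set Dg := N / e with hDg
  have hDgle : ∀ a, deg 𝒮 a ≤ Dg := by
    intro a
    rw [hDg, Nat.le_div_iff_mul_le he1, mul_comm]
    exact hdeg a
  have heDg : e * Dg ≤ N := Nat.mul_div_le N e
  set Bd := N / K + 8 * J * k * Dg with hBd
  have hKd : K * (N / K) ≤ N := Nat.mul_div_le N K
  have hsmall : 24 * (3 * N + 1) * (Bd + J * Dg) < B.card ^ 2 := by
    have h1 : 200 * D' ^ 2 * (N / K) ≤ N := by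
      refine le_trans (Nat.mul_le_mul_right _ ?_) hKd
      rw [hK]; omega
    have h2 : 200 * D' ^ 2 * ((8 * J * k + J) * Dg) ≤ N := by
      refine le_trans ?_ heDg
      rw [← mul_assoc]
      apply Nat.mul_le_mul_right
      calc 200 * D' ^ 2 * (8 * J * k + J) ≤ 200 * D' ^ 2 * (8 * J * k + J * k) := by
            gcongr
            exact Nat.le_mul_of_pos_right _ hk1
        _ = 1 * 1 * k * (1800 * J * D' ^ 2) := by ring
        _ ≤ 2 * K * k * (1800 * J * D' ^ 2) := by gcongr; omega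
        _ = e := he.symm
    have h3 : 100 * D' ^ 2 * (Bd + J * Dg) ≤ N := by
      have : 200 * D' ^ 2 * (Bd + J * Dg) =
          200 * D' ^ 2 * (N / K) + 200 * D' ^ 2 * ((8 * J * k + J) * Dg) := by
        rw [hBd]; ring
      have h4 : 2 * (100 * D' ^ 2 * (Bd + J * Dg)) ≤ 2 * N := by
        calc _ = 200 * D' ^ 2 * (Bd + J * Dg) := by ring
          _ ≤ _ := by rw [this]; omega
      omega
    have h5 : D' ^ 2 * (24 * (3 * N + 1) * (Bd + J * Dg)) < D' ^ 2 * B.card ^ 2 := by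
      calc D' ^ 2 * (24 * (3 * N + 1) * (Bd + J * Dg))
          ≤ D' ^ 2 * (24 * (4 * N) * (Bd + J * Dg)) := by gcongr; omega
        _ = N * (96 * D' ^ 2 * (Bd + J * Dg)) := by ring
        _ < N * N := by
          apply Nat.mul_lt_mul_of_pos_left _ hN1
          rcases Nat.eq_zero_or_pos (D' ^ 2 * (Bd + J * Dg)) with h | h
          · have : 96 * D' ^ 2 * (Bd + J * Dg) = 96 * (D' ^ 2 * (Bd + J * Dg)) := by ring
            rw [this, h]
            omega
          · have e1 : 96 * D' ^ 2 * (Bd + J * Dg) = 96 * (D' ^ 2 * (Bd + J * Dg)) := by ring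
            have e2 : 100 * D' ^ 2 * (Bd + J * Dg) = 100 * (D' ^ 2 * (Bd + J * Dg)) := by ring
            rw [e1]
            rw [e2] at h3
            omega
        _ ≤ (D' * B.card) * (D' * B.card) := Nat.mul_le_mul hBcard hBcard
        _ = _ := by ring
    exact lt_of_mul_lt_mul_left h5 (Nat.zero_le _)
  have hs_nat : ∃ s' : ℕ, (s' : ℤ) = s := ⟨s.toNat, Int.toNat_of_nonneg hs0⟩
  obtain ⟨s', hs'⟩ := hs_nat
  have hs'2 : s' ≤ 2 * N := by
    have : (s' : ℤ) ≤ ((2 * N : ℕ) : ℤ) := by rw [hs']; push_cast; exact hs2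
    exact_mod_cast this
  refine ⟨K, 𝒮, q, 4 * k * s', hq1, ?_, le_rfl, ?_, fun U hU => (h𝒮 U hU).1, ?_, ?_, ?_⟩
  · refine hqk.trans ?_
    rw [hK]; nlinarith [Nat.zero_le (8 * J * k)]
  · calc 4 * k * s' ≤ 4 * k * (2 * N) := Nat.mul_le_mul_left _ hs'2
      _ = 8 * k * N := by ring
      _ ≤ K * N := by
        apply Nat.mul_le_mul_right
        rw [hK]; omega
  · rw [← hEcard]
    calc E.card ≤ (Icc (0 : ℤ) N).card := by
          apply card_le_card
          intro b hb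
          rw [mem_Icc]
          exact hEN b hb
      _ = N + 1 := by rw [Int.card_Icc]; omega
  · intro a
    calc 2 * K * q * deg 𝒮 a ≤ e * deg 𝒮 a := by
          apply Nat.mul_le_mul_right
          rw [he]
          calc 2 * K * q ≤ 2 * K * k := Nat.mul_le_mul_left _ hqk
            _ = 2 * K * k * 1 := by ring
            _ ≤ _ := Nat.mul_le_mul_left _ (Nat.succ_le_of_lt (by positivity))
      _ ≤ N := hdeg a
  · intro F hF d hd hqd
    obtain ⟨p, hp, hpsum⟩ := path P N k hneg h0 hind q hqP d hqd hd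
    have hmF : meet 𝒮 F ≤ N / K := by
      rw [Nat.le_div_iff_mul_le hK1, mul_comm]
      exact hF
    obtain ⟨U, hU1, hU2, hU3, hU4⟩ := select_many 𝒮 B s T hT hBs N J Dg Bd
      (fun U hU => (h𝒮 U hU).1) hDgle F hsmall p hp (2 * k) (by
        rw [hBd]
        have : 4 * J * (2 * k) * Dg = 8 * J * k * Dg := by ring
        omega)
    refine ⟨U, hU1, ?_, hU3, ?_⟩
    · calc U.card ≤ 4 * J * (2 * k) := hU2
        _ = 8 * J * k := by ring
        _ ≤ K := by rw [hK]; omega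
    · rw [hpsum, ← hs'] at hU4
      have : ((U.sum id : ℕ) : ℤ) = ((4 * k * s' + d : ℕ) : ℤ) := by
        rw [hU4]; push_cast; ring
      exact_mod_cast this

/-- **Main proposition.** -/
theorem main_prop : ∀ (J D : ℕ), ∃ K : ℕ, ∀ N ≥ K, ∀ 𝒮 : Finset (Finset ℕ),
      (∀ T ∈ 𝒮, T.card ≤ J ∧ T.sum id ≤ N) →
      Set.InjOn (fun T : Finset ℕ => T.sum id) 𝒮 → N ≤ D * 𝒮.card → Good 𝒮 J N K := by
  classical
  intro J
  induction J with
  | zero =>
    intro D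
    refine ⟨D + 1, fun N hN 𝒮 h𝒮 hinj hcard => ?_⟩
    exfalso
    have h1 : 𝒮 ⊆ {∅} := by
      intro T hT
      rw [mem_singleton, ← Finset.card_eq_zero]
      have := (h𝒮 T hT).1
      omega
    have h2 : 𝒮.card ≤ 1 := by simpa using card_le_card h1
    have h3 : D * 𝒮.card ≤ D * 1 := Nat.mul_le_mul_left _ h2
    omega
  | succ J ih =>
    intro D
    rcases Nat.eq_zero_or_pos D with rfl | hD
    · refine ⟨1, fun N hN 𝒮 h𝒮 hinj hcard => ?_⟩
      omega
    obtain ⟨K1, e, he, h1⟩ := unpopular D (J + 1) hD (by omega)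
    obtain ⟨K2, h2⟩ := ih e
    refine ⟨max K1 K2, fun N hN 𝒮 h𝒮 hinj hcard => ?_⟩
    by_cases hpop : ∀ a, e * deg 𝒮 a ≤ N
    · exact (h1 N ((le_max_left _ _).trans hN) 𝒮 h𝒮 hinj hcard hpop).mono
        (fun V hV x hx => ⟨V, hV, hx⟩) le_rfl (le_max_left _ _)
    · push Not at hpop
      obtain ⟨a, ha⟩ := hpop
      set 𝒮a := (𝒮.filter (fun T => a ∈ T)).image (fun T => T.erase a) with h𝒮a
      have hcarda : 𝒮a.card = deg 𝒮 a := by
        rw [h𝒮a, card_image_of_injOn]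
        · rfl
        · intro T hT T' hT' hTT
          rw [mem_coe, mem_filter] at hT hT'
          simp only at hTT
          rw [← insert_erase hT.2, ← insert_erase hT'.2, hTT]
      have hsum : ∀ T : Finset ℕ, a ∈ T → (T.erase a).sum id + a = T.sum id := by
        intro T hT
        exact Finset.sum_erase_add _ _ hT
      have h3 := h2 N ((le_max_right _ _).trans hN) 𝒮a ?_ ?_ ?_
      · refine h3.mono ?_ (Nat.le_succ _) (le_max_right _ _)
        intro V hV x hx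
        rw [h𝒮a, mem_image] at hV
        obtain ⟨T, hT, rfl⟩ := hV
        rw [mem_filter] at hT
        exact ⟨T, hT.1, mem_of_mem_erase hx⟩
      · intro V hV
        rw [h𝒮a, mem_image] at hV
        obtain ⟨T, hT, rfl⟩ := hV
        rw [mem_filter] at hT
        have := h𝒮 T hT.1
        rw [card_erase_of_mem hT.2]
        have h4 := hsum T hT.2
        constructor
        · omega
        · omega
      · intro V hV V' hV' hVV
        rw [mem_coe, h𝒮a, mem_image] at hV hV'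
        obtain ⟨T, hT, rfl⟩ := hV
        obtain ⟨T', hT', rfl⟩ := hV'
        rw [mem_filter] at hT hT'
        simp only at hVV
        have h4 := hsum T hT.2
        have h5 := hsum T' hT'.2
        have h6 : T = T' := hinj hT.1 hT'.1 (by simp only; omega)
        rw [h6]
      · rw [hcarda]
        exact ha.le

end Pool.Agent.V11318.RO
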