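import Pool.Agent.V11318.ROMass
import Pool.Agent.V11318.ROProp

/-!
# Restricted order, part 6: the main theorem

Let every large integer be a sum of at most `h` elements of `A`, and suppose that for every `q ≥ 1`
the sums of distinct elements of `A` cover all residue classes modulo `q`. Then every large integer
is a sum of at most `t(h)` distinct elements of `A`.
-/

namespace Pool.Agent.V11318.RO

open Finset

/-- a nonempty zero-sum subset modulo `q` -/
lemma exists_zero_sum (q : ℕ) (hq : 1 ≤ q) (Z : Finset ℕ) (hZ : q ≤ Z.card) :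
    ∃ W : Finset ℕ, W ⊆ Z ∧ W.Nonempty ∧ q ∣ W.sum id := by
  classical
  set l := Z.toList with hl
  have hlen : l.length = Z.card := Finset.length_toList Z
  have hnd : l.Nodup := Finset.nodup_toList Z
  have hmem : ∀ x, x ∈ l ↔ x ∈ Z := fun x => Finset.mem_toList
  obtain ⟨i, hi, j, hj, hne, heq⟩ := Finset.exists_ne_map_eq_of_card_lt_of_maps_to
    (s := range (q + 1)) (t := range q) (f := fun i => (l.take i).sum % q)
    (by rw [card_range, card_range]; omega)
    (fun i _ => by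
      simp only [coe_range, Set.mem_Iio]
      exact Nat.mod_lt _ hq)
  rw [mem_range] at hi hj
  -- order
  have key : ∀ i j : ℕ, i < j → j ≤ q → (l.take i).sum % q = (l.take j).sum % q →
      ∃ W : Finset ℕ, W ⊆ Z ∧ W.Nonempty ∧ q ∣ W.sum id := by
    intro i j hij hjq heq
    have hsplit : (l.take j).take i ++ (l.take j).drop i = l.take j := List.take_append_drop _ _
    have htt : (l.take j).take i = l.take i := by
      rw [List.take_take, min_eq_left hij.le]
    rw [htt] at hsplit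
    have hsum : (l.take i).sum + ((l.take j).drop i).sum = (l.take j).sum := by
      rw [← List.sum_append, hsplit]
    have hnd2 : ((l.take j).drop i).Nodup :=
      (hnd.sublist (List.take_sublist _ _)).sublist (List.drop_sublist _ _)
    refine ⟨((l.take j).drop i).toFinset, ?_, ?_, ?_⟩
    · intro x hx
      rw [List.mem_toFinset] at hx
      exact (hmem x).1 (List.mem_of_mem_take (List.mem_of_mem_drop hx))
    · rw [List.toFinset_nonempty_iff]
      intro h0
      have : ((l.take j).drop i).length = 0 := by rw [h0]; rfl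
      rw [List.length_drop, List.length_take, hlen] at this
      omega
    · rw [List.sum_toFinset id hnd2, List.map_id]
      have h1 : (l.take i).sum ≡ (l.take j).sum [MOD q] := heq
      rw [← hsum] at h1
      have h2 : (l.take i).sum + 0 ≡ (l.take i).sum + ((l.take j).drop i).sum [MOD q] := by
        simpa using h1
      have h3 := Nat.ModEq.add_left_cancel' _ h2
      exact (Nat.modEq_zero_iff_dvd).1 h3.symm
  rcases lt_or_gt_of_ne hne with h | h
  · exact key i j h (by omega) heq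
  · exact key j i h (by omega) heq.symm

lemma small_residue (A : Set ℕ) (q : ℕ) (hq : 1 ≤ q) (r : ℕ) :
    ∀ (m : ℕ) (Z : Finset ℕ), Z.card = m → (↑Z : Set ℕ) ⊆ A → Z.sum id ≡ r [MOD q] →
    ∃ Z' : Finset ℕ, (↑Z' : Set ℕ) ⊆ A ∧ Z'.card ≤ q ∧ Z'.sum id ≡ r [MOD q] := by
  classical
  intro m
  induction m using Nat.strong_induction_on with
  | _ m ih =>
    intro Z hZ hZA hZr
    by_cases hle : Z.card ≤ q
    · exact ⟨Z, hZA, hle, hZr⟩
    · obtain ⟨W, hWZ, hWne, hWq⟩ := exists_zero_sum q hq Z (by omega)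
      have hlt : (Z \ W).card < m := by
        rw [← hZ]
        apply card_lt_card
        rw [ssubset_iff_subset_ne]
        refine ⟨sdiff_subset, fun h => ?_⟩
        obtain ⟨x, hx⟩ := hWne
        have : x ∈ Z \ W := by rw [h]; exact hWZ hx
        exact (mem_sdiff.1 this).2 hx
      apply ih _ hlt (Z \ W) rfl
      · intro x hx
        rw [mem_coe, mem_sdiff] at hx
        exact hZA hx.1
      · have h1 : (Z \ W).sum id + W.sum id = Z.sum id := Finset.sum_sdiff hWZ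
        have h2 : (Z \ W).sum id + W.sum id ≡ (Z \ W).sum id + 0 [MOD q] :=
          Nat.ModEq.add_left _ ((Nat.modEq_zero_iff_dvd).2 hWq)
        rw [h1, add_zero] at h2
        exact h2.symm.trans hZr

/-- greedy choice -/
lemma greedy (b y : ℕ) (X : Finset ℕ) (hX : ∀ x ∈ X, x ≤ b) (hy : y ≤ X.sum id) :
    ∃ F : Finset ℕ, F ⊆ X ∧ F.sum id ≤ y ∧ y ≤ F.sum id + b := by
  classical
  obtain ⟨F, hF, hmax⟩ := Finset.exists_max_image (X.powerset.filter (fun F => F.sum id ≤ y))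
    (fun F => F.sum id) ⟨∅, by simp⟩
  rw [mem_filter, mem_powerset] at hF
  refine ⟨F, hF.1, hF.2, ?_⟩
  by_contra hcon
  push Not at hcon
  have hne : ∃ x ∈ X \ F, 0 < x := by
    by_contra hno
    push Not at hno
    have h1 : (X \ F).sum id = 0 := Finset.sum_eq_zero (fun x hx => by have := hno x hx; simp only [id]; omega)
    have h2 : (X \ F).sum id + F.sum id = X.sum id := Finset.sum_sdiff hF.1
    rw [h1] at h2
    omega
  obtain ⟨x, hx, hx0⟩ := hne
  rw [mem_sdiff] at hx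
  have h1 : (insert x F).sum id = x + F.sum id := sum_insert hx.2
  have h2 := hX x hx.1
  have h3 := hmax (insert x F) (by
    rw [mem_filter, mem_powerset]
    exact ⟨insert_subset hx.1 hF.1, by rw [h1]; omega⟩)
  rw [h1] at h3
  omega

/-- greedy choice of small weight -/
lemma group (w : ℕ → ℕ) (b y : ℕ) : ∀ (g : ℕ) (X : Finset ℕ), (∀ x ∈ X, x ≤ b) →
    (g + 1) * y ≤ X.sum id →
    ∃ F : Finset ℕ, F ⊆ X ∧ F.sum id ≤ y ∧ y ≤ F.sum id + b ∧
      (g + 1) * F.sum w ≤ X.sum w := by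
  classical
  intro g
  induction g with
  | zero =>
    intro X hX hy
    obtain ⟨F, h1, h2, h3⟩ := greedy b y X hX (by omega)
    refine ⟨F, h1, h2, h3, ?_⟩
    rw [zero_add, one_mul]
    exact Finset.sum_le_sum_of_subset h1
  | succ g ih =>
    intro X hX hy
    obtain ⟨F1, h1, h2, h3⟩ := greedy b y X hX (by nlinarith)
    by_cases hw : (g + 1 + 1) * F1.sum w ≤ X.sum w
    · exact ⟨F1, h1, h2, h3, hw⟩
    · have h4 : (X \ F1).sum id + F1.sum id = X.sum id := Finset.sum_sdiff h1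
      have h5 : (X \ F1).sum w + F1.sum w = X.sum w := Finset.sum_sdiff h1
      obtain ⟨F, f1, f2, f3, f4⟩ := ih (X \ F1) (fun x hx => hX x (mem_sdiff.1 hx).1)
        (by nlinarith)
      refine ⟨F, f1.trans sdiff_subset, f2, f3, ?_⟩
      nlinarith

lemma sum_deg_le (𝒮 : Finset (Finset ℕ)) (X : Finset ℕ) (h : ℕ) (hS : ∀ T ∈ 𝒮, T.card ≤ h) :
    X.sum (deg 𝒮) ≤ h * 𝒮.card := by
  classical
  have h1 : X.sum (deg 𝒮) = ∑ a ∈ X, ∑ T ∈ 𝒮, if a ∈ T then 1 else 0 := by
    apply sum_congr rfl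
    intro a _
    rw [deg, card_filter]
  rw [h1, sum_comm]
  calc _ ≤ ∑ T ∈ 𝒮, h := by
        apply sum_le_sum
        intro T hT
        rw [← card_filter]
        refine le_trans (card_le_card ?_) (hS T hT)
        intro a ha
        exact (mem_filter.1 ha).2
    _ = _ := by rw [sum_const, smul_eq_mul, mul_comm]

/-- **Main theorem on restricted orders.** -/
theorem restricted (h : ℕ) : ∃ t : ℕ, ∀ (A : Set ℕ) (N0 : ℕ), IsBasis A h N0 →
    (∀ q ≥ 1, ∀ r : ℕ, ∃ Z : Finset ℕ, (↑Z : Set ℕ) ⊆ A ∧ Z.sum id ≡ r [MOD q]) →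
    ∃ N1 : ℕ, ∀ n ≥ N1, ∃ U : Finset ℕ, (↑U : Set ℕ) ⊆ A ∧ U.card ≤ t ∧ U.sum id = n := by
  classical
  obtain ⟨K', hK'⟩ := main_prop h (2 * ((h + 1) ^ h * (h + 1)))
  obtain ⟨K, hKdef⟩ : ∃ K, K = K' + 1 := ⟨_, rfl⟩
  have hK1 : 1 ≤ K := by omega
  obtain ⟨g, hg⟩ : ∃ g, g = 4 * K * h := ⟨_, rfl⟩
  obtain ⟨M, hM⟩ : ∃ M, M = (g + 1) * (24 * K) := ⟨_, rfl⟩
  obtain ⟨R, hR⟩ : ∃ R, R = thr h M (h + 1) := ⟨_, rfl⟩
  refine ⟨K + 24 * K * R + K, ?_⟩
  intro A N0 hA hres
  obtain ⟨Nm, hmass⟩ := mass h M A N0 hA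
  rw [← hR] at hmass
  -- small sets of elements with prescribed residue
  have hZex : ∀ q r : ℕ, ∃ Z : Finset ℕ, 1 ≤ q →
      ((↑Z : Set ℕ) ⊆ A ∧ Z.card ≤ q ∧ Z.sum id ≡ r [MOD q]) := by
    intro q r
    by_cases hq : 1 ≤ q
    · obtain ⟨Z, hZ1, hZ2⟩ := hres q hq r
      obtain ⟨Z', hZ'⟩ := small_residue A q hq r _ Z rfl hZ1 hZ2
      exact ⟨Z', fun _ => hZ'⟩
    · exact ⟨∅, fun h => absurd h hq⟩
  choose Zf hZf using hZex
  obtain ⟨c, hc⟩ : ∃ c, c = ∑ q ∈ range (K + 1), ∑ r ∈ range q, (Zf q r).sum id := ⟨_, rfl⟩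
  have hcle : ∀ q ≤ K, ∀ r < q, (Zf q r).sum id ≤ c := by
    intro q hq r hr
    rw [hc]
    calc (Zf q r).sum id ≤ ∑ r ∈ range q, (Zf q r).sum id :=
          Finset.single_le_sum (f := fun r => (Zf q r).sum id) (fun _ _ => Nat.zero_le _)
            (mem_range.2 hr)
      _ ≤ _ := Finset.single_le_sum (f := fun q => ∑ r ∈ range q, (Zf q r).sum id)
            (fun _ _ => Nat.zero_le _) (mem_range.2 (by omega))
  -- large n
  obtain ⟨N2, hN2⟩ : ∃ N2, N2 = K' + 2 * N0 + 2 * Nm + 2 * c + 2 * (R * c) + 10 := ⟨_, rfl⟩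
  refine ⟨4 * K * (N2 + 1), fun n hn => ?_⟩
  obtain ⟨N, hN⟩ : ∃ N, N = n / (4 * K) := ⟨_, rfl⟩
  have hNn : 4 * K * N ≤ n := by rw [hN]; exact Nat.mul_div_le n (4 * K)
  have hnN : n < 4 * K * (N + 1) := by
    rw [hN]
    have := Nat.lt_mul_div_succ n (show 0 < 4 * K by omega)
    exact this
  have hNN2 : N2 + 1 ≤ N := by
    rw [hN, Nat.le_div_iff_mul_le (by omega), mul_comm]
    exact hn
  -- the robust progression
  obtain ⟨𝒮0, hS1, hS2, hS3⟩ := density h A N0 hA N (by omega)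
  obtain ⟨K0, 𝒮, q, σ, hq1, hqK, hKK, hσ, hcardS, hcS, hdegS, hprog⟩ :=
    hK' N (by omega) 𝒮0 (fun T hT => (hS1 T hT).2) hS2 hS3
  obtain ⟨N', hN'⟩ : ∃ N', N' = N / 2 := ⟨_, rfl⟩
  have hN'1 : 1 ≤ N' := by omega
  have hmassN := hmass N' (by omega)
  set X := part A R N' with hX
  have hXmem : ∀ x ∈ X, 1 ≤ x ∧ x ≤ N' ∧ x ∈ A ∧ N' ≤ R * x := by
    intro x hx
    rw [hX, part, mem_filter, mem_Icc] at hx
    exact ⟨hx.1.1, hx.1.2, hx.2.1, hx.2.2⟩
  -- the target for the coarse approximation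
  have hσn : σ ≤ K * N := hσ.trans (Nat.mul_le_mul_right _ (by omega))
  have hKN : N ≤ K * N := Nat.le_mul_of_pos_left _ hK1
  obtain ⟨y, hy⟩ : ∃ y, y = n - σ - c := ⟨_, rfl⟩
  have hsumle : σ + c ≤ n := by nlinarith
  have hyn : y + σ + c = n := by omega
  have hyle : y ≤ 24 * K * N' := by
    have h1 : n < 8 * K * N := by nlinarith
    have h2 : N ≤ 3 * N' := by omega
    have h3 : 8 * K * N ≤ 8 * K * (3 * N') := Nat.mul_le_mul_left _ h2
    have h4 : 8 * K * (3 * N') = 24 * K * N' := by ring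
    omega
  have hXsum : X.sum id = ∑ x ∈ X, x := rfl
  obtain ⟨F, hFX, hFy, hyF, hFw⟩ := group (deg 𝒮) N' y g X (fun x hx => (hXmem x hx).2.1) (by
    rw [hXsum]
    calc (g + 1) * y ≤ (g + 1) * (24 * K * N') := Nat.mul_le_mul_left _ hyle
      _ = M * N' := by rw [hM]; ring
      _ ≤ _ := hmassN)
  -- the residue
  obtain ⟨m, hm⟩ : ∃ m, m = n - σ - F.sum id := ⟨_, rfl⟩
  have hmn : m + σ + F.sum id = n := by omega
  have hcm : c ≤ m := by omega
  have hmc : m ≤ c + N' := by omega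
  obtain ⟨hZA, hZc, hZr⟩ := hZf q (m % q) hq1
  set Z := Zf q (m % q) with hZdef
  have hZc' : Z.sum id ≤ c := hcle q (by omega) _ (Nat.mod_lt _ (by omega))
  have hZm : Z.sum id ≡ m [MOD q] := hZr.trans (Nat.mod_modEq m q)
  obtain ⟨d, hd⟩ : ∃ d, d = m - Z.sum id := ⟨_, rfl⟩
  have hqd : q ∣ d := by
    rw [hd]
    exact (Nat.modEq_iff_dvd' (by omega)).1 hZm
  have hdN : d ≤ N := by omega
  -- few members are spoiled
  have hdegF : 2 * K0 * F.sum (deg 𝒮) ≤ N := by
    have h1 : (g + 1) * F.sum (deg 𝒮) ≤ h * (N + 1) :=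
      hFw.trans ((sum_deg_le 𝒮 X h hcardS).trans (Nat.mul_le_mul_left _ hcS))
    have h2 : (g + 1) * (2 * K0 * F.sum (deg 𝒮)) ≤ (g + 1) * N := by
      calc (g + 1) * (2 * K0 * F.sum (deg 𝒮)) = 2 * K0 * ((g + 1) * F.sum (deg 𝒮)) := by ring
        _ ≤ 2 * K0 * (h * (N + 1)) := Nat.mul_le_mul_left _ h1
        _ ≤ 2 * K * (h * (2 * N)) := by
          apply Nat.mul_le_mul
          · omega
          · exact Nat.mul_le_mul_left _ (by omega)
        _ = g * N := by rw [hg]; ring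
        _ ≤ _ := Nat.mul_le_mul_right _ (by omega)
    exact Nat.le_of_mul_le_mul_left h2 (by omega)
  have hdegZ : 2 * K0 * Z.sum (deg 𝒮) ≤ N := by
    have h1 : q * (2 * K0 * Z.sum (deg 𝒮)) ≤ q * N := by
      calc q * (2 * K0 * Z.sum (deg 𝒮)) = ∑ a ∈ Z, 2 * K0 * q * deg 𝒮 a := by
            rw [← mul_sum]; ring
        _ ≤ ∑ a ∈ Z, N := sum_le_sum (fun a _ => hdegS a)
        _ = Z.card * N := by rw [sum_const, smul_eq_mul]
        _ ≤ q * N := Nat.mul_le_mul_right _ hZc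
    exact Nat.le_of_mul_le_mul_left h1 (by omega)
  have hmeet : K0 * meet 𝒮 (F ∪ Z) ≤ N := by
    have h1 : meet 𝒮 (F ∪ Z) ≤ F.sum (deg 𝒮) + Z.sum (deg 𝒮) :=
      (meet_union _ _ _).trans (Nat.add_le_add (meet_le _ _) (meet_le _ _))
    have h2 : 2 * (K0 * meet 𝒮 (F ∪ Z)) ≤ 2 * N := by
      calc 2 * (K0 * meet 𝒮 (F ∪ Z)) = 2 * K0 * meet 𝒮 (F ∪ Z) := by ring
        _ ≤ 2 * K0 * (F.sum (deg 𝒮) + Z.sum (deg 𝒮)) := Nat.mul_le_mul_left _ h1
        _ = 2 * K0 * F.sum (deg 𝒮) + 2 * K0 * Z.sum (deg 𝒮) := by ring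
        _ ≤ _ := by omega
    omega
  obtain ⟨U, hU1, hU2, hU3, hU4⟩ := hprog (F ∪ Z) hmeet d hdN hqd
  rw [disjoint_union_right] at hU1
  have hFZ : Disjoint F Z := by
    rw [disjoint_left]
    intro x hxF hxZ
    have h1 := (hXmem x (hFX hxF)).2.2.2
    have h2 : x ≤ Z.sum id := Finset.single_le_sum (f := id) (fun _ _ => Nat.zero_le _) hxZ
    have h3 : R * x ≤ R * c := Nat.mul_le_mul_left _ (h2.trans hZc')
    omega
  have hFcard : F.card ≤ 24 * K * R := by
    have h1 : F.card * N' ≤ R * F.sum id := by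
      rw [mul_sum, ← smul_eq_mul]
      apply Finset.card_nsmul_le_sum
      intro x hx
      exact (hXmem x (hFX hx)).2.2.2
    have h2 : F.card * N' ≤ (24 * K * R) * N' := by
      calc _ ≤ _ := h1
        _ ≤ R * (24 * K * N') := Nat.mul_le_mul_left _ (hFy.trans hyle)
        _ = _ := by ring
    exact Nat.le_of_mul_le_mul_right h2 hN'1
  refine ⟨U ∪ (F ∪ Z), ?_, ?_, ?_⟩
  · intro x hx
    rw [mem_coe, mem_union, mem_union] at hx
    rcases hx with hx | hx | hx
    · obtain ⟨V, hV, hxV⟩ := hU3 x hx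
      exact (hS1 V hV).1 hxV
    · exact (hXmem x (hFX hx)).2.2.1
    · exact hZA hx
  · calc _ ≤ U.card + (F ∪ Z).card := card_union_le _ _
      _ ≤ U.card + (F.card + Z.card) := Nat.add_le_add_left (card_union_le _ _) _
      _ ≤ K + 24 * K * R + K := by omega
  · have e1 : (U ∪ (F ∪ Z)).sum id = U.sum id + (F ∪ Z).sum id :=
      sum_union (disjoint_union_right.2 hU1)
    have e2 : (F ∪ Z).sum id = F.sum id + Z.sum id := sum_union hFZ
    omega

end Pool.Agent.V11318.RO
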