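import Pool.Agent.V11318.RODensity

/-!
# Restricted order, part 2: the mass of a basis at bounded scales

If every `n ≥ N0` is a sum of at most `h` elements of `A`, then for every `M` there is `R`
(depending on `h` and `M` only) such that the elements of `A` in `[N / R, N]` have sum at least
`M N`, for all large `N`.
-/

namespace Pool.Agent.V11318.RO

open Finset

/-- sums of at most `k` elements of `X` -/
def ssum (X : Finset ℕ) : ℕ → Finset ℕ
  | 0 => {0}
  | k + 1 => ssum X k ∪ (X ×ˢ ssum X k).image (fun p => p.1 + p.2)

lemma ssum_card (X : Finset ℕ) : ∀ k, (ssum X k).card ≤ (X.card + 1) ^ k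
  | 0 => by simp [ssum]
  | k + 1 => by
    have h1 := ssum_card X k
    calc (ssum X (k + 1)).card ≤ (ssum X k).card +
          ((X ×ˢ ssum X k).image (fun p => p.1 + p.2)).card := card_union_le _ _
      _ ≤ (ssum X k).card + X.card * (ssum X k).card := by
        gcongr
        exact card_image_le.trans (card_product _ _).le
      _ = (X.card + 1) * (ssum X k).card := by ring
      _ ≤ (X.card + 1) * (X.card + 1) ^ k := by gcongr
      _ = (X.card + 1) ^ (k + 1) := by ring

lemma mem_ssum (X : Finset ℕ) : ∀ (k : ℕ) (s : Multiset ℕ), Multiset.card s ≤ k →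
    (∀ x ∈ s, x ∈ X) → s.sum ∈ ssum X k
  | 0, s, hs, _ => by
    have : s = 0 := Multiset.card_eq_zero.1 (by omega)
    subst this
    simp [ssum]
  | k + 1, s, hs, hX => by
    induction s using Multiset.induction_on with
    | empty =>
      have := mem_ssum X k 0 (by simp) (by simp)
      rw [ssum, mem_union]
      exact Or.inl this
    | cons a t _ =>
      rw [ssum, mem_union, mem_image]
      right
      refine ⟨(a, t.sum), ?_, by simp⟩
      rw [mem_product]
      refine ⟨hX a (Multiset.mem_cons_self _ _), mem_ssum X k t ?_ ?_⟩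
      · rw [Multiset.card_cons] at hs
        omega
      · intro x hx
        exact hX x (Multiset.mem_cons_of_mem hx)

lemma sum_mul_le (c N : ℕ) (s : Multiset ℕ) (hs : ∀ x ∈ s, x * c ≤ N) :
    s.sum * c ≤ Multiset.card s * N := by
  induction s using Multiset.induction_on with
  | empty => simp
  | cons a t ih =>
    rw [Multiset.sum_cons, Multiset.card_cons, add_mul, add_mul, one_mul]
    have h1 := hs a (Multiset.mem_cons_self _ _)
    have h2 := ih (fun x hx => hs x (Multiset.mem_cons_of_mem hx))
    omega

/-- the thresholds -/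
def thr (h M : ℕ) : ℕ → ℕ
  | 0 => 1
  | i + 1 => thr h M i + 4 * (h + 1) * h * (M * thr h M i + 1) ^ h

lemma thr_pos (h M : ℕ) : ∀ i, 1 ≤ thr h M i
  | 0 => le_rfl
  | i + 1 => (thr_pos h M i).trans (Nat.le_add_right _ _)

lemma thr_mono (h M : ℕ) : Monotone (thr h M) :=
  monotone_nat_of_le_succ fun _ => Nat.le_add_right _ _

open Classical in
/-- the elements of `A` in `[N / R, N]` -/
noncomputable def part (A : Set ℕ) (R N : ℕ) : Finset ℕ :=
  (Icc 1 N).filter (fun x => x ∈ A ∧ N ≤ R * x)

lemma mass (h M : ℕ) (A : Set ℕ) (N0 : ℕ) (hA : IsBasis A h N0) :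
    ∃ N1 : ℕ, ∀ N ≥ N1, M * N ≤ ∑ x ∈ part A (thr h M (h + 1)) N, x := by
  classical
  set C : ℕ := ∑ i ∈ range (h + 1), (M * thr h M i + 1) ^ h with hC
  refine ⟨2 * (N0 + C) + 2, fun N hN => ?_⟩
  by_contra hcon
  rw [not_le] at hcon
  have hNpos : 0 < N := by omega
  -- few elements above each threshold
  have hfew : ∀ i ≤ h + 1, (part A (thr h M i) N).card ≤ M * thr h M i := by
    intro i hi
    have h1 : part A (thr h M i) N ⊆ part A (thr h M (h + 1)) N := by
      intro x hx
      rw [part, mem_filter] at hx ⊢
      refine ⟨hx.1, hx.2.1, hx.2.2.trans ?_⟩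
      exact Nat.mul_le_mul_right _ (thr_mono h M hi)
    have h2 : ∑ x ∈ part A (thr h M i) N, x ≤ M * N :=
      (sum_le_sum_of_subset h1).trans hcon.le
    have h3 : (part A (thr h M i) N).card * N ≤ thr h M i * ∑ x ∈ part A (thr h M i) N, x := by
      rw [mul_sum, ← smul_eq_mul]
      apply Finset.card_nsmul_le_sum
      intro x hx
      rw [part, mem_filter] at hx
      exact hx.2.2
    have h4 : (part A (thr h M i) N).card * N ≤ (M * thr h M i) * N := by
      calc _ ≤ _ := h3
        _ ≤ thr h M i * (M * N) := Nat.mul_le_mul_left _ h2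
        _ = _ := by ring
    exact Nat.le_of_mul_le_mul_right h4 hNpos
  -- every n is covered
  have hcov : Icc N0 N ⊆ (range (h + 1)).biUnion (fun i =>
      ((ssum (part A (thr h M i) N) h) ×ˢ (range (h * N / thr h M (i + 1) + 1))).image
        (fun p => p.1 + p.2)) := by
    intro n hn
    rw [mem_Icc] at hn
    obtain ⟨s, hs, hsA, hsum⟩ := hA n hn.1
    -- pigeonhole
    have hpig : ∃ i ∈ range (h + 1), ∀ x ∈ s, ¬ (thr h M i * x < N ∧ N ≤ thr h M (i + 1) * x) := by
      by_contra hno
      push Not at hno
      choose! f hf using hno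
      have hinj : Set.InjOn f (range (h + 1)) := by
        intro i hi j hj hij
        have h1 := (hf i hi).2
        have h2 := (hf j hj).2
        rw [← hij] at h2
        by_contra hne
        rcases Nat.lt_or_gt_of_ne hne with hlt | hlt
        · have h3 : thr h M (i + 1) * f i ≤ thr h M j * f i :=
            Nat.mul_le_mul_right _ (thr_mono h M hlt)
          omega
        · have h3 : thr h M (j + 1) * f i ≤ thr h M i * f i :=
            Nat.mul_le_mul_right _ (thr_mono h M hlt)
          omega
      have h1 : (range (h + 1)).card ≤ s.toFinset.card :=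
        Finset.card_le_card_of_injOn f (fun i hi => Multiset.mem_toFinset.2 (hf i hi).1) hinj
      rw [card_range] at h1
      have h2 := Multiset.toFinset_card_le s
      omega
    obtain ⟨i, hi, hgap⟩ := hpig
    rw [mem_biUnion]
    refine ⟨i, hi, ?_⟩
    rw [mem_image]
    set big := s.filter (fun x => N ≤ thr h M i * x) with hbig
    set small := s.filter (fun x => ¬ N ≤ thr h M i * x) with hsmall
    have hadd : big + small = s := Multiset.filter_add_not _ _
    refine ⟨(big.sum, small.sum), ?_, ?_⟩
    · rw [mem_product]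
      constructor
      · apply mem_ssum
        · exact (Multiset.card_le_card (Multiset.filter_le _ _)).trans hs
        · intro x hx
          rw [hbig, Multiset.mem_filter] at hx
          rw [part, mem_filter, mem_Icc]
          refine ⟨⟨?_, ?_⟩, hsA x hx.1, hx.2⟩
          · by_contra h0
            have : x = 0 := by omega
            rw [this] at hx
            omega
          · have := Multiset.single_le_sum (fun _ _ => Nat.zero_le _) x hx.1
            omega
      · rw [mem_range, Nat.lt_succ_iff, Nat.le_div_iff_mul_le (thr_pos h M _)]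
        have h1 : ∀ x ∈ small, x * thr h M (i + 1) ≤ N := by
          intro x hx
          rw [hsmall, Multiset.mem_filter, not_le] at hx
          have h2 := hgap x hx.1
          push Not at h2
          have := h2 hx.2
          rw [mul_comm]
          omega
        have h2 : small.sum * thr h M (i + 1) ≤ Multiset.card small * N :=
          sum_mul_le _ _ _ h1
        have h3 : Multiset.card small ≤ h :=
          (Multiset.card_le_card (Multiset.filter_le _ _)).trans hs
        exact h2.trans (Nat.mul_le_mul_right _ h3)
    · simp only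
      rw [← Multiset.sum_add, hadd, hsum]
  have hcard : N + 1 - N0 ≤ ∑ i ∈ range (h + 1),
      (M * thr h M i + 1) ^ h * (h * N / thr h M (i + 1) + 1) := by
    rw [← Nat.card_Icc]
    calc _ ≤ _ := card_le_card hcov
      _ ≤ _ := card_biUnion_le
      _ ≤ _ := by
        apply sum_le_sum
        intro i hi
        rw [mem_range] at hi
        calc _ ≤ _ := card_image_le
          _ = _ := card_product _ _
          _ ≤ _ := by
            rw [card_range]
            apply Nat.mul_le_mul_right
            calc _ ≤ _ := ssum_card _ _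
              _ ≤ _ := Nat.pow_le_pow_left (by have := hfew i (by omega); omega) _
  have hterm : ∀ i ∈ range (h + 1), 4 * (h + 1) * ((M * thr h M i + 1) ^ h *
      (h * N / thr h M (i + 1) + 1)) ≤ N + 4 * (h + 1) * (M * thr h M i + 1) ^ h := by
    intro i _
    have h1 : 4 * (h + 1) * ((M * thr h M i + 1) ^ h * (h * N / thr h M (i + 1))) ≤ N := by
      rcases Nat.eq_zero_or_pos h with rfl | hpos
      · simp
      · have h2 : 4 * (h + 1) * h * (M * thr h M i + 1) ^ h ≤ thr h M (i + 1) := by
          rw [thr]; exact Nat.le_add_left _ _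
        have h3 : h * N / thr h M (i + 1) * thr h M (i + 1) ≤ h * N := Nat.div_mul_le_self _ _
        have h4 : h * (4 * (h + 1) * ((M * thr h M i + 1) ^ h * (h * N / thr h M (i + 1))))
            ≤ h * N := by
          calc _ = h * N / thr h M (i + 1) * (4 * (h + 1) * h * (M * thr h M i + 1) ^ h) := by ring
            _ ≤ h * N / thr h M (i + 1) * thr h M (i + 1) := Nat.mul_le_mul_left _ h2
            _ ≤ _ := h3
        exact Nat.le_of_mul_le_mul_left h4 hpos
    calc _ = 4 * (h + 1) * ((M * thr h M i + 1) ^ h * (h * N / thr h M (i + 1)))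
        + 4 * (h + 1) * (M * thr h M i + 1) ^ h := by ring
      _ ≤ _ := by omega
  have htot : 4 * (h + 1) * (N + 1 - N0) ≤ (h + 1) * N + 4 * (h + 1) * C := by
    calc _ ≤ 4 * (h + 1) * ∑ i ∈ range (h + 1),
          (M * thr h M i + 1) ^ h * (h * N / thr h M (i + 1) + 1) := Nat.mul_le_mul_left _ hcard
      _ = ∑ i ∈ range (h + 1), 4 * (h + 1) * ((M * thr h M i + 1) ^ h *
          (h * N / thr h M (i + 1) + 1)) := by rw [mul_sum]
      _ ≤ ∑ i ∈ range (h + 1), (N + 4 * (h + 1) * (M * thr h M i + 1) ^ h) := sum_le_sum hterm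
      _ = _ := by
        rw [sum_add_distrib, sum_const, card_range, smul_eq_mul, ← mul_sum, hC]
  have h5 : (h + 1) * (4 * (N + 1 - N0)) ≤ (h + 1) * (N + 4 * C) := by
    calc _ = 4 * (h + 1) * (N + 1 - N0) := by ring
      _ ≤ _ := htot
      _ = _ := by ring
  have h6 := Nat.le_of_mul_le_mul_left h5 (by omega)
  omega

end Pool.Agent.V11318.RO
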