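import Mathlib

/-!
# Restricted order, part 3: popular differences
-/

namespace Pool.Agent.V11318.RO

open Finset

/-- number of quadruples with `b₁ + b₂ = b₃ + b₄ + d` -/
def E4 (B : Finset ℤ) (d : ℤ) : ℕ :=
  (((B ×ˢ B) ×ˢ (B ×ˢ B)).filter (fun p => p.1.1 + p.1.2 = p.2.1 + p.2.2 + d)).card

lemma E4_neg (B : Finset ℤ) (d : ℤ) : E4 B (-d) = E4 B d := by
  unfold E4
  apply Finset.card_bij (fun p _ => (p.2, p.1))
  · intro p hp
    simp only [mem_filter, mem_product] at hp ⊢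
    refine ⟨⟨hp.1.2, hp.1.1⟩, ?_⟩
    linarith [hp.2]
  · intro p _ q _ hpq
    simp only [Prod.mk.injEq] at hpq
    exact Prod.ext hpq.2 hpq.1
  · intro p hp
    simp only [mem_filter, mem_product] at hp
    refine ⟨(p.2, p.1), ?_, rfl⟩
    simp only [mem_filter, mem_product]
    refine ⟨⟨hp.1.2, hp.1.1⟩, ?_⟩
    linarith [hp.2]

/-- the number of pairs with `b + b' + x = z` -/
def fib (B : Finset ℤ) (x z : ℤ) : ℕ := ((B ×ˢ B).filter (fun p => p.1 + p.2 + x = z)).card

lemma fib_le (B : Finset ℤ) (x z : ℤ) : fib B x z ≤ B.card := by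
  unfold fib
  apply Finset.card_le_card_of_injOn (fun p => p.1)
  · intro p hp
    simp only [coe_filter, mem_product, Set.mem_ofPred_eq] at hp
    exact hp.1.1
  · intro p hp q hq hpq
    simp only [coe_filter, mem_product, Set.mem_ofPred_eq] at hp hq hpq
    apply Prod.ext hpq
    have h1 := hp.2
    have h2 := hq.2
    linarith

lemma sum_fib (B : Finset ℤ) (N : ℕ) (hB : ∀ b ∈ B, 0 ≤ b ∧ b ≤ N) (x : ℤ)
    (hx : 0 ≤ x ∧ x ≤ N) : ∑ z ∈ Icc (0 : ℤ) (3 * N), fib B x z = B.card ^ 2 := by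
  unfold fib
  rw [← Finset.card_eq_sum_card_fiberwise (f := fun p : ℤ × ℤ => p.1 + p.2 + x)
    (s := B ×ˢ B) (t := Icc (0 : ℤ) (3 * N))]
  · rw [card_product, sq]
  · intro p hp
    rw [mem_coe, mem_product] at hp
    have h1 := hB _ hp.1
    have h2 := hB _ hp.2
    simp only [coe_Icc, Set.mem_Icc]
    constructor <;> linarith [h1.1, h1.2, h2.1, h2.2, hx.1, hx.2]

lemma sum_fib_mul (B : Finset ℤ) (N : ℕ) (x y : ℤ) :
    ∑ z ∈ Icc (0 : ℤ) (3 * N), fib B x z * fib B y z ≤ E4 B (y - x) := by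
  have h1 : ∀ z ∈ Icc (0 : ℤ) (3 * N), fib B x z * fib B y z =
      (((B ×ˢ B) ×ˢ (B ×ˢ B)).filter
        (fun p => p.1.1 + p.1.2 + x = z ∧ p.2.1 + p.2.2 + y = z)).card := by
    intro z _
    unfold fib
    rw [← card_product, ← Finset.filter_product]
  rw [sum_congr rfl h1, ← card_biUnion]
  · unfold E4
    apply card_le_card
    intro p hp
    rw [mem_biUnion] at hp
    obtain ⟨z, _, hp⟩ := hp
    rw [mem_filter] at hp ⊢
    refine ⟨hp.1, ?_⟩
    linarith [hp.2.1, hp.2.2]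
  · intro z _ z' _ hzz
    rw [Function.onFun, disjoint_left]
    intro p hp hp'
    rw [mem_filter] at hp hp'
    exact hzz (by rw [← hp.2.1, ← hp'.2.1])

/-- among any `k + 1` integers in `[0, N]` two have a popular difference -/
lemma exists_popular (B : Finset ℤ) (N k : ℕ) (hB : ∀ b ∈ B, 0 ≤ b ∧ b ≤ N)
    (hk : 2 * (3 * N + 1) < (k + 1) * B.card) (x : Fin (k + 1) → ℤ)
    (hx : ∀ i, 0 ≤ x i ∧ x i ≤ N) :
    ∃ i j, i ≠ j ∧ B.card ^ 4 ≤ 2 * (3 * N + 1) * E4 B (x j - x i) := by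
  classical
  by_contra hcon
  push Not at hcon
  have hm : 0 < B.card := by
    rcases Nat.eq_zero_or_pos B.card with h | h
    · rw [h] at hk; omega
    · exact h
  set μ := B.card with hμ
  set Z := Icc (0 : ℤ) (3 * N) with hZ
  have hZc : Z.card = 3 * N + 1 := by
    rw [hZ, Int.card_Icc]
    omega
  set G : Fin (k + 1) → Fin (k + 1) → ℕ := fun i j => ∑ z ∈ Z, fib B (x i) z * fib B (x j) z
    with hG
  have h1 : (∑ z ∈ Z, ∑ i, fib B (x i) z) = (k + 1) * μ ^ 2 := by
    rw [sum_comm]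
    rw [sum_congr rfl (fun i _ => sum_fib B N hB (x i) (hx i))]
    rw [sum_const, card_univ, Fintype.card_fin, smul_eq_mul]
  have h2 : (∑ z ∈ Z, ∑ i, fib B (x i) z) ^ 2 ≤ Z.card * ∑ z ∈ Z, (∑ i, fib B (x i) z) ^ 2 :=
    sq_sum_le_card_mul_sum_sq
  have h3 : ∑ z ∈ Z, (∑ i, fib B (x i) z) ^ 2 = ∑ i, ∑ j, G i j := by
    simp only [sq, Finset.sum_mul_sum, hG]
    rw [sum_comm]
    apply sum_congr rfl
    intro i _
    rw [sum_comm]
  have hdiag : ∀ i, G i i ≤ μ ^ 3 := by
    intro i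
    calc G i i = ∑ z ∈ Z, fib B (x i) z * fib B (x i) z := rfl
      _ ≤ ∑ z ∈ Z, μ * fib B (x i) z := by
        apply sum_le_sum
        intro z _
        exact Nat.mul_le_mul_right _ (fib_le B _ _)
      _ = μ * ∑ z ∈ Z, fib B (x i) z := by rw [mul_sum]
      _ = μ ^ 3 := by rw [sum_fib B N hB (x i) (hx i)]; ring
  have hoff : ∀ i j, i ≠ j → 2 * (3 * N + 1) * G i j ≤ μ ^ 4 := by
    intro i j hij
    calc _ ≤ 2 * (3 * N + 1) * E4 B (x j - x i) := Nat.mul_le_mul_left _ (sum_fib_mul B N _ _)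
      _ ≤ _ := (hcon i j hij).le
  have h4 : 2 * (3 * N + 1) * ∑ i, ∑ j, G i j ≤
      (k + 1) * (2 * (3 * N + 1) * μ ^ 3) + (k + 1) * ((k + 1) * μ ^ 4) := by
    rw [mul_sum]
    have h5 : ∀ i ∈ (univ : Finset (Fin (k + 1))), 2 * (3 * N + 1) * ∑ j, G i j ≤
        2 * (3 * N + 1) * μ ^ 3 + (k + 1) * μ ^ 4 := by
      intro i _
      rw [← Finset.add_sum_erase _ _ (mem_univ i), mul_add]
      apply Nat.add_le_add
      · exact Nat.mul_le_mul_left _ (hdiag i)
      · rw [mul_sum]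
        calc _ ≤ ∑ j ∈ univ.erase i, μ ^ 4 := by
              apply sum_le_sum
              intro j hj
              exact hoff i j (ne_of_mem_erase hj).symm
          _ = (univ.erase i).card * μ ^ 4 := by rw [sum_const, smul_eq_mul]
          _ ≤ _ := by
            apply Nat.mul_le_mul_right
            calc _ ≤ (univ : Finset (Fin (k + 1))).card := card_le_card (erase_subset _ _)
              _ = k + 1 := by rw [card_univ, Fintype.card_fin]
    calc _ ≤ ∑ i : Fin (k + 1), (2 * (3 * N + 1) * μ ^ 3 + (k + 1) * μ ^ 4) := sum_le_sum h5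
      _ = _ := by
        rw [sum_const, card_univ, Fintype.card_fin, smul_eq_mul]
        ring
  rw [h1, hZc, h3] at h2
  -- 2 (k+1)^2 μ^4 ≤ ...
  have h6 : 2 * ((k + 1) * μ ^ 2) ^ 2 ≤
      (k + 1) * (2 * (3 * N + 1) * μ ^ 3) + (k + 1) * ((k + 1) * μ ^ 4) := by
    calc _ ≤ 2 * ((3 * N + 1) * ∑ i, ∑ j, G i j) := Nat.mul_le_mul_left _ h2
      _ = 2 * (3 * N + 1) * ∑ i, ∑ j, G i j := by ring
      _ ≤ _ := h4
  have h7 : (k + 1) * μ ^ 3 * ((k + 1) * μ) ≤ (k + 1) * μ ^ 3 * (2 * (3 * N + 1)) := by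
    nlinarith [h6]
  have h8 := Nat.le_of_mul_le_mul_left h7 (by positivity)
  omega

/-- `0` is popular -/
lemma zero_popular (B : Finset ℤ) (N : ℕ) (hB : ∀ b ∈ B, 0 ≤ b ∧ b ≤ N) :
    B.card ^ 4 ≤ 2 * (3 * N + 1) * E4 B 0 := by
  set Z := Icc (0 : ℤ) (3 * N) with hZ
  have hZc : Z.card = 3 * N + 1 := by
    rw [hZ, Int.card_Icc]
    omega
  have h2 : (∑ z ∈ Z, fib B 0 z) ^ 2 ≤ Z.card * ∑ z ∈ Z, (fib B 0 z) ^ 2 :=
    sq_sum_le_card_mul_sum_sq
  rw [sum_fib B N hB 0 ⟨le_rfl, by positivity⟩, hZc] at h2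
  have h3 : ∑ z ∈ Z, (fib B 0 z) ^ 2 ≤ E4 B 0 := by
    have := sum_fib_mul B N 0 0
    rw [sub_zero] at this
    simpa only [sq] using this
  calc B.card ^ 4 = (B.card ^ 2) ^ 2 := by ring
    _ ≤ (3 * N + 1) * ∑ z ∈ Z, (fib B 0 z) ^ 2 := h2
    _ ≤ (3 * N + 1) * E4 B 0 := Nat.mul_le_mul_left _ h3
    _ ≤ 2 * (3 * N + 1) * E4 B 0 := by nlinarith [Nat.zero_le ((3 * N + 1) * E4 B 0)]

/-- there is a popular sum -/
lemma exists_popular_sum (E : Finset ℤ) (N : ℕ) (hE : ∀ b ∈ E, 0 ≤ b ∧ b ≤ N) :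
    ∃ s : ℤ, 0 ≤ s ∧ s ≤ 2 * N ∧
      E.card ^ 2 ≤ (2 * N + 1) * (E.filter (fun b => s - b ∈ E)).card := by
  classical
  by_contra hcon
  push Not at hcon
  have h1 : (E ×ˢ E).card = ∑ s ∈ Icc (0 : ℤ) (2 * N),
      ((E ×ˢ E).filter (fun p => p.1 + p.2 = s)).card := by
    apply Finset.card_eq_sum_card_fiberwise
    intro p hp
    rw [mem_coe, mem_product] at hp
    have h1 := hE _ hp.1
    have h2 := hE _ hp.2
    simp only [coe_Icc, Set.mem_Icc]
    constructor <;> linarith [h1.1, h1.2, h2.1, h2.2]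
  have h2 : ∀ s ∈ Icc (0 : ℤ) (2 * N), (2 * N + 1) *
      ((E ×ˢ E).filter (fun p => p.1 + p.2 = s)).card < E.card ^ 2 := by
    intro s hs
    rw [mem_Icc] at hs
    refine lt_of_le_of_lt ?_ (hcon s hs.1 hs.2)
    apply Nat.mul_le_mul_left
    apply Finset.card_le_card_of_injOn (fun p => p.1)
    · intro p hp
      simp only [coe_filter, mem_product, Set.mem_ofPred_eq] at hp ⊢
      refine ⟨hp.1.1, ?_⟩
      have : s - p.1 = p.2 := by linarith [hp.2]
      rw [this]
      exact hp.1.2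
    · intro p hp q hq hpq
      simp only [coe_filter, mem_product, Set.mem_ofPred_eq] at hp hq hpq
      apply Prod.ext hpq
      linarith [hp.2, hq.2]
  have h3 : (2 * N + 1) * (E ×ˢ E).card < (2 * N + 1) * E.card ^ 2 := by
    rw [h1, mul_sum]
    calc _ < ∑ s ∈ Icc (0 : ℤ) (2 * N), E.card ^ 2 := by
          apply sum_lt_sum_of_nonempty _ h2
          exact ⟨0, by rw [mem_Icc]; constructor <;> positivity⟩
      _ = _ := by
        rw [sum_const, smul_eq_mul, Int.card_Icc]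
        congr 1
  rw [card_product, ← sq] at h3
  exact lt_irrefl _ h3

/-- shortest paths: every multiple `d ∈ [0, N]` of `q` is a sum of `2 k` popular differences -/
lemma path (P : ℤ → Prop) (N k : ℕ) (hneg : ∀ d, P d → P (-d)) (h0 : P 0)
    (hind : ∀ x : Fin (k + 1) → ℤ, (∀ i, 0 ≤ x i ∧ x i ≤ N) → ∃ i j, i ≠ j ∧ P (x j - x i))
    (q : ℕ) (hq : P q) (d : ℕ) (hqd : q ∣ d) (hd : d ≤ N) :
    ∃ p : ℕ → ℤ, (∀ i, P (p i)) ∧ ∑ i ∈ range (2 * k), p i = d := by
  classical
  let Q : ℕ → Prop := fun L => ∃ v : ℕ → ℤ, v 0 = 0 ∧ v L = d ∧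
    (∀ i ≤ L, 0 ≤ v i ∧ v i ≤ N) ∧ ∀ i < L, P (v (i + 1) - v i)
  have hQ : ∃ L, Q L := by
    obtain ⟨m, rfl⟩ := hqd
    refine ⟨m, fun i => (q * i : ℤ), by simp, by push_cast; ring, ?_, ?_⟩
    · intro i hi
      constructor
      · positivity
      · have : q * i ≤ q * m := Nat.mul_le_mul_left _ hi
        have h2 : ((q * i : ℕ) : ℤ) ≤ (N : ℤ) := by exact_mod_cast this.trans hd
        push_cast at h2
        exact h2
    · intro i _
      have : ((q : ℤ) * ((i + 1 : ℕ) : ℤ) - (q : ℤ) * (i : ℤ)) = q := by push_cast; ring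
      simp only
      rw [this]
      exact hq
  obtain ⟨v, hv0, hvL, hvN, hvP⟩ := Nat.find_spec hQ
  set L := Nat.find hQ with hL
  have hlt : L < 2 * k ∨ k = 0 := by
    by_contra hcon
    push Not at hcon
    obtain ⟨hge, hk⟩ := hcon
    obtain ⟨i, j, hij, hP⟩ := hind (fun i => v (2 * (i : ℕ)))
      (fun i => hvN _ (by have := i.2; omega))
    -- order the two indices
    have hkey : ∃ a b : ℕ, a < b ∧ b ≤ k ∧ P (v (2 * b) - v (2 * a)) := by
      rcases lt_or_gt_of_ne hij with h | h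
      · exact ⟨i, j, h, by have := j.2; omega, hP⟩
      · refine ⟨j, i, h, by have := i.2; omega, ?_⟩
        have := hneg _ hP
        simpa using this
    obtain ⟨a, b, hab, hbk, hPab⟩ := hkey
    -- shortcut
    set t := 2 * b - 2 * a - 1 with ht
    have hmin := Nat.find_min hQ (m := L - t) (by omega)
    apply hmin
    refine ⟨fun i => if i ≤ 2 * a then v i else v (i + t), ?_, ?_, ?_, ?_⟩
    · simp [hv0]
    · have h1 : ¬ (L - t ≤ 2 * a) := by omega
      simp only [h1, if_false]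
      rw [show L - t + t = L by omega]
      exact hvL
    · intro i hi
      simp only
      split_ifs with h
      · exact hvN _ (by omega)
      · exact hvN _ (by omega)
    · intro i hi
      simp only
      by_cases h1 : i + 1 ≤ 2 * a
      · rw [if_pos h1, if_pos (by omega)]
        exact hvP _ (by omega)
      · by_cases h2 : i ≤ 2 * a
        · rw [if_neg h1, if_pos h2]
          have h3 : i = 2 * a := by omega
          have h4 : i + 1 + t = 2 * b := by omega
          rw [h4, h3]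
          exact hPab
        · rw [if_neg h1, if_neg h2]
          have : i + 1 + t = (i + t) + 1 := by omega
          rw [this]
          exact hvP _ (by omega)
  rcases hlt with hlt | hk0
  · refine ⟨fun i => if i < L then v (i + 1) - v i else 0, ?_, ?_⟩
    · intro i
      simp only
      split_ifs with h
      · exact hvP _ h
      · exact h0
    · rw [← Finset.sum_filter]
      have : (range (2 * k)).filter (fun i => i < L) = range L := by
        ext i
        simp only [mem_filter, mem_range]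
        omega
      rw [this, Finset.sum_range_sub, hv0, hvL, sub_zero]
  · -- k = 0 : impossible as there is only one point
    exfalso
    subst hk0
    obtain ⟨i, j, hij, _⟩ := hind (fun _ => 0) (fun _ => ⟨le_rfl, by positivity⟩)
    exact hij (by omega)

end Pool.Agent.V11318.RO
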