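import Pool.Agent.V11318.ROPop

/-!
# Restricted order, part 4: disjoint supports
-/

namespace Pool.Agent.V11318.RO

open Finset

/-- number of members of the family containing `a` -/
def deg (𝒮 : Finset (Finset ℕ)) (a : ℕ) : ℕ := (𝒮.filter (fun T => a ∈ T)).card

/-- number of members of the family meeting `F` -/
def meet (𝒮 : Finset (Finset ℕ)) (F : Finset ℕ) : ℕ :=
  (𝒮.filter (fun T => ¬ Disjoint T F)).card

lemma meet_le (𝒮 : Finset (Finset ℕ)) (F : Finset ℕ) : meet 𝒮 F ≤ ∑ a ∈ F, deg 𝒮 a := by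
  unfold meet deg
  calc _ ≤ (F.biUnion (fun a => 𝒮.filter (fun T => a ∈ T))).card := by
        apply card_le_card
        intro T hT
        rw [mem_filter, not_disjoint_iff] at hT
        obtain ⟨hT, a, haT, haF⟩ := hT
        rw [mem_biUnion]
        exact ⟨a, haF, mem_filter.2 ⟨hT, haT⟩⟩
    _ ≤ _ := card_biUnion_le

lemma meet_union (𝒮 : Finset (Finset ℕ)) (F G : Finset ℕ) :
    meet 𝒮 (F ∪ G) ≤ meet 𝒮 F + meet 𝒮 G := by
  unfold meet
  calc _ ≤ (𝒮.filter (fun T => ¬ Disjoint T F) ∪ 𝒮.filter (fun T => ¬ Disjoint T G)).card := by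
        apply card_le_card
        intro T hT
        rw [mem_filter, disjoint_union_right] at hT
        rw [mem_union, mem_filter, mem_filter]
        by_cases h : Disjoint T F
        · right
          exact ⟨hT.1, fun h' => hT.2 ⟨h, h'⟩⟩
        · left
          exact ⟨hT.1, h⟩
    _ ≤ _ := card_union_le _ _

lemma fin4 : ∀ i j : Fin 4, i ≠ j → ∃ l m : Fin 4, i ≠ l ∧ i ≠ m ∧ j ≠ l ∧ j ≠ m ∧ l ≠ m ∧
    (univ : Finset (Fin 4)) = {i, j, l, m} := by
  decide

/-- quadruples with sum `t` and a given relation between two coordinates -/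
lemma quad_rel (B : Finset ℤ) (t : ℤ) (R : Finset (ℤ × ℤ)) (i j : Fin 4) (hij : i ≠ j) :
    ((Fintype.piFinset (fun _ : Fin 4 => B)).filter
      (fun f => ∑ x, f x = t ∧ (f i, f j) ∈ R)).card ≤ R.card * B.card := by
  obtain ⟨l, m, h1, h2, h3, h4, h5, huniv⟩ := fin4 i j hij
  have hsum : ∀ f : Fin 4 → ℤ, ∑ x, f x = f i + (f j + (f l + f m)) := by
    intro f
    rw [huniv, sum_insert, sum_insert, sum_insert, sum_singleton]
    · simpa using h5
    · simp [h3, h4]
    · simp [hij, h1, h2]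
  rw [← card_product]
  apply Finset.card_le_card_of_injOn (fun f => ((f i, f j), f m))
  · intro f hf
    simp only [coe_filter, Fintype.mem_piFinset, Set.mem_ofPred_eq] at hf
    simp only [coe_product, Set.mem_prod, mem_coe]
    exact ⟨hf.2.2, hf.1 m⟩
  · intro f hf g hg hfg
    simp only [coe_filter, Fintype.mem_piFinset, Set.mem_ofPred_eq] at hf hg
    simp only [Prod.mk.injEq] at hfg
    obtain ⟨⟨e1, e2⟩, e3⟩ := hfg
    have e4 : f l = g l := by
      have a1 := hf.2.1
      have a2 := hg.2.1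
      rw [hsum] at a1 a2
      linarith
    funext x
    have hx : x ∈ (univ : Finset (Fin 4)) := mem_univ _
    rw [huniv] at hx
    simp only [mem_insert, mem_singleton] at hx
    rcases hx with rfl | rfl | rfl | rfl <;> assumption

lemma E4_le_quad (B : Finset ℤ) (s d : ℤ) (hs : ∀ b ∈ B, s - b ∈ B) :
    E4 B d ≤ ((Fintype.piFinset (fun _ : Fin 4 => B)).filter
      (fun f => ∑ x, f x = 2 * s + d)).card := by
  unfold E4
  apply Finset.card_le_card_of_injOn (fun p => ![p.1.1, p.1.2, s - p.2.1, s - p.2.2])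
  · intro p hp
    simp only [coe_filter, mem_product, Set.mem_ofPred_eq] at hp
    simp only [coe_filter, Fintype.mem_piFinset, Set.mem_ofPred_eq]
    constructor
    · intro a
      fin_cases a
      · exact hp.1.1.1
      · exact hp.1.1.2
      · exact hs _ hp.1.2.1
      · exact hs _ hp.1.2.2
    · rw [Fin.sum_univ_four]
      simp only [Matrix.cons_val_zero, Matrix.cons_val_one, Matrix.cons_val]
      linarith [hp.2]
  · intro p _ q _ hpq
    have h0 := congrFun hpq 0
    have h1 := congrFun hpq 1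
    have h2 := congrFun hpq 2
    have h3 := congrFun hpq 3
    simp only [Matrix.cons_val_zero, Matrix.cons_val_one, Matrix.cons_val] at h0 h1 h2 h3
    apply Prod.ext
    · exact Prod.ext h0 h1
    · apply Prod.ext <;> linarith

/-- choose four members with pairwise disjoint supports and prescribed total sum -/
lemma select (𝒮 : Finset (Finset ℕ)) (B : Finset ℤ) (s : ℤ) (T : ℤ → Finset ℕ)
    (hT : ∀ b ∈ B, T b ∈ 𝒮 ∧ (((T b).sum id : ℕ) : ℤ) = b) (hs : ∀ b ∈ B, s - b ∈ B)
    (N J Dg Bd : ℕ) (hJ : ∀ U ∈ 𝒮, U.card ≤ J) (hDg : ∀ a, deg 𝒮 a ≤ Dg)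
    (F : Finset ℕ) (hF : meet 𝒮 F ≤ Bd)
    (hsmall : 24 * (3 * N + 1) * (Bd + J * Dg) < B.card ^ 2)
    (d : ℤ) (hd : B.card ^ 4 ≤ 2 * (3 * N + 1) * E4 B d) :
    ∃ U : Finset ℕ, Disjoint U F ∧ U.card ≤ 4 * J ∧ (∀ x ∈ U, ∃ V ∈ 𝒮, x ∈ V) ∧
      ((U.sum id : ℕ) : ℤ) = 2 * s + d := by
  classical
  have hB : 0 < B.card := by
    rcases Nat.eq_zero_or_pos B.card with h | h
    · rw [h] at hsmall; simp at hsmall
    · exact h
  have hTinj : Set.InjOn T B := by
    intro b hb b' hb' hbb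
    rw [← (hT b hb).2, ← (hT b' hb').2, hbb]
  -- number of elements of `B` whose support meets a set
  have hmeet : ∀ G : Finset ℕ, (B.filter (fun b => ¬ Disjoint (T b) G)).card ≤ meet 𝒮 G := by
    intro G
    unfold meet
    apply Finset.card_le_card_of_injOn T
    · intro b hb
      simp only [coe_filter, Set.mem_ofPred_eq] at hb ⊢
      exact ⟨(hT b hb.1).1, hb.2⟩
    · intro b hb b' hb' hbb
      simp only [coe_filter, Set.mem_ofPred_eq] at hb hb'
      exact hTinj hb.1 hb'.1 hbb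
  set R : Finset (ℤ × ℤ) := (B ×ˢ B).filter
    (fun p => ¬ Disjoint (T p.1) F ∨ ¬ Disjoint (T p.1) (T p.2)) with hR
  have hRcard : R.card ≤ (Bd + J * Dg) * B.card := by
    have h1 : R ⊆ ((B.filter (fun b => ¬ Disjoint (T b) F)) ×ˢ B) ∪
        B.biUnion (fun b => (B.filter (fun b' => ¬ Disjoint (T b') (T b))).image
          (fun b' => (b, b'))) := by
      intro p hp
      rw [hR, mem_filter, mem_product] at hp
      rw [mem_union, mem_product, mem_filter, mem_biUnion]
      rcases hp.2 with h | h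
      · left
        exact ⟨⟨hp.1.1, h⟩, hp.1.2⟩
      · right
        refine ⟨p.1, hp.1.1, ?_⟩
        rw [mem_image]
        refine ⟨p.2, ?_, rfl⟩
        rw [mem_filter]
        exact ⟨hp.1.2, fun h' => h h'.symm⟩
    calc R.card ≤ _ := card_le_card h1
      _ ≤ _ := card_union_le _ _
      _ ≤ Bd * B.card + B.card * (J * Dg) := by
        apply Nat.add_le_add
        · rw [card_product]
          exact Nat.mul_le_mul_right _ ((hmeet F).trans hF)
        · apply Finset.card_biUnion_le_card_mul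
          intro b hb
          refine card_image_le.trans ?_
          calc _ ≤ _ := hmeet (T b)
            _ ≤ _ := meet_le _ _
            _ ≤ ∑ a ∈ T b, Dg := sum_le_sum (fun a _ => hDg a)
            _ = (T b).card * Dg := by rw [sum_const, smul_eq_mul]
            _ ≤ J * Dg := Nat.mul_le_mul_right _ (hJ _ (hT b hb).1)
      _ = _ := by ring
  set t := 2 * s + d with ht
  set Qd := (Fintype.piFinset (fun _ : Fin 4 => B)).filter (fun f => ∑ x, f x = t) with hQd
  -- there is a good quadruple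
  have hgood : ∃ f ∈ Qd, ∀ i j : Fin 4, i ≠ j → (f i, f j) ∉ R := by
    by_contra hno
    push Not at hno
    have hcov : Qd ⊆ ((univ : Finset (Fin 4 × Fin 4)).filter (fun p => p.1 ≠ p.2)).biUnion
        (fun p => (Fintype.piFinset (fun _ : Fin 4 => B)).filter
          (fun f => ∑ x, f x = t ∧ (f p.1, f p.2) ∈ R)) := by
      intro f hf
      obtain ⟨i, j, hij, hfR⟩ := hno f hf
      rw [mem_biUnion]
      refine ⟨(i, j), mem_filter.2 ⟨mem_univ _, hij⟩, ?_⟩
      rw [hQd, mem_filter] at hf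
      exact mem_filter.2 ⟨hf.1, hf.2, hfR⟩
    have h12 : ((univ : Finset (Fin 4 × Fin 4)).filter (fun p => p.1 ≠ p.2)).card = 12 := by
      decide
    have h2 : Qd.card ≤ 12 * (R.card * B.card) := by
      rw [← h12]
      refine (card_le_card hcov).trans ?_
      apply Finset.card_biUnion_le_card_mul
      intro p hp
      exact quad_rel B t R p.1 p.2 (mem_filter.1 hp).2
    have h3 : E4 B d ≤ Qd.card := E4_le_quad B s d hs
    have h4 : B.card ^ 4 ≤ 2 * (3 * N + 1) * (12 * ((Bd + J * Dg) * B.card * B.card)) := by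
      calc _ ≤ _ := hd
        _ ≤ 2 * (3 * N + 1) * Qd.card := Nat.mul_le_mul_left _ h3
        _ ≤ 2 * (3 * N + 1) * (12 * (R.card * B.card)) := Nat.mul_le_mul_left _ h2
        _ ≤ _ := by
          apply Nat.mul_le_mul_left
          apply Nat.mul_le_mul_left
          exact Nat.mul_le_mul_right _ hRcard
    have h5 : B.card ^ 2 * B.card ^ 2 ≤ B.card ^ 2 * (24 * (3 * N + 1) * (Bd + J * Dg)) := by
      calc _ = B.card ^ 4 := by ring
        _ ≤ _ := h4
        _ = _ := by ring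
    have h6 := Nat.le_of_mul_le_mul_left h5 (by positivity)
    omega
  obtain ⟨f, hf, hfR⟩ := hgood
  rw [hQd, mem_filter, Fintype.mem_piFinset] at hf
  obtain ⟨hfB, hfs⟩ := hf
  have hpair : ∀ i j : Fin 4, i ≠ j → Disjoint (T (f i)) F ∧ Disjoint (T (f i)) (T (f j)) := by
    intro i j hij
    have := hfR i j hij
    rw [hR, mem_filter, mem_product] at this
    push Not at this
    exact this ⟨hfB i, hfB j⟩
  have hdisjF : ∀ i : Fin 4, Disjoint (T (f i)) F := by
    intro i
    obtain ⟨j, hj⟩ := exists_ne i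
    exact (hpair i j hj.symm).1
  have hpw : Set.PairwiseDisjoint (↑(univ : Finset (Fin 4))) (fun i => T (f i)) := by
    intro i _ j _ hij
    exact (hpair i j hij).2
  refine ⟨univ.biUnion (fun i : Fin 4 => T (f i)), ?_, ?_, ?_, ?_⟩
  · rw [disjoint_biUnion_left]
    intro i _
    exact hdisjF i
  · have := Finset.card_biUnion_le_card_mul (univ : Finset (Fin 4)) (fun i => T (f i)) J
      (fun i _ => hJ _ (hT _ (hfB i)).1)
    simpa using this
  · intro x hx
    rw [mem_biUnion] at hx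
    obtain ⟨i, _, hx⟩ := hx
    exact ⟨_, (hT _ (hfB i)).1, hx⟩
  · rw [Finset.sum_biUnion hpw]
    push_cast
    rw [← hfs]
    apply sum_congr rfl
    intro i _
    have := (hT _ (hfB i)).2
    push_cast at this
    exact this

/-- choose many groups of four -/
lemma select_many (𝒮 : Finset (Finset ℕ)) (B : Finset ℤ) (s : ℤ) (T : ℤ → Finset ℕ)
    (hT : ∀ b ∈ B, T b ∈ 𝒮 ∧ (((T b).sum id : ℕ) : ℤ) = b) (hs : ∀ b ∈ B, s - b ∈ B)
    (N J Dg Bd : ℕ) (hJ : ∀ U ∈ 𝒮, U.card ≤ J) (hDg : ∀ a, deg 𝒮 a ≤ Dg)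
    (F : Finset ℕ) (hsmall : 24 * (3 * N + 1) * (Bd + J * Dg) < B.card ^ 2)
    (p : ℕ → ℤ) (hp : ∀ i, B.card ^ 4 ≤ 2 * (3 * N + 1) * E4 B (p i)) :
    ∀ L : ℕ, meet 𝒮 F + 4 * J * L * Dg ≤ Bd →
    ∃ U : Finset ℕ, Disjoint U F ∧ U.card ≤ 4 * J * L ∧ (∀ x ∈ U, ∃ V ∈ 𝒮, x ∈ V) ∧
      ((U.sum id : ℕ) : ℤ) = 2 * s * L + ∑ i ∈ range L, p i := by
  intro L
  induction L with
  | zero =>
    intro _
    exact ⟨∅, by simp⟩
  | succ L ih =>
    intro hL
    obtain ⟨U, hUF, hUc, hUS, hUs⟩ := ih (by nlinarith [Nat.zero_le (4 * J * Dg)])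
    have hmeet : meet 𝒮 (F ∪ U) ≤ Bd := by
      calc _ ≤ _ := meet_union _ _ _
        _ ≤ meet 𝒮 F + ∑ a ∈ U, deg 𝒮 a := Nat.add_le_add_left (meet_le _ _) _
        _ ≤ meet 𝒮 F + ∑ a ∈ U, Dg := Nat.add_le_add_left (sum_le_sum (fun a _ => hDg a)) _
        _ = meet 𝒮 F + U.card * Dg := by rw [sum_const, smul_eq_mul]
        _ ≤ meet 𝒮 F + 4 * J * L * Dg := by gcongr
        _ ≤ Bd := by nlinarith [Nat.zero_le (4 * J * Dg)]
    obtain ⟨V, hV1, hV2, hV3, hV4⟩ := select 𝒮 B s T hT hs N J Dg Bd hJ hDg (F ∪ U) hmeet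
      hsmall (p L) (hp L)
    rw [disjoint_union_right] at hV1
    refine ⟨U ∪ V, ?_, ?_, ?_, ?_⟩
    · rw [disjoint_union_left]
      exact ⟨hUF, hV1.1⟩
    · calc _ ≤ _ := card_union_le _ _
        _ ≤ 4 * J * L + 4 * J := Nat.add_le_add hUc hV2
        _ = _ := by ring
    · intro x hx
      rw [mem_union] at hx
      rcases hx with hx | hx
      · exact hUS x hx
      · exact hV3 x hx
    · rw [sum_union hV1.2.symm, sum_range_succ]
      push_cast
      push_cast at hUs hV4
      rw [hUs, hV4]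
      ring

end Pool.Agent.V11318.RO
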