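import Pool.Agent.V11318.RZPole

set_option autoImplicit false

namespace Pool.Agent.V11318.RZBlock

open MeasureTheory Set
open scoped InnerProductSpace ENNReal

section Net

variable {V : Type*} [NormedAddCommGroup V] [InnerProductSpace ℂ V]

/-- finite net of directions -/
lemma exists_net [ProperSpace V] (θ : ℝ) (hθ : θ < 1) :
    ∃ F : Finset V, (∀ a ∈ F, ‖a‖ = 1) ∧
      ∀ z : V, z ≠ 0 → ∃ a ∈ F, θ * ‖z‖ ≤ ‖⟪a, z⟫_ℂ‖ := by
  have hc : IsCompact (Metric.sphere (0 : V) 1) := isCompact_sphere 0 1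
  obtain ⟨F, hF, hcov⟩ := hc.elim_nhds_subcover (fun a => {z : V | θ < ‖⟪a, z⟫_ℂ‖}) (by
    intro a ha
    refine IsOpen.mem_nhds (isOpen_lt continuous_const (by fun_prop)) ?_
    have ha1 : ‖a‖ = 1 := by simpa using ha
    show θ < ‖⟪a, a⟫_ℂ‖
    rw [inner_self_eq_norm_sq_to_K, ha1]
    simpa using hθ)
  refine ⟨F, fun a ha => by simpa using hF a ha, fun z hz => ?_⟩
  have hz' : 0 < ‖z‖ := norm_pos_iff.mpr hz
  have hmem : (((‖z‖⁻¹ : ℝ) : ℂ) • z) ∈ Metric.sphere (0 : V) 1 := by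
    rw [mem_sphere_zero_iff_norm, norm_smul, Complex.norm_real, norm_inv, norm_norm,
      inv_mul_cancel₀ hz'.ne']
  obtain ⟨a, ha, hza⟩ := mem_iUnion₂.mp (hcov hmem)
  refine ⟨a, ha, ?_⟩
  have h1 : θ < ‖⟪a, ((‖z‖⁻¹ : ℝ) : ℂ) • z⟫_ℂ‖ := hza
  rw [inner_smul_right, norm_mul, Complex.norm_real, norm_inv, norm_norm, inv_mul_eq_div,
    lt_div_iff₀ hz'] at h1
  exact h1.le

end Net

/-- at most a proportion `1/m` of coefficient vectors gives a small sum -/
lemma count_small {I : Type*} [Fintype I] [DecidableEq I] (m : ℕ) (w : I → ℂ) (i0 : I) (β : ℝ)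
    (hw : β ≤ ‖w i0‖) :
    m * (Finset.univ.filter (fun c : I → Fin m =>
      ‖∑ i, (((c i : Fin m) : ℕ) : ℂ) * w i‖ < β / 2)).card ≤ m ^ Fintype.card I := by
  classical
  set S := Finset.univ.filter (fun c : I → Fin m =>
      ‖∑ i, (((c i : Fin m) : ℕ) : ℂ) * w i‖ < β / 2) with hS
  have hinj : S.card ≤ (Finset.univ : Finset ({i // i ≠ i0} → Fin m)).card := by
    refine Finset.card_le_card_of_injOn (fun c => fun i => c i) (fun c _ => Finset.mem_univ _) ?_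
    intro c hc c' hc' hcc
    have hoff : ∀ i, i ≠ i0 → c i = c' i := fun i hi => congrFun hcc ⟨i, hi⟩
    have hc1 : ‖∑ i, (((c i : Fin m) : ℕ) : ℂ) * w i‖ < β / 2 := by
      have := hc
      rw [hS, Finset.mem_coe, Finset.mem_filter] at this
      exact this.2
    have hc2 : ‖∑ i, (((c' i : Fin m) : ℕ) : ℂ) * w i‖ < β / 2 := by
      have := hc'
      rw [hS, Finset.mem_coe, Finset.mem_filter] at this
      exact this.2
    have hdiff : ∑ i, (((c i : Fin m) : ℕ) : ℂ) * w i - ∑ i, (((c' i : Fin m) : ℕ) : ℂ) * w i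
        = ((((c i0 : Fin m) : ℕ) : ℂ) - (((c' i0 : Fin m) : ℕ) : ℂ)) * w i0 := by
      rw [← Finset.sum_sub_distrib]
      rw [Finset.sum_eq_single i0]
      · ring
      · intro i _ hi
        rw [hoff i hi]
        ring
      · intro h
        exact absurd (Finset.mem_univ _) h
    have hlt : ‖((((c i0 : Fin m) : ℕ) : ℂ) - (((c' i0 : Fin m) : ℕ) : ℂ)) * w i0‖ < β := by
      rw [← hdiff]
      calc _ ≤ _ := norm_sub_le _ _
        _ < β := by linarith
    have hi0 : c i0 = c' i0 := by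
      by_contra hne
      have hne' : ((c i0 : Fin m) : ℕ) ≠ ((c' i0 : Fin m) : ℕ) := fun h => hne (Fin.ext h)
      have h1 : (1 : ℝ) ≤ ‖(((c i0 : Fin m) : ℕ) : ℂ) - (((c' i0 : Fin m) : ℕ) : ℂ)‖ := by
        have h2 : (((c i0 : Fin m) : ℕ) : ℂ) - (((c' i0 : Fin m) : ℕ) : ℂ)
            = (((((c i0 : Fin m) : ℕ) : ℤ) - (((c' i0 : Fin m) : ℕ) : ℤ) : ℤ) : ℂ) := by
          push_cast
          ring
        rw [h2, Complex.norm_intCast]
        have h3 : (((c i0 : Fin m) : ℕ) : ℤ) - (((c' i0 : Fin m) : ℕ) : ℤ) ≠ 0 := by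
          intro h
          apply hne'
          omega
        have h4 : (1 : ℤ) ≤ |(((c i0 : Fin m) : ℕ) : ℤ) - (((c' i0 : Fin m) : ℕ) : ℤ)| :=
          Int.one_le_abs h3
        exact_mod_cast h4
      rw [norm_mul] at hlt
      nlinarith [norm_nonneg (w i0)]
    funext i
    by_cases h : i = i0
    · rw [h]; exact hi0
    · exact hoff i h
  have hcard : Fintype.card (I → Fin m) = Fintype.card (Fin m × ({i // i ≠ i0} → Fin m)) :=
    Fintype.card_congr (Equiv.piSplitAt i0 (fun _ => Fin m))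
  rw [Fintype.card_prod, Fintype.card_fun, Fintype.card_fin] at hcard
  rw [hcard]
  exact Nat.mul_le_mul_left m hinj

/-- `w` keeps its distance from the negative real axis -/
def Good (δ : ℝ) (w : ℂ) : Prop := ∀ t : ℝ, 0 ≤ t → δ * t ≤ ‖w + t‖

lemma isClosed_good (δ : ℝ) : IsClosed {w : ℂ | Good δ w} := by
  have : {w : ℂ | Good δ w} = ⋂ t : ℝ, ⋂ _ : 0 ≤ t, {w : ℂ | δ * t ≤ ‖w + t‖} := by
    ext w
    simp only [Good, Set.mem_iInter, Set.mem_ofPred_eq]
  rw [this]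
  exact isClosed_iInter (fun t => isClosed_iInter (fun _ =>
    isClosed_le (by fun_prop) (by fun_prop)))

lemma good_zero (δ : ℝ) (hδ : δ ≤ 1) : Good δ 0 := by
  intro t ht
  rw [zero_add, Complex.norm_real, Real.norm_of_nonneg ht]
  nlinarith

lemma good_smul (δ : ℝ) (hδ : δ ≤ 1) (w : ℂ) (hw : Good δ w) (s : ℝ) (hs : 0 ≤ s) :
    Good δ ((s : ℂ) * w) := by
  rcases hs.eq_or_lt with h | h
  · rw [← h, Complex.ofReal_zero, zero_mul]
    exact good_zero δ hδ
  · intro t ht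
    have h1 := hw (t / s) (by positivity)
    have h2 : (s : ℂ) * w + t = (s : ℂ) * (w + ((t / s : ℝ) : ℂ)) := by
      have : (s : ℂ) ≠ 0 := by exact_mod_cast h.ne'
      push_cast
      field_simp
    rw [h2, norm_mul, Complex.norm_real, Real.norm_of_nonneg h.le]
    calc δ * t = s * (δ * (t / s)) := by field_simp
      _ ≤ s * ‖w + ((t / s : ℝ) : ℂ)‖ := mul_le_mul_of_nonneg_left h1 h.le

lemma im_of_not_good (δ : ℝ) (hδ0 : 0 < δ) (hδ : δ ≤ 1 / 2) (w : ℂ) (hw : ¬ Good δ w) :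
    |w.im| ≤ 2 * δ * ‖w‖ := by
  unfold Good at hw
  push Not at hw
  obtain ⟨t, ht, hlt⟩ := hw
  have h1 : |w.im| ≤ ‖w + t‖ := by
    have := Complex.abs_im_le_norm (w + t)
    simpa using this
  have h2 : t - ‖w‖ ≤ ‖w + t‖ := by
    have h3 : ‖(t : ℂ)‖ ≤ ‖w + t‖ + ‖w‖ := by
      calc ‖(t : ℂ)‖ = ‖(w + t) - w‖ := by congr 1; ring
        _ ≤ _ := norm_sub_le _ _
    rw [Complex.norm_real, Real.norm_of_nonneg ht] at h3
    linarith
  have h3 : t ≤ 2 * ‖w‖ := by nlinarith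
  nlinarith

/-- the rotations used -/
noncomputable def rot (m : ℕ) (k : Fin m) : ℂ := ⟨1, ((k : ℕ) : ℝ) / m⟩

lemma rot_norm_le (m : ℕ) (k : Fin m) : ‖rot m k‖ ≤ 2 := by
  have h1 := Complex.norm_le_abs_re_add_abs_im (rot m k)
  have hk : ((k : ℕ) : ℝ) / m ≤ 1 := by
    rw [div_le_one]
    · exact_mod_cast k.2.le
    · exact_mod_cast Nat.lt_of_le_of_lt (Nat.zero_le _) k.2
  have hk0 : 0 ≤ ((k : ℕ) : ℝ) / m := by positivity
  simp only [rot, abs_one] at h1
  rw [abs_of_nonneg hk0] at h1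
  unfold rot
  linarith

lemma one_le_rot_norm (m : ℕ) (k : Fin m) : 1 ≤ ‖rot m k‖ := by
  have h1 := Complex.abs_re_le_norm (rot m k)
  simpa [rot] using h1

lemma wedge_unique (m : ℕ) (δ : ℝ) (hδ0 : 0 < δ) (hδ : δ ≤ 1 / 2) (hδm : 16 * δ * m < 1) (w : ℂ)
    (hw : w ≠ 0) (k k' : Fin m) (hk : ¬ Good δ (rot m k * w)) (hk' : ¬ Good δ (rot m k' * w)) :
    k = k' := by
  by_contra hne
  have hm : (0 : ℝ) < m := by exact_mod_cast Nat.lt_of_le_of_lt (Nat.zero_le _) k.2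
  set X := rot m k * w with hX
  set Y := rot m k' * w with hY
  have hx := im_of_not_good δ hδ0 hδ X hk
  have hy := im_of_not_good δ hδ0 hδ Y hk'
  have hw0 : 0 < ‖w‖ := norm_pos_iff.mpr hw
  have hXn : ‖X‖ ≤ 2 * ‖w‖ := by
    rw [hX, norm_mul]
    exact mul_le_mul_of_nonneg_right (rot_norm_le m k) hw0.le
  have hYn : ‖Y‖ ≤ 2 * ‖w‖ := by
    rw [hY, norm_mul]
    exact mul_le_mul_of_nonneg_right (rot_norm_le m k') hw0.le
  have hid : X.im * Y.re - X.re * Y.im = (((k : ℕ) : ℝ) / m - ((k' : ℕ) : ℝ) / m) * ‖w‖ ^ 2 := by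
    have hn : ‖w‖ ^ 2 = w.re * w.re + w.im * w.im := by
      rw [← Complex.normSq_eq_norm_sq, Complex.normSq_apply]
    rw [hn, hX, hY]
    simp only [rot, Complex.mul_re, Complex.mul_im]
    ring
  have h1 : |X.im * Y.re - X.re * Y.im| ≤ 4 * δ * (‖X‖ * ‖Y‖) := by
    calc |X.im * Y.re - X.re * Y.im| ≤ |X.im * Y.re| + |X.re * Y.im| := abs_sub _ _
      _ = |X.im| * |Y.re| + |X.re| * |Y.im| := by rw [abs_mul, abs_mul]
      _ ≤ (2 * δ * ‖X‖) * ‖Y‖ + ‖X‖ * (2 * δ * ‖Y‖) := by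
          gcongr
          · exact Complex.abs_re_le_norm Y
          · exact Complex.abs_re_le_norm X
      _ = _ := by ring
  have h2 : 4 * δ * (‖X‖ * ‖Y‖) ≤ 16 * δ * ‖w‖ ^ 2 := by
    have : ‖X‖ * ‖Y‖ ≤ (2 * ‖w‖) * (2 * ‖w‖) := by gcongr
    nlinarith
  have h3 : (1 : ℝ) / m * ‖w‖ ^ 2 ≤ |(((k : ℕ) : ℝ) / m - ((k' : ℕ) : ℝ) / m) * ‖w‖ ^ 2| := by
    rw [abs_mul, abs_of_nonneg (sq_nonneg ‖w‖)]
    refine mul_le_mul_of_nonneg_right ?_ (sq_nonneg _)
    rw [← sub_div, abs_div, abs_of_pos hm]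
    refine div_le_div_of_nonneg_right ?_ hm.le
    have hne' : ((k : Fin m) : ℕ) ≠ ((k' : Fin m) : ℕ) := fun h => hne (Fin.ext h)
    have h4 : (1 : ℤ) ≤ |((k : ℕ) : ℤ) - ((k' : ℕ) : ℤ)| := by
      apply Int.one_le_abs
      intro h
      apply hne'
      omega
    exact_mod_cast h4
  have h5 : (1 : ℝ) / m * ‖w‖ ^ 2 ≤ 16 * δ * ‖w‖ ^ 2 := by
    rw [← hid] at h3
    linarith
  have h6 : (1 : ℝ) / m ≤ 16 * δ := le_of_mul_le_mul_right h5 (by positivity)
  rw [div_le_iff₀ hm] at h6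
  linarith

/-- averaging over a finite family of bad sets -/
lemma exists_index {T V : Type*} [Finite T] [Nonempty T] [MeasurableSpace V] (μ : Measure V)
    [IsFiniteMeasure μ] (B : T → Set V) (hB : ∀ s, MeasurableSet (B s)) (q m : ℕ)
    (hq : ∀ z, m * (Nat.card {s : T // z ∈ B s}) ≤ q * Nat.card T) :
    ∃ s, (m : ℝ) * μ.real (B s) ≤ q * μ.real univ := by
  classical
  have : Fintype T := Fintype.ofFinite T
  rw [Nat.card_eq_fintype_card (α := T)] at hq
  have hsum : ∑ s : T, (m : ℝ) * μ.real (B s) ≤ ∑ _s : T, (q : ℝ) * μ.real univ := by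
    have hint : ∀ s : T, Integrable ((B s).indicator (fun _ => (1 : ℝ))) μ := fun s =>
      (integrable_const (1 : ℝ)).indicator (hB s)
    have h1 : ∑ s : T, (m : ℝ) * μ.real (B s)
        = ∫ z, (m : ℝ) * ∑ s : T, (B s).indicator (fun _ => (1 : ℝ)) z ∂μ := by
      rw [integral_const_mul, integral_finsetSum _ (fun s _ => hint s), Finset.mul_sum]
      refine Finset.sum_congr rfl (fun s _ => ?_)
      rw [integral_indicator_const _ (hB s)]
      simp
    have h2 : ∑ _s : T, (q : ℝ) * μ.real univ = ∫ _z : V, (q : ℝ) * Fintype.card T ∂μ := by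
      rw [integral_const, Finset.sum_const, Finset.card_univ, smul_eq_mul, nsmul_eq_mul]
      ring
    rw [h1, h2]
    refine integral_mono ?_ (integrable_const _) ?_
    · exact (integrable_finsetSum _ (fun s _ => hint s)).const_mul _
    · intro z
      have h3 : ∑ s : T, (B s).indicator (fun _ => (1 : ℝ)) z = (Nat.card {s : T // z ∈ B s} : ℝ) := by
        rw [Nat.card_eq_fintype_card, Fintype.card_subtype, Finset.card_filter]
        push_cast
        refine Finset.sum_congr rfl (fun s _ => ?_)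
        by_cases h : z ∈ B s
        · simp [h]
        · simp [h]
      show (m : ℝ) * ∑ s : T, (B s).indicator (fun _ => (1 : ℝ)) z ≤ (q : ℝ) * Fintype.card T
      rw [h3]
      exact_mod_cast hq z
  obtain ⟨s, _, hs⟩ := Finset.exists_le_of_sum_le Finset.univ_nonempty hsum
  exact ⟨s, hs⟩

end Pool.Agent.V11318.RZBlock
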