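import Mathlib

set_option autoImplicit false

namespace Pool.Agent.V11318.RZPole

open ContinuousMap

/-- In a closed subalgebra of `C(K, ℂ)` the inverse of `1 - x` with `‖x‖ < 1` stays inside. -/
lemma inv_mem {K : Type*} [TopologicalSpace K] [CompactSpace K] (A : Subalgebra ℂ C(K, ℂ))
    (hA : IsClosed (A : Set C(K, ℂ))) (x y : C(K, ℂ)) (hx : x ∈ A) (hn : ‖x‖ < 1)
    (hy : y * (1 - x) = 1) : y ∈ A := by
  have hs := summable_geometric_of_norm_lt_one (x := x) hn
  have h1 : (1 - x) * ∑' i, x ^ i = 1 := mul_neg_geom_series x hn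
  have h2 : y = ∑' i, x ^ i := by
    calc y = y * ((1 - x) * ∑' i, x ^ i) := by rw [h1, mul_one]
      _ = (y * (1 - x)) * ∑' i, x ^ i := by ring
      _ = ∑' i, x ^ i := by rw [hy, one_mul]
  rw [h2]
  refine hA.mem_of_tendsto hs.hasSum.tendsto_sum_nat (Filter.Eventually.of_forall ?_)
  intro k
  exact sum_mem (fun i _ => pow_mem hx i)

/-- The compact set on which the approximation takes place. -/
def KS (δ M : ℝ) : Set ℂ := {w | ‖w‖ ≤ M ∧ ∀ t : ℝ, 1 ≤ t → δ * t ≤ ‖w + t‖}

lemma isCompact_KS (δ M : ℝ) : IsCompact (KS δ M) := by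
  refine Metric.isCompact_of_isClosed_isBounded ?_ ?_
  · have : KS δ M = {w | ‖w‖ ≤ M} ∩ ⋂ t : ℝ, ⋂ _ : 1 ≤ t, {w : ℂ | δ * t ≤ ‖w + t‖} := by
      ext w
      simp only [KS, Set.mem_inter_iff, Set.mem_iInter, Set.mem_ofPred_eq]
    rw [this]
    refine IsClosed.inter (isClosed_le (by fun_prop) (by fun_prop)) ?_
    refine isClosed_iInter (fun t => isClosed_iInter (fun _ => ?_))
    exact isClosed_le (by fun_prop) (by fun_prop)
  · refine (Metric.isBounded_closedBall (x := (0 : ℂ)) (r := M)).subset ?_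
    intro w hw
    simpa using hw.1

lemma approx (δ M ε : ℝ) (hδ : 0 < δ) (hδ1 : δ ≤ 1 / 2) (hε : 0 < ε) :
    ∃ p : Polynomial ℂ, ∀ w : ℂ, ‖w‖ ≤ M → (∀ t : ℝ, 1 ≤ t → δ * t ≤ ‖w + t‖) →
      ‖p.eval w - (1 + w)⁻¹‖ ≤ ε := by
  classical
  have : CompactSpace (KS δ M) := isCompact_iff_compactSpace.mp (isCompact_KS δ M)
  set A : Subalgebra ℂ C(KS δ M, ℂ) := (polynomialFunctions (KS δ M)).topologicalClosure with hAdef
  have hA : IsClosed (A : Set C(KS δ M, ℂ)) := Subalgebra.isClosed_topologicalClosure _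
  -- polynomials belong to A
  have hpoly : ∀ p : Polynomial ℂ, p.toContinuousMapOn (KS δ M) ∈ A := by
    intro p
    apply Subalgebra.le_topologicalClosure
    rw [← SetLike.mem_coe, polynomialFunctions_coe]
    exact ⟨p, rfl⟩
  have hne : ∀ t : ℝ, 1 ≤ t → ∀ w : KS δ M, (w : ℂ) + t ≠ 0 := by
    intro t ht w h0
    have := w.2.2 t ht
    rw [h0, norm_zero] at this
    nlinarith
  let Q : ℝ → Prop := fun t => ∀ y : C(KS δ M, ℂ), (∀ w : KS δ M, y w * ((w : ℂ) + t) = 1) → y ∈ A
  -- far poles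
  have hfar : ∀ t : ℝ, 1 ≤ t → 2 * M ≤ t → Q t := by
    intro t ht htM y hy
    have ht0 : (0 : ℝ) < t := by linarith
    have htc : (t : ℂ) ≠ 0 := by exact_mod_cast ht0.ne'
    set x : C(KS δ M, ℂ) := (Polynomial.C (-(1 / t : ℂ)) * Polynomial.X).toContinuousMapOn (KS δ M)
      with hxdef
    have hxv : ∀ w : KS δ M, x w = -(1 / t : ℂ) * w := by
      intro w
      simp [hxdef]
    have hxn : ‖x‖ ≤ 1 / 2 := by
      rw [ContinuousMap.norm_le _ (by norm_num)]
      intro w
      rw [hxv, norm_mul, norm_neg, norm_div, norm_one, Complex.norm_real, Real.norm_of_nonneg ht0.le]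
      have hw := w.2.1
      rw [one_div, inv_mul_le_iff₀ ht0]
      linarith
    have hz : ((t : ℂ) • y) ∈ A := by
      refine inv_mem A hA x _ (hpoly _) (by linarith) ?_
      ext w
      have := hy w
      simp only [ContinuousMap.mul_apply, ContinuousMap.smul_apply, ContinuousMap.sub_apply,
        ContinuousMap.one_apply, smul_eq_mul]
      rw [hxv]
      calc (t : ℂ) * y w * (1 - -(1 / t : ℂ) * w) = y w * (w + t) := by field_simp; ring
        _ = 1 := this
    have hz2 : y = ((t : ℂ)⁻¹) • ((t : ℂ) • y) := by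
      rw [smul_smul, inv_mul_cancel₀ htc, one_smul]
    rw [hz2]
    exact A.smul_mem hz _
  -- pushing
  have hpush : ∀ t : ℝ, 1 ≤ t → Q (t * (1 + δ / 2)) → Q t := by
    intro t ht hQ y hy
    have ht0 : (0 : ℝ) < t := by linarith
    set s : ℝ := t * (1 + δ / 2) with hs
    have hst : t < s := by rw [hs]; nlinarith [mul_pos ht0 hδ]
    have hs1 : 1 ≤ s := by linarith
    let y' : C(KS δ M, ℂ) := ⟨fun w => ((w : ℂ) + s)⁻¹, by
      refine Continuous.inv₀ (by fun_prop) (fun w => hne s hs1 w)⟩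
    have hy' : ∀ w : KS δ M, y' w = ((w : ℂ) + s)⁻¹ := fun w => rfl
    have hy'A : y' ∈ A := by
      apply hQ
      intro w
      rw [hy']
      exact inv_mul_cancel₀ (hne s hs1 w)
    set x : C(KS δ M, ℂ) := ((s - t : ℝ) : ℂ) • y' with hx
    have hxA : x ∈ A := A.smul_mem hy'A _
    have hxn : ‖x‖ ≤ 1 / 2 := by
      rw [ContinuousMap.norm_le _ (by norm_num)]
      intro w
      rw [hx, ContinuousMap.smul_apply, smul_eq_mul, norm_mul, Complex.norm_real,
        Real.norm_of_nonneg (by linarith), hy', norm_inv]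
      have hw := w.2.2 s hs1
      have hpos : 0 < δ * s := by nlinarith
      have hpos2 : 0 < ‖(w : ℂ) + s‖ := by linarith
      rw [← div_eq_mul_inv, div_le_iff₀ hpos2]
      have : s - t ≤ 1 / 2 * (δ * s) := by rw [hs]; nlinarith [mul_pos ht0 hδ, mul_pos (mul_pos ht0 hδ) hδ]
      linarith
    have hv : (y * (((Polynomial.X + Polynomial.C (s : ℂ)) : Polynomial ℂ).toContinuousMapOn
        (KS δ M))) ∈ A := by
      refine inv_mem A hA x _ hxA (by linarith) ?_
      ext w
      have h1 := hy w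
      have h2 := hne s hs1 w
      simp only [ContinuousMap.mul_apply, ContinuousMap.sub_apply, ContinuousMap.one_apply, hx,
        ContinuousMap.smul_apply, smul_eq_mul, hy']
      have h3 : ((Polynomial.X + Polynomial.C (s : ℂ)) : Polynomial ℂ).toContinuousMapOn (KS δ M) w
          = (w : ℂ) + s := by simp
      rw [h3]
      calc y w * ((w : ℂ) + s) * (1 - ((s - t : ℝ) : ℂ) * ((w : ℂ) + s)⁻¹)
          = y w * (((w : ℂ) + s) - ((s - t : ℝ) : ℂ) * (((w : ℂ) + s) * ((w : ℂ) + s)⁻¹)) := by ring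
        _ = y w * ((w : ℂ) + t) := by
            rw [mul_inv_cancel₀ h2]
            push_cast
            ring
        _ = 1 := h1
    have hfin : y = (y * (((Polynomial.X + Polynomial.C (s : ℂ)) : Polynomial ℂ).toContinuousMapOn
        (KS δ M))) * y' := by
      ext w
      have h2 := hne s hs1 w
      have h3 : ((Polynomial.X + Polynomial.C (s : ℂ)) : Polynomial ℂ).toContinuousMapOn (KS δ M) w
          = (w : ℂ) + s := by simp
      simp only [ContinuousMap.mul_apply, hy', h3]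
      rw [mul_assoc, mul_inv_cancel₀ h2, mul_one]
    rw [hfin]
    exact A.mul_mem hv hy'A
  have hiter : ∀ k : ℕ, Q ((1 + δ / 2) ^ k) → Q 1 := by
    intro k
    induction k with
    | zero => intro h; simpa using h
    | succ k ih =>
      intro h
      apply ih
      apply hpush _ (one_le_pow₀ (by linarith))
      rwa [pow_succ] at h
  have hQ1 : Q 1 := by
    obtain ⟨k, hk⟩ := pow_unbounded_of_one_lt (2 * M) (show (1 : ℝ) < 1 + δ / 2 by linarith)
    exact hiter k (hfar _ (one_le_pow₀ (by linarith)) hk.le)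
  let y : C(KS δ M, ℂ) := ⟨fun w => ((w : ℂ) + (1 : ℝ))⁻¹, by
    refine Continuous.inv₀ (by fun_prop) (fun w => hne 1 le_rfl w)⟩
  have hyA : y ∈ A := hQ1 y (fun w => inv_mul_cancel₀ (hne 1 le_rfl w))
  have hcl : y ∈ closure ((polynomialFunctions (KS δ M) : Subalgebra ℂ C(KS δ M, ℂ)) : Set C(KS δ M, ℂ)) := by
    rw [← Subalgebra.topologicalClosure_coe]
    exact hyA
  obtain ⟨g, hg, hgd⟩ := Metric.mem_closure_iff.mp hcl ε hε
  rw [polynomialFunctions_coe] at hg
  obtain ⟨p, rfl⟩ := hg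
  refine ⟨p, fun w hw hw2 => ?_⟩
  have hmem : w ∈ KS δ M := ⟨hw, hw2⟩
  have h1 := ContinuousMap.dist_apply_le_dist (f := y)
    (g := Polynomial.toContinuousMapOnAlgHom (KS δ M) p) (⟨w, hmem⟩ : KS δ M)
  have h2 : y ⟨w, hmem⟩ = (1 + w)⁻¹ := by
    show ((w : ℂ) + (1 : ℝ))⁻¹ = _
    rw [Complex.ofReal_one, add_comm]
  have h3 : (Polynomial.toContinuousMapOnAlgHom (KS δ M) p) ⟨w, hmem⟩ = p.eval w := by
    simp
  rw [h2, h3, dist_comm, dist_eq_norm] at h1
  linarith

end Pool.Agent.V11318.RZPole
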