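import Pool.Agent.V11318.RZBlock

set_option autoImplicit false

namespace Pool.Agent.V11318.RZStep

open MeasureTheory Set Pool.Agent.V11318.RZBlock
open scoped InnerProductSpace ENNReal

variable {V : Type*} [NormedAddCommGroup V] [InnerProductSpace ℂ V]

/-- sums of powers of linear forms -/
noncomputable def S (F : Finset V) (m N : ℕ) (c : F → Fin m) (z : V) : ℂ :=
  ∑ a : F, (((c a : Fin m) : ℕ) : ℂ) * (⟪(a : V), z⟫_ℂ) ^ N

lemma S_differentiable (F : Finset V) (m N : ℕ) (c : F → Fin m) : Differentiable ℂ (S F m N c) := by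
  have h : ∀ a : V, Differentiable ℂ (fun z : V => ⟪a, z⟫_ℂ) := fun a =>
    (innerSL ℂ a).differentiable
  unfold S
  refine Differentiable.fun_sum (fun a _ => ?_)
  exact ((h a).pow N).const_mul _

lemma S_smul (F : Finset V) (m N : ℕ) (c : F → Fin m) (s : ℂ) (z : V) :
    S F m N c (s • z) = s ^ N * S F m N c z := by
  unfold S
  rw [Finset.mul_sum]
  refine Finset.sum_congr rfl (fun a _ => ?_)
  rw [inner_smul_right, mul_pow]
  ring

lemma S_norm_le (F : Finset V) (hF : ∀ a ∈ F, ‖a‖ = 1) (m N : ℕ) (c : F → Fin m) (z : V) :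
    ‖S F m N c z‖ ≤ (F.card : ℝ) * m * ‖z‖ ^ N := by
  unfold S
  calc ‖∑ a : F, (((c a : Fin m) : ℕ) : ℂ) * (⟪(a : V), z⟫_ℂ) ^ N‖
      ≤ ∑ a : F, ‖(((c a : Fin m) : ℕ) : ℂ) * (⟪(a : V), z⟫_ℂ) ^ N‖ := norm_sum_le _ _
    _ ≤ ∑ _a : F, (m : ℝ) * ‖z‖ ^ N := by
        refine Finset.sum_le_sum (fun a _ => ?_)
        rw [norm_mul, norm_pow, Complex.norm_natCast]
        have h1 : ‖⟪(a : V), z⟫_ℂ‖ ≤ ‖z‖ := by
          calc _ ≤ ‖(a : V)‖ * ‖z‖ := norm_inner_le_norm _ _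
            _ = ‖z‖ := by rw [hF a a.2, one_mul]
        have h2 : (((c a : Fin m) : ℕ) : ℝ) ≤ m := by exact_mod_cast (c a).2.le
        gcongr
    _ = _ := by
        rw [Finset.sum_const, Finset.card_univ, Fintype.card_coe, nsmul_eq_mul]
        ring

/-- the bad set of directions (excluding the origin) -/
def Bad (F : Finset V) (m N : ℕ) (θ δ : ℝ) (s : (F → Fin m) × Fin m) : Set V :=
  {z | z ≠ 0 ∧ (‖S F m N s.1 z‖ < (θ * ‖z‖) ^ N / 2 ∨ ¬ Good δ (rot m s.2 * S F m N s.1 z))}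

lemma bad_measurable [MeasurableSpace V] [BorelSpace V] (F : Finset V) (m N : ℕ) (θ δ : ℝ)
    (s : (F → Fin m) × Fin m) : MeasurableSet (Bad F m N θ δ s) := by
  have hS : Continuous (S F m N s.1) := (S_differentiable F m N s.1).continuous
  have h : Bad F m N θ δ s = {z | z = 0}ᶜ ∩ ({z | ‖S F m N s.1 z‖ < (θ * ‖z‖) ^ N / 2} ∪
      {z | Good δ (rot m s.2 * S F m N s.1 z)}ᶜ) := by
    ext z
    simp only [Bad, mem_inter_iff, mem_union, mem_compl_iff, mem_ofPred_eq, ne_eq]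
  rw [h]
  refine MeasurableSet.inter ?_ (MeasurableSet.union ?_ ?_)
  · exact (isClosed_eq continuous_id continuous_const).measurableSet.compl
  · exact (isOpen_lt hS.norm (by fun_prop)).measurableSet
  · exact ((isClosed_good δ).preimage (continuous_const.mul hS)).measurableSet.compl

lemma bad_count (F : Finset V) (m N : ℕ) (θ δ : ℝ) (hθ : 0 < θ)
    (hnet : ∀ z : V, z ≠ 0 → ∃ a ∈ F, θ * ‖z‖ ≤ ‖⟪a, z⟫_ℂ‖)
    (hδ0 : 0 < δ) (hδ : δ ≤ 1 / 2) (hδm : 16 * δ * m < 1) (z : V) :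
    m * (Nat.card {s : (F → Fin m) × Fin m // z ∈ Bad F m N θ δ s})
      ≤ 2 * Nat.card ((F → Fin m) × Fin m) := by
  classical
  by_cases hz : z = 0
  · have : IsEmpty {s : (F → Fin m) × Fin m // z ∈ Bad F m N θ δ s} := by
      refine ⟨fun s => ?_⟩
      exact s.2.1 hz
    rw [Nat.card_of_isEmpty, mul_zero]
    exact Nat.zero_le _
  · obtain ⟨a0, ha0, ha0z⟩ := hnet z hz
    have hz' : 0 < ‖z‖ := norm_pos_iff.mpr hz
    set β : ℝ := (θ * ‖z‖) ^ N with hβ
    have hβ0 : 0 < β := by positivity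
    have hsm := count_small m (fun a : F => (⟪(a : V), z⟫_ℂ) ^ N) ⟨a0, ha0⟩ β (by
      rw [norm_pow, hβ]
      exact pow_le_pow_left₀ (by positivity) ha0z N)
    set Sm := Finset.univ.filter (fun c : F → Fin m =>
      ‖∑ i, (((c i : Fin m) : ℕ) : ℂ) * (⟪(i : V), z⟫_ℂ) ^ N‖ < β / 2) with hSm
    have hcardT : Nat.card ((F → Fin m) × Fin m) = m ^ Fintype.card F * m := by
      rw [Nat.card_eq_fintype_card, Fintype.card_prod, Fintype.card_fun, Fintype.card_fin]
    have h1 : Nat.card {s : (F → Fin m) × Fin m // z ∈ Bad F m N θ δ s}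
        ≤ Sm.card * m + m ^ Fintype.card F := by
      rw [Nat.card_eq_fintype_card, Fintype.card_subtype]
      set G := Finset.univ.filter (fun s : (F → Fin m) × Fin m =>
        ¬ (‖S F m N s.1 z‖ < β / 2) ∧ ¬ Good δ (rot m s.2 * S F m N s.1 z)) with hG
      have hsub : Finset.univ.filter (fun s : (F → Fin m) × Fin m => z ∈ Bad F m N θ δ s)
          ⊆ (Sm ×ˢ (Finset.univ : Finset (Fin m))) ∪ G := by
        intro s hs
        have hs' := (Finset.mem_filter.mp hs).2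
        by_cases hsmall : ‖S F m N s.1 z‖ < β / 2
        · refine Finset.mem_union_left _ ?_
          rw [Finset.mem_product]
          refine ⟨?_, Finset.mem_univ _⟩
          rw [hSm, Finset.mem_filter]
          exact ⟨Finset.mem_univ _, hsmall⟩
        · refine Finset.mem_union_right _ ?_
          rw [hG, Finset.mem_filter]
          refine ⟨Finset.mem_univ _, hsmall, ?_⟩
          rcases hs'.2 with h | h
          · exact absurd h hsmall
          · exact h
      have hGcard : G.card ≤ m ^ Fintype.card F := by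
        have hu : (Finset.univ : Finset (F → Fin m)).card = m ^ Fintype.card F := by
          rw [Finset.card_univ, Fintype.card_fun, Fintype.card_fin]
        rw [← hu]
        refine Finset.card_le_card_of_injOn (fun s => s.1) (fun s _ => Finset.mem_univ _) ?_
        intro s hs s' hs' hss
        have h1 := hs
        rw [hG, Finset.mem_coe, Finset.mem_filter] at h1
        have h2 := hs'
        rw [hG, Finset.mem_coe, Finset.mem_filter] at h2
        have hss' : s.1 = s'.1 := hss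
        have hne : S F m N s.1 z ≠ 0 := by
          intro h0
          apply h1.2.1
          rw [h0, norm_zero]
          positivity
        refine Prod.ext hss' ?_
        refine wedge_unique m δ hδ0 hδ hδm (S F m N s.1 z) hne s.2 s'.2 h1.2.2 ?_
        rw [hss']
        exact h2.2.2
      calc _ ≤ ((Sm ×ˢ (Finset.univ : Finset (Fin m))) ∪ G).card := Finset.card_le_card hsub
        _ ≤ (Sm ×ˢ (Finset.univ : Finset (Fin m))).card + G.card := Finset.card_union_le _ _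
        _ ≤ Sm.card * m + m ^ Fintype.card F := by
            rw [Finset.card_product, Finset.card_univ, Fintype.card_fin]
            omega
    rw [hcardT]
    calc m * (Nat.card {s : (F → Fin m) × Fin m // z ∈ Bad F m N θ δ s})
        ≤ m * (Sm.card * m + m ^ Fintype.card F) := Nat.mul_le_mul_left m h1
      _ = (m * Sm.card) * m + m ^ Fintype.card F * m := by ring
      _ ≤ (m ^ Fintype.card F) * m + m ^ Fintype.card F * m := by
          have := Nat.mul_le_mul_right m hsm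
          omega
      _ = _ := by ring

lemma num1 (ρ C0 r t nz θ : ℝ) (N : ℕ) (hr : 0 < r) (hC : 0 < C0) (hnz : 0 < nz) :
    ρ / (C0 * r ^ N) * (t / nz) ^ N * ((θ * nz) ^ N / 2) = ρ / (2 * C0) * (θ * t / r) ^ N := by
  rw [div_pow, mul_pow, div_pow, mul_pow]
  field_simp

lemma num2 (ρ C0 L : ℝ) (hρ : 0 < ρ) (hC : 0 < C0) : L = ρ / (2 * C0) * (2 * L * C0 / ρ) := by
  field_simp

theorem block [ProperSpace V] [MeasurableSpace V] [BorelSpace V] (μ : Measure V)
    [IsFiniteMeasure μ] (r r' : ℝ) (hr : 0 < r) (hrr : r < r') (hr1 : r' ≤ 1) (m : ℕ) (hm : 0 < m)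
    (ε τ : ℝ) (hε : 0 < ε) (hτ : 0 < τ) :
    ∃ (h : V → ℂ) (B : Set V), Differentiable ℂ h ∧ (m : ℝ) * μ.real B ≤ 2 * μ.real univ ∧
      (∀ z, ‖z‖ ≤ r → ‖h z - 1‖ ≤ ε) ∧
      (∀ z, z ∉ B → z ≠ 0 → ∀ t : ℝ, 0 ≤ t → t ≤ 1 →
        ‖h (((t / ‖z‖ : ℝ) : ℂ) • z)‖ ≤ 32 * m + 1) ∧
      (∀ z, z ∉ B → z ≠ 0 → ∀ t : ℝ, r' ≤ t → t ≤ 1 →
        ‖h (((t / ‖z‖ : ℝ) : ℂ) • z)‖ ≤ τ) := by
  classical
  have hr'0 : 0 < r' := hr.trans hrr
  have hmR : (1 : ℝ) ≤ m := by exact_mod_cast hm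
  -- parameters
  set θ : ℝ := (r / r' + 1) / 2 with hθ
  have hq1 : r / r' < 1 := (div_lt_one hr'0).mpr hrr
  have hq0 : 0 < r / r' := by positivity
  have hθ1 : θ < 1 := by rw [hθ]; linarith
  have hθ0 : 0 < θ := by rw [hθ]; linarith
  have hgain : 1 < θ * r' / r := by
    rw [one_lt_div hr, hθ]
    have : (r / r' + 1) / 2 * r' = (r + r') / 2 := by field_simp
    rw [this]
    linarith
  obtain ⟨F, hF, hnet⟩ := exists_net (V := V) θ hθ1
  set δ : ℝ := 1 / (32 * m) with hδ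
  have hδ0 : 0 < δ := by positivity
  have hδ12 : δ ≤ 1 / 2 := by
    rw [hδ]
    apply one_div_le_one_div_of_le (by norm_num)
    linarith
  have hδm : 16 * δ * m < 1 := by
    rw [hδ]
    have : (16 : ℝ) * (1 / (32 * m)) * m = 1 / 2 := by field_simp; norm_num
    rw [this]
    norm_num
  set ρ : ℝ := min (1 / 2) (ε / 4) with hρ
  have hρ0 : 0 < ρ := by rw [hρ]; positivity
  have hρ1 : ρ ≤ 1 / 2 := min_le_left _ _
  have hρ2 : ρ ≤ ε / 4 := min_le_right _ _
  set ε1 : ℝ := min (ε / 2) (min (τ / 2) 1) with hε1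
  have hε10 : 0 < ε1 := by rw [hε1]; positivity
  have hε1a : ε1 ≤ ε / 2 := min_le_left _ _
  have hε1b : ε1 ≤ τ / 2 := (min_le_right _ _).trans (min_le_left _ _)
  have hε1c : ε1 ≤ 1 := (min_le_right _ _).trans (min_le_right _ _)
  set L : ℝ := 1 + 2 / τ with hL
  have hL0 : 0 < L := by positivity
  set C0 : ℝ := 2 * ((F.card : ℝ) * m) + 1 with hC0
  have hC0pos : 0 < C0 := by positivity
  obtain ⟨N, hN⟩ := pow_unbounded_of_one_lt (2 * L * C0 / ρ) hgain
  set lam : ℝ := ρ / (C0 * r ^ N) with hlam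
  have hlam0 : 0 < lam := by positivity
  -- choice of coefficients
  have : Nonempty (Fin m) := ⟨⟨0, hm⟩⟩
  obtain ⟨s, hs⟩ := exists_index μ (Bad F m N θ δ) (bad_measurable F m N θ δ) 2 m
    (bad_count F m N θ δ hθ0 hnet hδ0 hδ12 hδm)
  set W : V → ℂ := fun z => rot m s.2 * S F m N s.1 z with hW
  have hWd : Differentiable ℂ W := (S_differentiable F m N s.1).const_mul _
  have hWn : ∀ z, ‖W z‖ ≤ C0 * ‖z‖ ^ N := by
    intro z
    rw [hW]
    simp only
    rw [norm_mul]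
    calc ‖rot m s.2‖ * ‖S F m N s.1 z‖ ≤ 2 * ((F.card : ℝ) * m * ‖z‖ ^ N) := by
          gcongr
          · exact rot_norm_le m s.2
          · exact S_norm_le F hF m N s.1 z
      _ ≤ C0 * ‖z‖ ^ N := by
          rw [hC0]
          have : 0 ≤ ‖z‖ ^ N := by positivity
          nlinarith
  have hWs : ∀ (c : ℂ) (z : V), W (c • z) = c ^ N * W z := by
    intro c z
    rw [hW]
    simp only
    rw [S_smul]
    ring
  obtain ⟨p, hp⟩ := RZPole.approx δ (lam * C0) ε1 hδ0 hδ12 hε10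
  refine ⟨fun z => p.eval ((lam : ℂ) * W z), Bad F m N θ δ s, ?_, ?_, ?_, ?_, ?_⟩
  · have h1 : Differentiable ℂ (fun w : ℂ => p.eval w) := p.differentiable
    exact h1.comp (hWd.const_mul _)
  · exact_mod_cast hs
  · intro z hz
    have hz1 : ‖z‖ ≤ 1 := by linarith
    set w : ℂ := (lam : ℂ) * W z with hw
    have hwn : ‖w‖ ≤ lam * (C0 * ‖z‖ ^ N) := by
      rw [hw, norm_mul, Complex.norm_real, Real.norm_of_nonneg hlam0.le]
      exact mul_le_mul_of_nonneg_left (hWn z) hlam0.le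
    have hwρ : ‖w‖ ≤ ρ := by
      calc ‖w‖ ≤ lam * (C0 * ‖z‖ ^ N) := hwn
        _ ≤ lam * (C0 * r ^ N) := by gcongr
        _ = ρ := by rw [hlam]; field_simp
    have hwM : ‖w‖ ≤ lam * C0 := by
      calc ‖w‖ ≤ lam * (C0 * ‖z‖ ^ N) := hwn
        _ ≤ lam * (C0 * 1) := by
            gcongr
            exact pow_le_one₀ (norm_nonneg _) hz1
        _ = lam * C0 := by ring
    have h1 := hp w hwM (by
      intro t ht
      have h2 : t - ‖w‖ ≤ ‖w + t‖ := by
        have h3 : ‖(t : ℂ)‖ ≤ ‖w + t‖ + ‖w‖ := by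
          calc ‖(t : ℂ)‖ = ‖(w + t) - w‖ := by congr 1; ring
            _ ≤ _ := norm_sub_le _ _
        rw [Complex.norm_real, Real.norm_of_nonneg (by linarith)] at h3
        linarith
      nlinarith)
    have h2 : ‖(1 + w)⁻¹ - 1‖ ≤ 2 * ρ := by
      have h3 : 1 / 2 ≤ ‖1 + w‖ := by
        have h4 : ‖(1 : ℂ)‖ ≤ ‖1 + w‖ + ‖w‖ := by
          calc ‖(1 : ℂ)‖ = ‖(1 + w) - w‖ := by congr 1; ring
            _ ≤ _ := norm_sub_le _ _
        rw [norm_one] at h4
        linarith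
      have h5 : 1 + w ≠ 0 := by
        intro h
        rw [h, norm_zero] at h3
        norm_num at h3
      have h6 : (1 + w)⁻¹ - 1 = -w * (1 + w)⁻¹ := by field_simp; ring
      rw [h6, norm_mul, norm_neg, norm_inv]
      have h7 : ‖1 + w‖⁻¹ ≤ 2 := by
        rw [inv_le_comm₀ (by linarith) (by norm_num)]
        linarith
      calc ‖w‖ * ‖1 + w‖⁻¹ ≤ ρ * 2 := by gcongr
        _ = 2 * ρ := by ring
    calc ‖p.eval w - 1‖ = ‖(p.eval w - (1 + w)⁻¹) + ((1 + w)⁻¹ - 1)‖ := by congr 1; ring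
      _ ≤ ‖p.eval w - (1 + w)⁻¹‖ + ‖(1 + w)⁻¹ - 1‖ := norm_add_le _ _
      _ ≤ ε := by linarith
  · intro z hzB hz0 t ht0 ht1
    have hzn : 0 < ‖z‖ := norm_pos_iff.mpr hz0
    have hgood : Good δ (W z) := by
      by_contra hbad
      exact hzB ⟨hz0, Or.inr hbad⟩
    have hWt : W (((t / ‖z‖ : ℝ) : ℂ) • z) = (((t / ‖z‖) ^ N : ℝ) : ℂ) * W z := by
      rw [hWs]
      push_cast
      rfl
    set w : ℂ := (lam : ℂ) * W (((t / ‖z‖ : ℝ) : ℂ) • z) with hw
    have hw2 : w = ((lam * (t / ‖z‖) ^ N : ℝ) : ℂ) * W z := by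
      rw [hw, hWt]
      push_cast
      ring
    have hwg : Good δ w := by
      rw [hw2]
      exact good_smul δ (by linarith) _ hgood _ (by positivity)
    have hwM : ‖w‖ ≤ lam * C0 := by
      have hzt : ‖(((t / ‖z‖ : ℝ) : ℂ) • z)‖ = t := by
        rw [norm_smul, Complex.norm_real, Real.norm_of_nonneg (by positivity)]
        field_simp
      calc ‖w‖ = lam * ‖W (((t / ‖z‖ : ℝ) : ℂ) • z)‖ := by
            rw [hw, norm_mul, Complex.norm_real, Real.norm_of_nonneg hlam0.le]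
        _ ≤ lam * (C0 * t ^ N) := by
            have := hWn (((t / ‖z‖ : ℝ) : ℂ) • z)
            rw [hzt] at this
            exact mul_le_mul_of_nonneg_left this hlam0.le
        _ ≤ lam * (C0 * 1) := by
            gcongr
            exact pow_le_one₀ ht0 ht1
        _ = lam * C0 := by ring
    have h1 := hp w hwM (fun t ht => hwg t (by linarith))
    have h2 : δ ≤ ‖1 + w‖ := by
      have := hwg 1 zero_le_one
      rw [add_comm]
      simpa using this
    have h3 : ‖(1 + w)⁻¹‖ ≤ 32 * m := by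
      rw [norm_inv]
      calc ‖1 + w‖⁻¹ ≤ δ⁻¹ := inv_anti₀ hδ0 h2
        _ = 32 * m := by rw [hδ]; field_simp
    calc ‖p.eval w‖ = ‖(p.eval w - (1 + w)⁻¹) + (1 + w)⁻¹‖ := by congr 1; ring
      _ ≤ ‖p.eval w - (1 + w)⁻¹‖ + ‖(1 + w)⁻¹‖ := norm_add_le _ _
      _ ≤ 32 * m + 1 := by linarith
  · intro z hzB hz0 t ht0 ht1
    have hzn : 0 < ‖z‖ := norm_pos_iff.mpr hz0
    have ht00 : 0 < t := by linarith
    have hgood : Good δ (W z) := by
      by_contra hbad
      exact hzB ⟨hz0, Or.inr hbad⟩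
    have hlarge : (θ * ‖z‖) ^ N / 2 ≤ ‖W z‖ := by
      have h1 : (θ * ‖z‖) ^ N / 2 ≤ ‖S F m N s.1 z‖ := by
        by_contra hsm
        exact hzB ⟨hz0, Or.inl (not_le.mp hsm)⟩
      rw [hW]
      simp only
      rw [norm_mul]
      have h2 := one_le_rot_norm m s.2
      nlinarith [norm_nonneg (S F m N s.1 z)]
    have hWt : W (((t / ‖z‖ : ℝ) : ℂ) • z) = (((t / ‖z‖) ^ N : ℝ) : ℂ) * W z := by
      rw [hWs]
      push_cast
      rfl
    set w : ℂ := (lam : ℂ) * W (((t / ‖z‖ : ℝ) : ℂ) • z) with hw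
    have hw2 : w = ((lam * (t / ‖z‖) ^ N : ℝ) : ℂ) * W z := by
      rw [hw, hWt]
      push_cast
      ring
    have hwg : Good δ w := by
      rw [hw2]
      exact good_smul δ (by linarith) _ hgood _ (by positivity)
    have hwM : ‖w‖ ≤ lam * C0 := by
      have hzt : ‖(((t / ‖z‖ : ℝ) : ℂ) • z)‖ = t := by
        rw [norm_smul, Complex.norm_real, Real.norm_of_nonneg (by positivity)]
        field_simp
      calc ‖w‖ = lam * ‖W (((t / ‖z‖ : ℝ) : ℂ) • z)‖ := by
            rw [hw, norm_mul, Complex.norm_real, Real.norm_of_nonneg hlam0.le]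
        _ ≤ lam * (C0 * t ^ N) := by
            have := hWn (((t / ‖z‖ : ℝ) : ℂ) • z)
            rw [hzt] at this
            exact mul_le_mul_of_nonneg_left this hlam0.le
        _ ≤ lam * (C0 * 1) := by
            gcongr
            exact pow_le_one₀ ht00.le ht1
        _ = lam * C0 := by ring
    have hwL : L ≤ ‖w‖ := by
      have h1 : ‖w‖ = lam * (t / ‖z‖) ^ N * ‖W z‖ := by
        rw [hw2, norm_mul, Complex.norm_real, Real.norm_of_nonneg (by positivity)]
      have h2 : lam * (t / ‖z‖) ^ N * ((θ * ‖z‖) ^ N / 2) ≤ ‖w‖ := by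
        rw [h1]
        gcongr
      have h3 : lam * (t / ‖z‖) ^ N * ((θ * ‖z‖) ^ N / 2) = ρ / (2 * C0) * (θ * t / r) ^ N := by
        rw [hlam]
        exact num1 ρ C0 r t ‖z‖ θ N hr hC0pos hzn
      have h4 : ρ / (2 * C0) * (θ * r' / r) ^ N ≤ ρ / (2 * C0) * (θ * t / r) ^ N := by
        gcongr
      have h5 : L ≤ ρ / (2 * C0) * (θ * r' / r) ^ N := by
        calc L = ρ / (2 * C0) * (2 * L * C0 / ρ) := num2 ρ C0 L hρ0 hC0pos
          _ ≤ ρ / (2 * C0) * (θ * r' / r) ^ N := by gcongr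
      linarith
    have h1 := hp w hwM (fun t ht => hwg t (by linarith))
    have h2 : 2 / τ ≤ ‖1 + w‖ := by
      have h3 : ‖w‖ ≤ ‖1 + w‖ + ‖(1 : ℂ)‖ := by
        calc ‖w‖ = ‖(1 + w) - 1‖ := by congr 1; ring
          _ ≤ _ := norm_sub_le _ _
      rw [norm_one] at h3
      rw [hL] at hwL
      linarith
    have h3 : ‖(1 + w)⁻¹‖ ≤ τ / 2 := by
      rw [norm_inv]
      calc ‖1 + w‖⁻¹ ≤ (2 / τ)⁻¹ := inv_anti₀ (by positivity) h2
        _ = τ / 2 := by rw [inv_div]
    calc ‖p.eval w‖ = ‖(p.eval w - (1 + w)⁻¹) + (1 + w)⁻¹‖ := by congr 1; ring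
      _ ≤ ‖p.eval w - (1 + w)⁻¹‖ + ‖(1 + w)⁻¹‖ := norm_add_le _ _
      _ ≤ τ := by linarith

end Pool.Agent.V11318.RZStep
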