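import Pool.Agent.H951R5.AR.Defs

/-!
# Explicit size of the small elements of a real quadratic field
-/

set_option autoImplicit false

namespace Pool.Agent.V11318.SP

open NumberField Pool.Agent.H951R5.AR
open scoped nonZeroDivisors

variable {K : Type} [Field K] [NumberField K]

/-- a real embedding as an algebra embedding into the complex numbers -/
noncomputable def cx (σ : K →+* ℝ) : K →ₐ[ℚ] ℂ := (Complex.ofRealHom.comp σ).toRatAlgHom

theorem cx_apply (σ : K →+* ℝ) (x : K) : cx σ x = ((σ x : ℝ) : ℂ) := rfl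

open scoped Classical in
theorem univ_eq (h2 : Module.finrank ℚ K = 2) (σ τ : K →+* ℝ) (hne : σ ≠ τ) :
    (Finset.univ : Finset (K →ₐ[ℚ] ℂ)) = {cx σ, cx τ} := by
  symm
  apply Finset.eq_univ_of_card
  have hne' : cx σ ≠ cx τ := by
    intro h
    apply hne
    ext x
    have := congrArg (fun f : K →ₐ[ℚ] ℂ => f x) h
    simp only [cx_apply] at this
    exact_mod_cast this
  rw [Finset.card_pair hne', AlgHom.card ℚ K ℂ, h2]

theorem trace_real (h2 : Module.finrank ℚ K = 2) (σ τ : K →+* ℝ) (hne : σ ≠ τ) (x : K) :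
    ((Algebra.trace ℚ K x : ℚ) : ℝ) = σ x + τ x := by
  classical
  have h := trace_eq_sum_embeddings (K := ℚ) ℂ (x := x)
  have hne' : cx σ ≠ cx τ := by
    intro h
    apply hne
    ext x
    have := congrArg (fun f : K →ₐ[ℚ] ℂ => f x) h
    simp only [cx_apply] at this
    exact_mod_cast this
  rw [univ_eq h2 σ τ hne, Finset.sum_pair hne', cx_apply, cx_apply] at h
  have h' : (((Algebra.trace ℚ K x : ℚ) : ℝ) : ℂ) = ((σ x + τ x : ℝ) : ℂ) := by
    rw [Complex.ofReal_add, ← h]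
    simp
  exact_mod_cast h'

theorem norm_real (h2 : Module.finrank ℚ K = 2) (σ τ : K →+* ℝ) (hne : σ ≠ τ) (x : K) :
    ((Algebra.norm ℚ x : ℚ) : ℝ) = σ x * τ x := by
  classical
  have h := Algebra.norm_eq_prod_embeddings ℚ ℂ x
  have hne' : cx σ ≠ cx τ := by
    intro h
    apply hne
    ext x
    have := congrArg (fun f : K →ₐ[ℚ] ℂ => f x) h
    simp only [cx_apply] at this
    exact_mod_cast this
  rw [univ_eq h2 σ τ hne, Finset.prod_pair hne', cx_apply, cx_apply] at h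
  have h' : (((Algebra.norm ℚ x : ℚ) : ℝ) : ℂ) = ((σ x * τ x : ℝ) : ℂ) := by
    rw [Complex.ofReal_mul, ← h]
    simp
  exact_mod_cast h'

theorem not_sq {d : ℕ} (hd : 2 ≤ d) (hsq : Squarefree d) : ¬ IsSquare d := by
  rintro ⟨r, rfl⟩
  have h1 := hsq r (dvd_refl _)
  rw [Nat.isUnit_iff] at h1
  subst h1
  omega

/-- the embeddings differ by the sign on the square root -/
theorem conj_sqrt (h2 : Module.finrank ℚ K = 2) (σ τ : K →+* ℝ) (hne : σ ≠ τ) {d : ℕ} (hd : 2 ≤ d)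
    (hsq : Squarefree d) {s : K} (hs : s ^ 2 = (d : K)) : τ s = - σ s := by
  have h1 : (σ s) ^ 2 = (d : ℝ) := by rw [← map_pow, hs, map_natCast]
  have h3 : (τ s) ^ 2 = (d : ℝ) := by rw [← map_pow, hs, map_natCast]
  have h4 : τ s = σ s ∨ τ s = - σ s := sq_eq_sq_iff_eq_or_eq_neg.1 (h3.trans h1.symm)
  rcases h4 with h4 | h4
  · exfalso
    have h5 := trace_real h2 σ τ hne s
    rw [h4] at h5
    have h6 : ((Algebra.trace ℚ K s / 2 : ℚ) : ℝ) ^ 2 = (d : ℝ) := by
      rw [← h1]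
      push_cast
      rw [h5]
      ring
    have h7 : (Algebra.trace ℚ K s / 2) ^ 2 = (d : ℚ) := by exact_mod_cast h6
    apply not_sq hd hsq
    have h8 : IsSquare ((d : ℕ) : ℚ) := ⟨Algebra.trace ℚ K s / 2, by rw [← h7]; ring⟩
    exact Rat.isSquare_natCast_iff.1 h8
  · exact h4

theorem smallProd_norm {B n : ℝ} (hB : 1 ≤ B) {A : Ideal (𝓞 K)} (h : SmallProd K B n A) :
    A ≠ ⊥ ∧ 1 ≤ ((Ideal.absNorm A : ℕ) : ℝ) ∧ ((Ideal.absNorm A : ℕ) : ℝ) ≤ B ^ n := by
  obtain ⟨L, hL, hn, rfl⟩ := h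
  have key : ∀ L : Multiset (Ideal (𝓞 K)),
      (∀ P ∈ L, P.IsPrime ∧ P ≠ ⊥ ∧ ((Ideal.absNorm P : ℕ) : ℝ) ≤ B) →
      L.prod ≠ ⊥ ∧ ((Ideal.absNorm L.prod : ℕ) : ℝ) ≤ B ^ L.card := by
    intro L
    induction L using Multiset.induction_on with
    | empty =>
      intro _
      rw [Multiset.prod_zero, Ideal.one_eq_top]
      refine ⟨top_ne_bot, ?_⟩
      simp
    | cons P L ih =>
      intro hL
      obtain ⟨h1, h2⟩ := ih fun Q hQ => hL Q (Multiset.mem_cons_of_mem hQ)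
      obtain ⟨-, hP0, hPB⟩ := hL P (Multiset.mem_cons_self P L)
      rw [Multiset.prod_cons, Multiset.card_cons, map_mul]
      refine ⟨mul_ne_zero hP0 h1, ?_⟩
      push_cast
      rw [pow_succ, mul_comm]
      exact mul_le_mul h2 hPB (Nat.cast_nonneg _) (by positivity)
  obtain ⟨h1, h2⟩ := key L hL
  refine ⟨h1, ?_, ?_⟩
  · have : Ideal.absNorm L.prod ≠ 0 := by
      rw [Ne, Ideal.absNorm_eq_zero_iff]
      exact h1
    exact_mod_cast Nat.one_le_iff_ne_zero.2 this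
  · refine h2.trans ?_
    rw [← Real.rpow_natCast]
    exact Real.rpow_le_rpow_of_exponent_le hB hn

/-- A small element is a quotient of explicitly bounded integers. -/
theorem small_height (h2 : Module.finrank ℚ K = 2) (σ τ : K →+* ℝ) (hne : σ ≠ τ) {d : ℕ} (hd : 2 ≤ d)
    (hsq : Squarefree d) {s : K} (hs : s ^ 2 = (d : K)) {B n : ℝ} (hB : 1 ≤ B) {x : Kˣ}
    (hx : x ∈ Gen K σ τ B n) :
    ∃ u v w : ℤ, w ≠ 0 ∧ (w : K) * (x : K) = (u : K) + (v : K) * s ∧
      |(u : ℝ)| ≤ 50 * d * B ^ n ∧ |(v : ℝ)| ≤ 50 * d * B ^ n ∧ |(w : ℝ)| ≤ 50 * d * B ^ n := by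
  obtain ⟨⟨A, A', hA, hA', hAA⟩, hlog⟩ := hx
  obtain ⟨hA0, hA1, hA2⟩ := smallProd_norm hB hA
  obtain ⟨hA0', hA1', hA2'⟩ := smallProd_norm hB hA'
  set N' : ℕ := Ideal.absNorm A' with hN'
  set Q : ℝ := B ^ n with hQ
  have hx0 : (x : K) ≠ 0 := x.ne_zero
  have hσx : σ (x : K) ≠ 0 := (map_ne_zero σ).2 hx0
  have hτx : τ (x : K) ≠ 0 := (map_ne_zero τ).2 hx0
  have hσ0 : 0 < |σ (x : K)| := abs_pos.2 hσx
  have hτ0 : 0 < |τ (x : K)| := abs_pos.2 hτx
  -- the product of the absolute values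
  have hprod : |σ (x : K)| * |τ (x : K)| * N' = Ideal.absNorm A := by
    have h1 := congrArg FractionalIdeal.absNorm hAA
    rw [map_mul, FractionalIdeal.absNorm_span_singleton, FractionalIdeal.coeIdeal_absNorm,
      FractionalIdeal.coeIdeal_absNorm] at h1
    have h3 : ((|Algebra.norm ℚ (x : K)| * (N' : ℚ) : ℚ) : ℝ) = ((Ideal.absNorm A : ℚ) : ℝ) := by
      rw [h1]
    rw [← abs_mul, ← norm_real h2 σ τ hne]
    push_cast at h3
    exact h3
  -- both are at most `e ^ 5 |σ x| |τ x|` when squared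
  have hlog' := hlog
  rw [abs_div, Real.log_div hσ0.ne' hτ0.ne', abs_le] at hlog'
  have he : Real.exp 5 ≤ 256 := by
    have h1 := Real.exp_one_lt_d9
    have h3 : Real.exp 5 = Real.exp 1 ^ 5 := by
      rw [← Real.exp_nat_mul]
      norm_num
    rw [h3]
    have h4 : Real.exp 1 ^ 5 ≤ (2.7182818286 : ℝ) ^ 5 :=
      pow_le_pow_left₀ (Real.exp_pos 1).le h1.le 5
    refine h4.trans ?_
    norm_num
  have hσle : |σ (x : K)| ≤ 256 * |τ (x : K)| := by
    have h1 : Real.log |σ (x : K)| ≤ Real.log (Real.exp 5 * |τ (x : K)|) := by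
      rw [Real.log_mul (Real.exp_pos 5).ne' hτ0.ne', Real.log_exp]
      linarith
    have h3 := (Real.log_le_log_iff hσ0 (by positivity)).1 h1
    exact h3.trans (mul_le_mul_of_nonneg_right he hτ0.le)
  have hτle : |τ (x : K)| ≤ 256 * |σ (x : K)| := by
    have h1 : Real.log |τ (x : K)| ≤ Real.log (Real.exp 5 * |σ (x : K)|) := by
      rw [Real.log_mul (Real.exp_pos 5).ne' hσ0.ne', Real.log_exp]
      linarith
    have h3 := (Real.log_le_log_iff hτ0 (by positivity)).1 h1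
    exact h3.trans (mul_le_mul_of_nonneg_right he hσ0.le)
  have hN'0 : (0 : ℝ) < N' := by linarith
  have hQ1 : 1 ≤ Q := hA1.trans hA2
  have bound : ∀ a b : ℝ, 0 < a → 0 < b → a ≤ 256 * b → a * b * N' = Ideal.absNorm A →
      (N' : ℝ) * a ≤ 16 * Q := by
    intro a b ha hb hab hp
    have h1 : ((N' : ℝ) * a) ^ 2 ≤ (16 * Q) ^ 2 := by
      have h3 : ((N' : ℝ) * a) ^ 2 ≤ 256 * (a * b * N') * N' := by
        nlinarith [mul_le_mul_of_nonneg_left hab (by positivity : (0 : ℝ) ≤ N' * N' * a)]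
      have h4 : 256 * (a * b * N') * N' ≤ 256 * Q * Q := by
        rw [hp]
        have := mul_le_mul hA2 hA2' hN'0.le (by linarith)
        nlinarith
      nlinarith
    exact le_of_sq_le_sq h1 (by positivity)
  have hσb : (N' : ℝ) * |σ (x : K)| ≤ 16 * Q := bound _ _ hσ0 hτ0 hσle hprod
  have hτb : (N' : ℝ) * |τ (x : K)| ≤ 16 * Q :=
    bound _ _ hτ0 hσ0 hτle (by rw [mul_comm |τ (x : K)|]; exact hprod)
  -- the integral element
  have hint : IsIntegral ℤ ((N' : K) * (x : K)) := by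
    have h1 : (N' : K) * (x : K) ∈ (A : FractionalIdeal (𝓞 K)⁰ K) := by
      rw [← hAA, mul_comm (N' : K)]
      apply FractionalIdeal.mul_mem_mul
      · exact FractionalIdeal.mem_spanSingleton_self _ _
      · rw [FractionalIdeal.mem_coeIdeal]
        exact ⟨(N' : 𝓞 K), Ideal.absNorm_mem A', by simp⟩
    rw [FractionalIdeal.mem_coeIdeal] at h1
    obtain ⟨a, -, ha⟩ := h1
    rw [← ha]
    exact a.isIntegral_coe
  have hsint : IsIntegral ℤ s := by
    refine IsIntegral.of_pow (n := 2) (by norm_num) ?_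
    rw [hs]
    exact isIntegral_algebraMap (R := ℤ) (A := K) (x := (d : ℤ)) |> fun h => by simpa using h
  obtain ⟨p, hp⟩ := IsIntegrallyClosed.isIntegral_iff.1
    (Algebra.isIntegral_trace (L := ℚ) hint)
  obtain ⟨q, hq⟩ := IsIntegrallyClosed.isIntegral_iff.1
    (Algebra.isIntegral_trace (L := ℚ) (hint.mul hsint))
  have hτs := conj_sqrt h2 σ τ hne hd hsq hs
  have hσs2 : (σ s) ^ 2 = (d : ℝ) := by rw [← map_pow, hs, map_natCast]
  have hpR : (p : ℝ) = N' * σ (x : K) + N' * τ (x : K) := by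
    have h1 := trace_real h2 σ τ hne ((N' : K) * (x : K))
    rw [← hp] at h1
    rw [map_mul, map_mul, map_natCast, map_natCast] at h1
    rw [← h1]
    simp
  have hqR : (q : ℝ) = N' * σ (x : K) * σ s - N' * τ (x : K) * σ s := by
    have h1 := trace_real h2 σ τ hne ((N' : K) * (x : K) * s)
    rw [← hq] at h1
    rw [map_mul, map_mul, map_mul, map_mul, map_natCast, map_natCast, hτs] at h1
    have h3 : ((algebraMap ℤ ℚ q : ℚ) : ℝ) = (q : ℝ) := by simp
    rw [h3] at h1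
    rw [h1]
    ring
  have hd1 : (1 : ℝ) ≤ d := by exact_mod_cast (by omega : 1 ≤ d)
  have hσs : |σ s| ≤ d := by
    rw [← abs_of_nonneg (by linarith : (0 : ℝ) ≤ d)]
    apply sq_le_sq.1
    rw [hσs2]
    nlinarith
  refine ⟨d * p, q, 2 * d * N', ?_, ?_, ?_, ?_, ?_⟩
  · have h1 : N' ≠ 0 := by
      intro h
      rw [h] at hN'0
      simp at hN'0
    have h3 : d ≠ 0 := by omega
    positivity
  · apply σ.injective
    rw [map_mul, map_add, map_mul, map_intCast, map_intCast, map_intCast]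
    push_cast
    rw [hpR, hqR]
    have : (N' * σ (x : K) * σ s - N' * τ (x : K) * σ s) * σ s =
        (N' * σ (x : K) - N' * τ (x : K)) * (σ s) ^ 2 := by ring
    rw [this, hσs2]
    ring
  · push_cast
    rw [hpR, abs_mul, abs_of_nonneg (by linarith : (0 : ℝ) ≤ d)]
    have h1 : |(N' : ℝ) * σ (x : K) + N' * τ (x : K)| ≤ 32 * Q := by
      refine (abs_add_le _ _).trans ?_
      rw [abs_mul, abs_mul, abs_of_nonneg hN'0.le]
      linarith
    calc (d : ℝ) * |(N' : ℝ) * σ (x : K) + N' * τ (x : K)| ≤ d * (32 * Q) :=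
          mul_le_mul_of_nonneg_left h1 (by linarith)
      _ ≤ 50 * d * Q := by nlinarith [mul_nonneg (by linarith : (0 : ℝ) ≤ d) (by linarith : (0 : ℝ) ≤ Q)]
  · rw [hqR]
    have h1 : (N' : ℝ) * σ (x : K) * σ s - N' * τ (x : K) * σ s =
        (N' * σ (x : K) - N' * τ (x : K)) * σ s := by ring
    rw [h1, abs_mul]
    have h3 : |(N' : ℝ) * σ (x : K) - N' * τ (x : K)| ≤ 32 * Q := by
      refine (abs_sub _ _).trans ?_
      rw [abs_mul, abs_mul, abs_of_nonneg hN'0.le]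
      linarith
    calc |(N' : ℝ) * σ (x : K) - N' * τ (x : K)| * |σ s| ≤ 32 * Q * d :=
          mul_le_mul h3 hσs (abs_nonneg _) (by linarith)
      _ ≤ 50 * d * Q := by nlinarith [mul_nonneg (by linarith : (0 : ℝ) ≤ d) (by linarith : (0 : ℝ) ≤ Q)]
  · push_cast
    rw [abs_of_nonneg (by positivity)]
    nlinarith [mul_le_mul_of_nonneg_left hA2' (by linarith : (0 : ℝ) ≤ 2 * d),
      mul_nonneg (by linarith : (0 : ℝ) ≤ d) (by linarith : (0 : ℝ) ≤ Q)]

end Pool.Agent.V11318.SP
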