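import Mathlib

/-!
# Few small vectors generate a lattice

If a set `G` of integral vectors of `ℚ ^ ι` with entries of absolute value at most `M` spans `ℚ ^ ι`, then the
subgroup generated by `G` is generated by at most `N + log₂ (N! M ^ N)` members of `G`, `N = |ι|`.
-/

set_option autoImplicit false

namespace Pool.Agent.V11318.SP

/-- from a subgroup of finite index `k` one reaches the subgroup generated by `G` by adding at most `log₂ k`
members of `G` -/
theorem chain {E : Type*} [AddCommGroup E] (G : Set E) (L : AddSubgroup E) (hGL : AddSubgroup.closure G ≤ L) :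
    ∀ (k : ℕ) (H : AddSubgroup E), H ≤ AddSubgroup.closure G → H.relIndex L ≠ 0 → H.relIndex L ≤ k →
      ∃ T : Finset E, (T : Set E) ⊆ G ∧ H ⊔ AddSubgroup.closure (T : Set E) = AddSubgroup.closure G ∧
        T.card ≤ Nat.log 2 k := by
  classical
  intro k
  induction k using Nat.strong_induction_on with
  | _ k ih =>
    intro H hH h0 hk
    by_cases hG : G ⊆ H
    · refine ⟨∅, by simp, ?_, by simp⟩
      simp only [Finset.coe_empty, AddSubgroup.closure_empty, sup_bot_eq]
      exact le_antisymm hH ((AddSubgroup.closure_le _).2 hG)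
    · obtain ⟨g, hg, hgH⟩ := Set.not_subset.1 hG
      set H' : AddSubgroup E := H ⊔ AddSubgroup.closure {g} with hH'
      have hHH' : H ≤ H' := le_sup_left
      have hgH' : g ∈ H' := (le_sup_right : AddSubgroup.closure {g} ≤ H') (AddSubgroup.subset_closure (by simp))
      have hH'G : H' ≤ AddSubgroup.closure G :=
        sup_le hH ((AddSubgroup.closure_le _).2 (by
          intro x hx
          rw [Set.mem_singleton_iff] at hx
          rw [hx]
          exact AddSubgroup.subset_closure hg))
      have hmul : H.relIndex H' * H'.relIndex L = H.relIndex L :=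
        AddSubgroup.relIndex_mul_relIndex H H' L hHH' (hH'G.trans hGL)
      have h1 : H.relIndex H' ≠ 1 := fun h => hgH (AddSubgroup.relIndex_eq_one.1 h hgH')
      have h2 : H.relIndex H' ≠ 0 := fun h => h0 (by rw [← hmul, h, zero_mul])
      have h3 : H'.relIndex L ≠ 0 := fun h => h0 (by rw [← hmul, h, mul_zero])
      have h4 : 2 ≤ H.relIndex H' := by omega
      have h5 : 2 * H'.relIndex L ≤ k := by
        calc 2 * H'.relIndex L ≤ H.relIndex H' * H'.relIndex L := Nat.mul_le_mul_right _ h4
          _ = H.relIndex L := hmul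
          _ ≤ k := hk
      have h6 : 2 ≤ k := by omega
      obtain ⟨T, hT1, hT2, hT3⟩ := ih (k / 2) (by omega) H' hH'G h3 (by omega)
      refine ⟨insert g T, ?_, ?_, ?_⟩
      · intro x hx
        rw [Finset.coe_insert, Set.mem_insert_iff] at hx
        rcases hx with rfl | hx
        · exact hg
        · exact hT1 hx
      · rw [Finset.coe_insert, Set.insert_eq, AddSubgroup.closure_union, ← sup_assoc]
        exact hT2
      · refine (Finset.card_insert_le _ _).trans ?_
        have h7 : Nat.log 2 k = Nat.log 2 (k / 2) + 1 := Nat.log_of_one_lt_of_le (by norm_num) h6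
        omega

/-- the lattice of the integral vectors -/
def intLat (ι : Type*) [Fintype ι] : AddSubgroup (ι → ℚ) :=
  AddSubgroup.closure (Set.range (Pi.basisFun ℚ ι))

theorem mem_intLat {ι : Type*} [Fintype ι] (v : ι → ℚ) (hv : ∀ i, ∃ n : ℤ, v i = n) :
    v ∈ intLat ι := by
  classical
  choose n hn using hv
  have h : v = ∑ i, (n i) • (Pi.basisFun ℚ ι i) := by
    ext j
    rw [Finset.sum_apply, Finset.sum_eq_single j]
    · simp [hn]
    · intro b _ hb
      simp [Pi.basisFun_apply, hb.symm]
    · simp
  rw [h]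
  exact sum_mem fun i _ => zsmul_mem (AddSubgroup.subset_closure (Set.mem_range_self i)) (n i)

/-- few members of `G` generate the subgroup generated by `G` -/
theorem few_generators {ι : Type*} [Fintype ι] (G : Set (ι → ℚ)) (M : ℕ)
    (hint : ∀ v ∈ G, ∀ i, ∃ n : ℤ, v i = n) (hM : ∀ v ∈ G, ∀ i, |v i| ≤ M)
    (hspan : Submodule.span ℚ G = ⊤) :
    ∃ T : Finset (ι → ℚ), (T : Set (ι → ℚ)) ⊆ G ∧ AddSubgroup.closure (T : Set (ι → ℚ)) = AddSubgroup.closure G ∧
      T.card ≤ Fintype.card ι +
        Nat.log 2 ((Fintype.card ι).factorial * M ^ Fintype.card ι) := by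
  classical
  obtain ⟨S, hSG, hSspan, hSli⟩ := exists_linearIndependent ℚ G
  have hStop : ⊤ ≤ Submodule.span ℚ (Set.range ((↑) : S → (ι → ℚ))) := by
    rw [Subtype.range_coe, hSspan, hspan]
  let b0 : Module.Basis S ℚ (ι → ℚ) := Module.Basis.mk hSli hStop
  let e : S ≃ ι := b0.indexEquiv (Pi.basisFun ℚ ι)
  let b : Module.Basis ι ℚ (ι → ℚ) := b0.reindex e
  have hb : ∀ i, b i ∈ G := by
    intro i
    have : b i = ((e.symm i : S) : ι → ℚ) := by
      simp [b, b0]
    rw [this]
    exact hSG (e.symm i).2
  have hle : AddSubgroup.closure (Set.range b) ≤ intLat ι := by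
    rw [AddSubgroup.closure_le]
    rintro _ ⟨i, rfl⟩
    exact mem_intLat _ (hint _ (hb i))
  have hGL : AddSubgroup.closure G ≤ intLat ι := by
    rw [AddSubgroup.closure_le]
    intro v hv
    exact mem_intLat _ (hint v hv)
  have hHG : AddSubgroup.closure (Set.range b) ≤ AddSubgroup.closure G := by
    apply AddSubgroup.closure_mono
    rintro _ ⟨i, rfl⟩
    exact hb i
  have hind := AddSubgroup.relIndex_eq_abs_det (AddSubgroup.closure (Set.range b)) (intLat ι) hle b
    (Pi.basisFun ℚ ι) rfl rfl
  have hdet0 : (Pi.basisFun ℚ ι).det b ≠ 0 := ((Pi.basisFun ℚ ι).isUnit_det b).ne_zero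
  have h0 : (AddSubgroup.closure (Set.range b)).relIndex (intLat ι) ≠ 0 := by
    intro h
    rw [h, Nat.cast_zero] at hind
    exact hdet0 (abs_eq_zero.1 hind.symm)
  have hk : (AddSubgroup.closure (Set.range b)).relIndex (intLat ι) ≤
      (Fintype.card ι).factorial * M ^ Fintype.card ι := by
    have h1 := Matrix.det_le (A := (Pi.basisFun ℚ ι).toMatrix b)
      (abv := (AbsoluteValue.abs : AbsoluteValue ℚ ℚ)) (x := (M : ℚ)) (by
        intro i j
        rw [Module.Basis.toMatrix_apply, Pi.basisFun_repr]
        exact hM _ (hb j) i)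
    rw [← Module.Basis.det_apply] at h1
    have h2 : (((AddSubgroup.closure (Set.range b)).relIndex (intLat ι) : ℕ) : ℚ) ≤
        (((Fintype.card ι).factorial * M ^ Fintype.card ι : ℕ) : ℚ) := by
      rw [hind]
      push_cast
      have h3 : |(Pi.basisFun ℚ ι).det b| ≤ (Fintype.card ι).factorial • (M : ℚ) ^ Fintype.card ι :=
        h1
      rw [nsmul_eq_mul] at h3
      exact h3
    exact_mod_cast h2
  obtain ⟨T, hT1, hT2, hT3⟩ := chain G (intLat ι) hGL _ _ hHG h0 hk
  refine ⟨Finset.univ.image b ∪ T, ?_, ?_, ?_⟩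
  · intro v hv
    rw [Finset.coe_union, Set.mem_union] at hv
    rcases hv with hv | hv
    · rw [Finset.coe_image] at hv
      obtain ⟨i, -, rfl⟩ := hv
      exact hb i
    · exact hT1 hv
  · rw [Finset.coe_union, AddSubgroup.closure_union, Finset.coe_image, Finset.coe_univ, Set.image_univ]
    exact hT2
  · refine (Finset.card_union_le _ _).trans ?_
    have := Finset.card_image_le (s := (Finset.univ : Finset ι)) (f := b)
    rw [Finset.card_univ] at this
    omega

end Pool.Agent.V11318.SP
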