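import Pool.Agent.V11318.SPla
import Pool.Agent.H951R5.AR.Defs

/-!
# Short presentations: the arithmetic part

From the relations between tiny prime ideals given by all small elements (library module
`Pool.Agent.H951R5.AR`), finitely many can be chosen, with a bound for their number.
-/

set_option autoImplicit false

namespace Pool.Agent.V11318.SP

open NumberField IsDedekindDomain Pool.Agent.H951R5.AR

variable {K : Type} [Field K] [NumberField K]

/-- the exponent of the prime `v` in the fractional ideal `(x)` -/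
noncomputable def cnt (v : HeightOneSpectrum (𝓞 K)) (x : Kˣ) : ℤ :=
  FractionalIdeal.count K v
    (FractionalIdeal.spanSingleton (nonZeroDivisors (𝓞 K)) (x : K))

theorem span_ne (x : Kˣ) :
    FractionalIdeal.spanSingleton (nonZeroDivisors (𝓞 K)) (x : K) ≠ 0 := by
  rw [FractionalIdeal.spanSingleton_ne_zero_iff]
  exact x.ne_zero

theorem cnt_mul (v : HeightOneSpectrum (𝓞 K)) (x y : Kˣ) : cnt v (x * y) = cnt v x + cnt v y := by
  unfold cnt
  rw [Units.val_mul, ← FractionalIdeal.spanSingleton_mul_spanSingleton,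
    FractionalIdeal.count_mul K v (span_ne x) (span_ne y)]

theorem cnt_one (v : HeightOneSpectrum (𝓞 K)) : cnt v (1 : Kˣ) = 0 := by
  have := cnt_mul v (1 : Kˣ) 1
  rw [one_mul] at this
  omega

theorem cnt_inv (v : HeightOneSpectrum (𝓞 K)) (x : Kˣ) : cnt v x⁻¹ = - cnt v x := by
  have := cnt_mul v x x⁻¹
  rw [mul_inv_cancel, cnt_one] at this
  omega

/-- a fractional ideal `(x)` is determined by its exponents -/
theorem span_eq_of_cnt (x y : Kˣ) (h : ∀ v, cnt v x = cnt v y) :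
    FractionalIdeal.spanSingleton (nonZeroDivisors (𝓞 K)) (x : K) =
      FractionalIdeal.spanSingleton (nonZeroDivisors (𝓞 K)) (y : K) := by
  rw [← FractionalIdeal.finprod_heightOneSpectrum_factorization' K (span_ne x),
    ← FractionalIdeal.finprod_heightOneSpectrum_factorization' K (span_ne y)]
  apply finprod_congr
  intro v
  have := h v
  unfold cnt at this
  rw [this]

/-- the tiny primes -/
def Tiny (K : Type) [Field K] [NumberField K] (B : ℝ) : Type :=
  {v : HeightOneSpectrum (𝓞 K) // ((Ideal.absNorm v.asIdeal : ℕ) : ℝ) ≤ B}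

theorem finite_tiny (B : ℝ) : Finite (Tiny K B) := by
  have h := Ideal.finite_setOfPred_absNorm_le (S := 𝓞 K) ⌊B⌋₊
  have hf : Finite {I : Ideal (𝓞 K) | Ideal.absNorm I ≤ ⌊B⌋₊} := h
  let f : Tiny K B → {I : Ideal (𝓞 K) | Ideal.absNorm I ≤ ⌊B⌋₊} :=
    fun v => ⟨v.1.asIdeal, Nat.le_floor v.2⟩
  refine Finite.of_injective f ?_
  intro v w hvw
  have h1 : v.1.asIdeal = w.1.asIdeal := congrArg Subtype.val hvw
  exact Subtype.ext (HeightOneSpectrum.ext h1)

/-- the rational prime below -/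
noncomputable def below (v : HeightOneSpectrum (𝓞 K)) : ℕ :=
  (Submodule.IsPrincipal.generator (Ideal.under ℤ v.asIdeal)).natAbs

theorem below_span (v : HeightOneSpectrum (𝓞 K)) :
    Ideal.span {((below v : ℕ) : ℤ)} = Ideal.under ℤ v.asIdeal := by
  unfold below
  rw [Int.span_natAbs, Ideal.span_singleton_generator]

theorem below_le (v : HeightOneSpectrum (𝓞 K)) :
    1 ≤ below v ∧ below v ≤ Ideal.absNorm v.asIdeal := by
  have h1 : ((Ideal.absNorm v.asIdeal : ℕ) : ℤ) ∈ Ideal.under ℤ v.asIdeal := by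
    rw [Ideal.under_def, Ideal.mem_comap]
    have := Ideal.absNorm_mem v.asIdeal
    simpa using this
  rw [← below_span, Ideal.mem_span_singleton] at h1
  have h2 : below v ∣ Ideal.absNorm v.asIdeal := by exact_mod_cast h1
  have h3 : Ideal.absNorm v.asIdeal ≠ 0 := by
    rw [Ne, Ideal.absNorm_eq_zero_iff]
    exact v.ne_bot
  exact ⟨Nat.pos_of_dvd_of_pos h2 (Nat.pos_of_ne_zero h3), Nat.le_of_dvd (Nat.pos_of_ne_zero h3) h2⟩

theorem card_tiny (h2 : Module.finrank ℚ K = 2) (B : ℝ) (hB : 0 ≤ B) :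
    (Nat.card (Tiny K B) : ℝ) ≤ 2 * B := by
  classical
  have := finite_tiny (K := K) B
  have := Fintype.ofFinite (Tiny K B)
  have key : (Finset.univ : Finset (Tiny K B)).card ≤ 2 * (Finset.Icc 1 ⌊B⌋₊).card := by
    refine Finset.card_le_mul_card_image_of_maps_to (f := fun v : Tiny K B => below v.1) ?_ 2 ?_
    · intro v _
      rw [Finset.mem_Icc]
      exact ⟨(below_le v.1).1, (below_le v.1).2.trans (Nat.le_floor v.2)⟩
    · intro p hp
      by_cases hne : ∃ v0 : Tiny K B, below v0.1 = p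
      · obtain ⟨v0, hv0⟩ := hne
        have hpi : Ideal.span {(p : ℤ)} = Ideal.under ℤ v0.1.asIdeal := by
          rw [← hv0, below_span]
        have hmax0 : (Ideal.under ℤ v0.1.asIdeal).IsMaximal := by
          have := v0.1.isMaximal
          exact Ideal.isMaximal_comap_of_isIntegral_of_isMaximal v0.1.asIdeal
        have hmax : (Ideal.span {(p : ℤ)}).IsMaximal := by
          rw [hpi]; exact hmax0
        have hp0 : Ideal.span {(p : ℤ)} ≠ ⊥ := by
          rw [Ne, Ideal.span_singleton_eq_bot]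
          have := (Finset.mem_Icc.1 hp).1
          exact_mod_cast (by omega : p ≠ 0)
        have hc := Ideal.card_primesOverFinset_le_finrank (R := ℤ) (S := 𝓞 K) (p := Ideal.span {(p : ℤ)}) ℚ K hp0
        rw [h2] at hc
        refine le_trans ?_ hc
        refine Finset.card_le_card_of_injOn (fun v : Tiny K B => v.1.asIdeal) ?_ ?_
        · intro v hv
          have hv' : below v.1 = p := by simpa using hv
          rw [Finset.mem_coe, IsDedekindDomain.mem_primesOverFinset_iff hp0]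
          refine ⟨v.1.isPrime, ⟨?_⟩⟩
          rw [← hv', below_span]
        · intro v _ w _ hvw
          exact Subtype.ext (HeightOneSpectrum.ext hvw)
      · push Not at hne
        rw [Finset.filter_eq_empty_iff.2 fun v _ => hne v]
        simp
  rw [Finset.card_univ, Nat.card_Icc] at key
  rw [Nat.card_eq_fintype_card]
  have h3 : ((⌊B⌋₊ : ℕ) : ℝ) ≤ B := Nat.floor_le hB
  have h4 : (Fintype.card (Tiny K B) : ℝ) ≤ 2 * (⌊B⌋₊ : ℝ) := by
    have : Fintype.card (Tiny K B) ≤ 2 * ⌊B⌋₊ := by omega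
    exact_mod_cast this
  linarith

theorem multiset_count (v : HeightOneSpectrum (𝓞 K)) (L : Multiset (Ideal (𝓞 K)))
    (hL : ∀ P ∈ L, P.IsPrime ∧ P ≠ ⊥) :
    L.prod ≠ ⊥ ∧ 0 ≤ FractionalIdeal.count K v (L.prod : FractionalIdeal (nonZeroDivisors (𝓞 K)) K) ∧
      FractionalIdeal.count K v (L.prod : FractionalIdeal (nonZeroDivisors (𝓞 K)) K) ≤ L.card ∧
      (v.asIdeal ∉ L →
        FractionalIdeal.count K v (L.prod : FractionalIdeal (nonZeroDivisors (𝓞 K)) K) = 0) := by
  classical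
  induction L using Multiset.induction_on with
  | empty =>
    refine ⟨?_, ?_, ?_, ?_⟩
    · rw [Multiset.prod_zero, Ideal.one_eq_top]
      exact top_ne_bot
    all_goals simp [FractionalIdeal.count_one]
  | cons P L ih =>
    obtain ⟨h0, h1, h2, h3⟩ := ih fun Q hQ => hL Q (Multiset.mem_cons_of_mem hQ)
    obtain ⟨hP, hP0⟩ := hL P (Multiset.mem_cons_self P L)
    have hc : FractionalIdeal.count K v
        ((P ::ₘ L).prod : FractionalIdeal (nonZeroDivisors (𝓞 K)) K) =
        (if (⟨P, hP, hP0⟩ : HeightOneSpectrum (𝓞 K)) = v then 1 else 0) +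
        FractionalIdeal.count K v (L.prod : FractionalIdeal (nonZeroDivisors (𝓞 K)) K) := by
      rw [Multiset.prod_cons, FractionalIdeal.coeIdeal_mul,
        FractionalIdeal.count_mul K v (FractionalIdeal.coeIdeal_ne_zero.2 hP0)
          (FractionalIdeal.coeIdeal_ne_zero.2 h0)]
      congr 1
      exact FractionalIdeal.count_maximal K v (⟨P, hP, hP0⟩ : HeightOneSpectrum (𝓞 K))
    refine ⟨?_, ?_, ?_, ?_⟩
    · rw [Multiset.prod_cons]
      exact mul_ne_zero hP0 h0
    · rw [hc]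
      split_ifs <;> omega
    · rw [hc, Multiset.card_cons]
      push_cast
      split_ifs <;> omega
    · intro hv
      rw [hc, h3 fun h => hv (Multiset.mem_cons_of_mem h), if_neg, add_zero]
      intro h
      apply hv
      rw [← h]
      exact Multiset.mem_cons_self P L

theorem smallProd_count {B n : ℝ} {I : Ideal (𝓞 K)} (h : SmallProd K B n I)
    (v : HeightOneSpectrum (𝓞 K)) :
    I ≠ ⊥ ∧ 0 ≤ FractionalIdeal.count K v (I : FractionalIdeal (nonZeroDivisors (𝓞 K)) K) ∧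
      ((FractionalIdeal.count K v (I : FractionalIdeal (nonZeroDivisors (𝓞 K)) K) : ℤ) : ℝ) ≤ n ∧
      (¬ (((Ideal.absNorm v.asIdeal : ℕ) : ℝ) ≤ B) →
        FractionalIdeal.count K v (I : FractionalIdeal (nonZeroDivisors (𝓞 K)) K) = 0) := by
  obtain ⟨L, hL, hn, rfl⟩ := h
  obtain ⟨h0, h1, h2, h3⟩ := multiset_count v L fun P hP => ⟨(hL P hP).1, (hL P hP).2.1⟩
  refine ⟨h0, h1, ?_, ?_⟩
  · have : ((FractionalIdeal.count K v
        (L.prod : FractionalIdeal (nonZeroDivisors (𝓞 K)) K) : ℤ) : ℝ) ≤ (L.card : ℝ) := by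
      exact_mod_cast h2
    exact this.trans hn
  · intro hv
    exact h3 fun h => hv (hL _ h).2.2

/-- the exponents of an element whose ideal is a quotient of two short products of tiny primes -/
theorem cnt_of_quot {B m n : ℝ} {x : Kˣ} {A A' : Ideal (𝓞 K)} (hA : SmallProd K B m A)
    (hA' : SmallProd K B n A')
    (h : FractionalIdeal.spanSingleton (nonZeroDivisors (𝓞 K)) (x : K) *
      (A' : FractionalIdeal (nonZeroDivisors (𝓞 K)) K) = A) (v : HeightOneSpectrum (𝓞 K)) :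
    ((cnt v x : ℤ) : ℝ) ≤ m ∧ -n ≤ ((cnt v x : ℤ) : ℝ) ∧
      (¬ (((Ideal.absNorm v.asIdeal : ℕ) : ℝ) ≤ B) → cnt v x = 0) := by
  obtain ⟨a0, a1, a2, a3⟩ := smallProd_count hA v
  obtain ⟨b0, b1, b2, b3⟩ := smallProd_count hA' v
  have hc : cnt v x + FractionalIdeal.count K v (A' : FractionalIdeal (nonZeroDivisors (𝓞 K)) K) =
      FractionalIdeal.count K v (A : FractionalIdeal (nonZeroDivisors (𝓞 K)) K) := by
    unfold cnt
    rw [← FractionalIdeal.count_mul K v (span_ne x) (FractionalIdeal.coeIdeal_ne_zero.2 b0), h]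
  have hcR : ((cnt v x : ℤ) : ℝ) +
      ((FractionalIdeal.count K v (A' : FractionalIdeal (nonZeroDivisors (𝓞 K)) K) : ℤ) : ℝ) =
      ((FractionalIdeal.count K v (A : FractionalIdeal (nonZeroDivisors (𝓞 K)) K) : ℤ) : ℝ) := by
    exact_mod_cast hc
  have a1R : (0 : ℝ) ≤
      ((FractionalIdeal.count K v (A : FractionalIdeal (nonZeroDivisors (𝓞 K)) K) : ℤ) : ℝ) := by
    exact_mod_cast a1
  have b1R : (0 : ℝ) ≤
      ((FractionalIdeal.count K v (A' : FractionalIdeal (nonZeroDivisors (𝓞 K)) K) : ℤ) : ℝ) := by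
    exact_mod_cast b1
  refine ⟨by linarith, by linarith, fun hv => ?_⟩
  have := a3 hv
  have := b3 hv
  omega

/-- the vector of the exponents at the tiny primes -/
noncomputable def vec (B : ℝ) : Additive Kˣ →+ (Tiny K B → ℚ) where
  toFun x := fun v => ((cnt v.1 (Additive.toMul x) : ℤ) : ℚ)
  map_zero' := by
    ext v
    simp [cnt_one]
  map_add' x y := by
    ext v
    simp [cnt_mul]

theorem vec_apply (B : ℝ) (x : Kˣ) (v : Tiny K B) :
    vec B (Additive.ofMul x) v = ((cnt v.1 x : ℤ) : ℚ) := rfl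

theorem vec_mem_closure (B : ℝ) (S : Set Kˣ) {u : Kˣ} (hu : u ∈ Subgroup.closure S) :
    vec B (Additive.ofMul u) ∈
      AddSubgroup.closure ((fun x : Kˣ => vec B (Additive.ofMul x)) '' S) := by
  induction hu using Subgroup.closure_induction with
  | mem x hx => exact AddSubgroup.subset_closure ⟨x, hx, rfl⟩
  | one =>
    rw [ofMul_one, map_zero]
    exact zero_mem _
  | mul x y _ _ hx hy =>
    rw [ofMul_mul, map_add]
    exact add_mem hx hy
  | inv x _ hx =>
    rw [ofMul_inv, map_neg]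
    exact neg_mem hx

theorem exists_of_mem_closure (B : ℝ) (S : Set Kˣ) {w : Tiny K B → ℚ}
    (hw : w ∈ AddSubgroup.closure ((fun x : Kˣ => vec B (Additive.ofMul x)) '' S)) :
    ∃ u ∈ Subgroup.closure S, vec B (Additive.ofMul u) = w := by
  induction hw using AddSubgroup.closure_induction with
  | mem x hx =>
    obtain ⟨y, hy, rfl⟩ := hx
    exact ⟨y, Subgroup.subset_closure hy, rfl⟩
  | zero => exact ⟨1, one_mem _, by rw [ofMul_one, map_zero]⟩
  | add x y _ _ hx hy =>
    obtain ⟨a, ha, rfl⟩ := hx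
    obtain ⟨b, hb, rfl⟩ := hy
    exact ⟨a * b, mul_mem ha hb, by rw [ofMul_mul, map_add]⟩
  | neg x _ hx =>
    obtain ⟨a, ha, rfl⟩ := hx
    exact ⟨a⁻¹, inv_mem ha, by rw [ofMul_inv, map_neg]⟩

theorem cnt_zero_of_closure {σ τ : K →+* ℝ} {B n : ℝ} {u : Kˣ}
    (hu : u ∈ Subgroup.closure (Gen K σ τ B n)) (v : HeightOneSpectrum (𝓞 K))
    (hv : ¬ (((Ideal.absNorm v.asIdeal : ℕ) : ℝ) ≤ B)) : cnt v u = 0 := by
  induction hu using Subgroup.closure_induction with
  | mem x hx =>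
    obtain ⟨⟨A, A', hA, hA', h⟩, -⟩ := hx
    exact (cnt_of_quot hA hA' h v).2.2 hv
  | one => exact cnt_one v
  | mul x y _ _ hx hy => rw [cnt_mul, hx, hy, add_zero]
  | inv x _ hx => rw [cnt_inv, hx, neg_zero]

/-- some multiple of the basis vector of a tiny prime comes from an element of the group of `B`-units -/
theorem exists_power (B : ℝ) (v : Tiny K B) :
    ∃ u ∈ SUnit K B, ∃ h : ℕ, 0 < h ∧ ∀ w : Tiny K B,
      (w = v → vec B (Additive.ofMul u) w = (h : ℚ)) ∧
      (w ≠ v → vec B (Additive.ofMul u) w = 0) := by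
  classical
  have hv0 : v.1.asIdeal ≠ ⊥ := v.1.ne_bot
  set h : ℕ := Nat.card (ClassGroup (𝓞 K)) with hh
  have hpos : 0 < h := Nat.card_pos
  have hmem : v.1.asIdeal ^ h ∈ nonZeroDivisors (Ideal (𝓞 K)) :=
    mem_nonZeroDivisors_of_ne_zero (pow_ne_zero _ hv0)
  have hprin : (v.1.asIdeal ^ h).IsPrincipal := by
    rw [← ClassGroup.mk0_eq_one_iff hmem]
    have h1 : ClassGroup.mk0 (⟨v.1.asIdeal ^ h, hmem⟩ : nonZeroDivisors (Ideal (𝓞 K))) =
        ClassGroup.mk0 (⟨v.1.asIdeal, mem_nonZeroDivisors_of_ne_zero hv0⟩ :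
          nonZeroDivisors (Ideal (𝓞 K))) ^ h := by
      rw [← map_pow]
      rfl
    rw [h1, hh]
    exact pow_card_eq_one'
  obtain ⟨α, hα⟩ := hprin
  have hα0 : α ≠ 0 := by
    rintro rfl
    rw [Ideal.submodule_span_eq, Ideal.span_singleton_eq_bot.2 rfl] at hα
    exact pow_ne_zero _ hv0 hα
  have hαK : (algebraMap (𝓞 K) K α) ≠ 0 := by
    rw [Ne, FaithfulSMul.algebraMap_eq_zero_iff]
    exact hα0
  let u : Kˣ := Units.mk0 (algebraMap (𝓞 K) K α) hαK
  have hspan : FractionalIdeal.spanSingleton (nonZeroDivisors (𝓞 K)) (u : K) =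
      ((v.1.asIdeal ^ h : Ideal (𝓞 K)) : FractionalIdeal (nonZeroDivisors (𝓞 K)) K) := by
    rw [Units.val_mk0, ← FractionalIdeal.coeIdeal_span_singleton, hα]
  refine ⟨u, ⟨h, v.1.asIdeal ^ h, ⊤, ⟨Multiset.replicate h v.1.asIdeal, ?_, ?_, ?_⟩,
    ⟨0, ?_, ?_, ?_⟩, ?_⟩, h, hpos, ?_⟩
  · intro P hP
    rw [Multiset.eq_of_mem_replicate hP]
    exact ⟨v.1.isPrime, hv0, v.2⟩
  · rw [Multiset.card_replicate]
  · rw [Multiset.prod_replicate]
  · intro P hP
    simp at hP
  · simp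
  · rw [Multiset.prod_zero, Ideal.one_eq_top]
  · rw [FractionalIdeal.coeIdeal_top, mul_one, hspan]
  · intro w
    rw [vec_apply]
    unfold cnt
    rw [hspan, FractionalIdeal.coeIdeal_pow, FractionalIdeal.count_pow,
      FractionalIdeal.count_maximal K w.1 v.1]
    refine ⟨fun hwv => ?_, fun hwv => ?_⟩
    · rw [if_pos (congrArg Subtype.val hwv).symm]
      push_cast
      ring
    · rw [if_neg fun h' => hwv (Subtype.ext h'.symm)]
      simp

/-- the vectors of the small elements span -/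
theorem span_top {σ τ : K →+* ℝ} {B n : ℝ}
    (hgen : ∀ u ∈ SUnit K B, u ∈ Subgroup.closure (Gen K σ τ B n)) :
    Submodule.span ℚ ((fun x : Kˣ => vec B (Additive.ofMul x)) '' (Gen K σ τ B n)) = ⊤ := by
  classical
  have := finite_tiny (K := K) B
  have := Fintype.ofFinite (Tiny K B)
  set G : Set (Tiny K B → ℚ) :=
    (fun x : Kˣ => vec B (Additive.ofMul x)) '' (Gen K σ τ B n) with hG
  rw [eq_top_iff, ← (Pi.basisFun ℚ (Tiny K B)).span_eq, Submodule.span_le]
  rintro _ ⟨v, rfl⟩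
  obtain ⟨u, hu, h, hpos, huw⟩ := exists_power B v
  have h1 := vec_mem_closure B _ (hgen u hu)
  have h2 : vec B (Additive.ofMul u) ∈ Submodule.span ℚ G := by
    have hle : AddSubgroup.closure G ≤ (Submodule.span ℚ G).toAddSubgroup := by
      rw [AddSubgroup.closure_le]
      exact Submodule.subset_span
    exact hle h1
  have h3 : Pi.basisFun ℚ (Tiny K B) v = ((h : ℚ)⁻¹) • vec B (Additive.ofMul u) := by
    ext w
    rw [Pi.smul_apply, Pi.basisFun_apply, Pi.single_apply]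
    have : (h : ℚ) ≠ 0 := by exact_mod_cast hpos.ne'
    by_cases hwv : w = v
    · rw [if_pos hwv, (huw w).1 hwv, smul_eq_mul, inv_mul_cancel₀ this]
    · rw [if_neg hwv, (huw w).2 hwv, smul_zero]
  rw [SetLike.mem_coe, h3]
  exact Submodule.smul_mem _ _ h2

/-- Few small elements give all the relations between the tiny primes. -/
theorem few_small {σ τ : K →+* ℝ} {B n : ℝ} (M : ℕ) (hn : n ≤ M)
    (hgen : ∀ u ∈ SUnit K B, u ∈ Subgroup.closure (Gen K σ τ B n)) :
    ∃ X : Finset Kˣ, (X : Set Kˣ) ⊆ Gen K σ τ B n ∧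
      X.card ≤ Nat.card (Tiny K B) +
        Nat.log 2 ((Nat.card (Tiny K B)).factorial * M ^ Nat.card (Tiny K B)) ∧
      ∀ u ∈ Subgroup.closure (Gen K σ τ B n), ∃ y ∈ Subgroup.closure (X : Set Kˣ),
        FractionalIdeal.spanSingleton (nonZeroDivisors (𝓞 K)) (y : K) =
          FractionalIdeal.spanSingleton (nonZeroDivisors (𝓞 K)) (u : K) := by
  classical
  have := finite_tiny (K := K) B
  have := Fintype.ofFinite (Tiny K B)
  set G : Set (Tiny K B → ℚ) :=
    (fun x : Kˣ => vec B (Additive.ofMul x)) '' (Gen K σ τ B n) with hG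
  have hint : ∀ v ∈ G, ∀ i, ∃ m : ℤ, v i = m := by
    rintro _ ⟨x, -, rfl⟩ i
    exact ⟨cnt i.1 x, rfl⟩
  have hM : ∀ v ∈ G, ∀ i, |v i| ≤ M := by
    rintro _ ⟨x, hx, rfl⟩ i
    obtain ⟨⟨A, A', hA, hA', h⟩, -⟩ := hx
    obtain ⟨h1, h2, -⟩ := cnt_of_quot hA hA' h i.1
    change |((cnt i.1 x : ℤ) : ℚ)| ≤ (M : ℚ)
    have h3 : |((cnt i.1 x : ℤ) : ℝ)| ≤ (M : ℝ) := abs_le.2 ⟨by linarith, by linarith⟩
    have h4 : |cnt i.1 x| ≤ (M : ℤ) := by exact_mod_cast h3
    exact_mod_cast h4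
  have hspan : Submodule.span ℚ G = ⊤ := span_top hgen
  obtain ⟨T, hTG, hTc, hTcard⟩ := few_generators G M hint hM hspan
  have hch : ∀ t : {t // t ∈ T}, ∃ x ∈ Gen K σ τ B n, vec B (Additive.ofMul x) = t.1 := by
    intro t
    obtain ⟨x, hx, hxt⟩ := hTG t.2
    exact ⟨x, hx, hxt⟩
  choose f hf1 hf2 using hch
  set X : Finset Kˣ := T.attach.image f with hX
  have hXG : (X : Set Kˣ) ⊆ Gen K σ τ B n := by
    intro x hx
    rw [hX, Finset.coe_image] at hx
    obtain ⟨t, -, rfl⟩ := hx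
    exact hf1 t
  have himg : (T : Set (Tiny K B → ℚ)) ⊆ (fun x : Kˣ => vec B (Additive.ofMul x)) '' (X : Set Kˣ) := by
    intro t ht
    refine ⟨f ⟨t, ht⟩, ?_, hf2 ⟨t, ht⟩⟩
    rw [hX, Finset.coe_image]
    exact ⟨⟨t, ht⟩, Finset.mem_coe.2 (Finset.mem_attach _ _), rfl⟩
  refine ⟨X, hXG, ?_, ?_⟩
  · rw [Nat.card_eq_fintype_card]
    refine le_trans ?_ hTcard
    rw [hX]
    refine Finset.card_image_le.trans ?_
    rw [Finset.card_attach]
  · intro u hu
    have h1 := vec_mem_closure B _ hu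
    rw [← hG, ← hTc] at h1
    obtain ⟨y, hy, hyu⟩ := exists_of_mem_closure B (X : Set Kˣ) (AddSubgroup.closure_mono himg h1)
    refine ⟨y, hy, span_eq_of_cnt y u fun v => ?_⟩
    by_cases hv : ((Ideal.absNorm v.asIdeal : ℕ) : ℝ) ≤ B
    · have h2 : ((cnt v y : ℤ) : ℚ) = ((cnt v u : ℤ) : ℚ) := congrFun hyu (⟨v, hv⟩ : Tiny K B)
      exact_mod_cast h2
    · rw [cnt_zero_of_closure (Subgroup.closure_mono hXG hy) v hv, cnt_zero_of_closure hu v hv]

/-- independent small elements -/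
theorem exists_indep {σ τ : K →+* ℝ} {B n : ℝ} [Fintype (Tiny K B)] [DecidableEq (Tiny K B)]
    (hgen : ∀ u ∈ SUnit K B, u ∈ Subgroup.closure (Gen K σ τ B n)) :
    ∃ x : Tiny K B → Kˣ, (∀ i, x i ∈ Gen K σ τ B n) ∧
      (Matrix.of fun (j : Tiny K B) i => cnt j.1 (x i)).det ≠ 0 := by
  have hspan := span_top hgen
  obtain ⟨S, hSG, hSspan, hSli⟩ := exists_linearIndependent ℚ
    ((fun x : Kˣ => vec B (Additive.ofMul x)) '' (Gen K σ τ B n))
  have hStop : ⊤ ≤ Submodule.span ℚ (Set.range ((↑) : S → (Tiny K B → ℚ))) := by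
    rw [Subtype.range_coe, hSspan, hspan]
  let b0 : Module.Basis S ℚ (Tiny K B → ℚ) := Module.Basis.mk hSli hStop
  let e : S ≃ Tiny K B := b0.indexEquiv (Pi.basisFun ℚ (Tiny K B))
  let b : Module.Basis (Tiny K B) ℚ (Tiny K B → ℚ) := b0.reindex e
  have hb : ∀ i, ∃ x ∈ Gen K σ τ B n, vec B (Additive.ofMul x) = b i := by
    intro i
    have h1 : b i = ((e.symm i : S) : Tiny K B → ℚ) := by
      simp [b, b0]
    rw [h1]
    obtain ⟨x, hx, hxi⟩ := hSG (e.symm i).2
    exact ⟨x, hx, hxi⟩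
  choose x hx hxb using hb
  refine ⟨x, hx, ?_⟩
  have hdet0 : (Pi.basisFun ℚ (Tiny K B)).det b ≠ 0 :=
    ((Pi.basisFun ℚ (Tiny K B)).isUnit_det b).ne_zero
  rw [Module.Basis.det_apply] at hdet0
  have hmat : (Pi.basisFun ℚ (Tiny K B)).toMatrix b =
      (Int.castRingHom ℚ).mapMatrix (Matrix.of fun (j : Tiny K B) i => cnt j.1 (x i)) := by
    ext j i
    rw [Module.Basis.toMatrix_apply, Pi.basisFun_repr, ← hxb i]
    rfl
  rw [hmat, ← RingHom.map_det] at hdet0
  intro h
  apply hdet0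
  rw [h, map_zero]

end Pool.Agent.V11318.SP
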