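import Pool.Agent.V11318.SPnf
import Pool.Agent.V11318.SPht

/-!
# Short presentations: the units

The group of the `B`-units of a real quadratic field is generated by few small elements.
-/

set_option autoImplicit false

namespace Pool.Agent.V11318.SP

open NumberField IsDedekindDomain Pool.Agent.H951R5.AR
open scoped nonZeroDivisors

/-- from a subgroup of finite index `k` one reaches the subgroup generated by `G` by adding at most `log₂ k`
members of `G` -/
theorem chain_mul {E : Type*} [CommGroup E] (G : Set E) :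
    ∀ (k : ℕ) (H : Subgroup E), H ≤ Subgroup.closure G → H.relIndex (Subgroup.closure G) ≠ 0 →
      H.relIndex (Subgroup.closure G) ≤ k →
      ∃ T : Finset E, (T : Set E) ⊆ G ∧ H ⊔ Subgroup.closure (T : Set E) = Subgroup.closure G ∧
        T.card ≤ Nat.log 2 k := by
  classical
  intro k
  induction k using Nat.strong_induction_on with
  | _ k ih =>
    intro H hH h0 hk
    by_cases hG : G ⊆ H
    · refine ⟨∅, by simp, ?_, by simp⟩
      simp only [Finset.coe_empty, Subgroup.closure_empty, sup_bot_eq]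
      exact le_antisymm hH ((Subgroup.closure_le _).2 hG)
    · obtain ⟨g, hg, hgH⟩ := Set.not_subset.1 hG
      set H' : Subgroup E := H ⊔ Subgroup.closure {g} with hH'
      have hHH' : H ≤ H' := le_sup_left
      have hgH' : g ∈ H' :=
        (le_sup_right : Subgroup.closure {g} ≤ H') (Subgroup.subset_closure (by simp))
      have hH'G : H' ≤ Subgroup.closure G :=
        sup_le hH ((Subgroup.closure_le _).2 (by
          intro x hx
          rw [Set.mem_singleton_iff] at hx
          rw [hx]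
          exact Subgroup.subset_closure hg))
      have hmul : H.relIndex H' * H'.relIndex (Subgroup.closure G) =
          H.relIndex (Subgroup.closure G) :=
        Subgroup.relIndex_mul_relIndex H H' _ hHH' hH'G
      have h1 : H.relIndex H' ≠ 1 := fun h => hgH (Subgroup.relIndex_eq_one.1 h hgH')
      have h2 : H.relIndex H' ≠ 0 := fun h => h0 (by rw [← hmul, h, zero_mul])
      have h3 : H'.relIndex (Subgroup.closure G) ≠ 0 := fun h => h0 (by rw [← hmul, h, mul_zero])
      have h4 : 2 ≤ H.relIndex H' := by omega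
      have h5 : 2 * H'.relIndex (Subgroup.closure G) ≤ k := by
        calc 2 * H'.relIndex (Subgroup.closure G)
            ≤ H.relIndex H' * H'.relIndex (Subgroup.closure G) := Nat.mul_le_mul_right _ h4
          _ = H.relIndex (Subgroup.closure G) := hmul
          _ ≤ k := hk
      have h6 : 2 ≤ k := by omega
      obtain ⟨T, hT1, hT2, hT3⟩ := ih (k / 2) (by omega) H' hH'G h3 (by omega)
      refine ⟨insert g T, ?_, ?_, ?_⟩
      · intro x hx
        rw [Finset.coe_insert, Set.mem_insert_iff] at hx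
        rcases hx with rfl | hx
        · exact hg
        · exact hT1 hx
      · rw [Finset.coe_insert, Set.insert_eq, Subgroup.closure_union, ← sup_assoc]
        exact hT2
      · refine (Finset.card_insert_le _ _).trans ?_
        have h7 : Nat.log 2 k = Nat.log 2 (k / 2) + 1 := Nat.log_of_one_lt_of_le (by norm_num) h6
        omega

variable {K : Type} [Field K] [NumberField K]

/-- the logarithm of `|σ x / τ x|` -/
noncomputable def rho (σ τ : K →+* ℝ) (x : Kˣ) : ℝ :=
  Real.log |σ (x : K)| - Real.log |τ (x : K)|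

theorem emb_ne (σ : K →+* ℝ) (x : Kˣ) : |σ (x : K)| ≠ 0 :=
  abs_ne_zero.2 ((map_ne_zero σ).2 x.ne_zero)

theorem rho_mul (σ τ : K →+* ℝ) (x y : Kˣ) : rho σ τ (x * y) = rho σ τ x + rho σ τ y := by
  unfold rho
  rw [Units.val_mul, map_mul, map_mul, abs_mul, abs_mul, Real.log_mul (emb_ne σ x) (emb_ne σ y),
    Real.log_mul (emb_ne τ x) (emb_ne τ y)]
  ring

/-- as a homomorphism -/
noncomputable def rhoHom (σ τ : K →+* ℝ) : Additive Kˣ →+ ℝ where
  toFun x := rho σ τ (Additive.toMul x)
  map_zero' := by simp [rho]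
  map_add' x y := rho_mul σ τ _ _

theorem rho_zpow (σ τ : K →+* ℝ) (x : Kˣ) (m : ℤ) : rho σ τ (x ^ m) = m * rho σ τ x := by
  have := map_zsmul (rhoHom σ τ) m (Additive.ofMul x)
  rw [zsmul_eq_mul] at this
  exact this

theorem rho_inv (σ τ : K →+* ℝ) (x : Kˣ) : rho σ τ x⁻¹ = - rho σ τ x := by
  have := map_neg (rhoHom σ τ) (Additive.ofMul x)
  exact this

theorem rho_one (σ τ : K →+* ℝ) : rho σ τ (1 : Kˣ) = 0 := by simp [rho]

theorem rho_prod (σ τ : K →+* ℝ) {ι : Type*} (s : Finset ι) (f : ι → Kˣ) :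
    rho σ τ (∏ i ∈ s, f i) = ∑ i ∈ s, rho σ τ (f i) := by
  classical
  induction s using Finset.induction_on with
  | empty => simp [rho_one]
  | insert a s ha ih => rw [Finset.prod_insert ha, Finset.sum_insert ha, rho_mul, ih]

theorem cnt_zpow (v : HeightOneSpectrum (𝓞 K)) (x : Kˣ) (m : ℤ) : cnt v (x ^ m) = m * cnt v x := by
  induction m using Int.induction_on with
  | zero => simp [cnt_one]
  | succ i ih => rw [zpow_add_one, cnt_mul, ih]; ring
  | pred i ih => rw [zpow_sub_one, cnt_mul, cnt_inv, ih]; ring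

theorem cnt_prod (v : HeightOneSpectrum (𝓞 K)) {ι : Type*} (s : Finset ι) (f : ι → Kˣ) :
    cnt v (∏ i ∈ s, f i) = ∑ i ∈ s, cnt v (f i) := by
  classical
  induction s using Finset.induction_on with
  | empty => simp [cnt_one]
  | insert a s ha ih => rw [Finset.prod_insert ha, Finset.sum_insert ha, cnt_mul, ih]

theorem rho_gen {σ τ : K →+* ℝ} {B n : ℝ} {x : Kˣ} (hx : x ∈ Gen K σ τ B n) :
    |rho σ τ x| ≤ 5 := by
  have := hx.2
  rw [abs_div, Real.log_div (emb_ne σ x) (emb_ne τ x)] at this
  exact this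

/-- a unit close to the torsion is torsion -/
theorem unit_gap (h2 : Module.finrank ℚ K = 2) (σ τ : K →+* ℝ) (hne : σ ≠ τ) {e : Kˣ}
    (he : ∀ v, cnt v e = 0) (hr : |rho σ τ e| < 1 / 2) : e = 1 ∨ e = -1 := by
  have hspan : FractionalIdeal.spanSingleton (𝓞 K)⁰ (e : K) = 1 := by
    have h1 := span_eq_of_cnt e 1 fun v => by rw [he v, cnt_one]
    rw [h1, Units.val_one, FractionalIdeal.spanSingleton_one]
  have hmem : (e : K) ∈ (1 : FractionalIdeal (𝓞 K)⁰ K) := by
    rw [← hspan]
    exact FractionalIdeal.mem_spanSingleton_self _ _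
  rw [FractionalIdeal.mem_one_iff] at hmem
  obtain ⟨α, hα⟩ := hmem
  have hint : IsIntegral ℤ (e : K) := by
    rw [← hα]
    exact α.isIntegral_coe
  obtain ⟨T, hT⟩ := IsIntegrallyClosed.isIntegral_iff.1 (Algebra.isIntegral_trace (L := ℚ) hint)
  have hTR : (T : ℝ) = σ (e : K) + τ (e : K) := by
    rw [← trace_real h2 σ τ hne, ← hT]
    simp
  have hnorm : |σ (e : K)| * |τ (e : K)| = 1 := by
    have h1 := congrArg FractionalIdeal.absNorm hspan
    rw [FractionalIdeal.absNorm_span_singleton, FractionalIdeal.absNorm_one] at h1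
    have h3 : ((|Algebra.norm ℚ (e : K)| : ℚ) : ℝ) = 1 := by
      rw [h1]
      norm_num
    rw [← abs_mul, ← norm_real h2 σ τ hne]
    push_cast at h3
    exact h3
  set a : ℝ := σ (e : K) with ha
  set b : ℝ := τ (e : K) with hb
  have ha0 : 0 < |a| := lt_of_le_of_ne (abs_nonneg _) (emb_ne σ e).symm
  have hb0 : 0 < |b| := lt_of_le_of_ne (abs_nonneg _) (emb_ne τ e).symm
  have hlog : Real.log |a| + Real.log |b| = 0 := by
    rw [← Real.log_mul ha0.ne' hb0.ne', hnorm, Real.log_one]
  unfold rho at hr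
  rw [← ha, ← hb, abs_lt] at hr
  have hexp : Real.exp (1 / 2) < 17 / 10 := by
    have h1 := Real.exp_one_lt_d9
    have h3 : Real.exp (1 / 2) ^ 2 = Real.exp 1 := by
      rw [← Real.exp_nat_mul]
      norm_num
    have h4 : Real.exp (1 / 2) ^ 2 < (17 / 10) ^ 2 := by
      rw [h3]
      norm_num
      linarith
    exact lt_of_pow_lt_pow_left₀ 2 (by norm_num) h4
  have sq_le : ∀ t : ℝ, 0 < |t| → 2 * Real.log |t| ≤ 1 / 2 → t ^ 2 < 17 / 10 := by
    intro t ht hl
    have h1 : t ^ 2 = Real.exp (2 * Real.log |t|) := by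
      rw [two_mul, Real.exp_add, Real.exp_log ht, ← sq, sq_abs]
    rw [h1]
    exact lt_of_le_of_lt (Real.exp_le_exp.2 hl) hexp
  have sq_le' : ∀ t : ℝ, 0 < |t| → Real.log |t| ≤ 0 → t ^ 2 ≤ 1 := by
    intro t ht hl
    have h1 : |t| ≤ 1 := by
      rw [← Real.exp_log ht]
      exact Real.exp_le_one_iff.2 hl
    rw [← sq_abs]
    nlinarith
  have hS : a ^ 2 + b ^ 2 < 3 := by
    rcases le_total 0 (Real.log |a|) with h | h
    · have h1 := sq_le a ha0 (by linarith)
      have h3 := sq_le' b hb0 (by linarith)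
      linarith
    · have h1 := sq_le' a ha0 h
      have h3 := sq_le b hb0 (by linarith)
      linarith
  have hab : a * b = 1 ∨ a * b = -1 := by
    have : |a * b| = 1 := by rw [abs_mul, hnorm]
    exact eq_or_eq_neg_of_abs_eq this
  have hab2 : (a * b) ^ 2 = 1 := by
    rcases hab with h | h <;> rw [h] <;> norm_num
  have hS2 : a ^ 2 + b ^ 2 = 2 := by
    have hT2 : ((T ^ 2 : ℤ) : ℝ) = a ^ 2 + b ^ 2 + 2 * (a * b) := by
      push_cast
      rw [hTR]
      ring
    have hge : 2 ≤ a ^ 2 + b ^ 2 := by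
      rcases hab with h | h
      · nlinarith [sq_nonneg (a - b)]
      · nlinarith [sq_nonneg (a + b)]
    rcases hab with h | h
    · rw [h] at hT2
      have h1 : (4 : ℤ) ≤ T ^ 2 := by
        have : (4 : ℝ) ≤ ((T ^ 2 : ℤ) : ℝ) := by linarith
        exact_mod_cast this
      have h3 : T ^ 2 < (5 : ℤ) := by
        have : ((T ^ 2 : ℤ) : ℝ) < 5 := by linarith
        exact_mod_cast this
      have h4 : T ^ 2 = 4 := by omega
      rw [h4] at hT2
      push_cast at hT2
      linarith
    · rw [h] at hT2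
      have h1 : (0 : ℤ) ≤ T ^ 2 := sq_nonneg T
      have h3 : T ^ 2 < (1 : ℤ) := by
        have : ((T ^ 2 : ℤ) : ℝ) < 1 := by linarith
        exact_mod_cast this
      have h4 : T ^ 2 = 0 := by omega
      rw [h4] at hT2
      push_cast at hT2
      linarith
  have ha2 : a ^ 2 = 1 := by
    have h1 : (a ^ 2 - 1) ^ 2 = 0 := by
      have h3 : b ^ 2 = 2 - a ^ 2 := by linarith
      have h4 : a ^ 2 * b ^ 2 = 1 := by rw [← mul_pow, hab2]
      rw [h3] at h4
      nlinarith
    have h5 : a ^ 2 - 1 = 0 := pow_eq_zero_iff (two_ne_zero) |>.1 h1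
    linarith
  have he2 : (e : K) ^ 2 = 1 := by
    apply σ.injective
    rw [map_pow, map_one]
    exact ha2
  have h0 : ((e : K) - 1) * ((e : K) + 1) = 0 := by
    have h1 : ((e : K) - 1) * ((e : K) + 1) = (e : K) ^ 2 - 1 := by ring
    rw [h1, he2, sub_self]
  rcases mul_eq_zero.1 h0 with h | h
  · left
    exact Units.ext (by rw [sub_eq_zero.1 h]; simp)
  · right
    exact Units.ext (by rw [eq_neg_of_add_eq_zero_left h]; simp)

theorem cnt_eq_of_span {x y : Kˣ}
    (h : FractionalIdeal.spanSingleton (𝓞 K)⁰ (x : K) =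
      FractionalIdeal.spanSingleton (𝓞 K)⁰ (y : K)) (v : HeightOneSpectrum (𝓞 K)) :
    cnt v x = cnt v y := by
  unfold cnt
  rw [h]

theorem neg_one_gen (σ τ : K →+* ℝ) {B n : ℝ} (hn : 0 ≤ n) : (-1 : Kˣ) ∈ Gen K σ τ B n := by
  refine ⟨⟨⊤, ⊤, ⟨0, ?_, ?_, ?_⟩, ⟨0, ?_, ?_, ?_⟩, ?_⟩, ?_⟩
  · intro P hP
    simp at hP
  · simpa using hn
  · rw [Multiset.prod_zero, Ideal.one_eq_top]
  · intro P hP
    simp at hP
  · simpa using hn
  · rw [Multiset.prod_zero, Ideal.one_eq_top]
  · rw [FractionalIdeal.coeIdeal_top, mul_one]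
    have h1 := span_eq_of_cnt (-1 : Kˣ) 1 fun v => by
      have h3 := cnt_mul v (-1 : Kˣ) (-1)
      rw [neg_mul_neg, mul_one, cnt_one] at h3
      rw [cnt_one]
      omega
    rw [h1, Units.val_one, FractionalIdeal.spanSingleton_one]
  · simp

/-- the relation given by Cramer's rule -/
noncomputable def eta {ι : Type} [Fintype ι] [DecidableEq ι] (A : Matrix ι ι ℤ) (x : ι → Kˣ)
    (g : Kˣ) (w : ι → ℤ) : Kˣ :=
  g ^ A.det * ∏ i, x i ^ (-(A.cramer w i))

theorem eta_cnt {ι : Type} [Fintype ι] [DecidableEq ι] (p : ι → HeightOneSpectrum (𝓞 K))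
    (x : ι → Kˣ) (g : Kˣ) (j : ι) :
    cnt (p j) (eta (Matrix.of fun j i => cnt (p j) (x i)) x g (fun j => cnt (p j) g)) = 0 := by
  unfold eta
  rw [cnt_mul, cnt_zpow, cnt_prod]
  have h1 := congrFun (Matrix.mulVec_cramer (Matrix.of fun j i => cnt (p j) (x i))
    (fun j => cnt (p j) g)) j
  rw [Pi.smul_apply, smul_eq_mul] at h1
  rw [← h1, Matrix.mulVec, dotProduct, ← Finset.sum_add_distrib]
  refine Finset.sum_eq_zero fun i _ => ?_
  rw [cnt_zpow, Matrix.of_apply]
  ring

theorem eta_rho {ι : Type} [Fintype ι] [DecidableEq ι] (σ τ : K →+* ℝ) (A : Matrix ι ι ℤ)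
    (x : ι → Kˣ) (g : Kˣ) (w : ι → ℤ) :
    rho σ τ (eta A x g w) = A.det * rho σ τ g - ∑ i, (A.cramer w i) * rho σ τ (x i) := by
  unfold eta
  rw [rho_mul, rho_zpow, rho_prod, sub_eq_add_neg, ← Finset.sum_neg_distrib]
  congr 1
  refine Finset.sum_congr rfl fun i _ => ?_
  rw [rho_zpow]
  push_cast
  ring

theorem det_bound {ι : Type} [Fintype ι] [DecidableEq ι] (A : Matrix ι ι ℤ) (M : ℕ)
    (h : ∀ i j, |A i j| ≤ M) : |A.det| ≤ ((Fintype.card ι).factorial * M ^ Fintype.card ι : ℕ) := by
  have h1 := Matrix.det_le (A := A) (abv := (AbsoluteValue.abs : AbsoluteValue ℤ ℤ)) (x := (M : ℤ)) h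
  rw [nsmul_eq_mul] at h1
  push_cast
  exact h1

theorem cramer_bound {ι : Type} [Fintype ι] [DecidableEq ι] (A : Matrix ι ι ℤ) (w : ι → ℤ) (M : ℕ)
    (h : ∀ i j, |A i j| ≤ M) (hw : ∀ i, |w i| ≤ M) (i : ι) :
    |A.cramer w i| ≤ ((Fintype.card ι).factorial * M ^ Fintype.card ι : ℕ) := by
  rw [Matrix.cramer_apply]
  apply det_bound
  intro a b
  rw [Matrix.updateCol_apply]
  split_ifs
  · exact hw a
  · exact h a b

/-- If `X` gives all the relations between the tiny primes, then few further small elements give all the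
`B`-units. -/
theorem few_units (h2 : Module.finrank ℚ K = 2) {σ τ : K →+* ℝ} (hne : σ ≠ τ) {B n : ℝ} (M : ℕ)
    (hn0 : 0 ≤ n) (hn : n ≤ M) (hgen : ∀ u ∈ SUnit K B, u ∈ Subgroup.closure (Gen K σ τ B n)) :
    ∃ X : Finset Kˣ, (X : Set Kˣ) ⊆ Gen K σ τ B n ∧
      X.card ≤ 2 * Nat.card (Tiny K B) + 2 +
        Nat.log 2 ((Nat.card (Tiny K B)).factorial * M ^ Nat.card (Tiny K B)) +
        Nat.log 2 (10 * (Nat.card (Tiny K B) + 1) *
          ((Nat.card (Tiny K B)).factorial * M ^ Nat.card (Tiny K B)) + 1) ∧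
      Subgroup.closure (X : Set Kˣ) = Subgroup.closure (Gen K σ τ B n) := by
  classical
  obtain ⟨X1, hX1G, hX1c, hX1⟩ := few_small M hn hgen
  have := finite_tiny (K := K) B
  have := Fintype.ofFinite (Tiny K B)
  obtain ⟨x, hxG, hxdet⟩ : ∃ x : Tiny K B → Kˣ, (∀ i, x i ∈ Gen K σ τ B n) ∧
      (Matrix.of fun (j : Tiny K B) i => cnt j.1 (x i)).det ≠ 0 := exists_indep hgen
  set A : Matrix (Tiny K B) (Tiny K B) ℤ := Matrix.of fun (j : Tiny K B) i => cnt j.1 (x i) with hA
  set F : ℕ := (Nat.card (Tiny K B)).factorial * M ^ Nat.card (Tiny K B) with hF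
  set U : Subgroup Kˣ := Subgroup.closure (Gen K σ τ B n) with hU
  have hcntM : ∀ g ∈ Gen K σ τ B n, ∀ v, |cnt v g| ≤ (M : ℤ) := by
    intro g hg v
    obtain ⟨⟨I, I', hI, hI', h⟩, -⟩ := hg
    obtain ⟨h1, h3, -⟩ := cnt_of_quot hI hI' h v
    have h4 : |((cnt v g : ℤ) : ℝ)| ≤ (M : ℝ) := abs_le.2 ⟨by linarith, by linarith⟩
    exact_mod_cast h4
  have hAM : ∀ i j, |A i j| ≤ (M : ℤ) := fun i j => hcntM _ (hxG j) i.1
  -- a unit in `U`
  have hunit : ∀ u ∈ U, (∀ j : Tiny K B, cnt j.1 u = 0) → ∀ v, cnt v u = 0 := by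
    intro u hu h v
    by_cases hv : ((Ideal.absNorm v.asIdeal : ℕ) : ℝ) ≤ B
    · exact h ⟨v, hv⟩
    · exact cnt_zero_of_closure hu v hv
  -- every element of `U` is a unit times an element of `⟨X1⟩`
  have hsplit : ∀ u ∈ U, ∃ y ∈ Subgroup.closure (X1 : Set Kˣ), ∀ v, cnt v (u * y⁻¹) = 0 := by
    intro u hu
    obtain ⟨y, hy, hyu⟩ := hX1 u hu
    refine ⟨y, hy, fun v => ?_⟩
    rw [cnt_mul, cnt_inv, cnt_eq_of_span hyu v]
    ring
  have hX1U : Subgroup.closure (X1 : Set Kˣ) ≤ U := Subgroup.closure_mono hX1G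
  by_cases hcase : ∃ g ∈ Gen K σ τ B n, rho σ τ (eta A x g (fun j => cnt j.1 g)) ≠ 0
  · obtain ⟨g, hg, hgr⟩ := hcase
    set η : Kˣ := eta A x g (fun j => cnt j.1 g) with hη
    set S : Finset Kˣ := X1 ∪ (Finset.univ.image x ∪ {g, -1}) with hS
    have hSG : (S : Set Kˣ) ⊆ Gen K σ τ B n := by
      intro z hz
      rw [hS, Finset.mem_coe, Finset.mem_union, Finset.mem_union] at hz
      rcases hz with hz | hz | hz
      · exact hX1G hz
      · rw [Finset.mem_image] at hz
        obtain ⟨i, -, rfl⟩ := hz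
        exact hxG i
      · rw [Finset.mem_insert, Finset.mem_singleton] at hz
        rcases hz with rfl | rfl
        · exact hg
        · exact neg_one_gen σ τ hn0
    set H : Subgroup Kˣ := Subgroup.closure (S : Set Kˣ) with hH
    have hHU : H ≤ U := Subgroup.closure_mono hSG
    have hX1H : Subgroup.closure (X1 : Set Kˣ) ≤ H := Subgroup.closure_mono (by
      intro z hz
      rw [hS, Finset.mem_coe, Finset.mem_union]
      exact Or.inl hz)
    have hneg : (-1 : Kˣ) ∈ H := Subgroup.subset_closure (by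
      rw [hS, Finset.mem_coe]
      simp)
    have hηH : η ∈ H := by
      rw [hη]
      unfold eta
      refine mul_mem (zpow_mem (Subgroup.subset_closure ?_) _)
        (prod_mem fun i _ => zpow_mem (Subgroup.subset_closure ?_) _)
      · rw [hS, Finset.mem_coe]
        simp
      · rw [hS, Finset.mem_coe]
        simp
    have hηcnt : ∀ v, cnt v η = 0 :=
      hunit η (hHU hηH) fun j => eta_cnt (fun j : Tiny K B => j.1) x g j
    -- size of `ρ η`
    have hηb : |rho σ τ η| ≤ 5 * (Nat.card (Tiny K B) + 1) * F := by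
      rw [hη, eta_rho]
      have hd : |((A.det : ℤ) : ℝ)| ≤ (F : ℝ) := by
        have := det_bound A M hAM
        rw [← Nat.card_eq_fintype_card] at this
        exact_mod_cast this
      have hc : ∀ i, |((A.cramer (fun j => cnt j.1 g) i : ℤ) : ℝ)| ≤ (F : ℝ) := by
        intro i
        have := cramer_bound A (fun j => cnt j.1 g) M hAM (fun j => hcntM g hg j.1) i
        rw [← Nat.card_eq_fintype_card] at this
        exact_mod_cast this
      refine (abs_sub _ _).trans ?_
      have h1 : |((A.det : ℤ) : ℝ) * rho σ τ g| ≤ F * 5 := by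
        rw [abs_mul]
        exact mul_le_mul hd (rho_gen hg) (abs_nonneg _) (Nat.cast_nonneg _)
      have h3 : |∑ i, ((A.cramer (fun j => cnt j.1 g) i : ℤ) : ℝ) * rho σ τ (x i)| ≤
          ∑ i : Tiny K B, (F : ℝ) * 5 := by
        refine (Finset.abs_sum_le_sum_abs _ _).trans (Finset.sum_le_sum fun i _ => ?_)
        rw [abs_mul]
        exact mul_le_mul (hc i) (rho_gen (hxG i)) (abs_nonneg _) (Nat.cast_nonneg _)
      rw [Finset.sum_const, Finset.card_univ, ← Nat.card_eq_fintype_card, nsmul_eq_mul] at h3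
      linarith
    -- the index of `H` in `U`
    have hidx : H.relIndex U ≠ 0 ∧
        H.relIndex U ≤ 10 * (Nat.card (Tiny K B) + 1) * F + 1 := by
      set R : ℝ := |rho σ τ η| with hR
      have hR0 : 0 < R := abs_pos.2 hgr
      -- representatives
      have hrep : ∀ q : U ⧸ H.subgroupOf U, ∃ e : Kˣ, ∃ he : e ∈ U,
          (QuotientGroup.mk (⟨e, he⟩ : U) : U ⧸ H.subgroupOf U) = q ∧ (∀ v, cnt v e = 0) ∧
          0 ≤ rho σ τ e ∧ rho σ τ e < R := by
        intro q
        obtain ⟨⟨u, hu⟩, rfl⟩ := QuotientGroup.mk_surjective q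
        obtain ⟨y, hy, hyc⟩ := hsplit u hu
        obtain ⟨η', hη'H, hη'c, hη'r⟩ : ∃ η' ∈ H, (∀ v, cnt v η' = 0) ∧ rho σ τ η' = R := by
          rcases abs_choice (rho σ τ η) with h | h
          · exact ⟨η, hηH, hηcnt, by rw [hR, h]⟩
          · exact ⟨η⁻¹, inv_mem hηH, fun v => by rw [cnt_inv, hηcnt, neg_zero],
              by rw [rho_inv, hR, h]⟩
        set m : ℤ := ⌊rho σ τ (u * y⁻¹) / R⌋ with hm
        set z : Kˣ := y⁻¹ * η' ^ (-m) with hz
        have hzH : z ∈ H := mul_mem (inv_mem (hX1H hy)) (zpow_mem hη'H _)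
        refine ⟨u * z, mul_mem hu (hHU hzH), ?_, ?_, ?_, ?_⟩
        · rw [QuotientGroup.eq]
          rw [Subgroup.mem_subgroupOf]
          simp only [Subgroup.coe_mul, Subgroup.coe_inv]
          have : (u * z)⁻¹ * u = z⁻¹ := by
            rw [mul_inv_rev, mul_assoc, inv_mul_cancel, mul_one]
          rw [this]
          exact inv_mem hzH
        · intro v
          rw [hz, ← mul_assoc, cnt_mul, hyc, cnt_zpow, hη'c]
          ring
        · rw [hz, ← mul_assoc, rho_mul, rho_zpow, hη'r]
          have h1 := Int.floor_le (rho σ τ (u * y⁻¹) / R)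
          rw [← hm, le_div_iff₀ hR0] at h1
          push_cast
          linarith
        · rw [hz, ← mul_assoc, rho_mul, rho_zpow, hη'r]
          have h1 := Int.lt_floor_add_one (rho σ τ (u * y⁻¹) / R)
          rw [← hm, div_lt_iff₀ hR0] at h1
          push_cast
          linarith
      choose e he heq hec he0 heR using hrep
      set k : ℕ := 10 * (Nat.card (Tiny K B) + 1) * F + 1 with hk
      have hflt : ∀ q, ⌊2 * rho σ τ (e q)⌋₊ < k := by
        intro q
        rw [Nat.floor_lt (by linarith [he0 q])]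
        have h1 := heR q
        rw [hk]
        push_cast
        linarith
      let f : U ⧸ H.subgroupOf U → Fin k := fun q => ⟨⌊2 * rho σ τ (e q)⌋₊, hflt q⟩
      have hf : Function.Injective f := by
        intro q q' hqq
        have h1 : ⌊2 * rho σ τ (e q)⌋₊ = ⌊2 * rho σ τ (e q')⌋₊ := congrArg Fin.val hqq
        have h3 := Nat.floor_le (show (0 : ℝ) ≤ 2 * rho σ τ (e q) by linarith [he0 q])
        have h4 := Nat.lt_floor_add_one (2 * rho σ τ (e q))
        have h5 := Nat.floor_le (show (0 : ℝ) ≤ 2 * rho σ τ (e q') by linarith [he0 q'])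
        have h6 := Nat.lt_floor_add_one (2 * rho σ τ (e q'))
        rw [h1] at h3 h4
        have h7 : |rho σ τ ((e q)⁻¹ * e q')| < 1 / 2 := by
          rw [rho_mul, rho_inv, abs_lt]
          constructor <;> linarith
        have h8 := unit_gap h2 σ τ hne (e := (e q)⁻¹ * e q')
          (fun v => by rw [cnt_mul, cnt_inv, hec, hec]; ring) h7
        rw [← heq q, ← heq q', QuotientGroup.eq, Subgroup.mem_subgroupOf]
        simp only [Subgroup.coe_mul, Subgroup.coe_inv]
        rcases h8 with h8 | h8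
        · rw [h8]
          exact one_mem _
        · rw [h8]
          exact hneg
      have hfin : Finite (U ⧸ H.subgroupOf U) := Finite.of_injective f hf
      have hcard : H.relIndex U = Nat.card (U ⧸ H.subgroupOf U) := rfl
      rw [hcard]
      refine ⟨Nat.card_pos.ne', ?_⟩
      have h1 := Nat.card_le_card_of_injective f hf
      rwa [Nat.card_fin] at h1
    obtain ⟨T, hTG, hTc, hTcard⟩ := chain_mul (Gen K σ τ B n) _ H hHU hidx.1 hidx.2
    refine ⟨S ∪ T, ?_, ?_, ?_⟩
    · rw [Finset.coe_union]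
      exact Set.union_subset hSG hTG
    · have h1 : S.card ≤ X1.card + (Nat.card (Tiny K B) + 2) := by
        rw [hS]
        refine (Finset.card_union_le _ _).trans (Nat.add_le_add_left ?_ _)
        refine (Finset.card_union_le _ _).trans (Nat.add_le_add ?_ (Finset.card_le_two))
        refine Finset.card_image_le.trans ?_
        rw [Finset.card_univ, Nat.card_eq_fintype_card]
      have h3 := Finset.card_union_le S T
      omega
    · rw [Finset.coe_union, Subgroup.closure_union]
      exact hTc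
  · push Not at hcase
    -- `ρ` vanishes on the units
    have hlin : ∀ u ∈ U, (A.det : ℝ) * rho σ τ u =
        ∑ i, ((A.cramer (fun j : Tiny K B => cnt j.1 u) i : ℤ) : ℝ) * rho σ τ (x i) := by
      intro u hu
      induction hu using Subgroup.closure_induction with
      | mem y hy =>
        have := hcase y hy
        rw [eta_rho] at this
        linarith
      | one =>
        have : (fun j : Tiny K B => cnt j.1 (1 : Kˣ)) = 0 := by
          ext j
          exact cnt_one _
        rw [this, rho_one, map_zero]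
        simp
      | mul y z _ _ hy hz =>
        have : (fun j : Tiny K B => cnt j.1 (y * z)) =
            (fun j : Tiny K B => cnt j.1 y) + (fun j : Tiny K B => cnt j.1 z) := by
          ext j
          exact cnt_mul _ _ _
        rw [this, rho_mul, mul_add, hy, hz, map_add, ← Finset.sum_add_distrib]
        refine Finset.sum_congr rfl fun i _ => ?_
        rw [Pi.add_apply]
        push_cast
        ring
      | inv y _ hy =>
        have : (fun j : Tiny K B => cnt j.1 y⁻¹) = - (fun j : Tiny K B => cnt j.1 y) := by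
          ext j
          exact cnt_inv _ _
        rw [this, rho_inv, mul_neg, hy, map_neg, ← Finset.sum_neg_distrib]
        refine Finset.sum_congr rfl fun i _ => ?_
        rw [Pi.neg_apply]
        push_cast
        ring
    refine ⟨insert (-1) X1, ?_, ?_, ?_⟩
    · rw [Finset.coe_insert]
      exact Set.insert_subset (neg_one_gen σ τ hn0) hX1G
    · have := Finset.card_insert_le (-1 : Kˣ) X1
      omega
    · apply le_antisymm
      · apply Subgroup.closure_mono
        rw [Finset.coe_insert]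
        exact Set.insert_subset (neg_one_gen σ τ hn0) hX1G
      · intro u hu
        obtain ⟨y, hy, hyc⟩ := hsplit u hu
        have hle : Subgroup.closure (X1 : Set Kˣ) ≤
            Subgroup.closure ((insert (-1) X1 : Finset Kˣ) : Set Kˣ) := by
          apply Subgroup.closure_mono
          rw [Finset.coe_insert]
          exact Set.subset_insert _ _
        have h1 := hlin _ (mul_mem hu (inv_mem (hX1U hy)))
        have h3 : (fun j : Tiny K B => cnt j.1 (u * y⁻¹)) = 0 := by
          ext j
          exact hyc _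
        rw [h3, map_zero] at h1
        have h4 : rho σ τ (u * y⁻¹) = 0 := by
          have h5 : ((A.det : ℤ) : ℝ) ≠ 0 := by exact_mod_cast hxdet
          have h6 : ((A.det : ℤ) : ℝ) * rho σ τ (u * y⁻¹) = 0 := by
            rw [h1]
            simp
          exact (mul_eq_zero.1 h6).resolve_left h5
        have h7 := unit_gap h2 σ τ hne hyc (by rw [h4]; norm_num)
        have h8 : u = (u * y⁻¹) * y := by rw [inv_mul_cancel_right]
        rw [h8]
        refine mul_mem ?_ (hle hy)
        rcases h7 with h7 | h7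
        · rw [h7]
          exact one_mem _
        · rw [h7]
          exact Subgroup.subset_closure (by rw [Finset.coe_insert]; exact Set.mem_insert _ _)

end Pool.Agent.V11318.SP
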